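import Pool.Agent.MP_7ebdba_gt.sm.p.NoCh

/-! Row ALG: the group theory of the twisted walls. -/

noncomputable section

namespace Pool.Agent.MP_7ebdba_gt.sm.p

namespace alg

open ge ge.W nc Monoid

section
variable {D D' : Type} [Group D] [Group D'] (f : D →* D') (v : D × D × D)

/-- the image of a triple -/
def mp3 : D' × D' × D' := (f v.1, f v.2.1, f v.2.2)

theorem step_mp3 : step (mp3 f v) = mp3 f (step v) := by simp [step, stepI, stepT, mp3]

theorem iter_mp3 (n : ℕ) : step^[n] (mp3 f v) = mp3 f (step^[n] v) := by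
  induction n generalizing v with
  | zero => rfl
  | succ n ih => rw [Function.iterate_succ_apply, step_mp3, ih, Function.iterate_succ_apply]

theorem kp_map (g h : D) : kp (f g) (f h) = f.comp (kp g h) :=
  FreeGroup.ext_hom _ _ fun i => by fin_cases i <;> simp [kp]

theorem rF_of (x : Fin 2 × Bool) : rF v (FreeGroup.of x) =
    if x.1 = 0 then kp v.1 v.2.2 (if x.2 then gb else ga)
    else kp v.2.1 v.2.2 (if x.2 then ga else gb) := FreeGroup.lift_apply_of

theorem rF_mp3 : rF (mp3 f v) = f.comp (rF v) :=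
  FreeGroup.ext_hom _ _ fun x => by
    rw [MonoidHom.comp_apply, rF_of, rF_of]
    simp only [mp3, kp_map, MonoidHom.comp_apply]
    split_ifs <;> rfl

theorem rel2_map {g h : D} (H : Rel2 g h) : Rel2 (f g) (f h) :=
  ⟨by rw [← map_pow, H.1, map_one], by rw [← map_inv, ← map_mul, ← map_pow, H.2, map_one]⟩

theorem rel_mp3 (H : Rel v) : Rel (mp3 f v) := ⟨rel2_map f H.1, rel2_map f H.2⟩

theorem rF_fold (g h : D) : rF (g, g, h) = (kp g h).comp (r0.comp (mk 2)) :=
  FreeGroup.ext_hom _ _ fun x => by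
    have h1 : r0 (mk 2 (FreeGroup.of x)) = FreeGroup.of (if x.2 then Fin.rev x.1 else x.1) :=
      FreeGroup.lift_apply_of
    rw [MonoidHom.comp_apply, MonoidHom.comp_apply, h1, rF_of]
    obtain ⟨i, b⟩ := x
    fin_cases i <;> cases b <;> rfl

theorem glueF_comp (f0 f1 : F 2 →* D) : f.comp (glueF f0 f1) = glueF (f.comp f0) (f.comp f1) :=
  FreeGroup.ext_hom _ _ fun x => by
    simp only [glueF, MonoidHom.comp_apply, FreeGroup.lift_apply_of]
    split_ifs <;> rfl

end

/-! ### The universal triple in the orbifold group -/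

def vh : G × G × G := (evG [2, 1, 0], evG [1, 2, 0], evG [1, 0])

theorem rel_vh : Rel vh := by
  refine ⟨⟨?_, ?_⟩, ?_, ?_⟩ <;>
  · simp only [vh, pow_succ, pow_zero, one_mul, ← evG_reverse, ← evG_append]
    exact eqG (v := []) (by decide +kernel)

theorem rF_vh : rF vh = iota.comp (mk 2) :=
  FreeGroup.ext_hom _ _ fun x => by
    refine Eq.trans ?_ (iotaF_of x).symm
    rw [rF_of]
    obtain ⟨i, b⟩ := x
    fin_cases i <;> cases b <;>
    · simp only [vh, kp, ga, gb, Fin.zero_eta, Fin.mk_one, one_ne_zero, Bool.false_eq_true,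
        if_true, if_false, FreeGroup.lift_apply_of, Matrix.cons_val_zero, Matrix.cons_val_one,
        ← evG_reverse, ← evG_append]
      exact eqG (by decide +kernel)

/-- the endomorphism that realises one step -/
def En : G →* G := (MulAut.conj (evG [2, 1, 2, 1])).toMonoidHom.comp (th.comp (th.comp t2))

theorem En_evG (w : List (Fin 3)) : En (evG w) = evG ([2, 1, 2, 1] ++
    (((w.flatMap ![[1], [1, 0, 1], [1, 0, 2, 0, 1]]).flatMap ![[1, 2, 0, 2, 1], [1], [2]]).flatMap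
      ![[1, 2, 0, 2, 1], [1], [2]]) ++ [2, 1, 2, 1].reverse) := by
  rw [evG_append, evG_append, evG_reverse, ← map_evG th _ th_gen, ← map_evG th _ th_gen,
    ← map_evG t2 _ t2_gen]
  rfl

theorem step_vh : step vh = mp3 En vh := by
  refine Prod.ext ?_ (Prod.ext ?_ ?_) <;>
  · simp only [vh, step, stepI, stepT, mp3, En_evG, ← evG_reverse, ← evG_append]
    exact eqG (by decide +kernel)

theorem En_iota : ∃ e, ∀ y, En (iota y) = e * iota (fi y) * e⁻¹ :=
  ⟨evG [2, 1, 2, 1] * (wT * th wT)⁻¹, fun y => by simp [iota_fi, En, Fm, mul_assoc]⟩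

theorem iter_vh (n : ℕ) : ∃ (E : G →* G) (d : G), step^[n] vh = mp3 E vh ∧
    ∀ y, E (iota y) = d * iota ((fi ^ n) y) * d⁻¹ := by
  induction n with
  | zero => exact ⟨MonoidHom.id _, 1, rfl, fun y => by simp⟩
  | succ n ih =>
    obtain ⟨E, d, a, b⟩ := ih
    obtain ⟨e, he⟩ := En_iota
    refine ⟨En.comp E, En d * e, ?_, fun y => ?_⟩
    · rw [Function.iterate_succ_apply, step_vh, iter_mp3, a]
      rfl
    · rw [MonoidHom.comp_apply, b, map_mul, map_mul, he, map_inv, pow_succ', MulAut.mul_apply]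
      group

/-! ### A permutation representation -/

abbrev PP : Type := Coprod F2 F2
abbrev II : Type := Equiv.Perm (Fin 3) × Bool
abbrev XX : Type := II × II × PP
abbrev DD : Type := Equiv.Perm XX

/-- the Schreier cocycle -/
def kc (s : Equiv.Perm (Fin 3)) : PP := Coprod.inl (![1, gb * ga⁻¹, gb] (s⁻¹ 0))

def sL (s : Equiv.Perm (Fin 3)) : DD :=
  Equiv.prodCongr (Equiv.prodCongr (Equiv.mulLeft s) (Equiv.refl _)) (Equiv.refl _)

theorem sL_app (s t : Equiv.Perm (Fin 3)) (j : Bool) (z : II × PP) :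
    sL s ((t, j), z) = ((s * t, j), z) := rfl

def nF (x : XX) : XX :=
  ((x.1.1, !x.1.2), x.2.1, (if x.1.2 then (kc x.1.1)⁻¹ else kc x.1.1) * x.2.2)

theorem nF_inv : Function.Involutive nF := by
  rintro ⟨⟨t, j⟩, i, x⟩
  cases j <;> simp [nF]

def sN : DD := nF_inv.toPerm

theorem sN_app (t : Equiv.Perm (Fin 3)) (j : Bool) (i : II) (x : PP) :
    sN ((t, j), i, x) = ((t, !j), i, (if j then (kc t)⁻¹ else kc t) * x) := rfl

def s0 : Equiv.Perm (Fin 3) := Equiv.swap 0 1
def t0 : Equiv.Perm (Fin 3) := Equiv.swap 1 2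

theorem sL_mul (s t : Equiv.Perm (Fin 3)) : sL s * sL t = sL (s * t) :=
  Equiv.ext fun ⟨⟨u, j⟩, z⟩ => by simp [sL_app, mul_assoc]

theorem sL_one : sL 1 = 1 := Equiv.ext fun ⟨⟨u, j⟩, z⟩ => by simp [sL_app]

theorem sN_sq : sN * sN = 1 := Equiv.ext nF_inv

theorem sN_comm : sN * sL t0 = sL t0 * sN := Equiv.ext fun ⟨⟨u, j⟩, i, x⟩ => by
  have : kc (t0 * u) = kc u := by
    rw [kc, kc, mul_inv_rev, Equiv.Perm.mul_apply, show t0⁻¹ 0 = 0 by decide]
  simp [sL_app, sN_app, this]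

/-- the folding map -/
def fo : G →* DD :=
  lift (sL s0) (sL t0 * sN) sN (by rw [sL_mul, show s0 * s0 = 1 by decide, sL_one])
    (by
      rw [mul_assoc, ← mul_assoc sN, sN_comm, mul_assoc, sN_sq, mul_one, sL_mul,
        show t0 * t0 = 1 by decide, sL_one])
    sN_sq
    (by
      rw [mul_assoc, mul_assoc, sN_sq, mul_one, sL_mul, pow_succ, sq, sL_mul, sL_mul,
        show s0 * t0 * (s0 * t0) * (s0 * t0) = 1 by decide, sL_one])

def gD : DD := sL (t0 * s0)
def hD : DD := sN * sL (t0 * s0)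

theorem fo_vh : mp3 fo vh = (gD, gD, hD) := by
  have a : ∀ x, sN * (sN * x) = x := fun x => by rw [← mul_assoc, sN_sq, one_mul]
  have b : ∀ x, sL t0 * (sN * x) = sN * (sL t0 * x) := fun x => by
    rw [← mul_assoc, ← sN_comm, mul_assoc]
  refine Prod.ext ?_ (Prod.ext ?_ ?_) <;>
    simp [mp3, vh, evG, fo, gD, hD, ← sL_mul, mul_assoc, a, b]

/-- the base point -/
def bp : II := (1, false)

/-- `γ` acts on the base fibre as left multiplication by `p` -/
def Act (γ : DD) (p : PP) : Prop := ∀ x, γ (bp, bp, x) = (bp, bp, p * x)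

theorem act_hom {α : Type} (Γ : FreeGroup α →* DD) (p : FreeGroup α →* PP)
    (h : ∀ a, Act (Γ (FreeGroup.of a)) (p (FreeGroup.of a))) (w : FreeGroup α) :
    Act (Γ w) (p w) := by
  induction w using FreeGroup.induction_on with
  | C1 => intro x; simp
  | of a => exact h a
  | inv_of a _ =>
    intro x
    rw [map_inv, map_inv, Equiv.Perm.inv_eq_iff_eq, h a, mul_inv_cancel_left]
  | mul a b ha hb =>
    intro x
    rw [map_mul, map_mul, Equiv.Perm.mul_apply, hb, ha, mul_assoc]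

theorem gD_inv : gD⁻¹ = sL (s0 * t0) := by
  rw [inv_eq_iff_mul_eq_one, gD, sL_mul, show t0 * s0 * (s0 * t0) = 1 by decide, sL_one]

theorem hD_inv : hD⁻¹ = sL (s0 * t0) * sN := by
  rw [hD, mul_inv_rev, ← gD_inv, inv_eq_of_mul_eq_one_right sN_sq, gD]

theorem act_kp (w : F2) : Act (kp gD hD w) (Coprod.inl w) := by
  refine act_hom (kp gD hD) Coprod.inl (fun a x => ?_) w
  have k0 : kc 1 = 1 := map_one Coprod.inl
  have k1 : kc (s0 * t0) = Coprod.inl gb := congrArg Coprod.inl rfl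
  have k2 : kc (t0 * s0) = Coprod.inl (gb * ga⁻¹) := congrArg Coprod.inl rfl
  have e1 : s0 * t0 * (s0 * t0) = t0 * s0 := by decide
  have e2 : t0 * s0 * (t0 * s0 * (t0 * s0)) = 1 := by decide
  have e4 : t0 * s0 * (s0 * t0) = 1 := by decide
  have e3 : s0 * t0 * (t0 * s0) = 1 := by decide
  fin_cases a
  · have : kp gD hD (FreeGroup.of 0) = hD⁻¹ * hD⁻¹ * gD⁻¹ := FreeGroup.lift_apply_of
    refine (DFunLike.congr_fun this _).trans ?_
    rw [hD_inv, gD_inv]
    simp [bp, sL_app, sN_app, k1, k2, e1, e3, mul_assoc, ga]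
  · have : kp gD hD (FreeGroup.of 1) = gD * hD⁻¹ * gD * gD * hD⁻¹ * gD⁻¹ := FreeGroup.lift_apply_of
    refine (DFunLike.congr_fun this _).trans ?_
    rw [hD_inv, gD_inv, gD]
    simp [bp, sL_app, sN_app, k0, k1, e1, e2, e4, gb]

/-- the exchange of the two factors -/
def sw : DD where
  toFun x := (x.2.1, x.1, Coprod.swap _ _ x.2.2)
  invFun x := (x.2.1, x.1, Coprod.swap _ _ x.2.2)
  left_inv x := by simp
  right_inv x := by simp

theorem act_sw {γ : DD} {p : PP} (h : Act γ p) : Act (sw * γ * sw⁻¹) (Coprod.swap _ _ p) :=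
  fun x => by
    have : sw⁻¹ (bp, bp, x) = (bp, bp, Coprod.swap _ _ x) := rfl
    rw [Equiv.Perm.mul_apply, Equiv.Perm.mul_apply, this, h]
    simp [sw]


theorem dbl_mk (r : S 2 →* F2) (w : F 4) : dbl r (mk 4 w) =
    glueF (Coprod.inl.comp (r.comp (mk 2))) (Coprod.inr.comp (r.comp (mk 2))) w := rfl

theorem detect {v : DD × DD × DD} {r : S 2 →* F2} {d : DD}
    (h : ∀ y, rF v y = d * kp gD hD (r (mk 2 y)) * d⁻¹) (w : F 4) (hw : dF v w = 1) :
    dbl r (mk 4 w) = 1 := by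
  let c : DD →* DD := (MulAut.conj d⁻¹).toMonoidHom
  let Ψ : Coprod DD DD →* DD := Coprod.lift c ((MulAut.conj sw).toMonoidHom.comp c)
  have e1 : ∀ y, c (rF v y) = kp gD hD (r (mk 2 y)) := fun y => by simp [c, h, mul_assoc]
  have key := act_hom (Ψ.comp (dF v))
    (glueF (Coprod.inl.comp (r.comp (mk 2))) (Coprod.inr.comp (r.comp (mk 2)))) (fun x => ?_) w 1
  · rw [MonoidHom.comp_apply, hw, map_one, mul_one, Equiv.Perm.one_apply] at key
    rw [dbl_mk]
    exact (Prod.ext_iff.1 (Prod.ext_iff.1 key).2).2.symm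
  · rw [dF, glueF_comp]
    simp only [glueF, FreeGroup.lift_apply_of]
    split_ifs
    · simp only [MonoidHom.comp_apply, Ψ, Coprod.lift_apply_inl, e1]
      exact act_kp _
    · simp only [MonoidHom.comp_apply, Ψ, Coprod.lift_apply_inr, e1]
      exact act_sw (act_kp _)

theorem main (n : ℕ) : Rel (step^[n] (gD, gD, hD)) ∧ ∀ w, dF (step^[n] (gD, gD, hD)) w = 1 →
    dbl (r0.comp (fi ^ n : MulAut (S 2)).toMonoidHom) (mk 4 w) = 1 := by
  obtain ⟨E, d, a, b⟩ := iter_vh n
  have e : step^[n] (gD, gD, hD) = mp3 (fo.comp E) vh := by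
    rw [← fo_vh, iter_mp3, a]
    rfl
  have e0 : ∀ y, fo (iota y) = kp gD hD (r0 y) := fun y => by
    obtain ⟨y, rfl⟩ := mk_surjective 2 y
    have := DFunLike.congr_fun (rF_mp3 fo vh) y
    rw [fo_vh, rF_fold, rF_vh] at this
    exact this.symm
  rw [e]
  refine ⟨rel_mp3 _ _ rel_vh, detect (d := fo d) fun y => ?_⟩
  rw [rF_mp3, rF_vh]
  simp [b, e0]

theorem alg_of (n : ℕ) (h : ¬ ch.Chain (r0.comp (fi ^ n : MulAut (S 2)).toMonoidHom)) : AlgStmt :=
  ⟨DD, inferInstance, gD, hD, n, _, (main 0).1.1, (main n).1, h, (main n).2⟩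

end alg

theorem alg : AlgStmt := alg.alg_of 46 nc.no_chain

end Pool.Agent.MP_7ebdba_gt.sm.p
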