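import Mathlib.Analysis.Complex.Convex
import Mathlib.Analysis.Complex.SqrtDeriv
import Mathlib.RingTheory.RootsOfUnity.Complex
import Pool.Agent.MP_7ebdba_gt.ch.Main
import Pool.Agent.MP_e1dc65_gt.k.Hol
import Pool.Agent.MP_e1dc65_gt.k.CechA
import Pool.Agent.MP_e1dc65_gt.k.Std
import Pool.Agent.MP_7ebdba_gt.ge.Deep
import Pool.Agent.MP_7ebdba_gt.ge.Words

-- ======== part 0: formerly Pool.Agent.MP_7ebdba_gt.sm.p.PageA
section MrgPart0

-- ======== part 0: formerly Pool.Agent.MP_7ebdba_gt.sm.Prf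
section MrgPart0

/-! Smooth form: the profile functions exist. -/

open scoped ContDiff Topology
open Set Filter

noncomputable section

namespace Pool.Agent.MP_7ebdba_gt.sm.Prf

/-- a smooth step from `0` on `(-∞, a]` to `1` on `[b, ∞)` -/
def st (a b x : ℝ) : ℝ := Real.smoothTransition ((x - a) / (b - a))

variable {a b x : ℝ}

theorem st_sm : ContDiff ℝ ∞ (st a b) :=
  Real.smoothTransition.contDiff.comp ((contDiff_id.sub contDiff_const).div_const _)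

theorem st_lo (h : a < b) (hx : x ≤ a) : st a b x = 0 :=
  Real.smoothTransition.zero_of_nonpos (div_nonpos_of_nonpos_of_nonneg (by linarith) (by linarith))

theorem st_hi (h : a < b) (hx : b ≤ x) : st a b x = 1 :=
  Real.smoothTransition.one_of_one_le ((one_le_div (by linarith)).2 (by linarith))

theorem st_mem (a b x : ℝ) : 0 ≤ st a b x ∧ st a b x ≤ 1 :=
  ⟨Real.smoothTransition.nonneg _, Real.smoothTransition.le_one _⟩

theorem st_der (h : a < b) (x : ℝ) : 0 ≤ deriv (st a b) x :=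
  Monotone.deriv_nonneg fun _ _ e =>
    Real.smoothTransition.monotone (div_le_div_of_nonneg_right (by linarith) (by linarith))

/-- blending two functions -/
theorem blend (h : a < b) {f g : ℝ → ℝ} (hf : ∀ x ≤ b, ContDiffAt ℝ ∞ f x)
    (hg : ∀ x ≥ a, ContDiffAt ℝ ∞ g x) : ∃ F : ℝ → ℝ, ContDiff ℝ ∞ F ∧ (∀ x ≤ a, F x = f x) ∧
      (∀ x ≥ b, F x = g x) ∧ (∀ x, F x = (1 - st a b x) * f x + st a b x * g x) ∧
      ∀ c : ℝ, (∀ x ≤ b, 0 ≤ c * deriv f x) → (∀ x ≥ a, 0 ≤ c * deriv g x) →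
        (∀ x ∈ Icc a b, c * f x ≤ c * g x) → ∀ x, 0 ≤ c * deriv F x ∧
          ((x ≤ b → deriv f x ≠ 0) → (a ≤ x → deriv g x ≠ 0) → c ≠ 0 → 0 < c * deriv F x) := by
  have lo : ∀ x < a, (fun x => (1 - st a b x) * f x + st a b x * g x) =ᶠ[𝓝 x] f := fun x hx =>
    (eventually_lt_nhds hx).mono fun y hy => by simp [st_lo h hy.le]
  have hi : ∀ x > b, (fun x => (1 - st a b x) * f x + st a b x * g x) =ᶠ[𝓝 x] g := fun x hx =>
    (eventually_gt_nhds hx).mono fun y hy => by simp [st_hi h hy.le]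
  refine ⟨fun x => (1 - st a b x) * f x + st a b x * g x, contDiff_iff_contDiffAt.2 fun x => ?_,
    fun x hx => by simp [st_lo h hx], fun x hx => by simp [st_hi h hx], fun _ => rfl,
    fun c h1 h2 h3 x => ?_⟩
  · rcases lt_or_ge x a with c | c
    · exact (hf x (by linarith)).congr_of_eventuallyEq (lo x c)
    rcases lt_or_ge b x with d | d
    · exact (hg x c).congr_of_eventuallyEq (hi x d)
    exact ((contDiffAt_const.sub st_sm.contDiffAt).mul (hf x d)).add (st_sm.contDiffAt.mul (hg x c))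
  rcases lt_or_ge x a with e | e
  · rw [(lo x e).deriv_eq]
    have := h1 x (by linarith)
    exact ⟨this, fun p _ r => this.lt_of_ne' (mul_ne_zero r (p (by linarith)))⟩
  rcases lt_or_ge b x with d | d
  · rw [(hi x d).deriv_eq]
    exact ⟨h2 x e, fun _ q r => (h2 x e).lt_of_ne' (mul_ne_zero r (q e))⟩
  have s := (cd1 (st_sm (a := a) (b := b)).contDiffAt (x := x)).hasDerivAt
  rw [(((s.const_sub 1).fun_mul (cd1 (hf x d)).hasDerivAt).fun_add
    (s.fun_mul (cd1 (hg x e)).hasDerivAt)).deriv]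
  obtain ⟨m0, m1⟩ := st_mem a b x
  have n0 := mul_nonneg (st_der h x) (sub_nonneg.2 (h3 x ⟨e, d⟩))
  refine ⟨by nlinarith [mul_nonneg (sub_nonneg.2 m1) (h1 x d), mul_nonneg m0 (h2 x e)],
    fun p q r => ?_⟩
  have p' := (h1 x d).lt_of_ne' (mul_ne_zero r (p d))
  have q' := (h2 x e).lt_of_ne' (mul_ne_zero r (q e))
  rcases m0.eq_or_lt with m | m
  · rw [← m]
    nlinarith
  · nlinarith [mul_nonneg (sub_nonneg.2 m1) (h1 x d), mul_pos m q']

theorem exF : ∃ F : ℝ → ℝ, ContDiff ℝ ∞ F ∧ (∀ X ≤ 3, F X = X) ∧ (∀ X ≥ 4, F X = 6 - (X ^ 3)⁻¹) ∧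
    ∀ X, 0 < deriv F X := by
  have d : ∀ x ≥ (3 : ℝ), 0 < deriv (fun x : ℝ => 6 - (x ^ 3)⁻¹) x := fun x hx => by
    have : 0 < x := by linarith
    rw [(((hasDerivAt_pow 3 x).fun_inv (by positivity)).const_sub 6).deriv, neg_div, neg_neg]
    positivity
  obtain ⟨F, h1, h2, h3, -, h4⟩ := blend (a := 3) (b := 4) (f := fun x => x)
    (g := fun x => 6 - (x ^ 3)⁻¹) (by norm_num) (fun _ _ => contDiffAt_id) fun x hx =>
      contDiffAt_const.sub ((contDiffAt_id.pow 3).inv (by have : 0 < x := by linarith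
                                                          positivity))
  refine ⟨F, h1, h2, h3, fun x => ?_⟩
  simpa using (h4 1 (by simp) (fun x hx => by simpa using (d x hx).le) (fun x hx => by
    have : (x ^ 3)⁻¹ ≤ 1 := inv_le_one_of_one_le₀ (one_le_pow₀ (by linarith [hx.1]))
    linarith [hx.2]) x).2 (by simp) (fun hx => (d x hx).ne') one_ne_zero

theorem exB : ∃ β : ℝ → ℝ, ContDiff ℝ ∞ β ∧ (∀ X ≤ 3, β X = 1) ∧ (∀ X ≥ 4, β X = (√X ^ 3)⁻¹) ∧
    (∀ X, 0 < β X) ∧ ∀ X, deriv β X ≤ 0 := by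
  have p : ∀ x ≥ (3 : ℝ), 0 < √x := fun x hx => Real.sqrt_pos.2 (by linarith)
  obtain ⟨F, h1, h2, h3, h5, h4⟩ := blend (a := 3) (b := 4) (f := fun _ => 1)
    (g := fun x => (√x ^ 3)⁻¹) (by norm_num) (fun _ _ => contDiffAt_const) fun x hx =>
      ((contDiffAt_id.sqrt (by linarith : x ≠ 0)).pow 3).inv (pow_pos (p x hx) 3).ne'
  refine ⟨F, h1, h2, h3, fun x => ?_, fun x => ?_⟩
  · rcases le_or_gt x 3 with c | c
    · simp [h2 x c]
    obtain ⟨m0, m1⟩ := st_mem 3 4 x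
    have := inv_pos.2 (pow_pos (p x c.le) 3)
    rw [h5]
    rcases m0.eq_or_lt with m | m
    · simp [← m]
    · nlinarith [mul_pos m this]
  · simpa using (h4 (-1) (by simp) (fun x hx => by
      have := p x hx
      rw [(((Real.hasDerivAt_sqrt (by linarith : x ≠ 0)).fun_pow 3).fun_inv (by positivity)).deriv,
        neg_div, neg_mul_neg]
      positivity) (fun x hx => by
      have : (√x ^ 3)⁻¹ ≤ 1 :=
        inv_le_one_of_one_le₀ (one_le_pow₀ (Real.one_le_sqrt.2 (by linarith [hx.1])))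
      linarith) x).1

theorem exK : ∃ k : ℝ → ℝ, ContDiff ℝ ∞ k ∧ (∀ σ ≤ 8 / 9, k σ = σ / (1 - σ)) ∧
    ∀ σ, 0 < deriv k σ := by
  have d : ∀ x ≤ (9 / 10 : ℝ), 0 < deriv (fun x : ℝ => x / (1 - x)) x := fun x hx => by
    have : 0 < 1 - x := by linarith
    rw [((hasDerivAt_id' x).fun_div ((hasDerivAt_id' x).const_sub 1) this.ne').deriv]
    exact div_pos (by linarith) (by positivity)
  obtain ⟨F, h1, h2, -, -, h4⟩ := blend (a := 8 / 9) (b := 9 / 10) (f := fun x => x / (1 - x))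
    (g := fun x => x + 9) (by norm_num) (fun x hx => contDiffAt_id.div
      (contDiffAt_const.sub contDiffAt_id) (by linarith : 1 - x ≠ 0))
      fun _ _ => contDiffAt_id.add contDiffAt_const
  refine ⟨F, h1, h2, fun x => ?_⟩
  simpa using (h4 1 (fun x hx => by simpa using (d x hx).le) (by simp) (fun x hx => by
    rw [one_mul, one_mul, div_le_iff₀ (by linarith [hx.2])]
    nlinarith [hx.1, hx.2]) x).2 (fun hx => (d x hx).ne') (by simp) one_ne_zero

theorem der_sub (a b x : ℝ) : deriv (fun x => 1 - st a b x) x = -deriv (st a b) x :=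
  deriv_const_sub 1

theorem exE (h : a < b) : ∃ C > 0, ∀ x, deriv (st a b) x < C := by
  obtain ⟨C, hC⟩ := (isCompact_Icc (a := a) (b := b)).bddAbove_image
    ((st_sm (a := a) (b := b)).continuous_deriv (by simp)).continuousOn
  refine ⟨|C| + 1, by positivity, fun x => ?_⟩
  rcases lt_or_ge x a with e | e
  · have : st a b =ᶠ[𝓝 x] fun _ => 0 := (eventually_lt_nhds e).mono fun y hy => st_lo h hy.le
    rw [this.deriv_eq, deriv_const]
    positivity
  rcases lt_or_ge b x with d | d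
  · have : st a b =ᶠ[𝓝 x] fun _ => 1 := (eventually_gt_nhds d).mono fun y hy => st_hi h hy.le
    rw [this.deriv_eq, deriv_const]
    positivity
  linarith [hC ⟨x, ⟨e, d⟩, rfl⟩, le_abs_self C]

theorem prof : ProfStmt := by
  obtain ⟨F, f1, f2, f3, f4⟩ := exF
  obtain ⟨β, b1, b2, b3, b4, b5⟩ := exB
  obtain ⟨k, k1, k2, k3⟩ := exK
  have c1 : (1 / 125 : ℝ) < 1 / 100 := by norm_num
  have c2 : (8 / 9 : ℝ) < 9 / 10 := by norm_num
  obtain ⟨C, h0, hC⟩ := exE c1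
  have mem : ∀ a b x, 0 ≤ 1 - st a b x ∧ 1 - st a b x ≤ 1 := fun a b x =>
    ⟨by linarith [(st_mem a b x).2], by linarith [(st_mem a b x).1]⟩
  exact ⟨⟨F, fun x => 1 - st (1 / 125) (1 / 100) x, β, fun x => 1 - st (8 / 9) (9 / 10) x,
    fun x => k x + 7 * st (8 / 9) (9 / 10) x, (C + 126)⁻¹, f1, f2, f3, f4,
    contDiff_const.sub st_sm, fun x hx => by rw [st_lo c1 hx, sub_zero],
    fun x hx => by rw [st_hi c1 hx, sub_self], mem _ _, by positivity,
    by rw [one_div]; exact inv_strictAnti₀ (by norm_num) (by linarith),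
    fun x => by
      rw [der_sub, abs_neg, abs_of_nonneg (st_der c1 x), inv_mul_lt_one₀ (by positivity)]
      linarith [hC x],
    b1, b2, b3, b4, b5, contDiff_const.sub st_sm, fun x hx => by rw [st_lo c2 hx, sub_zero],
    fun x hx => by rw [st_hi c2 hx, sub_self], mem _ _, k1.add (contDiff_const.mul st_sm),
    fun x hx => by rw [st_lo c2 hx, k2 x hx, mul_zero, add_zero],
    fun x => by
      rw [der_sub, abs_neg, abs_of_nonneg (st_der c2 x), ((cd1 k1.contDiffAt).hasDerivAt.fun_add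
        ((cd1 st_sm.contDiffAt).hasDerivAt.const_mul 7)).deriv]
      linarith [k3 x]⟩⟩

end Pool.Agent.MP_7ebdba_gt.sm.Prf

end
end MrgPart0

-- ======== part 1: formerly Pool.Agent.MP_7ebdba_gt.sm.n.Spec
section MrgPart1

/-! Block NEG: statements of the rows. -/

open Set

namespace Pool.Agent.MP_7ebdba_gt.sm.n

open MP_e1dc65_gt

/-- a wall -/
abbrev wall (X : Fin 3 → Set S4) (j : Fin 3) : Set S4 := X j ∩ X (j + 1)

/-- One side of a connected sum: `f` embeds the sphere minus `p`, the target `V` of the other side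
meets it in the image of `B ∖ {p}`, and `c` collapses `V` into `B` and inverts `f` off `B'`. -/
structure Side (X Z : Fin 3 → Set S4) (f : OpenPartialHomeomorph S4 S4) (V : Set S4) (p : S4)
    (B B' : Set S4) (c : S4 → S4) : Prop where
  src : f.source = {p}ᶜ
  oB : IsOpen B
  cB : IsClosed B'
  pB : p ∈ B'
  sub : B' ⊆ B
  mem : ∀ i x, x ≠ p → (f x ∈ Z i ↔ x ∈ X i)
  ovl : ∀ x, x ≠ p → (f x ∈ V ↔ x ∈ B)
  cont : Continuous c
  cmem : ∀ i, ∀ z ∈ Z i, c z ∈ X i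
  inv : ∀ x, x ∉ B' → c (f x) = x
  col : ∀ z ∈ V, c z ∈ B

/-- row SIDE: the two collapse maps of a connected sum; the walls meet the neck in simply
connected sets -/
def SideStmt : Prop :=
  ∀ X Y Z, ConnSum X Y Z → ∃ (f h : OpenPartialHomeomorph S4 S4) (p q : S4) (B B' C C' : Set S4)
    (c d : S4 → S4), f.target ∪ h.target = univ ∧ Side X Z f h.target p B B' c ∧
    Side Y Z h f.target q C C' d ∧ ∀ j, SC (wall Z j ∩ (f.target ∩ h.target))

/-- row TORUS: loops in the core of the genus one trisection commute -/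
def TorusStmt : Prop :=
  ∀ (K : Type) [Group K] (τ : ∀ x y : S4, Path x y → K), Hol (core genusOne) τ →
    ∀ (x : S4) (γ δ : Path x x), In γ (core genusOne) → In δ (core genusOne) →
      Commute (τ x x γ) (τ x x δ)

/-- row ZERO: the walls of the genus zero trisection carry no holonomy -/
def ZeroStmt : Prop :=
  ∀ (j : Fin 3) (K : Type) [Group K] (ρ : ∀ x y : S4, Path x y → K), Hol (wall genusZero j) ρ →
    Triv ρ (wall genusZero j)

/-- gluing of two holonomies -/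
def GlueStmt : Prop :=
  ∀ (K : Type) [Group K] (T U V : Set S4) (τ μ : ∀ x y : S4, Path x y → K), IsOpen U → IsOpen V →
    T ⊆ U ∪ V → Hol (T ∩ U) τ → Hol (T ∩ V) μ →
    (∀ x y γ, In γ (T ∩ U ∩ V) → τ x y γ = μ x y γ) →
    ∃ ν : ∀ x y : S4, Path x y → K, Hol T ν ∧ (∀ x y γ, In γ (T ∩ U) → ν x y γ = τ x y γ) ∧
      ∀ x y γ, In γ (T ∩ V) → ν x y γ = μ x y γ

end Pool.Agent.MP_7ebdba_gt.sm.n

end MrgPart1

-- ======== part 2: formerly Pool.Agent.MP_7ebdba_gt.sm.n.Glue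
section MrgPart2

/-! Holonomies on the members of an open cover that agree on the overlaps glue. -/

open Set Filter
open scoped Topology unitInterval

namespace Pool.Agent.MP_7ebdba_gt.sm.n

open MP_e1dc65_gt

variable {X G ι : Type} [TopologicalSpace X] [Group G] {T : Set X} {U : ι → Set X}
  {τ : ι → ∀ x y : X, Path x y → G}

/-- `u` is a development of the holonomies `τ i` along `F` -/
def Dev (U : ι → Set X) (τ : ι → ∀ x y : X, Path x y → G) {E : Type} [TopologicalSpace E]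
    {F : E → X} (hF : Continuous F) (u : E → G) : Prop :=
  ∀ i, Par (fun _ _ γ => τ i _ _ (γ.map hF)) (F ⁻¹' U i) u

theorem hol_map {E : Type} [TopologicalSpace E] {F : E → X} (hF : Continuous F) {S : Set E}
    {μ : ∀ x y : X, Path x y → G} (h : Hol T μ) (hm : MapsTo F S T) :
    Hol S fun _ _ γ => μ _ _ (γ.map hF) :=
  Pull.hol (f := F) (fun _ _ _ _ _ _ _ e => tau_congr μ fun t => (e t).symm) h hF.continuousOn hm

theorem Dev.comp {E E' : Type} [TopologicalSpace E] [TopologicalSpace E'] {F : E → X}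
    {hF : Continuous F} {u : E → G} (h : Dev U τ hF u) {k : E' → E} (hk : Continuous k)
    {F' : E' → X} (hF' : Continuous F') (e : ∀ w, F' w = F (k w)) :
    Dev U τ hF' fun w => u (k w) := fun i a b γ hγ =>
  (h i _ _ (γ.map hk) fun t => show F (k (γ t)) ∈ U i from e _ ▸ hγ t).trans
    (congrArg _ (tau_congr (τ i) fun t => (e _).symm))

theorem Dev.uniq (hU : ∀ i, IsOpen (U i)) (hc : ∀ x ∈ T, ∃ i, x ∈ U i) {F : ℝ → X}
    {hF : Continuous F} (hT : ∀ t, F t ∈ T) {u v : ℝ → G} (hu : Dev U τ hF u)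
    (hv : Dev U τ hF v) : (u 0)⁻¹ * u 1 = (v 0)⁻¹ * v 1 := by
  have h : IsLocallyConstant fun t => u t * (v t)⁻¹ := by
    refine (IsLocallyConstant.iff_eventually_eq _).2 fun t => ?_
    obtain ⟨i, hi⟩ := hc _ (hT t)
    have ho := (hU i).preimage hF
    have := (hv i).lc_diff (hu i) ho t hi
    rwa [ho.nhdsWithin_eq hi] at this
  have := h.apply_eq_of_preconnectedSpace 1 0
  calc (u 0)⁻¹ * u 1 = (u 0)⁻¹ * (u 1 * (v 1)⁻¹) * v 1 := by group
    _ = (v 0)⁻¹ * v 1 := by rw [this]; group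

theorem exists_dev (hU : ∀ i, IsOpen (U i)) (hc : ∀ x ∈ T, ∃ i, x ∈ U i)
    (hτ : ∀ i, Hol (T ∩ U i) (τ i))
    (he : ∀ i j x y γ, In γ (T ∩ U i ∩ U j) → τ i x y γ = τ j x y γ) {E : Type}
    [NormedAddCommGroup E] [NormedSpace ℝ E] {F : E → X} (hF : Continuous F) (hT : ∀ z, F z ∈ T) :
    ∃ u, Dev U τ hF u := by
  have hh : ∀ i, Hol (F ⁻¹' U i) fun _ _ γ => τ i _ _ (γ.map hF) := fun i =>
    hol_map hF (hτ i) fun z hz => ⟨hT z, hz⟩
  have : ∀ z : E, ∃ i r s, 0 < r ∧ Metric.ball z r ⊆ F ⁻¹' U i ∧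
      Par (fun _ _ γ => τ i _ _ (γ.map hF)) (Metric.ball z r) s := fun z => by
    obtain ⟨i, hi⟩ := hc _ (hT z)
    obtain ⟨r, hr, hs⟩ := Metric.isOpen_iff.1 ((hU i).preimage hF) z hi
    obtain ⟨s, h⟩ := (hh i).triv_of_thin ((thin_convex (convex_ball z r)).mono subset_rfl hs)
    exact ⟨i, r, s, hr, hs, h⟩
  choose c r s hr hs hp using this
  have key : ∀ i z, Par (fun _ _ γ => τ i _ _ (γ.map hF)) (F ⁻¹' U i ∩ Metric.ball z (r z)) (s z) :=
    fun i z => ((hp z).mono inter_subset_right).congr_tau fun a b γ hγ =>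
      he _ _ _ _ _ fun t => ⟨⟨hT _, (hγ t).1⟩, hs z (hγ t).2⟩
  obtain ⟨ν, hν, h1⟩ := CechP.cech2 (T := univ) (U := fun z => Metric.ball z (r z)) (ρ := s)
    (fun _ => Metric.isOpen_ball) (fun z _ => ⟨z, Metric.mem_ball_self (hr z)⟩) fun z w =>
      ((key (c z) w).mono fun a ha => ⟨hs z ha.1.2, ha.2⟩).lc_diff
        ((hp z).mono fun a ha => ha.1.2)
        ((isOpen_univ.inter Metric.isOpen_ball).inter Metric.isOpen_ball)
  obtain ⟨u, hu⟩ := hν.triv_of_thin (thin_convex convex_univ)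
  refine ⟨u, fun i => (hh i).par_of_local subset_rfl fun z _ =>
    ⟨_, Metric.ball_mem_nhds z (hr z), (hu.mono (subset_univ _)).congr_tau fun a b γ hγ => ?_⟩⟩
  rw [(key i z).tau hγ, (h1 z).tau fun t => ⟨trivial, (hγ t).2⟩]

/-- gluing along an open cover -/
theorem glue (hU : ∀ i, IsOpen (U i)) (hc : ∀ x ∈ T, ∃ i, x ∈ U i)
    (hτ : ∀ i, Hol (T ∩ U i) (τ i))
    (he : ∀ i j x y γ, In γ (T ∩ U i ∩ U j) → τ i x y γ = τ j x y γ) :
    ∃ ν : ∀ x y : X, Path x y → G, Hol T ν ∧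
      ∀ i x y γ, In γ (T ∩ U i) → ν x y γ = τ i x y γ := by
  classical
  have ex : ∀ x y (γ : Path x y), In γ T → ∃ u, Dev U τ γ.continuous_extend u := fun x y γ h =>
    exists_dev hU hc hτ he _ h.extend
  obtain ⟨ν, hν⟩ : ∃ ν : ∀ x y : X, Path x y → G, ∀ x y (γ : Path x y), In γ T →
      ∀ u, Dev U τ γ.continuous_extend u → ν x y γ = (u 0)⁻¹ * u 1 := by
    refine ⟨fun x y γ => if h : In γ T then ((ex x y γ h).choose 0)⁻¹ * (ex x y γ h).choose 1
      else 1, fun x y γ h u hu => ?_⟩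
    simp only [dif_pos h]
    exact Dev.uniq hU hc h.extend (ex x y γ h).choose_spec hu
  have ext : ∀ i x y γ, In γ (T ∩ U i) → ν x y γ = τ i x y γ := fun i x y γ h => by
    obtain ⟨u, hu⟩ := ex x y γ fun t => (h t).1
    rw [hν _ _ _ (fun t => (h t).1) u hu, hu i 0 1 (lin 0 1) fun t => (h.extend _).2,
      inv_mul_cancel_left]
    exact tau_congr (τ i) fun t => by simp [lin]
  refine ⟨ν, ⟨fun x y z γ δ h1 h2 => ?_, fun x y γ δ hH => ?_⟩, ext⟩
  · obtain ⟨u, hu⟩ := ex _ _ _ (h1.trans h2)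
    have e1 : ∀ t : ℝ, γ.extend t = (γ.trans δ).extend (min t 1 / 2) := fun t => by
      rw [Path.extend_trans_of_le_half _ _ (by linarith [min_le_right t 1]),
        mul_div_cancel₀ _ two_ne_zero]
      rcases le_total t 1 with h | h
      · rw [min_eq_left h]
      · rw [min_eq_right h, γ.extend_of_one_le h, γ.extend_one]
    have e2 : ∀ t : ℝ, δ.extend t = (γ.trans δ).extend ((max t 0 + 1) / 2) := fun t => by
      rw [Path.extend_trans_of_half_le _ _ (by linarith [le_max_right t 0]),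
        mul_div_cancel₀ _ two_ne_zero, add_sub_cancel_right]
      rcases le_total t 0 with h | h
      · rw [max_eq_right h, δ.extend_of_le_zero h, δ.extend_zero]
      · rw [max_eq_left h]
    rw [hν _ _ _ (h1.trans h2) u hu,
      hν _ _ _ h1 _ (hu.comp (k := fun t : ℝ => min t 1 / 2) (by fun_prop) _ e1),
      hν _ _ _ h2 _ (hu.comp (k := fun t : ℝ => (max t 0 + 1) / 2) (by fun_prop) _ e2)]
    norm_num
  · have h1 := hH.left
    have h2 := hH.right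
    obtain ⟨H, hH⟩ := hH
    let pr : ℝ → I := projIcc 0 1 zero_le_one
    have hpr : Continuous pr := continuous_projIcc
    have hF : Continuous fun p : ℝ × ℝ => H (pr p.1, pr p.2) := by fun_prop
    obtain ⟨u, hu⟩ := exists_dev hU hc hτ he hF fun _ => hH _
    have c1 : ∀ p ∈ T, Dev U τ (continuous_const (y := p) (X := ℝ)) fun _ => (1 : G) :=
      fun p hp i a b γ hγ => ((one_mul _).trans
        ((hτ i).const (γ := γ.map continuous_const) ⟨hp, hγ 0⟩ fun _ => rfl)).symm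
    have b0 := Dev.uniq hU hc (fun _ => h1.source)
      (hu.comp (k := fun s : ℝ => (s, (0 : ℝ))) (by fun_prop) continuous_const fun s => by
        simp [pr]) (c1 x h1.source)
    have b1 := Dev.uniq hU hc (fun _ => h1.target)
      (hu.comp (k := fun s : ℝ => (s, (1 : ℝ))) (by fun_prop) continuous_const fun s => by
        simp [pr]) (c1 y h1.target)
    rw [hν _ _ _ h1 _ (hu.comp (k := fun t : ℝ => ((0 : ℝ), t)) (by fun_prop) _ fun t => by
        simp [pr, Path.extend, IccExtend]),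
      hν _ _ _ h2 _ (hu.comp (k := fun t : ℝ => ((1 : ℝ), t)) (by fun_prop) _ fun t => by
        simp [pr, Path.extend, IccExtend])]
    simp only [inv_one, mul_one, inv_mul_eq_one] at b0 b1
    rw [b0, b1]

/-- gluing along two open sets -/
theorem glue2 {U V : Set X} {τ μ : ∀ x y : X, Path x y → G} (hU : IsOpen U) (hV : IsOpen V)
    (hc : T ⊆ U ∪ V) (hτ : Hol (T ∩ U) τ) (hμ : Hol (T ∩ V) μ)
    (he : ∀ x y γ, In γ (T ∩ U ∩ V) → τ x y γ = μ x y γ) :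
    ∃ ν : ∀ x y : X, Path x y → G, Hol T ν ∧ (∀ x y γ, In γ (T ∩ U) → ν x y γ = τ x y γ) ∧
      ∀ x y γ, In γ (T ∩ V) → ν x y γ = μ x y γ := by
  obtain ⟨ν, h1, h2⟩ := glue (T := T) (U := fun b : Bool => cond b U V)
    (τ := fun b : Bool => cond b τ μ) (by rintro (_ | _); exacts [hV, hU])
    (fun x hx => (hc hx).elim (fun h => ⟨true, h⟩) fun h => ⟨false, h⟩)
    (by rintro (_ | _); exacts [hμ, hτ]) (by
      rintro (_ | _) (_ | _) x y γ h
      exacts [rfl, (he x y γ fun t => ⟨⟨(h t).1.1, (h t).2⟩, (h t).1.2⟩).symm, he x y γ h, rfl])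
  exact ⟨ν, h1, h2 true, h2 false⟩

end Pool.Agent.MP_7ebdba_gt.sm.n

end MrgPart2

-- ======== part 3: formerly Pool.Agent.MP_7ebdba_gt.sm.n.Side
section MrgPart3

/-! Row SIDE: the two collapse maps of a connected sum. -/

open Set Filter Topology Metric

namespace Pool.Agent.MP_7ebdba_gt.sm.n

open MP_e1dc65_gt

namespace SideP

/-- the sector condition in a chart -/
def Sec (i : Fin 3) (y : E 4) : Prop := (y 0, y 1) ∈ sector i

theorem Sec.smul {i : Fin 3} {y : E 4} {r : ℝ} (hr : 0 ≤ r) (h : Sec i y) : Sec i (r • y) := by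
  fin_cases i
  · exact mul_nonneg hr h
  · exact ⟨mul_nonpos_of_nonneg_of_nonpos hr h.1, mul_nonneg hr h.2⟩
  · exact ⟨mul_nonpos_of_nonneg_of_nonpos hr h.1, mul_nonpos_of_nonneg_of_nonpos hr h.2⟩

theorem Sec.add {i : Fin 3} {y z : E 4} (h : Sec i y) (h' : Sec i z) : Sec i (y + z) := by
  fin_cases i
  · exact add_nonneg (a := y 0) (b := z 0) h h'
  · exact ⟨add_nonpos h.1 h'.1, add_nonneg h.2 h'.2⟩
  · exact ⟨add_nonpos h.1 h'.1, add_nonpos h.2 h'.2⟩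

theorem sec_zero (i : Fin 3) : Sec i 0 := by
  fin_cases i
  · exact le_refl (0 : ℝ)
  · exact ⟨le_refl (0 : ℝ), le_refl (0 : ℝ)⟩
  · exact ⟨le_refl (0 : ℝ), le_refl (0 : ℝ)⟩

theorem Sec.ray {i : Fin 3} {v : E 4} {r s : ℝ} (hr : 0 < r) (hs : 0 ≤ s) (h : Sec i (r • v)) :
    Sec i (s • v) := by
  have := h.smul (div_nonneg hs hr.le)
  rwa [smul_smul, div_mul_cancel₀ _ hr.ne'] at this

/-- the data of a connected sum -/
structure Dat (X Y Z : Fin 3 → Set S4) (ι κ : E 4 → S4) (f h : OpenPartialHomeomorph S4 S4) :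
    Prop where
  ci : CoreChart X ι
  ck : CoreChart Y κ
  fs : f.source = {ι 0}ᶜ
  hs : h.source = {κ 0}ᶜ
  cov : f.target ∪ h.target = univ
  gl : ∀ x ∈ f.source, ∀ y ∈ h.source, f x = h y ↔
    ∃ (t : ℝ) (v : E 4), 0 < t ∧ t < 1 ∧ ‖v‖ = 1 ∧ x = ι (t • v) ∧ y = κ ((1 - t) • v)
  un : ∀ i, Z i = f '' (X i ∩ f.source) ∪ h '' (Y i ∩ h.source)

variable {X Y Z : Fin 3 → Set S4} {ι κ : E 4 → S4} {f h : OpenPartialHomeomorph S4 S4}

theorem Dat.symm (D : Dat X Y Z ι κ f h) : Dat Y X Z κ ι h f := by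
  refine ⟨D.ck, D.ci, D.hs, D.fs, union_comm _ _ ▸ D.cov, fun y hy x hx => ?_,
    fun i => (D.un i).trans (union_comm _ _)⟩
  rw [eq_comm, D.gl x hx y hy]
  constructor
  · rintro ⟨t, v, a, b, c, d, e⟩
    exact ⟨1 - t, v, by linarith, by linarith, c, e, by rwa [sub_sub_cancel]⟩
  · rintro ⟨t, v, a, b, c, d, e⟩
    exact ⟨1 - t, v, by linarith, by linarith, c, e, by rwa [sub_sub_cancel]⟩

theorem Dat.src (D : Dat X Y Z ι κ f h) {x : S4} (hx : x ≠ ι 0) : x ∈ f.source := D.fs ▸ hx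

theorem nrm {t : ℝ} {v : E 4} (ht : 0 < t) (hv : ‖v‖ = 1) : ‖t • v‖ = t := by
  rw [norm_smul, hv, mul_one, Real.norm_of_nonneg ht.le]

theorem Dat.ovl (D : Dat X Y Z ι κ f h) (x : S4) (hx : x ≠ ι 0) :
    f x ∈ h.target ↔ x ∈ ι '' ball 0 1 := by
  constructor
  · intro ht
    obtain ⟨t, v, a, b, c, d, -⟩ :=
      (D.gl x (D.src hx) _ (h.map_target ht)).1 (h.right_inv ht).symm
    exact ⟨_, by rwa [mem_ball_zero_iff, nrm a c], d.symm⟩
  · rintro ⟨y, hy, rfl⟩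
    have h0 : 0 < ‖y‖ := norm_pos_iff.2 fun e => hx (e ▸ rfl)
    have h1 : ‖y‖ < 1 := mem_ball_zero_iff.1 hy
    have hv : ‖‖y‖⁻¹ • y‖ = 1 := by rw [norm_smul, norm_inv, norm_norm, inv_mul_cancel₀ h0.ne']
    have hk : κ ((1 - ‖y‖) • ‖y‖⁻¹ • y) ∈ h.source := D.symm.src fun e => by
      have := nrm (sub_pos.2 h1) hv
      rw [D.ck.1.injective e, norm_zero] at this
      linarith
    rw [(D.gl _ (D.src hx) _ hk).2 ⟨‖y‖, _, h0, h1, hv, by rw [smul_inv_smul₀ h0.ne'], rfl⟩]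
    exact h.map_source hk

theorem Dat.mem (D : Dat X Y Z ι κ f h) (i : Fin 3) (x : S4) (hx : x ≠ ι 0) :
    f x ∈ Z i ↔ x ∈ X i := by
  rw [D.un i]
  refine ⟨?_, fun hi => Or.inl ⟨x, ⟨hi, D.src hx⟩, rfl⟩⟩
  rintro (⟨x', ⟨a, b⟩, e⟩ | ⟨y, ⟨a, b⟩, e⟩)
  · exact f.injOn b (D.src hx) e ▸ a
  · obtain ⟨t, v, a1, a2, -, rfl, rfl⟩ := (D.gl x (D.src hx) y b).1 e.symm
    exact (D.ci.2 i _).2 (Sec.ray (sub_pos.2 a2) a1.le ((D.ck.2 i _).1 a))

/-- the radial cut off -/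
noncomputable def bet (r : ℝ) : ℝ := max 0 (min 1 (4 * r - 2))

theorem bet_nonneg (r : ℝ) : 0 ≤ bet r := le_max_left _ _
theorem bet_le (r : ℝ) : bet r ≤ 1 := max_le zero_le_one (min_le_left _ _)
theorem bet_zero {r : ℝ} (hr : r ≤ 1 / 2) : bet r = 0 :=
  max_eq_left ((min_le_right _ _).trans (by linarith))
theorem bet_one {r : ℝ} (hr : 3 / 4 ≤ r) : bet r = 1 := by
  rw [bet, min_eq_left (by linarith), max_eq_right zero_le_one]

/-- the collapse of a small ball -/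
noncomputable def col (ι : E 4 → S4) : S4 → S4 :=
  Function.extend ι (fun y => ι (bet ‖y‖ • y)) id

theorem col_chart (hι : IsOpenEmbedding ι) (y : E 4) : col ι (ι y) = ι (bet ‖y‖ • y) :=
  hι.injective.extend_apply _ _ y

theorem col_off (hι : IsOpenEmbedding ι) {x : S4} (hx : x ∉ ι '' closedBall 0 (3 / 4)) :
    col ι x = x := by
  by_cases e : ∃ y, ι y = x
  · obtain ⟨y, rfl⟩ := e
    have : 3 / 4 ≤ ‖y‖ := le_of_not_ge fun hy => hx ⟨y, mem_closedBall_zero_iff.2 hy, rfl⟩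
    rw [col_chart hι, bet_one this, one_smul]
  · exact Function.extend_apply' _ _ _ e

theorem closed_ball (hι : IsOpenEmbedding ι) (r : ℝ) : IsClosed (ι '' closedBall 0 r) :=
  ((isCompact_closedBall 0 r).image hι.continuous).isClosed

theorem col_cont (hι : IsOpenEmbedding ι) : Continuous (col ι) := by
  refine continuous_iff_continuousAt.2 fun x => ?_
  by_cases hx : x ∈ ι '' closedBall 0 (3 / 4)
  · obtain ⟨y, -, rfl⟩ := hx
    rw [← hι.continuousAt_iff]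
    have : col ι ∘ ι = fun y => ι (bet ‖y‖ • y) := funext (col_chart hι)
    rw [this]
    have hb : Continuous fun y : E 4 => bet ‖y‖ • y := by
      unfold bet
      fun_prop
    exact (hι.continuous.comp hb).continuousAt
  · refine continuousAt_id.congr ?_
    filter_upwards [(closed_ball hι _).isOpen_compl.mem_nhds hx] with z hz
    exact (col_off hι hz).symm

open Classical in
/-- the collapse map of a side -/
noncomputable def cmap (ι : E 4 → S4) (f : OpenPartialHomeomorph S4 S4) (z : S4) : S4 :=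
  if z ∈ f.target then col ι (f.symm z) else ι 0

theorem Dat.ne (D : Dat X Y Z ι κ f h) {z : S4} (hz : z ∈ f.target) : f.symm z ≠ ι 0 := by
  have := f.map_target hz
  rwa [D.fs] at this

theorem Dat.cont (D : Dat X Y Z ι κ f h) : Continuous (cmap ι f) := by
  refine continuous_iff_continuousAt.2 fun z => ?_
  by_cases hz : z ∈ f.target
  · refine ((col_cont D.ci.1).continuousAt.comp (f.continuousAt_symm hz)).congr ?_
    filter_upwards [f.open_target.mem_nhds hz] with w hw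
    exact (if_pos hw).symm
  · have hh : z ∈ h.target := (D.cov.ge (mem_univ z)).resolve_left hz
    refine (continuousAt_const (y := ι 0)).congr ?_
    have ho := h.isOpen_inter_preimage_symm (closed_ball D.ck.1 (1 / 2)).isOpen_compl
    filter_upwards [ho.mem_nhds ⟨hh, fun hk => hz (h.right_inv hh ▸ (D.symm.ovl _ (D.symm.ne hh)).2
      (image_mono (closedBall_subset_ball (by norm_num)) hk))⟩] with w hw
    by_cases hf : w ∈ f.target
    · obtain ⟨t, v, a, b, c, d, e⟩ := (D.gl _ (f.map_target hf) _ (h.map_target hw.1)).1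
        ((f.right_inv hf).trans (h.right_inv hw.1).symm)
      have : t ≤ 1 / 2 := le_of_not_ge fun ht => hw.2 ⟨_, by
        rw [mem_closedBall_zero_iff, nrm (sub_pos.2 b) c]; linarith, e.symm⟩
      rw [cmap, if_pos hf, d, col_chart D.ci.1, nrm a c, bet_zero this, zero_smul]
    · exact (if_neg hf).symm

theorem Dat.side (D : Dat X Y Z ι κ f h) :
    Side X Z f h.target (ι 0) (ι '' ball 0 1) (ι '' closedBall 0 (3 / 4)) (cmap ι f) := by
  have hι := D.ci.1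
  have p0 : ι 0 ∈ ι '' closedBall 0 (3 / 4) := ⟨0, mem_closedBall_self (by norm_num), rfl⟩
  refine ⟨D.fs, hι.isOpenMap _ isOpen_ball, closed_ball hι _, p0,
    image_mono (closedBall_subset_ball (by norm_num)), D.mem, D.ovl, D.cont, fun i z hz => ?_,
    fun x hx => ?_, fun z hz => ?_⟩
  · by_cases hf : z ∈ f.target
    · have hx := (D.mem i _ (D.ne hf)).1 ((f.right_inv hf).symm ▸ hz)
      rw [cmap, if_pos hf]
      by_cases e : f.symm z ∈ ι '' closedBall 0 (3 / 4)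
      · obtain ⟨y, -, e⟩ := e
        rw [← e] at hx ⊢
        rw [col_chart hι]
        exact (D.ci.2 i _).2 (Sec.smul (bet_nonneg _) ((D.ci.2 i _).1 hx))
      · rwa [col_off hι e]
    · rw [cmap, if_neg hf]
      exact (D.ci.2 i _).2 (sec_zero i)
  · have hs := D.src (x := x) fun e => hx (e ▸ p0)
    rw [cmap, if_pos (f.map_source hs), f.left_inv hs, col_off hι hx]
  · by_cases hf : z ∈ f.target
    · obtain ⟨y, hy, e⟩ := (D.ovl _ (D.ne hf)).1 ((f.right_inv hf).symm ▸ hz)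
      rw [cmap, if_pos hf, ← e, col_chart hι]
      refine ⟨_, ?_, rfl⟩
      rw [mem_ball_zero_iff, norm_smul, Real.norm_of_nonneg (bet_nonneg _)] at *
      nlinarith [bet_le ‖y‖, norm_nonneg y]
    · rw [cmap, if_neg hf]
      exact ⟨0, mem_ball_self one_pos, rfl⟩

/-- the neck of a wall in the chart -/
def neck (j : Fin 3) : Set (E 4) := {y | Sec j y ∧ Sec (j + 1) y ∧ y ≠ 0 ∧ y ∈ ball 0 1}

theorem sc_of {j : Fin 3} (k : Fin 4) (s : ℝ) (hs : |s| < 1) (h0 : s ≠ 0)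
    (h1 : Sec j (EuclideanSpace.single k s)) (h2 : Sec (j + 1) (EuclideanSpace.single k s))
    (h3 : ∀ y, Sec j y → Sec (j + 1) y → 0 ≤ s * y k) : SC (neck j) := by
  have hb : EuclideanSpace.single k s ∈ ball (0 : E 4) 1 := by simpa using hs
  refine sc_star (x := EuclideanSpace.single k s) ⟨h1, h2, by simpa using h0, hb⟩ ?_
  rintro y ⟨a1, a2, a3, a4⟩ a b ha hb' hab
  refine ⟨(h1.smul ha).add (a1.smul hb'), (h2.smul ha).add (a2.smul hb'), fun e => ?_,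
    convex_ball _ _ hb a4 ha hb' hab⟩
  rcases ha.eq_or_lt with rfl | ha
  · rw [zero_add] at hab
    rw [hab, zero_smul, zero_add, one_smul] at e
    exact a3 e
  · have e' : a * s + b * y k = 0 := by simpa using congrArg (fun w : E 4 => w k) e
    have := mul_nonneg hb' (h3 y a1 a2)
    have : 0 < a * (s * s) := mul_pos ha (mul_self_pos.2 h0)
    have : s * (a * s + b * y k) = 0 := by rw [e', mul_zero]
    nlinarith

theorem sc_neck (j : Fin 3) : SC (neck j) := by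
  fin_cases j
  · refine sc_of 1 (1 / 2) (by norm_num [abs_lt]) (by norm_num) (by simp [Sec, sector])
      (by simp [Sec, sector]) fun y _ b => ?_
    have : 0 ≤ y 1 := b.2
    linarith
  · refine sc_of 0 (-1 / 2) (by norm_num [abs_lt]) (by norm_num) (by norm_num [Sec, sector])
      (show Sec 2 _ from ⟨by norm_num, by norm_num⟩) fun y a _ => ?_
    have : y 0 ≤ 0 := a.1
    linarith
  · refine sc_of 1 (-1 / 2) (by norm_num [abs_lt]) (by norm_num) (by norm_num [Sec, sector])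
      (show Sec 0 _ by norm_num [Sec, sector]) fun y a _ => ?_
    have : y 1 ≤ 0 := a.2
    linarith

theorem Dat.wall (D : Dat X Y Z ι κ f h) (j : Fin 3) :
    SC (wall Z j ∩ (f.target ∩ h.target)) := by
  have hs : ι '' neck j ⊆ f.source := by
    rintro _ ⟨y, hy, rfl⟩
    exact D.src fun e => hy.2.2.1 (D.ci.1.injective e)
  have e : n.wall Z j ∩ (f.target ∩ h.target) = f '' (ι '' neck j) := by
    ext z
    constructor
    · rintro ⟨⟨a1, a2⟩, hf, hh⟩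
      have hn := D.ne hf
      rw [← f.right_inv hf] at a1 a2 hh
      obtain ⟨y, hy, e⟩ := (D.ovl _ hn).1 hh
      have b1 := (D.mem _ _ hn).1 a1
      have b2 := (D.mem _ _ hn).1 a2
      rw [← e] at b1 b2 hn
      exact ⟨_, ⟨y, ⟨(D.ci.2 _ _).1 b1, (D.ci.2 _ _).1 b2, fun e => hn (e ▸ rfl), hy⟩, e⟩,
        f.right_inv hf⟩
    · rintro ⟨_, ⟨y, hy, rfl⟩, rfl⟩
      have hn : ι y ≠ ι 0 := fun e => hy.2.2.1 (D.ci.1.injective e)
      exact ⟨⟨(D.mem _ _ hn).2 ((D.ci.2 _ _).2 hy.1), (D.mem _ _ hn).2 ((D.ci.2 _ _).2 hy.2.1)⟩,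
        f.map_source (D.src hn), (D.ovl _ hn).2 ⟨y, hy.2.2.2, rfl⟩⟩
  rw [e]
  exact ((sc_image_emb D.ci.1.isEmbedding).2 (sc_neck j)).image (f.continuousOn.mono hs)
    (f.continuousOn_symm.mono (f.mapsTo.mono_left hs).image_subset) fun x hx => f.left_inv (hs hx)

end SideP

theorem side : SideStmt := by
  rintro X Y Z ⟨ι, κ, f, h, a1, a2, a3, a4, a5, a6, a7⟩
  have D : SideP.Dat X Y Z ι κ f h := ⟨a1, a2, a3, a4, a5, a6, a7⟩
  exact ⟨f, h, _, _, _, _, _, _, _, _, a5, D.side, D.symm.side, D.wall⟩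

end Pool.Agent.MP_7ebdba_gt.sm.n

end MrgPart3

-- ======== part 4: formerly Pool.Agent.MP_7ebdba_gt.sm.n.Tz
section MrgPart4

/-! Block NEG, rows TORUS and ZERO. -/

open Set
open scoped unitInterval

noncomputable section

namespace Pool.Agent.MP_7ebdba_gt.sm.n

open MP_e1dc65_gt

namespace Tz

theorem sq_sum (x : S4) :
    (x : E 5) 0 ^ 2 + (x : E 5) 1 ^ 2 + (x : E 5) 2 ^ 2 + (x : E 5) 3 ^ 2 + (x : E 5) 4 ^ 2 = 1 := by
  have h : ‖(x : E 5)‖ = 1 := mem_sphere_zero_iff_norm.1 x.2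
  have := EuclideanSpace.real_norm_sq_eq (x : E 5)
  rw [h, Fin.sum_univ_five] at this
  linarith

theorem mem_S4 {v : E 5} (h : v 0 ^ 2 + v 1 ^ 2 + v 2 ^ 2 + v 3 ^ 2 + v 4 ^ 2 = 1) :
    v ∈ Metric.sphere (0 : E 5) 1 := by
  rw [mem_sphere_zero_iff_norm]
  have := EuclideanSpace.real_norm_sq_eq v
  rw [Fin.sum_univ_five, h] at this
  exact (pow_eq_one_iff_of_nonneg (norm_nonneg v) two_ne_zero).1 this

theorem core_iff (x : S4) :
    x ∈ core genusOne ↔ (x : E 5) 0 ^ 2 + (x : E 5) 1 ^ 2 = 1 / 2 ∧ (x : E 5) 2 = 0 := by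
  constructor
  · intro h
    have h0 : 0 ≤ (x : E 5) 0 ^ 2 + (x : E 5) 1 ^ 2 - 1 / 2 := h 0
    have h1 : (x : E 5) 0 ^ 2 + (x : E 5) 1 ^ 2 - 1 / 2 ≤ 0 ∧ 0 ≤ (x : E 5) 2 := h 1
    have h2 : (x : E 5) 0 ^ 2 + (x : E 5) 1 ^ 2 - 1 / 2 ≤ 0 ∧ (x : E 5) 2 ≤ 0 := h 2
    exact ⟨by linarith [h1.1], le_antisymm h2.2 h1.2⟩
  · rintro ⟨h1, h2⟩ i
    fin_cases i
    · show 0 ≤ (x : E 5) 0 ^ 2 + (x : E 5) 1 ^ 2 - 1 / 2
      linarith
    · show (x : E 5) 0 ^ 2 + (x : E 5) 1 ^ 2 - 1 / 2 ≤ 0 ∧ 0 ≤ (x : E 5) 2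
      exact ⟨by linarith, h2.ge⟩
    · show (x : E 5) 0 ^ 2 + (x : E 5) 1 ^ 2 - 1 / 2 ≤ 0 ∧ (x : E 5) 2 ≤ 0
      exact ⟨by linarith, h2.le⟩

theorem core_other {x : S4} (h : x ∈ core genusOne) :
    (x : E 5) 3 ^ 2 + (x : E 5) 4 ^ 2 = 1 / 2 := by
  obtain ⟨h1, h2⟩ := (core_iff x).1 h
  have := sq_sum x
  rw [h2] at this
  linarith

/-- real part of `2 a b x̄` -/
def re3 (a0 a1 b0 b1 x0 x1 : ℝ) : ℝ := 2 * ((a0 * b0 - a1 * b1) * x0 + (a0 * b1 + a1 * b0) * x1)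

/-- imaginary part of `2 a b x̄` -/
def im3 (a0 a1 b0 b1 x0 x1 : ℝ) : ℝ := 2 * ((a0 * b1 + a1 * b0) * x0 - (a0 * b0 - a1 * b1) * x1)

theorem norm3 {a0 a1 b0 b1 x0 x1 : ℝ} (ha : a0 ^ 2 + a1 ^ 2 = 1 / 2) (hb : b0 ^ 2 + b1 ^ 2 = 1 / 2)
    (hx : x0 ^ 2 + x1 ^ 2 = 1 / 2) :
    re3 a0 a1 b0 b1 x0 x1 ^ 2 + im3 a0 a1 b0 b1 x0 x1 ^ 2 = 1 / 2 := by
  have : re3 a0 a1 b0 b1 x0 x1 ^ 2 + im3 a0 a1 b0 b1 x0 x1 ^ 2 =
      4 * (a0 ^ 2 + a1 ^ 2) * (b0 ^ 2 + b1 ^ 2) * (x0 ^ 2 + x1 ^ 2) := by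
    unfold re3 im3; ring
  rw [this, ha, hb, hx]; norm_num

theorem re_left {a0 a1 x0 x1 : ℝ} (hx : x0 ^ 2 + x1 ^ 2 = 1 / 2) : re3 a0 a1 x0 x1 x0 x1 = a0 := by
  unfold re3; linear_combination (2 * a0) * hx
theorem im_left {a0 a1 x0 x1 : ℝ} (hx : x0 ^ 2 + x1 ^ 2 = 1 / 2) : im3 a0 a1 x0 x1 x0 x1 = a1 := by
  unfold im3; linear_combination (2 * a1) * hx
theorem re_right {a0 a1 x0 x1 : ℝ} (hx : x0 ^ 2 + x1 ^ 2 = 1 / 2) : re3 x0 x1 a0 a1 x0 x1 = a0 := by
  unfold re3; linear_combination (2 * a0) * hx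
theorem im_right {a0 a1 x0 x1 : ℝ} (hx : x0 ^ 2 + x1 ^ 2 = 1 / 2) : im3 x0 x1 a0 a1 x0 x1 = a1 := by
  unfold im3; linear_combination (2 * a1) * hx

/-- the group law of the torus with neutral element `x` -/
def mv (x a b : E 5) : E 5 :=
  !₂[re3 (a 0) (a 1) (b 0) (b 1) (x 0) (x 1), im3 (a 0) (a 1) (b 0) (b 1) (x 0) (x 1), 0,
    re3 (a 3) (a 4) (b 3) (b 4) (x 3) (x 4), im3 (a 3) (a 4) (b 3) (b 4) (x 3) (x 4)]

theorem mv_cont (x : E 5) : Continuous fun p : E 5 × E 5 => mv x p.1 p.2 := by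
  unfold mv re3 im3
  refine (PiLp.continuous_toLp 2 _).comp (continuous_pi fun i => ?_)
  fin_cases i <;> simp <;> fun_prop

theorem mv_sph {x a b : S4} (hx : x ∈ core genusOne) (ha : a ∈ core genusOne)
    (hb : b ∈ core genusOne) : mv x a b ∈ Metric.sphere (0 : E 5) 1 := by
  have h1 := norm3 ((core_iff a).1 ha).1 ((core_iff b).1 hb).1 ((core_iff x).1 hx).1
  have h2 := norm3 (core_other ha) (core_other hb) (core_other hx)
  refine mem_S4 ?_
  simp only [mv, PiLp.toLp_apply, Matrix.cons_val_zero, Matrix.cons_val_one, Matrix.cons_val]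
  linarith

theorem mv_left {x a : S4} (hx : x ∈ core genusOne) (ha : a ∈ core genusOne) :
    mv x a x = a := by
  have h1 := ((core_iff x).1 hx).1
  have h2 := core_other hx
  have h3 := ((core_iff a).1 ha).2
  ext i
  fin_cases i
  · exact re_left h1
  · exact im_left h1
  · exact h3.symm
  · exact re_left h2
  · exact im_left h2

theorem mv_right {x a : S4} (hx : x ∈ core genusOne) (ha : a ∈ core genusOne) :
    mv x x a = a := by
  have h1 := ((core_iff x).1 hx).1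
  have h2 := core_other hx
  have h3 := ((core_iff a).1 ha).2
  ext i
  fin_cases i
  · exact re_right h1
  · exact im_right h1
  · exact h3.symm
  · exact re_right h2
  · exact im_right h2

/-- a set of the sphere that is star-shaped about a pole in whose closed hemisphere it lies -/
theorem star {K : Type} [Group K] {ρ : ∀ x y : S4, Path x y → K} {W : Set S4} (h : Hol W ρ)
    (e : S4) (he : e ∈ W) (hp : ∀ x ∈ W, 0 ≤ inner ℝ (x : E 5) (e : E 5))
    (hs : ∀ x ∈ W, ∀ (y : S4) (a b : ℝ), 0 ≤ a → 0 ≤ b → (y : E 5) = a • (x : E 5) + b • (e : E 5) →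
      y ∈ W) : Triv ρ W := by
  classical
  let v : ℝ × S4 → E 5 := fun p => (1 - p.1) • (p.2 : E 5) + p.1 • (e : E 5)
  have hv : Continuous v := by fun_prop
  have n1 : ∀ x : S4, ‖(x : E 5)‖ = 1 := fun x => mem_sphere_zero_iff_norm.1 x.2
  have h0 : ∀ p ∈ Icc (0 : ℝ) 1 ×ˢ W, v p ≠ 0 := by
    rintro ⟨t, x⟩ ⟨⟨t0, t1⟩, hx⟩ hz
    have hz' : (1 - t) • (x : E 5) + t • (e : E 5) = 0 := hz
    have a1 := congrArg (fun u => inner ℝ u (e : E 5)) hz'
    have a2 := congrArg (fun u => inner ℝ (x : E 5) u) hz'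
    simp only [inner_add_left, inner_add_right, real_inner_smul_left, real_inner_smul_right,
      real_inner_self_eq_norm_sq, n1, inner_zero_left, inner_zero_right] at a1 a2
    have k := hp x hx
    have t0' : 0 ≤ t := t0
    have t1' : t ≤ 1 := t1
    nlinarith [mul_nonneg t0' k, mul_nonneg (sub_nonneg.2 t1') k]
  let H : ℝ × S4 → S4 := fun p =>
    if hz : v p ≠ 0 then ⟨‖v p‖⁻¹ • v p, by
      rw [mem_sphere_zero_iff_norm, norm_smul, norm_inv, norm_norm,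
        inv_mul_cancel₀ (norm_ne_zero_iff.2 hz)]⟩ else p.2
  have hH : ∀ p ∈ Icc (0 : ℝ) 1 ×ˢ W, (H p : E 5) = ‖v p‖⁻¹ • v p := fun p hp' => by
    simp only [H, dif_pos (h0 p hp')]
  refine h.deform (H := H) (S' := {e}) ?_ (fun p hp' => ?_) (fun x hx => ?_) (fun x hx => ?_) ?_
  · rw [Topology.IsInducing.subtypeVal.continuousOn_iff]
    refine ContinuousOn.congr ?_ hH
    exact (hv.norm.continuousOn.inv₀ fun p hp' => norm_ne_zero_iff.2 (h0 p hp')).smul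
      hv.continuousOn
  · refine hs p.2 hp'.2 _ (‖v p‖⁻¹ * (1 - p.1)) (‖v p‖⁻¹ * p.1)
      (mul_nonneg (by positivity) (sub_nonneg.2 hp'.1.2)) (mul_nonneg (by positivity) hp'.1.1) ?_
    rw [hH p hp', mul_smul, mul_smul, ← smul_add]
  · refine Subtype.ext ?_
    rw [hH (0, x) ⟨left_mem_Icc.2 zero_le_one, hx⟩]
    simp [v, n1]
  · refine Subtype.ext ?_
    rw [hH (1, x) ⟨right_mem_Icc.2 zero_le_one, hx⟩]
    simp [v, n1]
  · refine h.triv_of_loops (singleton_subset_iff.2 he) fun x γ hγ => ?_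
    have hx : x = e := hγ.source
    exact h.const (hx ▸ he) fun t => (hγ t).trans hx.symm

/-- a signed coordinate vector as a point of the sphere -/
def pole (i : Fin 5) (s : ℝ) (hs : |s| = 1) : S4 :=
  ⟨EuclideanSpace.single i s, by rw [mem_sphere_zero_iff_norm, PiLp.norm_single]; exact hs⟩

theorem half {K : Type} [Group K] {ρ : ∀ x y : S4, Path x y → K} {W : Set S4} (h : Hol W ρ)
    (i j : Fin 5) (hij : j ≠ i) (s : ℝ) (hs : |s| = 1)
    (hW : ∀ x : S4, x ∈ W ↔ (x : E 5) j = 0 ∧ 0 ≤ s * (x : E 5) i) : Triv ρ W := by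
  refine star h (pole i s hs) ((hW _).2 ⟨?_, ?_⟩) (fun x hx => ?_) fun x hx y a b ha hb e => ?_
  · simp [pole, hij]
  · simpa [pole] using mul_self_nonneg s
  · simpa [pole, EuclideanSpace.inner_single_right] using ((hW x).1 hx).2
  · obtain ⟨h1, h2⟩ := (hW x).1 hx
    refine (hW y).2 ⟨by simp [e, pole, h1, hij], ?_⟩
    have : s * (y : E 5) i = a * (s * (x : E 5) i) + b * (s * s) := by
      simp [e, pole]; ring
    rw [this]
    exact add_nonneg (mul_nonneg ha h2) (mul_nonneg hb (mul_self_nonneg s))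

end Tz

open Tz

theorem torus : TorusStmt := by
  intro K _ τ h x γ δ hγ hδ
  have hx := hγ.source
  let H : I × I → S4 := fun p => ⟨mv x (γ p.1) (δ p.2), mv_sph hx (hγ _) (hδ _)⟩
  have hc : Continuous H :=
    ((mv_cont x).comp (f := fun p : I × I => ((γ p.1 : E 5), (δ p.2 : E 5)))
      (by fun_prop)).subtype_mk _
  refine h.square hc (fun p => (core_iff _).2 ⟨?_, rfl⟩) (bo := γ) (ri := δ) (le := δ) (up := γ)
    (fun t => Subtype.ext ?_) (fun t => Subtype.ext ?_) (fun t => Subtype.ext ?_)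
    fun t => Subtype.ext ?_
  · exact norm3 ((core_iff _).1 (hγ _)).1 ((core_iff _).1 (hδ _)).1 ((core_iff x).1 hx).1
  · show _ = mv x (γ t) (δ 0)
    rw [δ.source, mv_left hx (hγ t)]
  · show _ = mv x (γ 1) (δ t)
    rw [γ.target, mv_right hx (hδ t)]
  · show _ = mv x (γ 0) (δ t)
    rw [γ.source, mv_right hx (hδ t)]
  · show _ = mv x (γ t) (δ 1)
    rw [δ.target, mv_left hx (hγ t)]

theorem zero : ZeroStmt := by
  intro j K _ ρ h
  fin_cases j
  · refine half h 1 0 (by decide) 1 abs_one fun x => ?_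
    show 0 ≤ (x : E 5) 0 ∧ (x : E 5) 0 ≤ 0 ∧ 0 ≤ (x : E 5) 1 ↔ _
    rw [one_mul]
    exact ⟨fun k => ⟨le_antisymm k.2.1 k.1, k.2.2⟩, fun k => ⟨k.1.ge, k.1.le, k.2⟩⟩
  · refine half h 0 1 (by decide) (-1) (by simp) fun x => ?_
    show ((x : E 5) 0 ≤ 0 ∧ 0 ≤ (x : E 5) 1) ∧ (x : E 5) 0 ≤ 0 ∧ (x : E 5) 1 ≤ 0 ↔ _
    rw [neg_one_mul, neg_nonneg]
    exact ⟨fun k => ⟨le_antisymm k.2.2 k.1.2, k.1.1⟩, fun k => ⟨⟨k.2, k.1.ge⟩, k.2, k.1.le⟩⟩
  · refine half h 1 0 (by decide) (-1) (by simp) fun x => ?_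
    show ((x : E 5) 0 ≤ 0 ∧ (x : E 5) 1 ≤ 0) ∧ 0 ≤ (x : E 5) 0 ↔ _
    rw [neg_one_mul, neg_nonneg]
    exact ⟨fun k => ⟨le_antisymm k.1.1 k.2, k.1.2⟩, fun k => ⟨⟨k.1.le, k.2⟩, k.1.ge⟩⟩

end Pool.Agent.MP_7ebdba_gt.sm.n

end
end MrgPart4

-- ======== part 5: formerly Pool.Agent.MP_7ebdba_gt.sm.p.Kit
section MrgPart5

/-! Block P, kit: gauges, pull-backs, gluing, wall crossing holonomies. -/

open scoped Topology unitInterval
open Set Filter

noncomputable section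

namespace Pool.Agent.MP_7ebdba_gt.sm.p

open MP_e1dc65_gt

/-- group valued functions of paths -/
abbrev Tr (X G : Type) [TopologicalSpace X] : Type := ∀ x y : X, Path x y → G

variable {X Y Z G G' J : Type} [TopologicalSpace X] [TopologicalSpace Y] [TopologicalSpace Z]
  [Group G] [Group G']

/-- `τ' = k⁻¹ τ k` on `S` -/
def Gau (S : Set X) (τ τ' : Tr X G) (k : X → G) : Prop :=
  ∀ x y γ, In γ S → τ' x y γ = (k x)⁻¹ * τ x y γ * k y

/-- `τ' = τ` on `S` -/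
def Agree (S : Set X) (τ τ' : Tr X G) : Prop := ∀ x y γ, In γ S → τ' x y γ = τ x y γ

/-- image by a homomorphism -/
def mp (φ : G →* G') (τ : Tr X G) : Tr X G' := fun x y γ => φ (τ x y γ)

/-- change of gauge -/
def gg (k : X → G) (τ : Tr X G) : Tr X G := fun x y γ => (k x)⁻¹ * τ x y γ * k y

open Classical in
/-- pull-back -/
def pb (f : Y → X) (τ : Tr X G) : Tr Y G := fun x y γ =>
  if h : Continuous fun t => f (γ t) then τ (f x) (f y) ⟨⟨_, h⟩, by simp, by simp⟩ else 1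

/-- data of a wall `f = 0` cut into the parts `N j` -/
structure WD (T : Set X) (f : X → ℝ) (N : J → Set X) : Prop where
  cont : Continuous f
  op : ∀ j, IsOpen (N j)
  dis : ∀ i j, ∀ x ∈ T, x ∈ N i → x ∈ N j → i = j
  cov : ∀ x ∈ T, f x = 0 → ∃ j, x ∈ N j

/-- crossing the wall in `N j` from `f < 0` to `f > 0` has holonomy `e j` -/
structure Wall (T : Set X) (f : X → ℝ) (N : J → Set X) (e : J → G) (τ : Tr X G) : Prop where
  hol : Hol T τ
  pos : Par τ (T ∩ {x | 0 < f x}) fun _ => 1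
  neg : Par τ (T ∩ {x | f x < 0}) fun _ => 1
  mid : ∀ j, Par τ (T ∩ N j) fun x => if f x < 0 then (e j)⁻¹ else 1

variable {S S' T T' : Set X} {τ τ' τ'' : Tr X G} {k k' s s' : X → G} {x y : X}

/-! ### gauges -/

theorem Gau.mono (h : Gau S τ τ' k) (hS : S' ⊆ S) : Gau S' τ τ' k :=
  fun x y γ hγ => h x y γ (hγ.mono hS)
theorem Agree.mono (h : Agree S τ τ') (hS : S' ⊆ S) : Agree S' τ τ' :=
  fun x y γ hγ => h x y γ (hγ.mono hS)
theorem Agree.symm (h : Agree S τ τ') : Agree S τ' τ := fun x y γ hγ => (h x y γ hγ).symm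
theorem Agree.trans (h : Agree S τ τ') (h' : Agree S τ' τ'') : Agree S τ τ'' :=
  fun x y γ hγ => (h' x y γ hγ).trans (h x y γ hγ)
theorem Agree.rfl : Agree S τ τ := fun _ _ _ _ => Eq.refl _
theorem Agree.gau (h : Agree S τ τ') : Gau S τ τ' fun _ => 1 := fun x y γ hγ => by simp [h x y γ hγ]
theorem Agree.hol (h : Agree S τ τ') (hτ : Hol S τ) : Hol S τ' := hτ.congr h
theorem Agree.par (h : Agree S τ τ') (hs : Par τ S s) : Par τ' S s := hs.congr_tau h
theorem Agree.mp (h : Agree S τ τ') (φ : G →* G') : Agree S (mp φ τ) (mp φ τ') :=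
  fun x y γ hγ => congrArg φ (h x y γ hγ)
theorem gau_gg (S : Set X) (k : X → G) (τ : Tr X G) : Gau S τ (gg k τ) k := fun _ _ _ _ => Eq.refl _
theorem Gau.agree (h : Gau S τ τ' k) : Agree S (gg k τ) τ' := h
theorem Gau.symm (h : Gau S τ τ' k) : Gau S τ' τ fun x => (k x)⁻¹ := fun x y γ hγ => by
  rw [h x y γ hγ]; group
theorem Gau.trans (h : Gau S τ τ' k) (h' : Gau S τ' τ'' k') : Gau S τ τ'' fun x => k x * k' x :=
  fun x y γ hγ => by rw [h' x y γ hγ, h x y γ hγ]; group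
theorem Gau.congr (h : Gau S τ τ' k) (e : EqOn k' k S) : Gau S τ τ' k' := fun x y γ hγ => by
  rw [e hγ.source, e hγ.target, h x y γ hγ]
theorem Gau.mp (h : Gau S τ τ' k) (φ : G →* G') : Gau S (mp φ τ) (mp φ τ') fun x => φ (k x) :=
  fun x y γ hγ => by simp only [p.mp, h x y γ hγ, map_mul, map_inv]
theorem Gau.hol (h : Gau S τ τ' k) (hτ : Hol S τ) : Hol S τ' := (hτ.gauge k).congr h
theorem Gau.par (h : Gau S τ τ' k) (hs : Par τ S s) : Par τ' S fun x => s x * k x :=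
  (hs.gauge k).congr_tau h
theorem hol_mp (h : Hol S τ) (φ : G →* G') : Hol S (mp φ τ) := h.map φ
theorem hol_gg (h : Hol S τ) (k : X → G) : Hol S (gg k τ) := h.gauge k
theorem par_mp (h : Par τ S s) (φ : G →* G') : Par (mp φ τ) S fun x => φ (s x) := h.map φ
theorem gau_of_par (h : Par τ S s) (h' : Par τ' S s') : Gau S τ τ' fun x => (s x)⁻¹ * s' x :=
  fun x y γ hγ => by rw [h.tau hγ, h'.tau hγ]; group
theorem agree_of_par (h : Par τ S s) (h' : Par τ' S s) : Agree S τ τ' :=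
  fun x y γ hγ => by rw [h.tau hγ, h'.tau hγ]
/-- conjugation by a constant is a gauge -/
theorem gau_conj (S : Set X) (τ : Tr X G) (c : G) :
    Gau S τ (mp (MulAut.conj c).toMonoidHom τ) fun _ => c⁻¹ := fun x y γ _ => by simp [mp]

theorem agree_of_local (h : Hol T τ) (h' : Hol T τ')
    (hl : ∀ x ∈ T, ∃ V ∈ 𝓝 x, Agree (T ∩ V) τ τ') : Agree T τ τ' := fun _ _ _ hγ =>
  h'.ext_of_local h hl hγ

theorem gau_of_local (h : Hol T τ) (h' : Hol T τ')
    (hl : ∀ x ∈ T, ∃ V ∈ 𝓝 x, Gau (T ∩ V) τ τ' k) : Gau T τ τ' k :=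
  agree_of_local (hol_gg h k) h' hl

/-- gauges on the members of an open cover that agree on the overlaps -/
theorem gau_glue {ι : Type} {U : ι → Set X} {c : ι → X → G} (h : Hol T τ) (h' : Hol T τ')
    (hU : ∀ i, IsOpen (U i)) (hc : ∀ x ∈ T, ∃ i, x ∈ U i) (hg : ∀ i, Gau (T ∩ U i) τ τ' (c i))
    (he : ∀ i j, ∀ x ∈ T, x ∈ U i → x ∈ U j → c i x = c j x) :
    ∃ k, Gau T τ τ' k ∧ ∀ i, ∀ x ∈ T, x ∈ U i → k x = c i x := by
  classical
  let k : X → G := fun x => if hx : x ∈ T then c (hc x hx).choose x else 1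
  have hk : ∀ i, ∀ x ∈ T, x ∈ U i → k x = c i x := fun i x hx hi => by
    simp only [k, dif_pos hx]
    exact he _ _ x hx (hc x hx).choose_spec hi
  refine ⟨k, gau_of_local h h' fun x hx => ?_, hk⟩
  obtain ⟨i, hi⟩ := hc x hx
  exact ⟨U i, (hU i).mem_nhds hi, (hg i).congr fun y hy => hk i y hy.1 hy.2⟩

/-! ### pull-backs -/

theorem pb_pull (f : Y → X) (τ : Tr X G) (A : Set Y) : Pull f A τ (pb f τ) := by
  intro x y γ _ a b δ e
  have h : Continuous fun t => f (γ t) := by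
    rw [← show ⇑δ = fun t => f (γ t) from funext e]; exact δ.continuous
  rw [pb, dif_pos h]
  exact tau_congr τ fun t => (e t).symm

theorem pb_eq {f : Y → X} {a b : Y} (γ : Path a b) {c d : X} (δ : Path c d)
    (e : ∀ t, δ t = f (γ t)) : pb f τ a b γ = τ c d δ := pb_pull f τ univ a b γ (in_univ γ) c d δ e

variable {f f' : Y → X} {A A' : Set Y}

theorem hol_pb (h : Hol T τ) (hf : ContinuousOn f A) (m : MapsTo f A T) : Hol A (pb f τ) :=
  (pb_pull f τ A).hol h hf m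
theorem par_pb (h : Par τ T s) (hf : ContinuousOn f A) (m : MapsTo f A T) :
    Par (pb f τ) A fun y => s (f y) := (pb_pull f τ A).par hf subset_rfl m h
theorem Gau.pb (h : Gau T τ τ' k) (hf : ContinuousOn f A) (m : MapsTo f A T) :
    Gau A (pb f τ) (pb f τ') fun y => k (f y) := fun _ _ γ hγ => by
  rw [pb_eq γ (push f hf γ hγ) fun _ => rfl, pb_eq γ (push f hf γ hγ) fun _ => rfl]
  exact h _ _ _ (in_push hf hγ hγ m)
theorem Agree.pb (h : Agree T τ τ') (hf : ContinuousOn f A) (m : MapsTo f A T) :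
    Agree A (pb f τ) (pb f τ') := fun x y γ hγ => by
  simpa using h.gau.pb hf m x y γ hγ
theorem pb_congr (τ : Tr X G) (e : EqOn f' f A) : Agree A (pb f τ) (pb f' τ) := fun x y γ hγ => by
  have h : (fun t => f' (γ t)) = fun t => f (γ t) := funext fun t => e (hγ t)
  unfold pb
  by_cases hc : Continuous fun t => f (γ t)
  · rw [dif_pos hc, dif_pos (h ▸ hc)]
    exact tau_congr τ fun t => e (hγ t)
  · rw [dif_neg hc, dif_neg (h ▸ hc)]
theorem pb_id (τ : Tr X G) {g : X → X} (e : ∀ x ∈ S, g x = x) : Agree S τ (pb g τ) :=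
  fun _ _ γ hγ => pb_eq γ γ fun t => (e _ (hγ t)).symm
theorem pb_comp (τ : Tr X G) {g : Z → Y} {B : Set Z} (hg : ContinuousOn g B) :
    Agree B (pb (fun z => f (g z)) τ) (pb g (pb f τ)) := fun _ _ γ hγ =>
  pb_eq γ (push g hg γ hγ) fun _ => rfl
theorem pb_mp (f : Y → X) (φ : G →* G') (τ : Tr X G) : pb f (mp φ τ) = mp φ (pb f τ) := by
  funext x y γ
  simp only [pb, mp]
  split_ifs
  · rfl
  · exact (map_one φ).symm

/-- homotopic maps give gauge equivalent pull-backs; the gauge is the holonomy of the track -/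
theorem gau_homotopy (h : Hol T τ) {H : ℝ × Y → X} (hH : ContinuousOn H (Icc 0 1 ×ˢ A))
    (m : MapsTo H (Icc 0 1 ×ˢ A) T) :
    ∃ k : Y → G, Gau A (pb (fun y => H (0, y)) τ) (pb (fun y => H (1, y)) τ) k ∧
      ∀ y ∈ A, ∀ a b (δ : Path a b), (∀ t : I, δ t = H (t, y)) → k y = τ a b δ := by
  classical
  have hm : ∀ {a b : Y} {γ : Path a b}, In γ A → ∀ p : I × I,
      ((p.2 : ℝ), γ p.1) ∈ Icc (0 : ℝ) 1 ×ˢ A := fun hγ p => ⟨p.2.2, hγ _⟩
  have hc : ∀ {a b : Y} {γ : Path a b}, In γ A → Continuous fun p : I × I => H (p.2, γ p.1) :=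
    fun hγ => hH.comp_continuous (by fun_prop) (hm hγ)
  let tr : ∀ y ∈ A, Path (H (0, y)) (H (1, y)) := fun y hy =>
    ⟨⟨fun t => H (t, y), (hc (In.refl hy)).comp (Continuous.prodMk_right 0)⟩, by simp, by simp⟩
  refine ⟨fun y => if hy : y ∈ A then τ _ _ (tr y hy) else 1, fun x y γ hγ => ?_,
    fun y hy a b δ e => ?_⟩
  · let si : ∀ r : I, Path (H (r, x)) (H (r, y)) := fun r =>
      ⟨⟨fun t => H (r, γ t), (hc hγ).comp (Continuous.prodMk_left r)⟩, by simp, by simp⟩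
    simp only [dif_pos hγ.source, dif_pos hγ.target]
    rw [pb_eq γ (si 1) fun _ => rfl, pb_eq γ (si 0) fun _ => rfl, mul_assoc, eq_inv_mul_iff_mul_eq]
    exact (h.square (hc hγ) (fun p => m (hm hγ p)) (bo := si 0) (ri := tr y hγ.target)
      (le := tr x hγ.source) (up := si 1) (fun _ => rfl) (fun t => by simp [tr])
      (fun t => by simp [tr]) fun _ => rfl).symm
  · simp only [dif_pos hy]
    exact tau_congr τ fun t => (e t).symm

/-- a map that factors through a curve: the holonomy along the curve is a parallel section -/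
theorem par_curve (h : Hol T τ) {c : ℝ → X} (hc : Continuous c) (m : ∀ t, c t ∈ T) (a : ℝ)
    {b : Y → ℝ} (hb : ContinuousOn b A) (e : ∀ y ∈ A, f y = c (b y)) :
    Par (pb f τ) A fun y => τ _ _ (seg c hc a (b y)) := fun x y γ hγ => by
  dsimp only
  rw [pb_eq γ ((push b hb γ hγ).map hc) fun t => (e _ (hγ t)).symm,
    h.seg_mul hc convex_univ (fun t _ => m t) trivial (mem_univ (b x)) trivial]
  exact congrArg _ (h.hom _ _ _ _ (hin_convex convex_univ hc.continuousOn (fun t _ => m t)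
    (lin _ _) (push b hb γ hγ) (in_univ _) (in_univ _) (fun _ => rfl) fun _ => rfl))

/-! ### gluing -/

/-- van Kampen: holonomies on the members of an open cover that agree on the overlaps -/
theorem glue {ι : Type} {U : ι → Set X} {μ : ι → Tr X G} (hU : ∀ i, IsOpen (U i))
    (hc : ∀ x ∈ T, ∃ i, x ∈ U i) (hμ : ∀ i, Hol (T ∩ U i) (μ i))
    (he : ∀ i j, Agree (T ∩ U i ∩ U j) (μ i) (μ j)) :
    ∃ τ : Tr X G, Hol T τ ∧ ∀ i, Agree (T ∩ U i) (μ i) τ :=
  n.glue hU hc hμ fun i j x y γ hγ => (he i j x y γ hγ).symm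

theorem glue2 {U V : Set X} (hU : IsOpen U) (hV : IsOpen V) (hc : T ⊆ U ∪ V)
    (h : Hol (T ∩ U) τ) (h' : Hol (T ∩ V) τ') (he : Agree (T ∩ U ∩ V) τ τ') :
    ∃ μ : Tr X G, Hol T μ ∧ Agree (T ∩ U) τ μ ∧ Agree (T ∩ V) τ' μ :=
  n.glue2 hU hV hc h h' fun x y γ hγ => (he x y γ hγ).symm

theorem Gau.uniq (h : Gau S τ τ' k) (h' : Gau S τ τ' k') (hj : JoinedIn S x y) (e : k x = k' x) :
    k y = k' y := by
  obtain ⟨γ, hγ⟩ := hj
  have := (h x y γ hγ).symm.trans (h' x y γ hγ)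
  rwa [e, mul_right_inj] at this

/-- a gauge extends over a closed set that does not separate locally -/
theorem gau_extend {K : Set X} (h : Hol T τ) (h' : Hol T τ') (hK : IsClosed K)
    (hg : Gau (T \ K) τ τ' k)
    (hl : ∀ x ∈ T ∩ K, ∀ O ∈ 𝓝 x, ∃ V, IsOpen V ∧ x ∈ V ∧ V ⊆ O ∧ SC (T ∩ V) ∧
      IsPathConnected ((T ∩ V) \ K)) :
    ∃ k', Gau T τ τ' k' ∧ EqOn k' k (T \ K) := by
  have key : ∀ x : ↥(T ∩ K), ∃ (V : Set X) (c : X → G), IsOpen V ∧ x.1 ∈ V ∧ Gau (T ∩ V) τ τ' c ∧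
      EqOn c k ((T ∩ V) \ K) := fun x => by
    obtain ⟨V, hV, hx, -, h1, z, hz, h2⟩ := hl x.1 x.2 univ univ_mem
    obtain ⟨s, hs⟩ := h.triv_of_sc h1 inter_subset_left
    obtain ⟨s', hs', e⟩ := (h'.triv_of_sc h1 inter_subset_left).exists_val z (s z * k z)
    refine ⟨V, _, hV, hx, gau_of_par hs hs', fun y hy => ?_⟩
    exact ((gau_of_par hs hs').mono diff_subset).uniq (hg.mono fun u hu => ⟨hu.1.1, hu.2⟩) (h2 hy)
      (by simp [e])
  choose V c hV hx hc he using key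
  obtain ⟨k', h1, h2⟩ := gau_glue (ι := Option ↥(T ∩ K)) (U := fun i => i.elim Kᶜ V)
    (c := fun i => i.elim k c) h h' (by rintro (_ | i); exacts [hK.isOpen_compl, hV i])
    (fun x hT => by
      by_cases hk : x ∈ K
      exacts [⟨some ⟨x, hT, hk⟩, hx _⟩, ⟨none, hk⟩])
    (by rintro (_ | i); exacts [hg, hc i]) (by
      rintro (_ | i) (_ | j) x hT hi hj
      · rfl
      · exact (he j ⟨⟨hT, hj⟩, hi⟩).symm
      · exact he i ⟨⟨hT, hi⟩, hj⟩
      by_cases hk : x ∈ K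
      · obtain ⟨W, -, hW, sW, h1, z, hz, -⟩ := hl x ⟨hT, hk⟩ _
          (inter_mem ((hV i).mem_nhds hi) ((hV j).mem_nhds hj))
        exact ((hc i).mono fun u hu => ⟨hu.1, (sW hu.2).1⟩).uniq
          ((hc j).mono fun u hu => ⟨hu.1, (sW hu.2).2⟩) (h1.1.joinedIn z hz.1 x ⟨hT, hW⟩)
          ((he i ⟨⟨hz.1.1, (sW hz.1.2).1⟩, hz.2⟩).trans (he j ⟨⟨hz.1.1, (sW hz.1.2).2⟩, hz.2⟩).symm)
      · exact (he i ⟨⟨hT, hi⟩, hk⟩).trans (he j ⟨⟨hT, hj⟩, hk⟩).symm)
  exact ⟨k', h1, fun x hx => h2 none x hx.1 hx.2⟩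

/-! ### simply connected sets -/

theorem sc_star {E : Type} [NormedAddCommGroup E] [NormedSpace ℝ E] {C : Set E} {v : E}
    (hv : v ∈ C) (h : StarConvex ℝ v C) : SC C := MP_e1dc65_gt.sc_star hv h

/-- retracts of simply connected sets -/
theorem sc_retract {g : X → Y} (h : SC A) (hf : ContinuousOn f A) (m : MapsTo f A S)
    (hg : ContinuousOn g S) (m' : MapsTo g S A) (e : ∀ x ∈ S, f (g x) = x) : SC S :=
  h.retract hf m hg m' e

/-! ### walls -/

variable {w : X → ℝ} {N : J → Set X} {e e' : J → G}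

theorem WD.ex (h : WD T w N) (e : J → G) : ∃ τ, Wall T w N e τ := by
  have lt : ∀ {S : Set X} {a b : X → G} {c : G}, (∀ x ∈ S, a x * (b x)⁻¹ = c) →
      LC (fun x => a x * (b x)⁻¹) S := fun {_ _ _ c} h => (lc_const c).congr h
  obtain ⟨τ, h1, h2⟩ := CechP.cech2 (T := T) (ι := Bool ⊕ J)
    (U := Sum.elim (fun b => cond b {x | 0 < w x} {x | w x < 0}) N)
    (ρ := Sum.elim (fun _ _ => 1) fun j x => if w x < 0 then (e j)⁻¹ else 1)
    (by
      rintro ((_ | _) | j)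
      exacts [isOpen_lt h.cont continuous_const, isOpen_lt continuous_const h.cont, h.op j])
    (fun x hx => by
      rcases lt_trichotomy (w x) 0 with a | a | a
      exacts [⟨.inl false, a⟩, (h.cov x hx a).elim fun j hj => ⟨.inr j, hj⟩, ⟨.inl true, a⟩])
    (by
      rintro (a | i) (b | j)
      · exact lt (c := 1) fun _ _ => mul_inv_cancel (1 : G)
      · rcases a with _ | _
        · exact lt (c := e j) fun x hx => by simp [show w x < 0 from hx.1.2]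
        · exact lt (c := 1) fun x hx => by simp [(show 0 < w x from hx.1.2).not_gt]
      · rcases b with _ | _
        · exact lt (c := (e i)⁻¹) fun x hx => by simp [show w x < 0 from hx.2]
        · exact lt (c := 1) fun x hx => by simp [(show 0 < w x from hx.2).not_gt]
      · exact lt (c := 1) fun x hx => by
          obtain rfl := h.dis i j x hx.1.1 hx.1.2 hx.2
          exact mul_inv_cancel _)
  exact ⟨τ, h1, h2 (.inl true), h2 (.inl false), fun j => h2 (.inr j)⟩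

theorem WD.mono (h : WD T w N) (hS : S ⊆ T) : WD S w N :=
  ⟨h.cont, h.op, fun i j x hx => h.dis i j x (hS hx), fun x hx => h.cov x (hS hx)⟩

theorem Wall.mono (h : Wall T w N e τ) (hS : S ⊆ T) : Wall S w N e τ :=
  ⟨h.hol.mono hS, h.pos.mono (inter_subset_inter_left _ hS),
    h.neg.mono (inter_subset_inter_left _ hS), fun j => (h.mid j).mono (inter_subset_inter_left _ hS)⟩

theorem Wall.mp (h : Wall T w N e τ) (φ : G →* G') :
    Wall T w N (fun j => φ (e j)) (mp φ τ) :=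
  ⟨hol_mp h.hol φ, (par_mp h.pos φ).congr fun _ _ => (map_one φ).symm,
    (par_mp h.neg φ).congr fun _ _ => (map_one φ).symm,
    fun j => (par_mp (h.mid j) φ).congr fun x _ => by dsimp only; split_ifs <;> simp⟩

theorem Wall.pb (h : Wall T w N e τ) (hf : ContinuousOn f A) (m : MapsTo f A T) :
    Wall A (fun y => w (f y)) (fun j => f ⁻¹' N j) e (pb f τ) :=
  ⟨hol_pb h.hol hf m, par_pb h.pos (hf.mono inter_subset_left) fun _ a => ⟨m a.1, a.2⟩,
    par_pb h.neg (hf.mono inter_subset_left) fun _ a => ⟨m a.1, a.2⟩,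
    fun j => par_pb (h.mid j) (hf.mono inter_subset_left) fun _ a => ⟨m a.1, a.2⟩⟩

theorem WD.nhds (d : WD T w N) (hx : x ∈ T) : {x | 0 < w x} ∈ 𝓝 x ∨ {x | w x < 0} ∈ 𝓝 x ∨
    w x = 0 ∧ ∃ j, x ∈ N j ∧ N j ∈ 𝓝 x := by
  rcases lt_trichotomy (w x) 0 with a | a | a
  · exact .inr (.inl ((isOpen_lt d.cont continuous_const).mem_nhds a))
  · exact .inr (.inr ⟨a, (d.cov x hx a).imp fun j hj => ⟨hj, (d.op j).mem_nhds hj⟩⟩)
  · exact .inl ((isOpen_lt continuous_const d.cont).mem_nhds a)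

/-- comparison of two wall holonomies on a subset `S` -/
theorem Wall.gau (d : WD T w N) (h : Wall T w N e τ) (h' : Wall T w N e' τ') (hS : S ⊆ T)
    (cb cf : G) (he : ∀ j, ∀ x ∈ S, x ∈ N j → w x = 0 → e' j = cb⁻¹ * e j * cf) :
    Gau S τ τ' fun x => if w x < 0 then cb else cf := by
  have g := (h.mono hS)
  have g' := (h'.mono hS)
  refine gau_of_local g.hol g'.hol fun x hx => ?_
  rcases d.nhds (hS hx) with a | a | ⟨a, j, b, c⟩
  · exact ⟨_, a, (gau_of_par (g.pos.const_mul cf⁻¹) g'.pos).congr fun y hy => by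
      simp [(show 0 < w y from hy.2).not_gt]⟩
  · exact ⟨_, a, (gau_of_par (g.neg.const_mul cb⁻¹) g'.neg).congr fun y hy => by
      simp [show w y < 0 from hy.2]⟩
  · refine ⟨_, c, (gau_of_par ((g.mid j).const_mul cf⁻¹) (g'.mid j)).congr fun y _ => ?_⟩
    simp only [he j x hx b a]
    split_ifs <;> group

/-- parallel sections of a wall holonomy on a subset `S` -/
theorem Wall.par (d : WD T w N) (h : Wall T w N e τ) (hS : S ⊆ T)
    (cb cf : G) (he : ∀ j, ∀ x ∈ S, x ∈ N j → w x = 0 → cf = cb * e j) :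
    Par τ S fun x => if w x < 0 then cb else cf := by
  have g := (h.mono hS)
  refine g.hol.par_of_local subset_rfl fun x hx => ?_
  rcases d.nhds (hS hx) with a | a | ⟨a, j, b, c⟩
  · exact ⟨_, a, (g.pos.const_mul cf).congr fun y hy => by simp [(show 0 < w y from hy.2).not_gt]⟩
  · exact ⟨_, a, (g.neg.const_mul cb).congr fun y hy => by simp [show w y < 0 from hy.2]⟩
  · refine ⟨_, c, ((g.mid j).const_mul cf).congr fun y _ => ?_⟩
    simp only [he j x hx b a]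
    split_ifs <;> group

/-- two wall holonomies for different cuttings of the same wall -/
theorem Wall.agree {J' : Type} {N' : J' → Set X} {e' : J' → G} (d : WD T w N) (d' : WD T w N')
    (h : Wall T w N e τ) (h' : Wall T w N' e' τ')
    (he : ∀ j j', ∀ x ∈ T, x ∈ N j → x ∈ N' j' → w x = 0 → e' j' = e j) : Agree T τ τ' := by
  refine agree_of_local h.hol h'.hol fun x hx => ?_
  rcases d.nhds hx with a | a | ⟨a, j, b, c⟩
  · exact ⟨_, a, agree_of_par h.pos h'.pos⟩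
  · exact ⟨_, a, agree_of_par h.neg h'.neg⟩
  obtain ⟨j', b'⟩ := d'.cov x hx a
  refine ⟨_, inter_mem c ((d'.op j').mem_nhds b'), agree_of_par
    ((h.mid j).mono fun y hy => ⟨hy.1, hy.2.1⟩) ?_⟩
  rw [← he j j' x hx b b' a]
  exact (h'.mid j').mono fun y hy => ⟨hy.1, hy.2.2⟩

/-- every holonomy is a wall holonomy up to gauge when the pieces are simply connected -/
theorem WD.univ (d : WD T w N) (h : Hol T τ) (h1 : SC (T ∩ {x | 0 < w x}))
    (h2 : SC (T ∩ {x | w x < 0})) (h3 : ∀ j, SC (T ∩ N j))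
    (h4 : ∀ j, IsPathConnected (T ∩ N j ∩ {x | 0 < w x}))
    (h5 : ∀ j, IsPathConnected (T ∩ N j ∩ {x | w x < 0})) (j0 : J) (_hx : x ∈ T) (hw : w x < 0) :
    ∃ (e : J → G) (k : X → G), e j0 = 1 ∧ k x = 1 ∧ Wall T w N e (gg k τ) := by
  classical
  choose z hz jz using h4
  choose y hy jy using h5
  obtain ⟨n, hn, en⟩ := (h.triv_of_sc h2 inter_subset_left).exists_val x 1
  obtain ⟨m0, hm0, e0⟩ := (h.triv_of_sc (h3 j0) inter_subset_left).exists_val (y j0) (n (y j0))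
  obtain ⟨q, hq, eq⟩ := (h.triv_of_sc h1 inter_subset_left).exists_val (z j0) (m0 (z j0))
  choose m hm em using fun j =>
    (h.triv_of_sc (h3 j) inter_subset_left).exists_val (z j) (q (z j))
  let k : X → G := fun u => if w u < 0 then (n u)⁻¹ else if 0 < w u then (q u)⁻¹ else
    if hu : ∃ j, u ∈ N j then (m hu.choose u)⁻¹ else 1
  refine ⟨fun j => n (y j) * (m j (y j))⁻¹, k, ?_, by simp [k, hw, en], hol_gg h k,
    (hq.gauge k).congr fun u hu => ?_, (hn.gauge k).congr fun u hu => ?_,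
    fun j => ((hm j).gauge k).congr fun u hu => ?_⟩
  · rw [mul_inv_eq_one, ← e0]
    exact (hm j0).eq_of_joined hm0 ((h3 j0).1.joinedIn _ (hz j0).1 _ (hy j0).1) (by rw [em, eq])
  · simp [k, (show 0 < w u from hu.2).not_gt, show 0 < w u from hu.2]
  · simp [k, show w u < 0 from hu.2]
  · dsimp only [k]
    split_ifs with a b c
    · rw [mul_inv_rev, inv_inv]
      exact ((hn.mono fun v hv => ⟨hv.1.1, hv.2⟩).diff ((hm j).mono inter_subset_left)
        (jy j ⟨hu, a⟩)).symm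
    · rw [eq_mul_inv_iff_mul_eq, one_mul]
      exact ((hm j).mono inter_subset_left).eq_of_joined (hq.mono fun v hv => ⟨hv.1.1, hv.2⟩)
        (jz j ⟨hu, b⟩) (em j).symm
    · rw [d.dis _ j u hu.1 c.choose_spec hu.2, mul_inv_cancel]
    · exact (c ⟨j, hu.2⟩).elim

end Pool.Agent.MP_7ebdba_gt.sm.p

end
end MrgPart5

-- ======== part 6: formerly Pool.Agent.MP_7ebdba_gt.sm.p.Spec
section MrgPart6

/-! Block P: definitions and statements of the rows. -/

open scoped Topology ComplexConjugate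
open Set Filter Complex

noncomputable section

namespace Pool.Agent.MP_7ebdba_gt.sm.p

open MP_e1dc65_gt

abbrev C2 : Type := ℂ × ℂ
abbrev YY : Type := C2 × ℝ

/-! ### The weighted three-sphere -/

def pl (x : C2) : ℂ := pf x.1 x.2
def al (x : C2) : ℂ := af x.1 x.2
def pc (x : C2) : ℂ := cf x.1 x.2
def uu (x : C2) : ℂ := uf x.1 x.2
def xx (x : C2) : ℝ := xf x.1 x.2
def mm (P : Prof) (x : C2) : ℝ := mf P x.1 x.2

/-- the action with weights `2, 3` -/
def ac (l : ℂ) (x : C2) : C2 := (l ^ 2 * x.1, l ^ 3 * x.2)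
/-- the slice -/
def N3 : Set C2 := {x | ‖x.1‖ ^ 3 + ‖pl x‖ = 1}
/-- projection to the slice -/
def nn (x : C2) : C2 := ac ((‖x.1‖ ^ 3 + ‖pl x‖) ^ (-(1 / 6) : ℝ) : ℝ) x
/-- projection to `‖pl‖ = 1` -/
def toM (x : C2) : C2 := ac (‖pl x‖ ^ (-(1 / 6) : ℝ) : ℝ) x
/-- neighbourhoods of the knot -/
def near (c : ℝ) (x : C2) : Prop := ‖pl x‖ < c * ‖x.1‖ ^ 3
/-- the chart near the knot -/
def ch (a c : ℂ) : C2 := nn (a ^ 2, a ^ 3 * Complex.sqrt (1 - c * conj a ^ 6))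
def ex (t : ℝ) : ℂ := exp (t * I)
/-- `0` for `‖pc‖ ≤ 1 / 10`, `1` for `‖pc‖ ≥ 1 / 5` -/
def kap (r : ℝ) : ℝ := max 0 (min 1 (10 * r - 1))
open Classical in
/-- the flow of the open book -/
def Fl (t : ℝ) (x : C2) : C2 :=
  if near 1 x then ch (al x * ex (kap ‖pc x‖ * t / 6)) (pc x * ex t) else ac (ex (t / 6)) x
open Classical in
/-- the push into the Milnor fibre -/
def rho (x : C2) : C2 := if near (1 / 10) x then toM (ch (al x) (1 / 10)) else toM x
/-- the boundary curve in the Milnor fibre -/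
def cv (t : ℝ) : C2 := toM (ch (ex t) (1 / 10))
/-- the boundary curve of the closed page minus a half disc -/
def low (P : Prof) (t : ℝ) : C2 := ch (ex t) (√(max 0 (P.ε * Real.cos t)) : ℝ)
def x0 : C2 := ch I 0
/-- the two exceptional orbits -/
def KK : Set C2 := {x | x.1 = 0 ∨ x.2 = 0}
/-- the Milnor fibre -/
def MM : Set C2 := {x | pl x = 1}
/-- the closed page -/
def Pg : Set C2 := {x | x ∈ N3 ∧ (pl x).im = 0 ∧ 0 ≤ (pl x).re}
/-- the closed page minus a half disc -/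
def Pm (P : Prof) : Set C2 := {x | x ∈ Pg ∧ mm P x ≤ 6}
/-- the angle of the open book, up to sign -/
def ang (x : C2) : ℝ := Real.arccos ((pl x).re / ‖pl x‖)

/-! ### The model in `N3 × ℝ` -/

def Hh (P : Prof) (y : YY) : ℝ := mm P y.1 + y.2 ^ 2
def qy (y : YY) : V3 := (uu y.1, y.2)
def Wy : Set YY := {y | y.1 ∈ N3 ∧ pl y.1 ≠ 0 ∧ xx y.1 + y.2 ^ 2 < 14 / 5}
def Vy : Set YY := {y | y.1 ∈ N3 ∧ (pl y.1 = 0 ∨ 13 / 5 < xx y.1 + y.2 ^ 2)}
def Sg (P : Prof) : Set YY := {y | y.1 ∈ N3 ∧ Hh P y = 6 ∧ (pl y.1).im = 0}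
def H1 (P : Prof) : Set YY := {y | y.1 ∈ N3 ∧ Hh P y ≤ 6 ∧ (pl y.1).im = 0}
def H2 (P : Prof) : Set YY := {y | y.1 ∈ N3 ∧ Hh P y = 6 ∧ 0 ≤ (pl y.1).im}
def H3 (P : Prof) : Set YY := {y | y.1 ∈ N3 ∧ Hh P y = 6 ∧ (pl y.1).im ≤ 0}
def KY : Set YY := {y | y.1 ∈ KK}
/-- the two halves of the overlap in the middle wall; `true` is `pl > 0` -/
def Cc (c : Bool) : Set YY :=
  {y | y ∈ Vy ∧ y ∈ Wy ∧ (pl y.1).im = 0 ∧ 0 < (if c then 1 else -1) * (pl y.1).re}
def b0 : YY := (x0, 0)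
/-- the two sheets; `true` is `t ≥ 0` -/
def sh (P : Prof) (c : Bool) (x : C2) : YY := (x, (if c then 1 else -1) * √(6 - mm P x))
def FlY (t : ℝ) (y : YY) : YY := (Fl t y.1, y.2)
/-- retraction of the upper half to the page -/
def r2 (y : YY) : YY := FlY (-ang y.1) y
/-- retraction of the lower half to the page -/
def r3 (y : YY) : YY := FlY (ang y.1) y

/-- the eight loops made from two loops in the page -/
def IsL (P : Prof) (l : Fin 2 → Path x0 x0) (L : Fin 4 × Bool → Path b0 b0) : Prop :=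
  ∀ t, L (0, false) t = sh P true (l 0 t) ∧ L (0, true) t = sh P true (l 1 t) ∧
    L (1, false) t = sh P false (l 1 t) ∧ L (1, true) t = sh P false (l 0 t) ∧
    L (3, true) t = FlY Real.pi (sh P true (l 0 t)) ∧
    L (3, false) t = FlY Real.pi (sh P true (l 1 t)) ∧
    L (2, true) t = FlY Real.pi (sh P false (l 1 t)) ∧
    L (2, false) t = FlY Real.pi (sh P false (l 0 t))

/-! ### Groups -/

def ga : F2 := FreeGroup.of 0
def gb : F2 := FreeGroup.of 1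
def eM : Fin 3 → F2 := ![1, gb, ga]
def mhat : F2 →* F2 := FreeGroup.lift ![gb, ga⁻¹ * gb]
def mon : F2 →* F2 := FreeGroup.lift ![ga * gb * ga⁻¹, gb * ga⁻¹]

section
variable {D : Type} [Group D]
def kp (g h : D) : F2 →* D := FreeGroup.lift ![h⁻¹ * h⁻¹ * g⁻¹, g * h⁻¹ * g * g * h⁻¹ * g⁻¹]
def Rel2 (g h : D) : Prop := g ^ 3 = 1 ∧ (g * h⁻¹) ^ 2 = 1
/-- a triple `(N, S, R)` -/
def Rel (v : D × D × D) : Prop := Rel2 v.1 v.2.2 ∧ Rel2 v.2.1 v.2.2
def el (v : D × D × D) : Fin 4 → D := ![1, v.1, v.2.1, v.2.2]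
def stepT (v : D × D × D) : D × D × D := (v.1, v.2.1, v.1 * v.2.1⁻¹ * v.2.2 * v.1⁻¹ * v.2.1)
def stepI (v : D × D × D) : D × D × D := (v.2.2 * v.1 * v.2.2⁻¹, v.2.1, v.2.2)
def step (v : D × D × D) : D × D × D := stepI (stepT v)
/-- `a1, b1, a2, b2` -/
def rF (v : D × D × D) : F 2 →* D := FreeGroup.lift fun x =>
  if x.1 = 0 then kp v.1 v.2.2 (if x.2 then gb else ga) else kp v.2.1 v.2.2 (if x.2 then ga else gb)
def dF (v : D × D × D) : F 4 →* Monoid.Coprod D D :=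
  glueF (Monoid.Coprod.inl.comp (rF v)) (Monoid.Coprod.inr.comp (rF v))
def inc (c : Bool) : D →* Monoid.Coprod D D := if c then Monoid.Coprod.inl else Monoid.Coprod.inr
end

/-! ### Walls -/

def om : ℂ := ex (2 * Real.pi / 3)
def NM (j : Fin 3) : Set C2 := {x | ‖x.1‖ / 2 < (x.1 * conj om ^ (j : ℕ)).re}
def WM (τ : Tr C2 F2) : Prop := Wall MM (fun x => x.2.im) NM eM τ

def Pl : Set ℂ := {u | u ≠ 0 ∧ u ≠ 1}
def NP : Fin 3 → Set ℂ := ![{u | u.re < 0}, {u | 0 < u.re ∧ u.re < 1}, {u | 1 < u.re}]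
def WP {D : Type} [Group D] (g h : D) (τ : Tr ℂ D) : Prop := Wall Pl (fun u => u.im) NP ![1, g, h] τ

def Sh0 : Set V3 := {y | 13 / 5 < nq y ∧ nq y < 14 / 5}
def Sh : Set V3 := {y | y ∈ Sh0 ∧ y.1 ∈ Pl}
def NS : Fin 4 → Set V3 := ![{y | y.1.re < 0}, {y | 0 < y.1.re ∧ y.1.re < 1 ∧ 0 < y.2},
  {y | 0 < y.1.re ∧ y.1.re < 1 ∧ y.2 < 0}, {y | 1 < y.1.re}]
def WS {D : Type} [Group D] (e : Fin 4 → D) (τ : Tr V3 D) : Prop :=
  Wall Sh (fun y => y.1.im) NS e τ

/-! ### Twists of the shell -/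

def lam0 (e : ℝ × ℝ) (y : V3) : ℝ := e.1 * y.1.re + e.2 * y.2
def mu0 (e : ℝ × ℝ) (y : V3) : ℝ := e.1 * y.2 - e.2 * y.1.re
def lat (e : ℝ × ℝ) (y : V3) : ℝ := lam0 e y / √(nq y)
/-- rotation about the axis `e` of the plane `Im u = 0` -/
def rot (e : ℝ × ℝ) (φ : ℝ) (y : V3) : V3 :=
  (⟨e.1 * lam0 e y - e.2 * (mu0 e y * Real.cos φ - y.1.im * Real.sin φ),
    mu0 e y * Real.sin φ + y.1.im * Real.cos φ⟩,
   e.2 * lam0 e y + e.1 * (mu0 e y * Real.cos φ - y.1.im * Real.sin φ))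
def Tw (e : ℝ × ℝ) (σ : ℤ) (c1 c2 : ℝ) (f : V3 → V3) : Prop :=
  ∃ φ : ℝ → ℝ, Continuous φ ∧ (∀ s ≤ c1, φ s = 0) ∧ (∀ s ≥ c2, φ s = σ * (2 * Real.pi)) ∧
    ∀ y ∈ Sh0, f y = rot e (φ (lat e y)) y

/-! ### Rows -/

/-- row TH -/
def ThStmt : Prop :=
  Adm 1 ∧ (∀ a b, Adm a → Adm b → Adm (a * b)) ∧ ∃ (a b : Equiv.Perm V3) (f1 f2 : V3 → V3),
    Adm a ∧ Adm b ∧ Tw (1, 0) 1 (1 / 5) (2 / 5) a ∧ Tw (3 / 5, 4 / 5) (-1) (1 / 5) (2 / 5) f1 ∧
    Tw (3 / 5, 4 / 5) 1 (9 / 10) (19 / 20) f2 ∧ ∀ y ∈ Sh0, b y = f2 (f1 y)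

/-- row TW -/
def TwStmt : Prop :=
  ∀ (D : Type) [Group D] (e : ℝ × ℝ) (σ : ℤ) (a c1 c2 b : ℝ) (f : V3 → V3) (g g' : Fin 4 → D)
    (τ τ' : Tr V3 D) (i j : Fin 4), e.1 ^ 2 + e.2 ^ 2 = 1 → (σ = 1 ∨ σ = -1) → -1 ≤ a → a < c1 →
    c1 ≤ c2 → c2 < b → b ≤ 1 → Tw e σ c1 c2 f → WS g τ → WS g' τ' →
    (∀ y ∈ Sh0, a < lat e y → lat e y < b → y.1.im = 0 →
      (0 < mu0 e y → y ∈ NS i) ∧ (mu0 e y < 0 → y ∈ NS j)) →
    (∀ n, ∀ y ∈ Sh, y ∈ NS n → y.1.im = 0 → lat e y < b → g' n = g n) →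
    (∀ n, ∀ y ∈ Sh, y ∈ NS n → y.1.im = 0 → a < lat e y →
      g' n = (g i * (g j)⁻¹) ^ σ * g n * ((g j)⁻¹ * g i) ^ (-σ)) →
    ContinuousOn f Sh ∧ MapsTo f Sh Sh ∧ ∃ k, Gau Sh τ' (pb f τ) k

/-- row BASE (from TH and TW) -/
def BaseStmt : Prop :=
  ∀ n : ℕ, ∃ Θ : Equiv.Perm V3, Adm Θ ∧
    ContinuousOn Θ Sh ∧ MapsTo Θ Sh Sh ∧ ∀ (D : Type) [Group D] (v : D × D × D) (τ τ' : Tr V3 D),
      WS (el v) τ → WS (el (step^[n] v)) τ' → ∃ k, Gau Sh τ' (pb Θ τ) k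

/-- row ALG -/
def AlgStmt : Prop :=
  ∃ (D : Type) (_ : Group D) (g h : D) (n : ℕ) (r : S 2 →* F2), Rel2 g h ∧
    Rel (step^[n] (g, g, h)) ∧ ¬ ch.Chain r ∧
    ∀ w, dF (step^[n] (g, g, h)) w = 1 → dbl r (mk 4 w) = 1

/-- row PAGE A: the pieces of the Milnor fibre -/
def PageAStmt : Prop :=
  WD MM (fun x => x.2.im) NM ∧ SC (MM ∩ {x | 0 < x.2.im}) ∧ SC (MM ∩ {x | x.2.im < 0}) ∧
    IsPathConnected (MM ∩ {x | x.2.im < 0} ∩ {x | ¬ near (1 / 10) x}) ∧ ∀ j, SC (MM ∩ NM j) ∧ IsPathConnected (MM ∩ NM j ∩ {x | 0 < x.2.im}) ∧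
      IsPathConnected (MM ∩ NM j ∩ {x | x.2.im < 0})

/-- row PAGE B: holonomy on the Milnor fibre -/
def PageBStmt : Prop :=
  ∀ (hc : Continuous cv) (lm : Tr C2 F2), WM lm →
    (∀ (Γ : Type) [Group Γ] (τ : Tr C2 Γ), Hol MM τ → ∃ (ψ : F2 →* Γ) (k : C2 → Γ),
      k (cv (Real.pi / 2)) = 1 ∧ Gau MM (mp ψ lm) τ k) ∧
    (∀ i : Fin 2, ∃ γ : Path (cv (Real.pi / 2)) (cv (Real.pi / 2)),
      In γ (MM ∩ {x | ¬ near (1 / 10) x}) ∧ lm _ _ γ = FreeGroup.of i) ∧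
    lm _ _ (seg cv hc (Real.pi / 2) (Real.pi / 2 + Real.pi / 3)) = ga ∧
    lm _ _ (seg cv hc (Real.pi / 2) (Real.pi / 2 + 2 * Real.pi)) = ga * gb * ga⁻¹ * gb⁻¹ ∧
    ∃ k, k (cv (Real.pi / 2)) = 1 ∧ Gau MM (mp mhat lm) (pb (ac (ex (Real.pi / 3))) lm) k

/-- row CMP: comparison with the orbit plane -/
def CmpStmt : Prop :=
  ∀ (D : Type) [Group D] (g h : D) (lm : Tr C2 F2) (σ : Tr ℂ D), Rel2 g h → WM lm → WP g h σ →
    ∃ k, k (cv (Real.pi / 2)) = 1 ∧ Gau (MM \ KK) (mp (kp g h) lm) (pb uu σ) k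

/-- the output of row PG -/
structure PgOut (P : Prof) (lt : Tr C2 F2) (l : Fin 2 → Path x0 x0) : Prop where
  hol : Hol Pg lt
  par : Par lt {x | x ∈ Pg ∧ near (1 / 10) x ∧ al x ≠ -1} fun _ => 1
  mon : ∃ k, k x0 = 1 ∧ Gau Pg (mp mon lt) (pb (Fl (2 * Real.pi)) lt) k
  inn : ∀ i, In (l i) (Pm P)
  val : ∀ i, lt _ _ (l i) = FreeGroup.of i
  rel : ∀ (hc : Continuous (low P)) (Γ : Type) [Group Γ] (τ : Tr C2 Γ), Hol (Pm P) τ →
    τ _ _ (l 0) * τ _ _ (l 1) * (τ _ _ (l 0))⁻¹ * (τ _ _ (l 1))⁻¹ =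
      τ _ _ (seg (low P) hc (Real.pi / 2) (Real.pi / 2 + 2 * Real.pi))
  orb : ∀ (D : Type) [Group D] (g h : D) (σ : Tr ℂ D), Rel2 g h → WP g h σ →
    ∃ lh : Tr C2 D, Hol Pg lh ∧ (∀ i, lh _ _ (l i) = kp g h (FreeGroup.of i)) ∧
      Agree (Pg \ KK) (pb (fun x => uu (rho x)) σ) lh

/-- row PG (from PAGE A, PAGE B, CMP) -/
def PgStmt : Prop := ∀ P : Prof, ∃ lt l, PgOut P lt l

/-- row REL: the loops exist, lie in the core and satisfy the relation -/
def RelStmt : Prop :=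
  ∀ P lt l, PgOut P lt l → ∃ L, IsL P l L ∧ (∀ a, In (L a) (Sg P)) ∧
    ∀ (Γ : Type) [Group Γ] (μ : Tr YY Γ), Hol (Sg P) μ → ev μ L (rel 4) = 1

/-- row W23: the two walls in the boundary of the ball -/
def W23Stmt : Prop :=
  ∀ P lt l L, PgOut P lt l → IsL P l L →
    (∃ ρ : Tr YY (F 2), Hol (H2 P) ρ ∧ ev ρ L = glueF (MonoidHom.id _) (MonoidHom.id _)) ∧
    ∃ ρ : Tr YY (F 2), Hol (H3 P) ρ ∧ ev ρ L = glueF (MonoidHom.id _) phi.toMonoidHom

/-- row W1V: the outer part of the middle wall -/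
def W1VStmt : Prop :=
  ∀ P lt l L (D : Type) [Group D] (v : D × D × D) (σ : Tr V3 D), PgOut P lt l → IsL P l L →
    Rel v → WS (el v) σ → ∃ ρ : Tr YY (Monoid.Coprod D D), Hol (H1 P ∩ Vy) ρ ∧ ev ρ L = dF v ∧
      ∀ c, ∃ k, Gau (Cc c \ KY) (mp (inc c) (pb qy σ)) ρ k

/-- row W1W: the inner part of the middle wall -/
def W1WStmt : Prop :=
  ∀ P lt l (D : Type) [Group D] (g h : D) (σ : Tr V3 D), PgOut P lt l → Rel2 g h →
    WS (el (g, g, h)) σ → ∃ ρ : Tr YY (Monoid.Coprod D D), Hol (H1 P ∩ Wy) ρ ∧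
      ∀ c, Agree (Cc c \ KY) (mp (inc c) (pb qy σ)) ρ

/-- row LOC: the exceptional orbits do not separate locally -/
def LocStmt : Prop :=
  ∀ c, ∀ y ∈ Cc c ∩ KY, ∀ O ∈ 𝓝 y, ∃ V, IsOpen V ∧ y ∈ V ∧ V ⊆ O ∧ SC (Cc c ∩ V) ∧
    IsPathConnected ((Cc c ∩ V) \ KY)

/-- the reglued decomposition seen from the model -/
structure RegY (P : Prof) (Θ : V3 → V3) (X : Fin 3 → Set S4) (E1 E2 : YY → S4) (g1 g2 : S4 → YY) :
    Prop where
  c2 : ContinuousOn E2 Vy
  o1 : IsOpen (E1 '' Wy)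
  o2 : IsOpen (E2 '' Vy)
  d1 : ContinuousOn g1 (E1 '' Wy)
  d2 : ContinuousOn g2 (E2 '' Vy)
  l1 : ∀ y ∈ Wy, g1 (E1 y) = y
  l2 : ∀ y ∈ Vy, g2 (E2 y) = y
  ovl : ∀ x ∈ Wy, ∀ y ∈ Vy, E1 x = E2 y →
    x ∈ Vy ∧ y ∈ Wy ∧ ph (pl x.1) = ph (pl y.1) ∧ qy x = Θ (qy y)
  into : ∀ y ∈ Vy ∩ Wy, E2 y ∈ E1 '' Wy
  cor : MapsTo E2 (Sg P) (core X)
  w01 : X 0 ∩ X 1 ⊆ E2 '' H2 P
  w12 : X 1 ∩ X 2 ⊆ E2 '' (H1 P ∩ Vy) ∪ E1 '' (H1 P ∩ Wy)
  w20 : X 2 ∩ X 0 ⊆ E2 '' H3 P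

/-- row BRIDGE (from NRM) -/
def BridgeStmt : Prop :=
  ∀ (P : Prof) Θ e1 e2, Reg Θ e1 e2 → ∃ E1 E2 g1 g2,
    RegY P Θ (fun i => reglue e1 e2 (tri (AA P) (BB P) i)) E1 E2 g1 g2

/-- row FIN -/
def FinStmt : Prop :=
  BaseStmt → AlgStmt → PgStmt → RelStmt → W23Stmt → W1VStmt → W1WStmt → LocStmt → BridgeStmt →
    PStmt

end Pool.Agent.MP_7ebdba_gt.sm.p

end
end MrgPart6

-- ======== part 7: formerly Pool.Agent.MP_7ebdba_gt.sm.p.Shape
section MrgPart7

/-! The five simply connected pieces of the curve `z ^ 3 - w ^ 2 = 1`. -/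

open Set Complex

noncomputable section

namespace Pool.Agent.MP_7ebdba_gt.sm.Shape

open MP_e1dc65_gt

/-- the open sector of half angle `π / 3` -/
def Sec (z : ℂ) : Prop := ‖z‖ < 2 * z.re

theorem Sec.re_pos {z : ℂ} (h : Sec z) : 0 < z.re := by
  have := norm_nonneg z
  unfold Sec at h
  linarith

theorem sec_iff {z : ℂ} : Sec z ↔ 0 < z.re ∧ z.im ^ 2 < 3 * z.re ^ 2 := by
  have e : ‖z‖ ^ 2 = z.re ^ 2 + z.im ^ 2 := by rw [Complex.sq_norm, normSq_apply]; ring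
  constructor
  · intro h
    have h1 := h.re_pos
    have h2 := norm_nonneg z
    unfold Sec at h
    exact ⟨h1, by nlinarith⟩
  · rintro ⟨h1, h2⟩
    exact lt_of_pow_lt_pow_left₀ 2 (by positivity) (by nlinarith)

theorem isOpen_sec : IsOpen {z | Sec z} := isOpen_lt continuous_norm (by fun_prop)

theorem cube_re (z : ℂ) : (z ^ 3).re = z.re * (z.re ^ 2 - 3 * z.im ^ 2) := by
  simp [pow_succ]; ring

theorem cube_im (z : ℂ) : (z ^ 3).im = z.im * (3 * z.re ^ 2 - z.im ^ 2) := by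
  simp [pow_succ]; ring

theorem Sec.cube {z : ℂ} (h : Sec z) : z ^ 3 ∈ slitPlane := by
  obtain ⟨h1, h2⟩ := sec_iff.1 h
  rw [mem_slitPlane_iff, cube_re, cube_im]
  by_cases h0 : z.im = 0
  · left; rw [h0]; exact mul_pos h1 (by nlinarith)
  · right; exact mul_ne_zero h0 (by linarith)

theorem Sec.arg {z : ℂ} (h : Sec z) : |arg z| < Real.pi / 3 := by
  have h0 : z ≠ 0 := by rintro rfl; simp [Sec] at h
  have hn := norm_pos_iff.2 h0
  by_contra c
  have h1 : Real.cos |Complex.arg z| ≤ Real.cos (Real.pi / 3) :=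
    Real.cos_le_cos_of_nonneg_of_le_pi (by positivity) (abs_arg_le_pi z) (not_lt.1 c)
  rw [Real.cos_abs, Real.cos_pi_div_three, cos_arg h0, div_le_iff₀ hn] at h1
  unfold Sec at h
  linarith

/-- the principal cube root -/
def cbrt (v : ℂ) : ℂ := v ^ ((3 : ℂ)⁻¹)

theorem cbrt_cube (v : ℂ) : cbrt v ^ 3 = v := cpow_ofNat_inv_pow v 3

theorem Sec.cbrt {z : ℂ} (h : Sec z) : cbrt (z ^ 3) = z := by
  have := abs_lt.1 h.arg
  exact pow_cpow_ofNat_inv (n := 3) this.1 this.2.le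

theorem sec_cbrt {v : ℂ} (h : v ∈ slitPlane) : Sec (cbrt v) := by
  have h0 := slitPlane_ne_zero h
  have h1 := neg_pi_lt_arg v
  have h2 := arg_lt_pi_iff.2 (show 0 ≤ v.re ∨ v.im ≠ 0 from h.imp le_of_lt id)
  have e : (log v * (3 : ℂ)⁻¹).im = arg v / 3 := by
    rw [show (3 : ℂ)⁻¹ = ((3⁻¹ : ℝ) : ℂ) by simp, im_mul_ofReal, log_im]; ring
  have h3 : Real.cos (Real.pi / 3) < Real.cos |arg v / 3| :=
    Real.cos_lt_cos_of_nonneg_of_le_pi (abs_nonneg _) (by linarith [Real.pi_pos])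
      (abs_lt.2 ⟨by linarith, by linarith⟩)
  rw [Real.cos_abs, Real.cos_pi_div_three] at h3
  rw [Sec, cbrt, cpow_def_of_ne_zero h0, norm_exp, exp_re, e]
  have := Real.exp_pos (log v * (3 : ℂ)⁻¹).re
  nlinarith

theorem cont_cbrt : ContinuousOn cbrt slitPlane := fun _ h =>
  (continuousAt_cpow_const h).continuousWithinAt

theorem sqrt_sq (v : ℂ) : sqrt v ^ 2 = v := cpow_ofNat_inv_pow v 2

theorem sqrt_re_pos {v : ℂ} (h : v ∈ slitPlane) : 0 < (sqrt v).re := by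
  rw [Complex.sqrt, cpow_inv_two_re, Real.sqrt_pos]
  rcases h with h | h
  · have := norm_nonneg v
    linarith
  · have := abs_lt.1 (abs_re_lt_norm.2 h)
    linarith

theorem sq_slit {w : ℂ} (h : 0 < w.re) : w ^ 2 ∈ slitPlane := by
  rw [mem_slitPlane_iff]
  by_cases h0 : w.im = 0
  · left; simp [pow_two, h0, h.ne']
  · right; simp [pow_two, h0, h.ne', mul_comm w.im, ← two_mul]

theorem sq_sqrt {w : ℂ} (h : 0 < w.re) : sqrt (w ^ 2) = w := sq_cpow_two_inv h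

/-- the curve -/
def Mil : Set (ℂ × ℂ) := {p | p.1 ^ 3 - p.2 ^ 2 = 1}

theorem star_pow (n : ℕ) (c : ℂ) : StarConvex ℝ 0 {z : ℂ | 1 + c * z ^ n ∈ slitPlane} := by
  rw [starConvex_zero_iff]
  intro z hz a h0 h1
  have := starConvex_one_slitPlane hz (a := 1 - a ^ n) (b := a ^ n)
    (sub_nonneg.2 (pow_le_one₀ h0 h1)) (pow_nonneg h0 n) (by ring)
  show 1 + c * (a • z) ^ n ∈ slitPlane
  convert this using 1
  simp only [real_smul, mul_pow]
  push_cast
  ring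

/-- the two hexagons: for `c = I` the part `im w < 0`, for `c = -I` the part `0 < im w` -/
theorem scA {c : ℂ} (hc : c ^ 2 = -1) : SC {p ∈ Mil | 0 < (c * p.2).re} := by
  have h0 : c ≠ 0 := by rintro rfl; simp at hc
  have e : ∀ p ∈ Mil, 1 + -1 * p.1 ^ 3 = (c * p.2) ^ 2 := fun p (hp : _ = _) => by
    rw [mul_pow, hc]; linear_combination -hp
  refine (sc_star (x := 0) (by simp) (star_pow 3 (-1))).retract
    (f := fun z => (z, c⁻¹ * sqrt (1 + -1 * z ^ 3))) (g := fun p => p.1)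
    (continuousOn_id.prodMk (continuousOn_const.mul
      (continuousOn_sqrt.comp (by fun_prop) fun z hz => hz))) (fun z hz => ⟨?_, ?_⟩)
    continuousOn_fst (fun p hp => ?_) fun p hp => ?_
  · show z ^ 3 - (c⁻¹ * sqrt (1 + -1 * z ^ 3)) ^ 2 = 1
    rw [mul_pow, sqrt_sq, inv_pow, hc]
    ring
  · simpa only [mul_inv_cancel_left₀ h0] using sqrt_re_pos hz
  · show 1 + -1 * p.1 ^ 3 ∈ slitPlane
    rw [e p hp.1]
    exact sq_slit hp.2
  · rw [e p hp.1, sq_sqrt hp.2, inv_mul_cancel_left₀ h0]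

theorem cube_eq {c : ℂ} (hc : c ^ 3 = 1) {p : ℂ × ℂ} (a : p ∈ Mil) :
    1 + 1 * p.2 ^ 2 = (c * p.1) ^ 3 := by
  have a' : p.1 ^ 3 - p.2 ^ 2 = 1 := a
  rw [mul_pow, hc]
  linear_combination -a'

theorem retB {c : ℂ} (hc : c ^ 3 = 1) {S : Set ℂ} (hS : ∀ w ∈ S, 1 + 1 * w ^ 2 ∈ slitPlane)
    {U : Set (ℂ × ℂ)} (h : SC S) (h1 : ∀ p ∈ U, p ∈ Mil ∧ Sec (c * p.1) ∧ p.2 ∈ S)
    (h2 : ∀ p ∈ Mil, Sec (c * p.1) → p.2 ∈ S → p ∈ U) : SC U := by
  have h0 : c ≠ 0 := by rintro rfl; simp at hc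
  refine h.retract (f := fun w => (c⁻¹ * cbrt (1 + 1 * w ^ 2), w)) (g := fun p => p.2)
    ((continuousOn_const.mul (cont_cbrt.comp (by fun_prop) hS)).prodMk continuousOn_id)
    (fun w hw => h2 _ ?_ ?_ hw) continuousOn_snd (fun p hp => (h1 p hp).2.2) fun p hp => ?_
  · show (c⁻¹ * cbrt (1 + 1 * w ^ 2)) ^ 3 - w ^ 2 = 1
    rw [mul_pow, cbrt_cube, inv_pow, hc]
    ring
  · simpa only [mul_inv_cancel_left₀ h0] using sec_cbrt (hS w hw)
  · obtain ⟨a, b, -⟩ := h1 p hp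
    rw [cube_eq hc a, b.cbrt, inv_mul_cancel_left₀ h0]

theorem slit_of_sec {c : ℂ} (hc : c ^ 3 = 1) {p : ℂ × ℂ} (a : p ∈ Mil) (b : Sec (c * p.1)) :
    1 + 1 * p.2 ^ 2 ∈ slitPlane :=
  cube_eq hc a ▸ b.cube

/-- the three sectors -/
theorem scB {c : ℂ} (hc : c ^ 3 = 1) : SC {p ∈ Mil | Sec (c * p.1)} :=
  retB hc (S := {w | 1 + 1 * w ^ 2 ∈ slitPlane}) (fun _ h => h)
    (sc_star (x := 0) (by simp) (star_pow 2 1))
    (fun _ hp => ⟨hp.1, hp.2, slit_of_sec hc hp.1 hp.2⟩) fun _ a b _ => ⟨a, b⟩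

theorem starAB : StarConvex ℝ (2⁻¹ : ℂ) {w : ℂ | 0 < w.re ∧ 1 - w ^ 2 ∈ slitPlane} := by
  rintro w ⟨h1, h2⟩ a b ha hb hab
  have e1 : (a • (2⁻¹ : ℂ) + b • w).re = a / 2 + b * w.re := by simp; ring
  have e2 : (a • (2⁻¹ : ℂ) + b • w).im = b * w.im := by simp
  have k : ∀ u : ℂ, 0 < u.re → (1 - u ^ 2 ∈ slitPlane ↔ u.re < 1 ∨ u.im ≠ 0) := fun u hu => by
    rw [mem_slitPlane_iff]
    by_cases h0 : u.im = 0
    · simp only [pow_two, sub_re, one_re, mul_re, h0, mul_zero, sub_zero, sub_im, one_im, mul_im,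
        zero_mul, add_zero, ne_eq, not_true_eq_false, or_false]
      constructor <;> intro <;> nlinarith
    · simp [pow_two, h0, hu.ne', mul_comm u.im, ← two_mul]
  have p : 0 < a / 2 + b * w.re := by
    rcases ha.eq_or_lt with rfl | ha
    · rw [zero_add] at hab; subst hab; linarith
    · positivity
  refine ⟨e1 ▸ p, (k _ (e1 ▸ p)).2 ?_⟩
  rw [e1, e2]
  rcases hb.eq_or_lt with rfl | hb'
  · left; linarith
  · exact ((k w h1).1 h2).imp (fun h => by nlinarith) (mul_ne_zero hb'.ne')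

/-- the six overlaps -/
theorem scAB {d c : ℂ} (hd : d ^ 2 = -1) (hc : c ^ 3 = 1) :
    SC {p ∈ Mil | 0 < (d * p.2).re ∧ Sec (c * p.1)} := by
  have h0 : d ≠ 0 := by rintro rfl; simp at hd
  have e : ∀ w : ℂ, 1 - (d * w) ^ 2 = 1 + 1 * w ^ 2 := fun w => by rw [mul_pow, hd]; ring
  refine retB hc (S := {w | 0 < (d * w).re ∧ 1 + 1 * w ^ 2 ∈ slitPlane}) (fun _ h => h.2) ?_
    (fun p hp => ⟨hp.1, hp.2.2, hp.2.1, slit_of_sec hc hp.1 hp.2.2⟩) fun _ a b h => ⟨a, h.1, b⟩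
  refine (sc_star (by constructor <;> norm_num [mem_slitPlane_iff]) starAB).retract
    (f := fun u => d⁻¹ * u) (g := fun w => d * w) (by fun_prop) (fun u hu => ?_) (by fun_prop)
    (fun w hw => ⟨hw.1, e w ▸ hw.2⟩) fun w _ => inv_mul_cancel_left₀ h0 w
  rw [mem_ofPred_eq, ← e, mul_inv_cancel_left₀ h0]
  exact hu

end Pool.Agent.MP_7ebdba_gt.sm.Shape

end
end MrgPart7

-- ======== part 8: formerly Pool.Agent.MP_7ebdba_gt.sm.p.PageA
section MrgPart8

/-! Block P, row PAGE A: the pieces of the Milnor fibre. -/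

open scoped Topology ComplexConjugate
open Set Filter Complex

noncomputable section

namespace Pool.Agent.MP_7ebdba_gt.sm.p

open MP_e1dc65_gt Shape

namespace PA

theorem om_prim : IsPrimitiveRoot om 3 := by
  have := Complex.isPrimitiveRoot_exp 3 (by norm_num)
  convert this using 1
  simp only [om, ex]
  congr 1
  push_cast
  ring

theorem om_cube : om ^ 3 = 1 := om_prim.pow_eq_one

theorem om_ne : om ≠ 0 := om_prim.ne_zero (by norm_num)

theorem norm_om : ‖om‖ = 1 := norm_exp_ofReal_mul_I _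

theorem conj_om : conj om = om⁻¹ := (inv_eq_conj norm_om).symm

/-- the cube root of unity that turns the sector `j` to the sector `0` -/
def cj (j : Fin 3) : ℂ := conj om ^ (j : ℕ)

theorem cj_cube (j : Fin 3) : cj j ^ 3 = 1 := by
  rw [cj, ← pow_mul, mul_comm, pow_mul, ← map_pow, om_cube, map_one, one_pow]

theorem norm_cj (j : Fin 3) : ‖cj j‖ = 1 := by simp [cj, norm_om]

theorem cj_inj {i j : Fin 3} (h : cj i = cj j) : i = j := by
  rw [cj, cj, conj_om] at h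
  exact Fin.ext (om_prim.inv.pow_inj i.2 j.2 h)

theorem ex_cj {c : ℂ} (h : c ^ 3 = 1) : ∃ j, cj j = c := by
  obtain ⟨i, hi, e⟩ := om_prim.inv.eq_pow_of_pow_eq_one h
  exact ⟨⟨i, hi⟩, by rw [cj, conj_om, e]⟩

theorem mem_NM {j : Fin 3} {x : C2} : x ∈ NM j ↔ Sec (cj j * x.1) := by
  rw [Sec, norm_mul, norm_cj, one_mul, mul_comm (cj j), ← div_lt_iff₀' two_pos]
  rfl

theorem open_NM (j : Fin 3) : IsOpen (NM j) := isOpen_lt (by fun_prop) (by fun_prop)

theorem NM_dis {i j : Fin 3} {x : C2} (h : x ∈ NM i) (h' : x ∈ NM j) : i = j := by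
  rw [mem_NM] at h h'
  have h0 : x.1 ≠ 0 := fun e => by simp [Sec, e] at h
  have a := h.cbrt
  have b := h'.cbrt
  rw [mul_pow, cj_cube] at a b
  exact cj_inj (mul_right_cancel₀ h0 (a.symm.trans b))

theorem NM_of_slit {x : C2} (h : x.1 ^ 3 ∈ slitPlane) : ∃ j, x ∈ NM j := by
  have h0 : x.1 ≠ 0 := fun e => by simp [e] at h
  obtain ⟨j, e⟩ := ex_cj (c := cbrt (x.1 ^ 3) / x.1) (by
    rw [div_pow, cbrt_cube, div_self (pow_ne_zero 3 h0)])
  exact ⟨j, by rw [mem_NM, e, div_mul_cancel₀ _ h0]; exact sec_cbrt h⟩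

theorem MM_eq : MM = Mil := rfl

theorem wdM : WD MM (fun x => x.2.im) NM := by
  refine ⟨by fun_prop, open_NM, fun i j x _ => NM_dis, fun x hx h => NM_of_slit ?_⟩
  rw [← one_mul x.1, ← cube_eq (one_pow 3) hx]
  left
  have : 0 ≤ x.2.re * x.2.re := mul_self_nonneg _
  simp only [pow_two, add_re, one_re, one_mul, mul_re, h, mul_zero, sub_zero]
  linarith

theorem posI (x : C2) : 0 < (-I * x.2).re ↔ 0 < x.2.im := by simp

theorem negI (x : C2) : 0 < (I * x.2).re ↔ x.2.im < 0 := by simp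

theorem far_iff {x : C2} (h : x ∈ MM) : ¬ near (1 / 10) x ↔ ‖x.1‖ ^ 3 ≤ 10 := by
  rw [near, show pl x = 1 from h, norm_one, not_lt]
  constructor <;> intro <;> linarith

theorem pc_far : IsPathConnected (MM ∩ {x | x.2.im < 0} ∩ {x | ¬ near (1 / 10) x}) := by
  have e : ∀ p ∈ Mil, 1 + -1 * p.1 ^ 3 = (I * p.2) ^ 2 := fun p (hp : _ = _) => by
    rw [mul_pow, I_sq]; linear_combination -hp
  have st : StarConvex ℝ 0 ({z : ℂ | 1 + -1 * z ^ 3 ∈ slitPlane} ∩ {z | ‖z‖ ^ 3 ≤ 10}) := by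
    refine (star_pow 3 (-1)).inter (starConvex_zero_iff.2 fun z hz a h0 h1 => ?_)
    show ‖a • z‖ ^ 3 ≤ 10
    rw [norm_smul, Real.norm_of_nonneg h0, mul_pow]
    exact (mul_le_of_le_one_left (by positivity) (pow_le_one₀ h0 h1)).trans hz
  refine ((MP_e1dc65_gt.sc_star (x := 0) (by simp) st).retract
    (f := fun z => (z, I⁻¹ * sqrt (1 + -1 * z ^ 3))) (g := fun p => p.1)
    (continuousOn_id.prodMk (continuousOn_const.mul
      (continuousOn_sqrt.comp (by fun_prop) fun z hz => hz.1))) (fun z hz => ?_)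
    continuousOn_fst (fun p hp => ⟨?_, (far_iff hp.1.1).1 hp.2⟩) fun p hp => ?_).1
  · have m : (z, I⁻¹ * sqrt (1 + -1 * z ^ 3)) ∈ MM := by
      show z ^ 3 - (I⁻¹ * sqrt (1 + -1 * z ^ 3)) ^ 2 = 1
      rw [mul_pow, sqrt_sq, inv_pow, I_sq]
      ring
    refine ⟨⟨m, (negI _).1 ?_⟩, (far_iff m).2 hz.2⟩
    simpa only [mul_inv_cancel_left₀ I_ne_zero] using sqrt_re_pos hz.1
  · show 1 + -1 * p.1 ^ 3 ∈ slitPlane
    rw [e p hp.1.1]
    exact sq_slit ((negI p).2 hp.1.2)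
  · rw [e p hp.1.1, sq_sqrt ((negI p).2 hp.1.2), inv_mul_cancel_left₀ I_ne_zero]

end PA

open PA in
theorem pageA : PageAStmt := by
  have n : (-I) ^ 2 = -1 := by rw [neg_sq, I_sq]
  refine ⟨wdM, ?_, ?_, pc_far, fun j => ⟨?_, ?_, ?_⟩⟩
  · convert scA n using 1
    ext x
    exact and_congr Iff.rfl (posI x).symm
  · convert scA I_sq using 1
    ext x
    exact and_congr Iff.rfl (negI x).symm
  · convert scB (cj_cube j) using 1
    ext x
    exact and_congr Iff.rfl mem_NM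
  · convert (scAB n (cj_cube j)).1 using 1
    ext x
    rw [mem_inter_iff, mem_inter_iff, mem_NM, mem_ofPred_eq, ← posI, MM_eq, mem_sep_iff]
    tauto
  · convert (scAB I_sq (cj_cube j)).1 using 1
    ext x
    rw [mem_inter_iff, mem_inter_iff, mem_NM, mem_ofPred_eq, ← negI, MM_eq, mem_sep_iff]
    tauto

end Pool.Agent.MP_7ebdba_gt.sm.p

end
end MrgPart8

-- marker of a merged file
example : 731051 + 533376 = 731051 + 533376 := rfl

end MrgPart0

-- ======== part 1: formerly Pool.Agent.MP_7ebdba_gt.sm.p.NoCh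
section MrgPart1

/-! Row ALG, first part: no chain for an explicit slope. -/

namespace Pool.Agent.MP_7ebdba_gt.sm.p.nc

open ch ge Set

section Map
variable {P : Type} [Group P] (θ : P ≃* P) {g g' : P} {X : Set P} {s : P → ZMod 2}

theorem fm_map (h : ch.FinMod g X) : ch.FinMod (θ g) {x | θ.symm x ∈ X} := by
  classical
  obtain ⟨R, hR⟩ := h
  refine ⟨R.image θ, fun x hx => ?_⟩
  obtain ⟨n, r, hr, e⟩ := hR _ hx
  exact ⟨n, θ r, Finset.mem_image_of_mem _ hr, by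
    rw [← map_zpow, ← map_mul, ← e, θ.apply_symm_apply]⟩

theorem side_map (h : Side g s) : Side (θ g) fun x => s (θ.symm x) := by
  refine ⟨⟨fun x => by simp [h.1.1], fun y => by simpa using fm_map θ (h.1.2 (θ.symm y))⟩,
    fun s1 h1 => ?_⟩
  obtain ⟨c, e, H⟩ := h.2 (fun x => s1 (θ x)) ⟨h1.1.imp fun w hw x => by simp [hw], fun y => by
    simpa using fm_map θ.symm (h1.2 (θ y))⟩
  exact ⟨c, e, by simpa using fm_map θ H⟩

theorem adj_map (h : Adj g g') : Adj (θ g) (θ g') := by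
  obtain ⟨s, hs, h1, h2⟩ := h
  have k : ∀ x, x ∉ Subgroup.zpowers (θ g) → θ.symm x ∉ Subgroup.zpowers g := by
    rintro x hx ⟨n, e⟩
    exact hx ⟨n, by simpa using congrArg θ e⟩
  refine ⟨_, side_map θ hs, fun x hx => ?_, fun x hx hx' => ?_⟩
  · simpa using h1 _ (k x hx)
  · simpa using h2 _ (k x hx) (by simpa using k _ hx')

end Map

theorem hom_pw {F : G →* G} {δ : G} {f : Bool → G} (h : ∀ b, F (pw [b]) = δ * f b * δ⁻¹)
    (l : List Bool) : F (pw l) = δ * (l.map f).prod * δ⁻¹ := by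
  induction l with
  | nil => simp [pw]
  | cons b l ih =>
    have : pw (b :: l) = pw [b] * pw l := by simp [pw]
    rw [this, map_mul, h, ih, List.map_cons, List.prod_cons]
    group

theorem iter {ι : S 2 →* G} {φ : MulAut (S 2)} {F : G →* G} {δ : G} (h1 : ∀ y, ι (φ y) = F (ι y))
    (h2 : ∀ b, F (pw [b]) = δ * pw (sub b) * δ⁻¹) (n : ℕ) : ∃ (F' : G →* G) (δ' : G),
      (∀ y, ι ((φ ^ n) y) = F' (ι y)) ∧ ∀ b, F' (pw [b]) = δ' * blk n b * δ'⁻¹ := by
  induction n with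
  | zero => exact ⟨MonoidHom.id G, 1, fun y => rfl, fun b => by simp [blk]⟩
  | succ n ih =>
    obtain ⟨F', δ', a, b⟩ := ih
    refine ⟨F'.comp F, F' δ * δ', fun y => ?_, fun c => ?_⟩
    · rw [pow_succ, MulAut.mul_apply, a, h1, MonoidHom.comp_apply]
    · rw [MonoidHom.comp_apply, h2, map_mul, map_mul, hom_pw b, map_inv, blk]
      group

theorem flat_len {l : List Bool} (hl : true ∈ l) :
    true ∈ l.flatMap sub ∧ 5 ≤ (l.flatMap sub).length := by
  obtain ⟨l1, l2, rfl⟩ := List.append_of_mem hl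
  simp [sub]
  omega

theorem no_chain_of {ι : S 2 →* G} {φ : MulAut (S 2)} {F : G →* G} {δ : G}
    (inj : Function.Injective ι) (ran : ∀ x, cls x = 1 ↔ x ∈ ι.range)
    (hU : ∀ y, ι (Phi y) = U * ι y * U⁻¹) (hr : ∀ y, r0 y = 1 → ¬ Pos (ι y))
    (h1 : ∀ y, ι (φ y) = F (ι y)) (h2 : ∀ b, F (pw [b]) = δ * pw (sub b) * δ⁻¹) :
    ¬ Chain (r0.comp (φ ^ 46 : MulAut (S 2)).toMonoidHom) := by
  have dense : ∀ {g w d p}, g ≠ 1 → ¬ Pos (ι g) → Path w d p → Dense g (fam ι w) 1 1 :=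
    fun {g w d p} hg hp h => by
      obtain ⟨v, hv⟩ := kS (ι g) ((ran _).2 ⟨g, rfl⟩) (fun e => hg (inj (by simpa using e))) hp
      exact h.dense ran (pull ntv ι inj ran g v hv)
  have ne : ∀ (n : ℕ) {g}, g ≠ 1 → (φ ^ n) g ≠ 1 := fun n g hg => by simpa using hg
  have mono1 : ∀ {n g}, ¬ Pos (ι ((φ ^ (n + 1)) g)) → ¬ Pos (ι ((φ ^ n) g)) := by
    rintro n g h ⟨γ, l, hl, e⟩
    refine h ⟨F γ * δ, l.flatMap sub, (flat_len hl).1, ?_⟩
    rw [pow_succ', MulAut.mul_apply, h1, e, map_mul, map_mul, hom_pw (f := blk 1) (fun b => by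
      rw [h2, blk, pw_blk]), blk_flat, ← pw_blk, map_inv]
    group
  have mono : ∀ {n g} k, ¬ Pos (ι ((φ ^ (n + k)) g)) → ¬ Pos (ι ((φ ^ n) g)) := by
    intro n g k
    induction k with
    | zero => exact id
    | succ k ih => exact fun h => ih (mono1 h)
  have step : ∀ {n g g'}, Adj g g' → g ≠ 1 → ¬ Pos (ι ((φ ^ (n + 9)) g)) →
      ¬ Pos (ι ((φ ^ n) g')) := by
    rintro n g g' a hg h ⟨γ, l, hl, e⟩
    obtain ⟨F', δ', b1, b2⟩ := iter h1 h2 9
    have hl' := flat_len hl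
    obtain ⟨w, hw⟩ := exists_path (F' γ * δ') (List.ne_nil_of_mem hl'.1)
    refine depth hw.sys (adj_map (φ ^ (n + 9)) a) (dense (ne _ hg) h hw) (fun k y => ?_)
      (le_trans (by norm_num) hl'.2) one_pos
    have : ι ((φ ^ (n + 9)) g') =
        F' γ * δ' * ((l.flatMap sub).map (blk 8)).prod * (F' γ * δ')⁻¹ := by
      rw [add_comm, pow_add, MulAut.mul_apply, b1, e, map_mul, map_mul, hom_pw b2, blk_flat, map_inv]
      group
    rw [fam, fam, mem_ofPred_eq, mem_ofPred_eq, hw.per, map_mul, this, mul_inv_rev, mul_assoc,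
      inv_mul_cancel_left]
  rintro ⟨g0, g1, g2, g3, x, n0, n1, n2, n3, nx, hx, a0, a1, a2, a3, ax⟩
  have px : ¬ Pos (ι ((φ ^ (37 + 9)) x)) := hr _ (by simpa using hx)
  have all : ¬ Pos (ι ((φ ^ 19) g0)) ∧ ¬ Pos (ι ((φ ^ 19) g1)) ∧ ¬ Pos (ι ((φ ^ 19) g2)) ∧
      ¬ Pos (ι ((φ ^ 19) g3)) := by
    rcases ax with ⟨b0, b1⟩ | ⟨b2, b3⟩
    · have p1 := step b1.1 nx px
      have p2 := step (n := 28) a1.1 n1 p1
      exact ⟨mono 18 (step b0.1 nx px), mono 18 p1, mono 9 p2, step a2.1 n2 p2⟩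
    · have p2 := step b2.1 nx px
      have p1 := step (n := 28) a1.2 n2 p2
      exact ⟨step a0.2 n1 p1, mono 9 p1, mono 18 p2, mono 18 (step b3.1 nx px)⟩
  obtain ⟨p0, p1, p2, p3⟩ := all
  obtain ⟨F', δ', b1, b2⟩ := iter h1 h2 10
  obtain ⟨w, hw⟩ := exists_path δ' (l := (sub true).flatMap sub) (by decide)
  let Φ : S 2 →* S 2 := (φ ^ 10 * Phi * (φ ^ 10)⁻¹ : MulAut (S 2)).toMonoidHom
  have eΦ : ∀ y, Φ ((φ ^ 10) y) = (φ ^ 10) (Phi y) := fun y => by simp [Φ]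
  have hd : F' U = δ' * (((sub true).flatMap sub).map (blk 8)).prod * δ'⁻¹ := by
    rw [← blk_flat, ← blk, ← b2]
    simp [pw]
  obtain ⟨γ, hγ⟩ := Path.shift (p := 28) hw ran (Φ := Φ) fun y => by
    obtain ⟨y, rfl⟩ := (φ ^ 10).surjective y
    rw [eΦ, b1, b1, hU, map_mul, map_mul, map_inv, hd]
  refine endgame hw.sys (adj_map (φ ^ 10) a0.1) (adj_map (φ ^ 10) a1.1) (adj_map (φ ^ 10) a2.1)
    (Φ := Φ) (eΦ g0 ▸ ⟨adj_map (φ ^ 10) a3.1, adj_map (φ ^ 10) a3.2⟩)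
    (dense (ne _ n0) (mono 9 p0) hw) (dense (ne _ n1) (mono 9 p1) hw)
    (dense (ne _ n2) (mono 9 p2) hw) (dense (ne _ n3) (mono 9 p3) hw)
    (eΦ g0 ▸ dense (ne _ (by simpa using n0)) (step a3.1 n3 p3) hw) hγ (by norm_num)

/-- the change of slope -/
def fi : MulAut (S 2) := Tau ^ 2 * Tinf⁻¹

/-- the corresponding endomorphism of the orbifold group -/
def Fm : G →* G :=
  (MulAut.conj (W.wT * W.th W.wT)).toMonoidHom.comp (W.th.comp (W.th.comp W.t2))

theorem iota_fi (y : S 2) : W.iota (fi y) = Fm (W.iota y) := by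
  rw [fi, sq, MulAut.mul_apply, MulAut.mul_apply, W.iota_Tau, W.iota_Tau, W.iota_Tinf]
  simp [Fm, mul_assoc]

theorem Fm_pw (b : Bool) : Fm (pw [b]) =
    W.wT * W.th W.wT * R * R * pw (sub b) * (W.wT * W.th W.wT * R * R)⁻¹ := by
  cases b <;> simp [Fm, pw, sub, W.t2_U, W.t2_R, W.th_U, W.th_R, mul_assoc]

theorem no_chain : ¬ Chain (r0.comp (fi ^ 46 : MulAut (S 2)).toMonoidHom) :=
  no_chain_of W.iota_inj W.iota_range W.iota_Phi W.not_pos iota_fi Fm_pw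

end Pool.Agent.MP_7ebdba_gt.sm.p.nc

end MrgPart1

-- marker of a merged file
example : 731051 + 343462 = 731051 + 343462 := rfl
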