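import Mathlib.LinearAlgebra.Complex.FiniteDimensional
import Mathlib.RingTheory.PiTensorProduct
import Pool.Agent.MP_7ebdba_gt.ch.Main
import Pool.Agent.MP_7ebdba_gt.sm.p.NoCh

-- ======== part 0: formerly Pool.Agent.MP_7ebdba_gt.sm.m.Conn1
section MrgPart0

-- ======== part 0: formerly Pool.Agent.MP_7ebdba_gt.sm.Nrm
section MrgPart0

/-! The weighted normalisation `nrm` and the chart `ct` near the knot. -/

open scoped ContDiff Topology ComplexConjugate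
open Set Complex Filter

noncomputable section

namespace Pool.Agent.MP_7ebdba_gt.sm

variable {F : Type} [NormedAddCommGroup F] [NormedSpace ℝ F] {z w : ℂ} {t : ℝ}

/-! ### The factor `lam` -/

theorem lam_pos0 (h : z ≠ 0 ∨ w ≠ 0) : 0 < normSq z + normSq w := by
  have := normSq_nonneg z
  have := normSq_nonneg w
  rcases h with h | h <;> have := normSq_pos.2 h <;> linarith

theorem lam_lt (h : z ≠ 0 ∨ w ≠ 0) {L M : ℝ} (hL : 0 < L) (hM : L < M) :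
    L ^ 4 * normSq z + L ^ 6 * normSq w < M ^ 4 * normSq z + M ^ 6 * normSq w := by
  have a := normSq_nonneg z
  have b := normSq_nonneg w
  have h4 : L ^ 4 < M ^ 4 := by gcongr
  have h6 : L ^ 6 < M ^ 6 := by gcongr
  rcases h with h | h <;> have := normSq_pos.2 h
  · exact add_lt_add_of_lt_of_le (by gcongr) (by gcongr)
  · exact add_lt_add_of_le_of_lt (by gcongr) (by gcongr)

theorem lam_ex (h : z ≠ 0 ∨ w ≠ 0) (t : ℝ) :
    ∃ L : ℝ, 0 < L ∧ (L ^ 4 * normSq z + L ^ 6 * normSq w) * (1 + t ^ 2) = 1 := by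
  have a := normSq_nonneg z
  have b := normSq_nonneg w
  have s := lam_pos0 h
  have c : Continuous fun L : ℝ => (L ^ 4 * normSq z + L ^ 6 * normSq w) * (1 + t ^ 2) := by
    fun_prop
  obtain ⟨M, h1, h2⟩ : ∃ M : ℝ, 1 ≤ M ∧ 1 ≤ M * (normSq z + normSq w) :=
    ⟨1 + (normSq z + normSq w)⁻¹, le_add_of_nonneg_right (inv_pos.2 s).le, by
      rw [add_mul, inv_mul_cancel₀ s.ne']; linarith⟩
  have h4 : M ≤ M ^ 4 := le_self_pow₀ h1 (by norm_num)
  have h6 : M ≤ M ^ 6 := le_self_pow₀ h1 (by norm_num)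
  have h3 : 1 ≤ M ^ 4 * normSq z + M ^ 6 * normSq w := by
    nlinarith [mul_le_mul_of_nonneg_right h4 a, mul_le_mul_of_nonneg_right h6 b]
  obtain ⟨L, hL, e⟩ := intermediate_value_Icc (zero_le_one.trans h1) c.continuousOn
    (show (1 : ℝ) ∈ Icc _ _ from ⟨by simp, by nlinarith [sq_nonneg t]⟩)
  refine ⟨L, hL.1.lt_of_ne ?_, e⟩
  rintro rfl
  simp at e

theorem lam_spec (h : z ≠ 0 ∨ w ≠ 0) (t : ℝ) : 0 < lam z w t ∧
    (lam z w t ^ 4 * normSq z + lam z w t ^ 6 * normSq w) * (1 + t ^ 2) = 1 :=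
  Classical.epsilon_spec (lam_ex h t)

theorem lam_pos (h : z ≠ 0 ∨ w ≠ 0) (t : ℝ) : 0 < lam z w t := (lam_spec h t).1

theorem lam_eq {L : ℝ} (hL : 0 < L)
    (e : (L ^ 4 * normSq z + L ^ 6 * normSq w) * (1 + t ^ 2) = 1) : lam z w t = L := by
  have h : z ≠ 0 ∨ w ≠ 0 := by
    by_contra c
    push Not at c
    simp [c.1, c.2] at e
  obtain ⟨a, b⟩ := lam_spec h t
  have c := mul_right_cancel₀ (by positivity) (b.trans e.symm)
  rcases lt_trichotomy (lam z w t) L with d | d | d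
  · exact absurd c (lam_lt h a d).ne
  · exact d
  · exact absurd c (lam_lt h hL d).ne'

theorem lam_congr {z' w' : ℂ} {t' : ℝ} (h1 : normSq z = normSq z') (h2 : normSq w = normSq w')
    (h3 : t ^ 2 = t' ^ 2) : lam z w t = lam z' w' t' := by
  simp only [lam, h1, h2, h3]

theorem ev_zw {T : Type} [TopologicalSpace T] {f g : T → ℂ} {x : T} (hf : ContinuousAt f x)
    (hg : ContinuousAt g x) (h : f x ≠ 0 ∨ g x ≠ 0) : ∀ᶠ y in 𝓝 x, f y ≠ 0 ∨ g y ≠ 0 := by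
  rcases h with h | h
  · exact (hf.eventually_ne h).mono fun _ => Or.inl
  · exact (hg.eventually_ne h).mono fun _ => Or.inr

theorem cd_lam0 (h : z ≠ 0 ∨ w ≠ 0) (t : ℝ) :
    ContDiffAt ℝ ∞ (fun y : ℂ × ℂ × ℝ => lam y.1 y.2.1 y.2.2) (z, w, t) := by
  obtain ⟨a, b⟩ := lam_spec h t
  set L := lam z w t
  have cdf : ContDiffAt ℝ ∞ (fun v : (ℂ × ℂ × ℝ) × ℝ =>
      (v.2 ^ 4 * normSq v.1.1 + v.2 ^ 6 * normSq v.1.2.1) * (1 + v.1.2.2 ^ 2)) ((z, w, t), L) := by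
    have := cd_normSq
    fun_prop
  have d1 : HasDerivAt (fun M : ℝ => (M ^ 4 * normSq z + M ^ 6 * normSq w) * (1 + t ^ 2))
      ((4 * L ^ 3 * normSq z + 6 * L ^ 5 * normSq w) * (1 + t ^ 2)) L := by
    simpa using ((((hasDerivAt_pow 4 L).mul_const _).add
      ((hasDerivAt_pow 6 L).mul_const _)).mul_const _)
  have d2 := (cd1 cdf).hasFDerivAt.comp L (hasFDerivAt_prodMk_right (𝕜 := ℝ) (z, w, t) L)
  have d3 := d2.unique d1.hasFDerivAt
  have d0 : (4 * L ^ 3 * normSq z + 6 * L ^ 5 * normSq w) * (1 + t ^ 2) ≠ 0 := by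
    have := normSq_nonneg z
    have := normSq_nonneg w
    rcases h with h | h <;> have := normSq_pos.2 h <;> positivity
  have inv : (ContinuousLinearMap.toSpanSingleton ℝ
      ((4 * L ^ 3 * normSq z + 6 * L ^ 5 * normSq w) * (1 + t ^ 2))).IsInvertible :=
    ⟨ContinuousLinearEquiv.unitsEquivAut ℝ (Units.mk0 _ d0), by ext; simp⟩
  rw [← d3] at inv
  have p : (∞ : ℕ∞ω) ≠ 0 := by simp
  have k := cdf.contDiffAt_implicitFunction p inv
  refine k.congr_of_eventuallyEq ?_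
  have k0 := cdf.implicitFunction_apply_self p inv
  filter_upwards [cdf.eventually_apply_implicitFunction p inv,
    k.continuousAt.eventually_const_lt (a.trans_eq k0.symm)] with y h1 h2
  exact lam_eq h2 (h1.trans b)

theorem nrmStmt : NrmStmt := fun _ _ t h =>
  ⟨lam_pos h t, (lam_spec h t).2, fun _ => lam_eq, cd_lam0 h t⟩

theorem cda_lam {f g : F → ℂ} {k : F → ℝ} {x : F} (hf : ContDiffAt ℝ ∞ f x)
    (hg : ContDiffAt ℝ ∞ g x) (hk : ContDiffAt ℝ ∞ k x) (h : f x ≠ 0 ∨ g x ≠ 0) :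
    ContDiffAt ℝ ∞ (fun y => lam (f y) (g y) (k y)) x :=
  ContDiffAt.comp (g := fun y : ℂ × ℂ × ℝ => lam y.1 y.2.1 y.2.2) (f := fun y => (f y, g y, k y)) x
    (cd_lam0 h (k x)) (hf.prodMk (hg.prodMk hk))

theorem lam_scale (h : z ≠ 0 ∨ w ≠ 0) {r : ℝ} (hr : 0 < r) (t : ℝ) :
    lam (r ^ 2 * z) (r ^ 3 * w) t = lam z w t / r := by
  obtain ⟨a, b⟩ := lam_spec h t
  refine lam_eq (div_pos a hr) (Eq.trans ?_ b)
  simp only [map_mul, map_pow, normSq_ofReal]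
  field_simp

theorem lam_act {c : ℂ} (hc : ‖c‖ = 1) (z w : ℂ) (t : ℝ) :
    lam (c ^ 2 * z) (c ^ 3 * w) t = lam z w t :=
  lam_congr (by simp [normSq_eq_norm_sq, hc]) (by simp [normSq_eq_norm_sq, hc]) rfl

theorem lam_self {x : S4} (h : zc x ≠ 0 ∨ wc x ≠ 0) : lam (zc x) (wc x) (tt x) = 1 := by
  have a := sc_lt h
  have b := sph x
  refine lam_eq one_pos ?_
  rw [tt_sq a]
  field_simp
  linarith

/-! ### The map `nrm` -/

theorem zc_nrm (z w : ℂ) (t : ℝ) : zc (nrm z w t) = lam z w t ^ 2 * z := rfl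
theorem wc_nrm (z w : ℂ) (t : ℝ) : wc (nrm z w t) = lam z w t ^ 3 * w := rfl
theorem sc_nrm (z w : ℂ) (t : ℝ) : sc (nrm z w t) = t / √(1 + t ^ 2) := rfl

theorem sc_nrm_sq (z w : ℂ) (t : ℝ) : sc (nrm z w t) ^ 2 = t ^ 2 / (1 + t ^ 2) := by
  rw [sc_nrm, div_pow, Real.sq_sqrt (by positivity)]

theorem one_sub_sc_nrm (z w : ℂ) (t : ℝ) : 1 - sc (nrm z w t) ^ 2 = (1 + t ^ 2)⁻¹ := by
  rw [sc_nrm_sq]
  field_simp
  ring

@[simp] theorem tt_nrm (z w : ℂ) (t : ℝ) : tt (nrm z w t) = t := by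
  have : √(1 + t ^ 2) ≠ 0 := by positivity
  rw [tt, one_sub_sc_nrm, sc_nrm, Real.sqrt_inv]
  field_simp

theorem nrm_mem (h : z ≠ 0 ∨ w ≠ 0) (t : ℝ) : nrm z w t ∈ Metric.sphere (0 : E 5) 1 := by
  have a := (lam_spec h t).2
  refine mem_sph ?_
  rw [sc_nrm_sq, zc_nrm, wc_nrm]
  simp only [map_mul, map_pow, normSq_ofReal]
  field_simp
  linarith

theorem norm_nrm (h : z ≠ 0 ∨ w ≠ 0) (t : ℝ) : ‖nrm z w t‖ = 1 := by
  simpa using nrm_mem h t

theorem zc_nrm_ne (h : z ≠ 0) (w : ℂ) (t : ℝ) : zc (nrm z w t) ≠ 0 :=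
  mul_ne_zero (pow_ne_zero _ (ofReal_ne_zero.2 (lam_pos (Or.inl h) t).ne')) h

theorem wc_nrm_ne (h : w ≠ 0) (z : ℂ) (t : ℝ) : wc (nrm z w t) ≠ 0 :=
  mul_ne_zero (pow_ne_zero _ (ofReal_ne_zero.2 (lam_pos (Or.inr h) t).ne')) h

theorem zw_nrm (h : z ≠ 0 ∨ w ≠ 0) (t : ℝ) : zc (nrm z w t) ≠ 0 ∨ wc (nrm z w t) ≠ 0 :=
  h.imp (fun a => zc_nrm_ne a w t) fun a => wc_nrm_ne a z t

theorem sc_tt {x : E 5} (h : 0 < 1 - sc x ^ 2) : tt x / √(1 + tt x ^ 2) = sc x := by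
  have a : 1 + tt x ^ 2 = (1 - sc x ^ 2)⁻¹ := by
    rw [tt_sq h]
    field_simp
    ring
  have b := (Real.sqrt_pos.2 h).ne'
  rw [a, Real.sqrt_inv, tt]
  field_simp

theorem nrm_self {x : S4} (h : zc x ≠ 0 ∨ wc x ≠ 0) : nrm (zc x) (wc x) (tt x) = x := by
  refine ext5 ?_ ?_ (sc_tt (sc_lt h))
  · simp [zc_nrm, lam_self h]
  · simp [wc_nrm, lam_self h]

theorem nrm_scale (h : z ≠ 0 ∨ w ≠ 0) {r : ℝ} (hr : 0 < r) (t : ℝ) :
    nrm (r ^ 2 * z) (r ^ 3 * w) t = nrm z w t := by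
  have : (r : ℂ) ≠ 0 := ofReal_ne_zero.2 hr.ne'
  refine ext5 ?_ ?_ rfl
  · rw [zc_nrm, zc_nrm, lam_scale h hr]
    push_cast
    field_simp
  · rw [wc_nrm, wc_nrm, lam_scale h hr]
    push_cast
    field_simp

/-- a point of the sphere with the right weighted direction and the right height is `nrm z w t` -/
theorem nrm_eq {x : S4} (h : z ≠ 0 ∨ w ≠ 0) {r : ℝ} (hr : 0 < r) (h1 : zc x = r ^ 2 * z)
    (h2 : wc x = r ^ 3 * w) (h3 : tt x = t) : nrm z w t = x := by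
  have : (r : ℂ) ≠ 0 := ofReal_ne_zero.2 hr.ne'
  rw [← nrm_scale h hr, ← h1, ← h2, ← h3]
  refine nrm_self ?_
  rw [h1, h2]
  exact h.imp (mul_ne_zero (pow_ne_zero _ this)) (mul_ne_zero (pow_ne_zero _ this))

theorem act_nrm {c : ℂ} (hc : ‖c‖ = 1) (z w : ℂ) (t : ℝ) :
    act c (nrm z w t) = nrm (c ^ 2 * z) (c ^ 3 * w) t := by
  refine ext5 ?_ ?_ rfl
  · rw [zc_nrm, lam_act hc, act, zc_mk5, zc_nrm]
    ring
  · rw [wc_nrm, lam_act hc, act, wc_mk5, wc_nrm]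
    ring

theorem act_ph_nrm (h : z ≠ 0 ∨ w ≠ 0) {c : ℂ} (hc : c ≠ 0) (t : ℝ) :
    act (ph c) (nrm z w t) = nrm (c ^ 2 * z) (c ^ 3 * w) t := by
  have a := norm_pos_iff.2 hc
  have b : ((‖c‖ : ℝ) : ℂ) ≠ 0 := ofReal_ne_zero.2 a.ne'
  have d : ph c ≠ 0 := div_ne_zero hc b
  rw [act_nrm (by simp [ph, hc]), ← nrm_scale
    (h.imp (mul_ne_zero (pow_ne_zero _ d)) (mul_ne_zero (pow_ne_zero _ d))) a]
  congr 1 <;> unfold ph <;> field_simp

theorem cda_nrm {f g : F → ℂ} {k : F → ℝ} {x : F} (hf : ContDiffAt ℝ ∞ f x)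
    (hg : ContDiffAt ℝ ∞ g x) (hk : ContDiffAt ℝ ∞ k x) (h : f x ≠ 0 ∨ g x ≠ 0) :
    ContDiffAt ℝ ∞ (fun y => nrm (f y) (g y) (k y)) x :=
  have a := cda_ofReal (cda_lam hf hg hk h)
  cd_mk5 ((a.pow 2).mul hf) ((a.pow 3).mul hg)
    (hk.div ((contDiffAt_const.add (hk.pow 2)).sqrt (by positivity)) (by positivity))

/-! ### Functions of weight zero -/

theorem mf_scale (P : Prof) {r : ℝ} (hr : 0 < r) (z w : ℂ) :
    mf P (r ^ 2 * z) (r ^ 3 * w) = mf P z w := by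
  have : (r : ℂ) ≠ 0 := ofReal_ne_zero.2 hr.ne'
  rw [mf, mf, near_smul this, tf_smul this, af_smul this, xf_smul this, ph_pos hr, one_mul]

theorem bf_scale (β : ℝ → ℝ) {r : ℝ} (hr : 0 < r) (z w : ℂ) :
    bf β (r ^ 2 * z) (r ^ 3 * w) = bf β z w := by
  have : (r : ℂ) ≠ 0 := ofReal_ne_zero.2 hr.ne'
  rw [bf, bf, near_smul this, cf_smul, ph_pf_smul, xf_smul this, ph_pos hr, one_pow, one_mul,
    one_mul]

theorem lam_ne (h : z ≠ 0 ∨ w ≠ 0) (t : ℝ) : (lam z w t : ℂ) ≠ 0 :=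
  ofReal_ne_zero.2 (lam_pos h t).ne'

section
variable (h : z ≠ 0 ∨ w ≠ 0) (t : ℝ)
include h

omit h in
theorem pp_nrm (z w : ℂ) : pp (nrm z w t) = lam z w t ^ 6 * pf z w := pf_smul _ z w

theorem pp_nrm_ne (hp : pf z w ≠ 0) : pp (nrm z w t) ≠ 0 := by
  rw [pp_nrm]
  exact mul_ne_zero (pow_ne_zero _ (ofReal_ne_zero.2 (lam_pos h t).ne')) hp

theorem ph_pp_nrm : ph (pp (nrm z w t)) = ph (pf z w) :=
  (ph_pf_smul _ z w).trans (by rw [ph_pos (lam_pos h t), one_pow, one_mul])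
theorem xf_nrm : xf (zc (nrm z w t)) (wc (nrm z w t)) = xf z w := xf_smul (lam_ne h t) z w
theorem uf_nrm : uf (zc (nrm z w t)) (wc (nrm z w t)) = uf z w := uf_smul (lam_ne h t) z w
theorem tf_nrm : tf (zc (nrm z w t)) (wc (nrm z w t)) = tf z w := tf_smul (lam_ne h t) z w
theorem cf_nrm : cf (zc (nrm z w t)) (wc (nrm z w t)) = cf z w :=
  (cf_smul _ z w).trans (by rw [ph_pos (lam_pos h t), one_pow, one_mul])
theorem af_nrm : af (zc (nrm z w t)) (wc (nrm z w t)) = af z w :=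
  (af_smul (lam_ne h t) z w).trans (by rw [ph_pos (lam_pos h t), one_mul])
theorem near_nrm : Near (zc (nrm z w t)) (wc (nrm z w t)) ↔ Near z w :=
  near_smul (lam_ne h t) z w
theorem mf_nrm (P : Prof) : mf P (zc (nrm z w t)) (wc (nrm z w t)) = mf P z w :=
  mf_scale P (lam_pos h t) z w
theorem bf_nrm (β : ℝ → ℝ) : bf β (zc (nrm z w t)) (wc (nrm z w t)) = bf β z w :=
  bf_scale β (lam_pos h t) z w
theorem lev_nrm : lev (nrm z w t) = xf z w + t ^ 2 := by rw [lev, xf_nrm h, tt_nrm]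
theorem qq_nrm : qq (nrm z w t) = (uf z w, t) := by rw [qq, uf_nrm h, tt_nrm]
theorem HH_nrm (P : Prof) : HH P (nrm z w t) =
    P.η (t ^ 2 / (1 + t ^ 2)) * mf P z w + P.k (t ^ 2 / (1 + t ^ 2)) := by
  rw [HH, mf_nrm h, sc_nrm_sq]
theorem BB_nrm (P : Prof) : BB P (nrm z w t) = P.η (t ^ 2 / (1 + t ^ 2)) * bf P.β z w := by
  rw [BB, bf_nrm h, sc_nrm_sq]

end

/-! ### The neighbourhood of the knot -/

theorem csqrt_sq (a : ℂ) : Complex.sqrt a ^ 2 = a := by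
  simp [Complex.sqrt]

theorem one_sub_re {c : ℂ} (h : ‖c‖ < 1 / 8) : 7 / 8 < (1 - c).re := by
  have := (abs_le.1 (abs_re_le_norm c)).2
  rw [sub_re, one_re]
  linarith

namespace Near

theorem z_ne (h : Near z w) : z ≠ 0 := by
  rintro rfl
  have := normSq_nonneg (pf 0 w)
  simp only [Near, map_zero] at h
  linarith

theorem or_ne (h : Near z w) : z ≠ 0 ∨ w ≠ 0 := Or.inl h.z_ne

theorem tf_lt (h : Near z w) : tf z w < 1 / 64 := by
  rw [tf, div_lt_iff₀ (pow_pos (normSq_pos.2 h.z_ne) 3)]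
  unfold Near at h
  linarith

theorem quo (hz : z ≠ 0) (w : ℂ) : w ^ 2 / z ^ 3 = 1 - pf z w / z ^ 3 := by
  unfold pf
  field_simp
  ring

end Near

theorem near_tf : Near z w ↔ z ≠ 0 ∧ tf z w < 1 / 64 := by
  refine ⟨fun h => ⟨h.z_ne, h.tf_lt⟩, fun h => ?_⟩
  have := h.2
  rw [tf, div_lt_iff₀ (pow_pos (normSq_pos.2 h.1) 3)] at this
  unfold Near
  linarith

theorem normSq_cf (z w : ℂ) : normSq (cf z w) = tf z w := by
  rw [cf, tf, map_div₀, normSq_ofReal, normSq_eq_norm_sq z]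
  congr 1
  ring

theorem norm_cf (z w : ℂ) : ‖cf z w‖ = ‖pf z w / z ^ 3‖ := by simp [cf]

namespace Near

theorem cf_lt (h : Near z w) : ‖cf z w‖ < 1 / 8 := by
  have := h.tf_lt
  rw [← normSq_cf, normSq_eq_norm_sq] at this
  nlinarith [norm_nonneg (cf z w)]

theorem re_pos (h : Near z w) : 7 / 8 < (w ^ 2 / z ^ 3).re := by
  rw [quo h.z_ne]
  exact one_sub_re (norm_cf z w ▸ h.cf_lt)

theorem slit (h : Near z w) : w ^ 2 / z ^ 3 ∈ slitPlane :=
  Or.inl (by linarith [h.re_pos])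

theorem w_ne (h : Near z w) : w ≠ 0 := by
  rintro rfl
  have := h.re_pos
  norm_num at this

theorem sqrt_ne (h : Near z w) : Complex.sqrt (w ^ 2 / z ^ 3) ≠ 0 := fun e =>
  slitPlane_ne_zero h.slit (by rw [← csqrt_sq (w ^ 2 / z ^ 3), e]; simp)

theorem af_sq (h : Near z w) : af z w ^ 2 = ph z := by
  have a := h.z_ne
  have b := h.w_ne
  have c : ((‖z‖ : ℝ) : ℂ) ≠ 0 := by simpa using a
  rw [af, div_pow, mul_pow, mul_pow, csqrt_sq, ← ofReal_pow, Real.sq_sqrt (norm_nonneg z), ph]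
  field_simp

theorem norm_af (h : Near z w) : ‖af z w‖ = 1 := by
  have := congrArg norm h.af_sq
  rw [norm_pow, show ‖ph z‖ = 1 by simp [ph, h.z_ne]] at this
  exact (pow_eq_one_iff_of_nonneg (norm_nonneg _) two_ne_zero).1 this

theorem one_sub (h : Near z w) : 1 - cf z w * conj (af z w) ^ 6 = w ^ 2 / z ^ 3 := by
  have a := h.z_ne
  have c : ((‖z‖ : ℝ) : ℂ) ≠ 0 := by simpa using a
  have d : conj z = ‖z‖ ^ 2 / z := by
    rw [eq_div_iff a, conj_mul']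
  have e : conj (af z w) ^ 6 = (conj z / ‖z‖) ^ 3 := by
    rw [show 6 = 2 * 3 from rfl, pow_mul, ← map_pow, h.af_sq, ph, map_div₀, conj_ofReal]
  rw [e, d, quo a, cf]
  push_cast
  field_simp

theorem z_eq (h : Near z w) : z = (√‖z‖ : ℝ) ^ 2 * af z w ^ 2 := by
  have c : ((‖z‖ : ℝ) : ℂ) ≠ 0 := by simpa using h.z_ne
  rw [h.af_sq, ← ofReal_pow, Real.sq_sqrt (norm_nonneg z), ph]
  field_simp

theorem w_eq (h : Near z w) : w = (√‖z‖ : ℝ) ^ 3 *
    (af z w ^ 3 * Complex.sqrt (1 - cf z w * conj (af z w) ^ 6)) := by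
  have a := h.z_ne
  have b := h.sqrt_ne
  have c : ((√‖z‖ : ℝ) : ℂ) ≠ 0 := by simpa using a
  have d : w = z * √‖z‖ * Complex.sqrt (w ^ 2 / z ^ 3) * af z w := by
    unfold af
    field_simp
  rw [h.one_sub]
  linear_combination d + (√‖z‖ * Complex.sqrt (w ^ 2 / z ^ 3) * af z w) * h.z_eq

end Near

theorem isOpen_near : IsOpen {y : ℂ × ℂ | Near y.1 y.2} := by
  have := cd_normSq.continuous
  exact isOpen_lt (by unfold pf; fun_prop) (by fun_prop)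

theorem ev_near {T : Type} [TopologicalSpace T] {f g : T → ℂ} {x : T} (hf : ContinuousAt f x)
    (hg : ContinuousAt g x) (h : Near (f x) (g x)) : ∀ᶠ y in 𝓝 x, Near (f y) (g y) :=
  (hf.prodMk hg).eventually (isOpen_near.mem_nhds h)

section
variable {f g : F → ℂ} {k : F → ℝ} {x : F} (hf : ContDiffAt ℝ ∞ f x) (hg : ContDiffAt ℝ ∞ g x)
include hf hg

theorem cda_tf (h : f x ≠ 0) : ContDiffAt ℝ ∞ (fun y => tf (f y) (g y)) x :=
  (cd_normSq.contDiffAt.comp x (cda_pf hf hg)).div ((cd_normSq.contDiffAt.comp x hf).pow 3)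
    (pow_pos (normSq_pos.2 h) 3).ne'

theorem cda_cf (h : f x ≠ 0) : ContDiffAt ℝ ∞ (fun y => cf (f y) (g y)) x :=
  cda_div (cda_pf hf hg) (cda_ofReal ((hf.norm ℝ h).pow 3)) (by simpa using h)

theorem cda_af (h : Near (f x) (g x)) : ContDiffAt ℝ ∞ (fun y => af (f y) (g y)) x :=
  have a := h.z_ne
  cda_div hg ((hf.mul (cda_ofReal ((hf.norm ℝ a).sqrt (by simpa using a)))).mul
    (cda_csqrt (cda_div (hg.pow 2) (hf.pow 3) (pow_ne_zero _ a)) h.slit))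
    (mul_ne_zero (mul_ne_zero a (by simpa using a)) h.sqrt_ne)

theorem cda_ct (hk : ContDiffAt ℝ ∞ k x) (h1 : ‖f x‖ = 1) (h2 : ‖g x‖ < 1 / 8) :
    ContDiffAt ℝ ∞ (fun y => ct (f y) (g y) (k y)) x :=
  cda_nrm (hf.pow 2) ((hf.pow 3).mul (cda_csqrt (contDiffAt_const.sub (hg.mul ((cda_conj hf).pow 6)))
    (Or.inl (by linarith [one_sub_re (c := g x * conj (f x) ^ 6) (by simpa [h1] using h2)])))) hk
    (Or.inl (pow_ne_zero _ (norm_ne_zero_iff.1 (h1 ▸ one_ne_zero))))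

end

/-! ### The chart `ct` -/

section
variable {a c : ℂ} (ha : ‖a‖ = 1)
include ha

theorem ct_ne0 : a ≠ 0 := norm_ne_zero_iff.1 (ha ▸ one_ne_zero)

theorem ct_ne (c : ℂ) : a ^ 2 ≠ 0 ∨ a ^ 3 * Complex.sqrt (1 - c * conj a ^ 6) ≠ 0 :=
  Or.inl (pow_ne_zero _ (ct_ne0 ha))

theorem pf_ct0 (c : ℂ) : pf (a ^ 2) (a ^ 3 * Complex.sqrt (1 - c * conj a ^ 6)) = c := by
  have : a * conj a = 1 := by rw [mul_conj', ha]; simp
  rw [pf, mul_pow, csqrt_sq]
  have : (a * conj a) ^ 6 = 1 := by rw [this, one_pow]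
  linear_combination c * this

theorem cf_ct0 (c : ℂ) : cf (a ^ 2) (a ^ 3 * Complex.sqrt (1 - c * conj a ^ 6)) = c := by
  simp [cf, pf_ct0 ha, ha]

theorem ct_mem (c : ℂ) (t : ℝ) : ct a c t ∈ Metric.sphere (0 : E 5) 1 := nrm_mem (ct_ne ha c) t

theorem norm_ct (c : ℂ) (t : ℝ) : ‖ct a c t‖ = 1 := norm_nrm (ct_ne ha c) t

omit ha in
@[simp] theorem tt_ct (a c : ℂ) (t : ℝ) : tt (ct a c t) = t := tt_nrm _ _ t

omit ha in
theorem sc_ct (a c : ℂ) (t : ℝ) : sc (ct a c t) = t / √(1 + t ^ 2) := rfl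

omit ha in
theorem sc_ct_sq (a c : ℂ) (t : ℝ) : sc (ct a c t) ^ 2 = t ^ 2 / (1 + t ^ 2) := sc_nrm_sq _ _ t

theorem zc_ct_ne (c : ℂ) (t : ℝ) : zc (ct a c t) ≠ 0 := zc_nrm_ne (pow_ne_zero _ (ct_ne0 ha)) _ t

theorem cf_ct (c : ℂ) (t : ℝ) : cf (zc (ct a c t)) (wc (ct a c t)) = c :=
  (cf_nrm (ct_ne ha c) t).trans (cf_ct0 ha c)

theorem tf_ct (c : ℂ) (t : ℝ) : tf (zc (ct a c t)) (wc (ct a c t)) = normSq c := by
  rw [← normSq_cf, cf_ct ha]

theorem ph_pp_ct (c : ℂ) (t : ℝ) : ph (pp (ct a c t)) = ph c := by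
  rw [ct, ph_pp_nrm (ct_ne ha c), pf_ct0 ha]

theorem pp_ct_eq (c : ℂ) (t : ℝ) : pp (ct a c t) = 0 ↔ c = 0 := by
  rw [ct, pp_nrm, pf_ct0 ha, mul_eq_zero, or_iff_right]
  exact pow_ne_zero _ (ofReal_ne_zero.2 (lam_pos (ct_ne ha c) t).ne')

theorem xf_ct (c : ℂ) (t : ℝ) :
    xf (zc (ct a c t)) (wc (ct a c t)) = (normSq c ^ (1 / 3 : ℝ))⁻¹ := by
  rw [ct, xf_nrm (ct_ne ha c), xf, pf_ct0 ha, normSq_eq_norm_sq (a ^ 2)]
  simp [ha]

theorem near_ct_iff (c : ℂ) (t : ℝ) : Near (zc (ct a c t)) (wc (ct a c t)) ↔ ‖c‖ < 1 / 8 := by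
  refine ⟨fun h => cf_ct ha c t ▸ h.cf_lt, fun h => near_tf.2 ⟨zc_ct_ne ha c t, ?_⟩⟩
  rw [tf_ct ha, normSq_eq_norm_sq]
  nlinarith [norm_nonneg c]

theorem near_ct (hc : ‖c‖ < 1 / 8) (t : ℝ) : Near (zc (ct a c t)) (wc (ct a c t)) :=
  (near_ct_iff ha c t).2 hc

theorem af_ct (hc : ‖c‖ < 1 / 8) (t : ℝ) : af (zc (ct a c t)) (wc (ct a c t)) = a := by
  have b := ct_ne0 ha
  have e : (a ^ 3 * Complex.sqrt (1 - c * conj a ^ 6)) ^ 2 / (a ^ 2) ^ 3 = 1 - c * conj a ^ 6 := by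
    rw [mul_pow, csqrt_sq]
    field_simp
  have n := ((near_nrm (ct_ne ha c) t).1 (near_ct ha hc t)).sqrt_ne
  rw [ct, af_nrm (ct_ne ha c), af]
  rw [e] at n ⊢
  simp only [norm_pow, ha, one_pow, Real.sqrt_one, ofReal_one, mul_one]
  field_simp

theorem mf_ct (P : Prof) (hc : ‖c‖ < 1 / 8) (t : ℝ) : mf P (zc (ct a c t)) (wc (ct a c t)) =
    6 - normSq c + P.ε * P.χ (normSq c) * a.re := by
  rw [mf, if_pos (near_ct ha hc t), tf_ct ha, af_ct ha hc]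

theorem bf_ct (β : ℝ → ℝ) (hc : ‖c‖ < 1 / 8) (t : ℝ) :
    bf β (zc (ct a c t)) (wc (ct a c t)) = c.im := by
  rw [bf, if_pos (near_ct ha hc t), cf_ct ha]

theorem HH_ct (P : Prof) (hc : ‖c‖ < 1 / 8) (t : ℝ) : HH P (ct a c t) =
    P.η (t ^ 2 / (1 + t ^ 2)) * (6 - normSq c + P.ε * P.χ (normSq c) * a.re) +
      P.k (t ^ 2 / (1 + t ^ 2)) := by
  rw [HH, mf_ct ha P hc, sc_ct_sq]

theorem BB_ct (P : Prof) (hc : ‖c‖ < 1 / 8) (t : ℝ) :
    BB P (ct a c t) = P.η (t ^ 2 / (1 + t ^ 2)) * c.im := by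
  rw [BB, bf_ct ha _ hc, sc_ct_sq]

theorem act_ct (b c : ℂ) (t : ℝ) : act a (ct b c t) = ct (a * b) (a ^ 6 * c) t := by
  have : a * conj a = 1 := by rw [mul_conj', ha]; simp
  have : (a * conj a) ^ 6 = 1 := by rw [this, one_pow]
  have e : 1 - a ^ 6 * c * conj (a * b) ^ 6 = 1 - c * conj b ^ 6 := by
    rw [map_mul]
    linear_combination -c * conj b ^ 6 * this
  rw [ct, ct, act_nrm ha, e]
  congr 1 <;> ring

end

theorem ct_nrm (h : Near z w) (t : ℝ) : ct (af z w) (cf z w) t = nrm z w t := by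
  rw [ct, ← nrm_scale (ct_ne h.norm_af _) (Real.sqrt_pos.2 (norm_pos_iff.2 h.z_ne)), ← h.z_eq,
    ← h.w_eq]

theorem ct_self {x : S4} (h : Near (zc x) (wc x)) :
    ct (af (zc x) (wc x)) (cf (zc x) (wc x)) (tt x) = x := by
  rw [ct_nrm h, nrm_self h.or_ne]

end Pool.Agent.MP_7ebdba_gt.sm

end
end MrgPart0

-- ======== part 1: formerly Pool.Agent.MP_7ebdba_gt.sm.m.Conn1
section MrgPart1

/-! Connectedness of the core, part one: the Milnor fibre and the neighbourhood of the knot. -/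

open scoped ContDiff Topology ComplexConjugate
open Set Filter Complex

noncomputable section

namespace Pool.Agent.MP_7ebdba_gt.sm.cn

theorem germ {Y : Type*} [TopologicalSpace Y] {P : Set Y} {γ : ℝ → Y} {p : Y → Prop}
    (hx : γ 0 ∈ P) (hc : ∀ᶠ t in 𝓝 (0 : ℝ), ContinuousAt γ t)
    (h : ∀ᶠ t in 𝓝[>] (0 : ℝ), γ t ∈ P ∧ p (γ t)) : ∃ y ∈ connectedComponentIn P (γ 0), p y := by
  obtain ⟨δ, hδ, hb⟩ := Metric.eventually_nhds_iff_ball.1
    (hc.and (eventually_nhdsWithin_iff.1 h))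
  have hm : ∀ t ∈ Icc (0 : ℝ) (δ / 2), t ∈ Metric.ball (0 : ℝ) δ := fun t ht => by
    rw [mem_ball_zero_iff, Real.norm_eq_abs, abs_of_nonneg ht.1]; linarith [ht.2]
  have hpc : IsPreconnected (γ '' Icc 0 (δ / 2)) :=
    isPreconnected_Icc.image _ fun t ht => (hb t (hm t ht)).1.continuousWithinAt
  have hd : δ / 2 ∈ Icc (0 : ℝ) (δ / 2) := ⟨by linarith, le_rfl⟩
  refine ⟨γ (δ / 2), hpc.subset_connectedComponentIn ⟨0, ⟨le_rfl, hd.1⟩, rfl⟩ ?_ ⟨_, hd, rfl⟩,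
    ((hb _ (hm _ hd)).2 (half_pos hδ)).2⟩
  rintro _ ⟨t, ht, rfl⟩
  rcases ht.1.eq_or_lt with rfl | h'
  · exact hx
  · exact ((hb t (hm t ht)).2 h').1

theorem csq (u : ℂ) : Complex.sqrt u ^ 2 = u := cpow_ofNat_inv_pow u 2

/-- a compact part of a Milnor fibre -/
def K (p : ℂ) : Set (ℂ × ℂ) := {y | pf y.1 y.2 = p ∧ normSq y.1 ^ 3 ≤ 81 * normSq p}

theorem K_compact (p : ℂ) : IsCompact (K p) := by
  have c1 : Continuous fun y : ℂ × ℂ => pf y.1 y.2 := by unfold pf; fun_prop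
  have c2 : Continuous fun y : ℂ × ℂ => normSq y.1 ^ 3 := by fun_prop
  refine Metric.isCompact_of_isClosed_isBounded ((isClosed_eq c1 continuous_const).inter
    (isClosed_le c2 continuous_const)) ?_
  refine (Metric.isBounded_closedBall (x := 0) (r := 1 + 10 * ‖p‖)).subset fun y hy => ?_
  obtain ⟨h1, h2⟩ := hy
  have h0 := norm_nonneg p
  have a : ‖y.1‖ ^ 3 ≤ 9 * ‖p‖ := by
    refine (pow_le_pow_iff_left₀ (by positivity) (by positivity) two_ne_zero).1 ?_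
    simp only [normSq_eq_norm_sq] at h2
    nlinarith
  have b : ‖y.2‖ ^ 2 ≤ 10 * ‖p‖ := by
    have : y.2 ^ 2 = y.1 ^ 3 - p := by rw [← h1, pf]; ring
    rw [← norm_pow, this]
    refine (norm_sub_le _ _).trans ?_
    rw [norm_pow]; linarith
  rw [mem_closedBall_zero_iff, Prod.norm_def, max_le_iff]
  have c3 := norm_nonneg y.1
  constructor
  · nlinarith [mul_nonneg c3 (sq_nonneg (‖y.1‖ - 1)), sq_nonneg (‖y.1‖ - 1)]
  · nlinarith [sq_nonneg (‖y.2‖ - 1)]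

theorem K_up {p : ℂ} (hp : p ≠ 0) {y : ℂ × ℂ} (hy : y ∈ K p) (h : normSq y.1 ^ 3 < 81 * normSq p) :
    ∃ y' ∈ connectedComponentIn (K p) y, normSq y.1 < normSq y'.1 := by
  obtain ⟨z, w⟩ := y
  obtain ⟨e, he, he'⟩ : ∃ e, (z ≠ 0 → e = z) ∧ ∀ t : ℝ, 0 < t → normSq z < normSq (z + t * e) := by
    by_cases hz : z = 0
    · exact ⟨1, fun a => absurd hz a, fun t ht => by simpa [hz] using ht.ne'⟩
    · refine ⟨z, fun _ => rfl, fun t ht => ?_⟩
      rw [show z + t * z = ((1 + t : ℝ) : ℂ) * z by push_cast; ring, map_mul, normSq_ofReal]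
      nlinarith [normSq_pos.2 hz, mul_pos ht (normSq_pos.2 hz), mul_pos ht ht]
  have hlt : ∀ᶠ t : ℝ in 𝓝 0, normSq (z + t * e) ^ 3 < 81 * normSq p :=
    ContinuousAt.eventually_lt (by fun_prop) continuousAt_const (by simpa using h)
  have h1 : z ^ 3 - w ^ 2 = p := hy.1
  by_cases hw : w = 0
  · have hz : z ≠ 0 := fun a => hp (by simp [← h1, a, hw])
    obtain rfl := he hz
    have := germ (P := K p) (p := fun y => normSq e < normSq y.1)
      (γ := fun t => (e + t * e, Complex.sqrt p * (√((1 + t) ^ 3 - 1) : ℝ)))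
      (by simpa [hw] using hy) (Eventually.of_forall fun t => by fun_prop) ?_
    · simpa [hw] using this
    filter_upwards [hlt.filter_mono nhdsWithin_le_nhds, self_mem_nhdsWithin] with t a b
    have b : 0 < t := b
    refine ⟨⟨?_, a.le⟩, he' t b⟩
    have : (0 : ℝ) ≤ (1 + t) ^ 3 - 1 := by nlinarith [mul_pos b b, mul_pos b (mul_pos b b)]
    simp only [pf, mul_pow, csq, ← ofReal_pow, Real.sq_sqrt this]
    rw [← h1, hw]; push_cast; ring
  · have h2 : (z ^ 3 - p) / w ^ 2 = 1 := by rw [← h1]; field_simp; ring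
    have hc : Continuous fun t : ℝ => ((z + t * e) ^ 3 - p) / w ^ 2 := by fun_prop
    have := germ (P := K p) (p := fun y => normSq z < normSq y.1)
      (γ := fun t => (z + t * e, w * Complex.sqrt (((z + t * e) ^ 3 - p) / w ^ 2)))
      (by simpa [h2] using hy) ?_ ?_
    · simpa [h2] using this
    · filter_upwards [hc.continuousAt.eventually (isOpen_slitPlane.mem_nhds
        (show ((z + (0 : ℝ) * e) ^ 3 - p) / w ^ 2 ∈ slitPlane by simp [h2]))] with t a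
      exact ContinuousAt.prodMk (by fun_prop) (continuousAt_const.mul
        ((hasDerivAt_sqrt a).continuousAt.comp (f := fun t : ℝ => ((z + t * e) ^ 3 - p) / w ^ 2)
          hc.continuousAt))
    filter_upwards [hlt.filter_mono nhdsWithin_le_nhds, self_mem_nhdsWithin] with t a b
    refine ⟨⟨?_, a.le⟩, he' t b⟩
    simp only [pf, mul_pow, csq]
    field_simp; ring

theorem K_top {p : ℂ} (hp : p ≠ 0) {y : ℂ × ℂ} (hy : y ∈ K p) :
    ∃ y' ∈ connectedComponentIn (K p) y, normSq y'.1 ^ 3 = 81 * normSq p := by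
  have hcl : IsCompact (connectedComponentIn (K p) y) := by
    refine (K_compact p).of_isClosed_subset ?_ (connectedComponentIn_subset _ _)
    rw [connectedComponentIn_eq_image hy]
    exact (K_compact p).isClosed.isClosedMap_subtype_val _ isClosed_connectedComponent
  obtain ⟨y', h1, h2⟩ := hcl.exists_isMaxOn (f := fun y => normSq y.1)
    ⟨y, mem_connectedComponentIn hy⟩ (by fun_prop)
  refine ⟨y', h1, ?_⟩
  have h3 := connectedComponentIn_subset _ _ h1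
  by_contra hn
  obtain ⟨z, a, b⟩ := K_up hp h3 (lt_of_le_of_ne h3.2 hn)
  rw [← connectedComponentIn_eq h1] at a
  exact absurd (h2 a) (not_le.2 b)

variable (P : Prof)

/-- the square of the height of the core over the neighbourhood of the knot -/
def g (y : ℂ × ℝ) : ℝ := y.2 ^ 2 - P.ε * P.χ (y.2 ^ 2) * (ph y.1).re

def N : Set (ℂ × ℝ) := {y | y.1 ≠ 0 ∧ y.2 ^ 2 < 1 / 64 ∧ 0 ≤ g P y}

theorem g_mono {r : ℝ} (hr : |r| ≤ 1) : Monotone fun τ => τ - P.ε * P.χ τ * r := by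
  have d := P.χ_sm.differentiable (by simp)
  have e : ∀ τ, HasDerivAt (fun τ => τ - P.ε * P.χ τ * r) (1 - P.ε * deriv P.χ τ * r) τ := fun τ =>
    (hasDerivAt_id τ).sub (((d τ).hasDerivAt.const_mul _).mul_const _)
  refine monotone_of_deriv_nonneg (fun τ => (e τ).differentiableAt) fun τ => ?_
  rw [(e τ).deriv]
  have h1 := P.ε_der τ
  have h2 : deriv P.χ τ * r ≤ |deriv P.χ τ| :=
    (le_abs_self _).trans (by rw [abs_mul]; exact mul_le_of_le_one_right (abs_nonneg _) hr)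
  nlinarith [P.ε_pos]

theorem ph_re {a : ℂ} (h : a ≠ 0) : |(ph a).re| ≤ 1 := norm_ph h ▸ abs_re_le_norm _

theorem mem_N {a : ℂ} {c c' : ℝ} (h : (a, c) ∈ N P) (h1 : c' ^ 2 < 1 / 64)
    (h2 : c ^ 2 ≤ c' ^ 2 ∨ 1 / 100 ≤ c' ^ 2) : (a, c') ∈ N P := by
  refine ⟨h.1, h1, h2.elim (fun b => h.2.2.trans (g_mono P (ph_re h.1) b)) fun b => ?_⟩
  simp only [g, P.χ_hi _ b]
  nlinarith

theorem N_conn : IsPreconnected (N P) := by
  have c0 : IsPreconnected ({0}ᶜ : Set ℂ) :=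
    (isConnected_compl_singleton_of_one_lt_rank (by simp) 0).isPreconnected
  have m0 : ((-1 : ℂ), (0 : ℝ)) ∈ N P :=
    ⟨by simp, by norm_num, by simpa [g, ph, P.χ_lo 0 (by norm_num)] using P.ε_pos.le⟩
  have seg : ∀ (a : ℂ) (c d : ℝ), (a, c) ∈ N P → d ^ 2 = 1 / 81 → 0 ≤ c * d →
      {a} ×ˢ uIcc c d ⊆ N P := by
    rintro a c d h hd hs ⟨a', c'⟩ ⟨rfl : a' = a, b⟩
    have h1 : c ^ 2 < 1 / 64 := h.2.1
    rcases mem_uIcc.1 b with b | b <;> simp only at b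
    · rcases le_total 0 c with s | s
      · exact mem_N P h (by nlinarith) (Or.inl (by nlinarith))
      · rcases s.eq_or_lt with s | s
        · exact mem_N P h (by nlinarith) (Or.inl (by nlinarith))
        · have : d ≤ 0 := by nlinarith
          exact mem_N P h (by nlinarith) (Or.inr (by nlinarith))
    · rcases le_total c 0 with s | s
      · exact mem_N P h (by nlinarith) (Or.inl (by nlinarith))
      · rcases s.eq_or_lt with s | s
        · exact mem_N P h (by nlinarith) (Or.inl (by nlinarith))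
        · have : 0 ≤ d := by nlinarith
          exact mem_N P h (by nlinarith) (Or.inr (by nlinarith))
  refine isPreconnected_of_forall (-1, 0) fun ⟨a, c⟩ h => ?_
  obtain ⟨d, hd, hs⟩ : ∃ d : ℝ, d ^ 2 = 1 / 81 ∧ 0 ≤ c * d := by
    rcases le_total 0 c with s | s
    · exact ⟨1 / 9, by norm_num, by positivity⟩
    · exact ⟨-1 / 9, by norm_num, by linarith⟩
  refine ⟨({a} ×ˢ uIcc c d ∪ {0}ᶜ ×ˢ {d}) ∪ {-1} ×ˢ uIcc 0 d,
    union_subset (union_subset (seg a c d h hd hs) ?_) (seg _ _ _ m0 hd (by simp)),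
    Or.inr ⟨rfl, left_mem_uIcc⟩, Or.inl (Or.inl ⟨rfl, left_mem_uIcc⟩), ?_⟩
  · rintro ⟨a', c'⟩ ⟨b, rfl : c' = d⟩
    refine ⟨b, by simp only [hd]; norm_num, ?_⟩
    simp only [g, hd, P.χ_hi (1 / 81) (by norm_num)]
    norm_num
  · refine IsPreconnected.union (-1, d) (Or.inr ⟨by simp, rfl⟩) ⟨rfl, right_mem_uIcc⟩
      (IsPreconnected.union (a, d) ⟨rfl, right_mem_uIcc⟩ ⟨h.1, rfl⟩ ?_ ?_) ?_
    · exact isPreconnected_singleton.prod isPreconnected_uIcc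
    · exact c0.prod isPreconnected_singleton
    · exact isPreconnected_singleton.prod isPreconnected_uIcc

end Pool.Agent.MP_7ebdba_gt.sm.cn

end
end MrgPart1

-- marker of a merged file
example : 731051 + 429200 = 731051 + 429200 := rfl

end MrgPart0

-- ======== part 1: formerly Pool.Agent.MP_7ebdba_gt.sm.p.Bridge
section MrgPart1

-- ======== part 0: formerly Pool.Agent.MP_7ebdba_gt.sm.g.Spec
section MrgPart0

/-! Block G: statements of the rows. -/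

open scoped ContDiff Topology ComplexConjugate
open Set Complex

noncomputable section

namespace Pool.Agent.MP_7ebdba_gt.sm

def au (u : ℂ) : ℂ := normSq u * conj u - 1

/-- the phase factor of `pp` in the coordinates of the free action -/
def ka (u : ℂ) : ℂ := ph (au u) ^ 3 * ph u ^ 4

/-- row LIFT: a smooth circle valued function on the shell has a smooth logarithm -/
def LiftStmt : Prop :=
  ∀ Δ : V3 → ℂ, (∀ y, 5 / 2 < nq y → nq y < 14 / 5 → ContDiffAt ℝ ∞ Δ y ∧ ‖Δ y‖ = 1) →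
    ∃ v : V3 → ℝ, ∀ y, 5 / 2 < nq y → nq y < 14 / 5 → ContDiffAt ℝ ∞ v y ∧ exp (v y * I) = Δ y ∧
      ((∀ᶠ y' in 𝓝 y, Δ y' = 1) → ∀ᶠ y' in 𝓝 y, v y' = v y)

/-- row LAM: the phase correction along the orbits -/
def LamStmt : Prop :=
  ∀ Θ, Adm Θ → ∃ Λ : S4 ≃ S4, (∀ x ∈ WW, LD Λ x) ∧
    (∀ x : S4, (pp (Λ x) = 0 ↔ pp x = 0) ∧ lev (Λ x) = lev x ∧ qq (Λ x) = qq x) ∧
    ∀ x ∈ VV ∩ WW, (Θ (qq x) = qq x → ph (pp (Λ x)) = ph (pp x)) ∧
      (Θ (qq x) ≠ qq x → ph (pp (Λ x)) * ka (Θ.symm (qq x)).1 = ka (qq x).1 * ph (pp x))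

/-- row BELT -/
def BeltStmt : Prop :=
  ∀ r > 0, ∃ G : S4 ≃ S4, ∀ x : S4, LD G x ∧ zc (G x) = zc x ∧
    (r ≤ ‖zc x‖ → wc (G x) = wc x * conj (ph (zc x)) ^ 2 ∧ sc (G x) = sc x)

end Pool.Agent.MP_7ebdba_gt.sm

end
end MrgPart0

-- ======== part 1: formerly Pool.Agent.MP_7ebdba_gt.sm.g.J
section MrgPart1

/-! Block G: the coordinates of the action with weights `2, -1`. -/

open scoped ContDiff Topology ComplexConjugate
open Set Complex

noncomputable section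

namespace Pool.Agent.MP_7ebdba_gt.sm

def p1 (z w : ℂ) : ℂ := normSq z * conj z - w ^ 2
def u1 (z w : ℂ) : ℂ := z * p1 z w / (normSq (p1 z w) ^ (2 / 3 : ℝ) : ℝ)
def z0 (c u : ℂ) : ℂ := ph (au u) * u / c ^ 2
def w0 (c u : ℂ) : ℂ := √‖au u‖ * c

theorem p1_smul (L : ℝ) (z w : ℂ) : p1 (L ^ 2 * z) (L ^ 3 * w) = L ^ 6 * p1 z w := by
  simp only [p1, map_mul, map_pow, normSq_ofReal, conj_ofReal]
  push_cast
  ring

theorem u1_smul {L : ℝ} (h : 0 < L) (z w : ℂ) : u1 (L ^ 2 * z) (L ^ 3 * w) = u1 z w := by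
  have h1 : (L : ℂ) ^ 8 ≠ 0 := pow_ne_zero _ (ofReal_ne_zero.2 h.ne')
  simp only [u1, p1_smul, map_mul, map_pow, normSq_ofReal,
    (rp6 (mul_self_nonneg L) _ (normSq_nonneg _)).2]
  rw [← mul_div_mul_left (z * p1 z w) _ h1]
  congr 1
  · ring
  · push_cast
    ring

theorem u1_unit {z w : ℂ} (h : ‖p1 z w‖ = 1) : u1 z w = z * p1 z w := by
  simp [u1, normSq_eq_norm_sq, h]

theorem au_eq_zero {u : ℂ} : au u = 0 ↔ u = 1 := by
  refine ⟨fun h => ?_, fun h => by simp [au, h]⟩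
  have h1 : (normSq u : ℂ) * conj u = 1 := sub_eq_zero.1 h
  have h2 : ‖u‖ ^ 3 = 1 := by
    have := congrArg norm h1
    rw [norm_mul, normSq_eq_norm_sq] at this
    simpa [pow_succ] using this
  have h3 : ‖u‖ = 1 := (pow_eq_one_iff_of_nonneg (norm_nonneg u) three_ne_zero).1 h2
  simpa [normSq_eq_norm_sq, h3] using congrArg conj h1

theorem p1_page {c u : ℂ} (hc : ‖c‖ = 1) (hu : u ≠ 1) :
    p1 (z0 c u) (w0 c u) = c ^ 2 / ph (au u) := by
  have h0 : au u ≠ 0 := fun h => hu (au_eq_zero.1 h)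
  have h1 := norm_ph h0
  have h2 := ph_ne h0
  have h3 := norm_mul_ph (au u)
  have hc0 : c ≠ 0 := norm_ne_zero_iff.1 (by simp [hc])
  have e1 : normSq (z0 c u) = normSq u := by simp [z0, normSq_eq_norm_sq, h1, hc]
  have e2 : (w0 c u) ^ 2 = ‖au u‖ * c ^ 2 := by
    rw [w0, mul_pow, ← ofReal_pow, Real.sq_sqrt (norm_nonneg _)]
  have e3 : (normSq u : ℂ) * conj u = ‖au u‖ * ph (au u) + 1 := by rw [h3, au, sub_add_cancel]
  rw [p1, e1, e2, z0, map_div₀, map_mul, map_pow, conj_unit h1, conj_unit hc]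
  field_simp
  linear_combination e3

theorem page_unit {c u : ℂ} (hc : ‖c‖ = 1) (hu : u ≠ 1) : ‖p1 (z0 c u) (w0 c u)‖ = 1 := by
  simp [p1_page hc hu, hc, norm_ph fun h => hu (au_eq_zero.1 h)]

theorem u1_page {c u : ℂ} (hc : ‖c‖ = 1) (hu : u ≠ 1) : u1 (z0 c u) (w0 c u) = u := by
  have h2 := ph_ne fun h => hu (au_eq_zero.1 h)
  have hc0 : c ≠ 0 := norm_ne_zero_iff.1 (by simp [hc])
  rw [u1_unit (page_unit hc hu), p1_page hc hu, z0]
  field_simp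

theorem ph_w0 {c u : ℂ} (hc : ‖c‖ = 1) (hu : u ≠ 1) : ph (w0 c u) = c := by
  rw [w0, ph_mul, ph_unit hc,
    ph_pos (Real.sqrt_pos.2 (norm_pos_iff.2 fun h => hu (au_eq_zero.1 h))), one_mul]

theorem au_unit {z w : ℂ} (h : ‖p1 z w‖ = 1) : au (u1 z w) = conj (p1 z w) * w ^ 2 := by
  have e : conj (p1 z w) * p1 z w = 1 := by rw [← normSq_eq_conj_mul_self, normSq_eq_norm_sq, h]; simp
  have e1 : normSq (z * p1 z w) = normSq z := by simp [normSq_eq_norm_sq, h]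
  have e2 : (normSq z : ℂ) * conj z = p1 z w + w ^ 2 := by simp [p1]
  rw [u1_unit h, au, e1, map_mul]
  linear_combination conj (p1 z w) * e2 + e

theorem scale1 {z w : ℂ} (h : p1 z w ≠ 0) :
    ∃ (L : ℝ) (z' w' : ℂ), 0 < L ∧ z = L ^ 2 * z' ∧ w = L ^ 3 * w' ∧ ‖p1 z' w'‖ = 1 := by
  have h0 := norm_pos_iff.2 h
  have hL : 0 < ‖p1 z w‖ ^ ((6 : ℕ) : ℝ)⁻¹ := Real.rpow_pos_of_pos h0 _
  have h6 := Real.rpow_inv_natCast_pow (n := 6) h0.le (by norm_num)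
  generalize ‖p1 z w‖ ^ ((6 : ℕ) : ℝ)⁻¹ = L at hL h6
  have hc : (L : ℂ) ≠ 0 := ofReal_ne_zero.2 hL.ne'
  have e1 : z = L ^ 2 * (z / L ^ 2) := by field_simp
  have e2 : w = L ^ 3 * (w / L ^ 3) := by field_simp
  refine ⟨L, _, _, hL, e1, e2, ?_⟩
  rw [e1, e2, p1_smul, norm_mul, norm_pow, norm_real, Real.norm_of_nonneg hL.le] at h6
  exact (mul_eq_left₀ (pow_pos hL 6).ne').1 h6.symm

theorem page_inv {z w : ℂ} (h : p1 z w ≠ 0) (hw : w ≠ 0) : u1 z w ≠ 1 ∧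
    ∃ L : ℝ, 0 < L ∧ z = L ^ 2 * z0 (ph w) (u1 z w) ∧ w = L ^ 3 * w0 (ph w) (u1 z w) := by
  obtain ⟨L, z, w, hL, rfl, rfl, h1⟩ := scale1 h
  have hw : w ≠ 0 := right_ne_zero_of_mul hw
  have h0 : p1 z w ≠ 0 := norm_ne_zero_iff.1 (by simp [h1])
  have e : ph (L ^ 3 * w) = ph w := by rw [ph_mul, ph_pow, ph_pos hL, one_pow, one_mul]
  have a := au_unit h1
  rw [u1_smul hL, e]
  refine ⟨fun c => ?_, L, hL, ?_, ?_⟩
  · rw [au_eq_zero.2 c] at a
    simp [h0, hw] at a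
  · have := ph_ne hw
    rw [z0, a, ph_mul, ph_pow, ph_conj, ph_unit h1, conj_unit h1, u1_unit h1]
    field_simp
  · rw [w0, a, norm_mul, norm_conj, h1, one_mul, norm_pow, Real.sqrt_sq (norm_nonneg _),
      norm_mul_ph]

theorem ka_u1 {z w : ℂ} (h : p1 z w ≠ 0) :
    ka (u1 z w) = ph w ^ 6 * (ph z ^ 4 * ph (p1 z w)) := by
  obtain ⟨L, z, w, hL, rfl, rfl, h1⟩ := scale1 h
  have h0 : p1 z w ≠ 0 := norm_ne_zero_iff.1 (by simp [h1])
  rw [u1_smul hL, ka, au_unit h1, u1_unit h1, p1_smul]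
  simp only [ph_mul, ph_pow, ph_pos hL, ph_inv, ph_unit h1, conj_unit h1]
  field_simp

theorem u1_zero {z : ℂ} (h : p1 z 0 ≠ 0) : u1 z 0 = 1 := by
  obtain ⟨L, z, w, hL, rfl, e, h1⟩ := scale1 h
  have : w = 0 := (mul_eq_zero.1 e.symm).resolve_left (pow_ne_zero _ (ofReal_ne_zero.2 hL.ne'))
  rw [e, u1_smul hL, ← au_eq_zero, au_unit h1, this]
  simp

theorem normSq_u1 (z w : ℂ) : normSq (u1 z w) = normSq z / normSq (p1 z w) ^ (1 / 3 : ℝ) := by
  obtain ⟨h1, h2⟩ := cube_rp (normSq_nonneg (p1 z w))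
  simp only [u1, map_div₀, map_mul, normSq_ofReal, h2]
  generalize normSq (p1 z w) ^ (1 / 3 : ℝ) = n at *
  rw [← h1]
  by_cases hn : n = 0
  · simp [hn]
  field_simp

/-- the two pictures correspond under the belt trick -/
theorem p1_belt {z : ℂ} (hz : z ≠ 0) (w : ℂ) :
    p1 z (w * ph (conj z) ^ 2) * ph z ^ 4 = pf z w := by
  have h1 := ph_ne hz
  have h2 := norm_mul_ph z
  have h3 : conj z = ‖z‖ * (ph z)⁻¹ := by
    rw [← conj_unit (norm_ph hz), ← ph_conj, ← norm_conj z, norm_mul_ph]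
  rw [p1, pf, ph_conj, conj_unit (norm_ph hz), h3, normSq_eq_norm_sq]
  generalize ph z = c at *
  generalize ‖z‖ = n at *
  subst h2
  push_cast
  field_simp

theorem u1_belt {z : ℂ} (hz : z ≠ 0) (w : ℂ) : u1 z (w * ph (conj z) ^ 2) = uf z w := by
  have h0 := p1_belt hz w
  have h1 := ph_ne hz
  have h2 := norm_mul_ph z
  have h3 : conj z = ‖z‖ * (ph z)⁻¹ := by
    rw [← conj_unit (norm_ph hz), ← ph_conj, ← norm_conj z, norm_mul_ph]
  have h4 : normSq (pf z w) = normSq (p1 z (w * ph (conj z) ^ 2)) := by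
    simp [← h0, normSq_eq_norm_sq, norm_ph hz]
  have h5 : (‖z‖ : ℂ) ≠ 0 := by simpa using hz
  rw [u1, uf, h4, ← h0, normSq_eq_norm_sq z]
  generalize p1 z (w * ph (conj z) ^ 2) = p
  rw [h3]
  generalize ph z = c at *
  generalize ‖z‖ = n at *
  subst h2
  push_cast
  rw [← div_div]
  congr 1
  field_simp

section Calc
variable {F : Type} [NormedAddCommGroup F] [NormedSpace ℝ F] {y : F} {a b : F → ℂ}

theorem cda_p1 (ha : ContDiffAt ℝ ∞ a y) (hb : ContDiffAt ℝ ∞ b y) :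
    ContDiffAt ℝ ∞ (fun y => p1 (a y) (b y)) y :=
  ((cda_ofReal (cda_normSq ha)).mul (cda_conj ha)).sub (hb.pow 2)

theorem cda_u1 (ha : ContDiffAt ℝ ∞ a y) (hb : ContDiffAt ℝ ∞ b y) (h0 : p1 (a y) (b y) ≠ 0) :
    ContDiffAt ℝ ∞ (fun y => u1 (a y) (b y)) y := by
  have h1 := normSq_pos.2 h0
  exact cda_div (ha.mul (cda_p1 ha hb))
    (cda_ofReal ((cda_normSq (cda_p1 ha hb)).rpow_const_of_ne h1.ne'))
    (ofReal_ne_zero.2 (Real.rpow_pos_of_pos h1 _).ne')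

theorem cda_au (ha : ContDiffAt ℝ ∞ a y) : ContDiffAt ℝ ∞ (fun y => au (a y)) y :=
  ((cda_ofReal (cda_normSq ha)).mul (cda_conj ha)).sub contDiffAt_const

theorem cda_z0 (ha : ContDiffAt ℝ ∞ a y) (hb : ContDiffAt ℝ ∞ b y) (h0 : a y ≠ 0) (h1 : b y ≠ 1) :
    ContDiffAt ℝ ∞ (fun y => z0 (a y) (b y)) y :=
  cda_div ((cda_ph (cda_au hb) fun h => h1 (au_eq_zero.1 h)).mul hb) (ha.pow 2) (pow_ne_zero _ h0)

theorem cda_w0 (ha : ContDiffAt ℝ ∞ a y) (hb : ContDiffAt ℝ ∞ b y) (h1 : b y ≠ 1) :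
    ContDiffAt ℝ ∞ (fun y => w0 (a y) (b y)) y :=
  have h : au (b y) ≠ 0 := fun h => h1 (au_eq_zero.1 h)
  (cda_ofReal ((cda_norm (cda_au hb) h).sqrt (norm_ne_zero_iff.2 h))).mul ha

end Calc

end Pool.Agent.MP_7ebdba_gt.sm

end
end MrgPart1

-- ======== part 2: formerly Pool.Agent.MP_7ebdba_gt.sm.p.Ch1
section MrgPart2

/-! Block P: the action, the normalisations, the orbit map. -/

open scoped Topology ComplexConjugate
open Set Filter Complex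

noncomputable section

namespace Pool.Agent.MP_7ebdba_gt.sm.p

variable {x : C2} {l a c : ℂ} {r s t : ℝ}

/-! ### the action -/

theorem cont_pl : Continuous pl := by
  unfold pl pf
  fun_prop
theorem cont_ac : Continuous fun q : ℂ × C2 => ac q.1 q.2 := by
  unfold ac
  fun_prop
theorem cont_ex : Continuous ex := by
  unfold ex
  fun_prop
theorem norm_ex (t : ℝ) : ‖ex t‖ = 1 := norm_exp_ofReal_mul_I t
theorem ex_add (s t : ℝ) : ex (s + t) = ex s * ex t := by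
  simp only [ex, ofReal_add, add_mul, exp_add]
theorem ex_zero : ex 0 = 1 := by simp [ex]
theorem ex_pow (t : ℝ) (n : ℕ) : ex t ^ n = ex (n * t) := by
  simp only [ex, ← exp_nat_mul, ofReal_mul, ofReal_natCast, mul_assoc]
theorem ex_two_pi : ex (2 * Real.pi) = 1 := by
  simp [ex]
theorem ex_pi : ex Real.pi = -1 := by simp [ex]
theorem ex_half_pi : ex (Real.pi / 2) = I := by
  simp [ex]
theorem ex_re (t : ℝ) : (ex t).re = Real.cos t := exp_ofReal_mul_I_re t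
theorem ex_im (t : ℝ) : (ex t).im = Real.sin t := exp_ofReal_mul_I_im t
theorem ac_one (x : C2) : ac 1 x = x := by simp [ac]
theorem ac_mul (l l' : ℂ) (x : C2) : ac (l * l') x = ac l (ac l' x) := by
  simp only [ac, mul_pow, mul_assoc]
theorem pl_ac (l : ℂ) (x : C2) : pl (ac l x) = l ^ 6 * pl x := pf_smul _ _ _
theorem uu_ac (hl : l ≠ 0) (x : C2) : uu (ac l x) = uu x := uf_smul hl _ _
theorem xx_ac (hl : l ≠ 0) (x : C2) : xx (ac l x) = xx x := xf_smul hl _ _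
theorem norm_ac1 (l : ℂ) (x : C2) : ‖(ac l x).1‖ ^ 3 = ‖l‖ ^ 6 * ‖x.1‖ ^ 3 := by
  simp only [ac, norm_mul, norm_pow]
  ring
theorem norm_pl_ac (l : ℂ) (x : C2) : ‖pl (ac l x)‖ = ‖l‖ ^ 6 * ‖pl x‖ := by
  rw [pl_ac, norm_mul, norm_pow]
theorem near_ac (hl : l ≠ 0) : near r (ac l x) ↔ near r x := by
  have := norm_pos_iff.2 hl
  rw [near, near, norm_ac1, norm_pl_ac, mul_left_comm]
  exact mul_lt_mul_iff_right₀ (by positivity)
theorem KK_ac (hl : l ≠ 0) : ac l x ∈ KK ↔ x ∈ KK := by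
  simp [KK, ac, hl]
theorem N3_ac (hl : ‖l‖ = 1) : ac l x ∈ N3 ↔ x ∈ N3 := by
  simp only [N3, mem_ofPred_eq, norm_ac1, norm_pl_ac, hl, one_pow, one_mul]
theorem al_ac_pos (hr : 0 < r) (x : C2) : al (ac r x) = al x :=
  (af_smul (ofReal_ne_zero.2 hr.ne') _ _).trans (by rw [ph_pos hr, one_mul, al])
theorem pc_ac_pos (hr : 0 < r) (x : C2) : pc (ac r x) = pc x :=
  (cf_smul _ _ _).trans (by rw [ph_pos hr, one_pow, one_mul, pc])
theorem mm_ac_pos (P : Prof) (hr : 0 < r) (x : C2) : mm P (ac r x) = mm P x := by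
  have h : (r : ℂ) ≠ 0 := ofReal_ne_zero.2 hr.ne'
  show mf P (r ^ 2 * x.1) (r ^ 3 * x.2) = mf P x.1 x.2
  rw [mf, mf, tf_smul h, xf_smul h, af_smul h, ph_pos hr, one_mul]
  by_cases e : Near x.1 x.2
  · rw [if_pos e, if_pos ((near_smul h _ _).2 e)]
  · rw [if_neg e, if_neg fun e' => e ((near_smul h _ _).1 e')]
theorem al_ac (hl : ‖l‖ = 1) (x : C2) : al (ac l x) = l * al x :=
  (af_smul (norm_ne_zero_iff.1 (by simp [hl])) _ _).trans (by rw [ph_unit hl, al])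
theorem pc_ac (hl : ‖l‖ = 1) (x : C2) : pc (ac l x) = l ^ 6 * pc x :=
  (cf_smul _ _ _).trans (by rw [ph_unit hl, pc])
theorem closed_KK : IsClosed KK :=
  (isClosed_eq continuous_fst continuous_const).union (isClosed_eq continuous_snd continuous_const)
theorem closed_KY : IsClosed KY := closed_KK.preimage continuous_fst

/-! ### the two normalisations -/

theorem rp_six {B : ℝ} (h : 0 < B) : (B ^ (-(1 / 6) : ℝ)) ^ 6 = B⁻¹ := by
  rw [← Real.rpow_natCast, ← Real.rpow_mul h.le, ← Real.rpow_neg_one]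
  norm_num

theorem rp_mul (hr : 0 < r) {B : ℝ} (h : 0 ≤ B) :
    (r ^ 6 * B) ^ (-(1 / 6) : ℝ) * r = B ^ (-(1 / 6) : ℝ) := by
  have e : (r ^ 6) ^ (-(1 / 6) : ℝ) = r⁻¹ := by
    rw [← Real.rpow_natCast, ← Real.rpow_mul hr.le, ← Real.rpow_neg_one]
    norm_num
  rw [Real.mul_rpow (by positivity) h, e]
  field_simp

theorem base_pos (h : x ≠ 0) : 0 < ‖x.1‖ ^ 3 + ‖pl x‖ := by
  by_cases h1 : x.1 = 0
  · have h2 : x.2 ≠ 0 := fun h2 => h (Prod.ext h1 h2)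
    have : pl x ≠ 0 := by simp [pl, pf, h1, h2]
    have := norm_pos_iff.2 this
    positivity
  · have := norm_pos_iff.2 h1
    positivity

theorem ne_of_pl (h : pl x ≠ 0) : x ≠ 0 := by
  rintro rfl
  simp [pl, pf] at h

theorem N3_ne (h : x ∈ N3) : x ≠ 0 := by
  rintro rfl
  simp [N3, pl, pf] at h
theorem nn_ex (h : x ≠ 0) : ∃ r : ℝ, 0 < r ∧ nn x = ac r x :=
  ⟨_, Real.rpow_pos_of_pos (base_pos h) _, rfl⟩
theorem nn_mem (h : x ≠ 0) : nn x ∈ N3 := by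
  have h1 := base_pos h
  rw [N3, mem_ofPred_eq, nn, norm_ac1, norm_pl_ac, ← mul_add, norm_real,
    Real.norm_of_nonneg (Real.rpow_nonneg h1.le _), rp_six h1, inv_mul_cancel₀ h1.ne']
theorem nn_eq (h : x ∈ N3) : nn x = x := by
  rw [nn, show ‖x.1‖ ^ 3 + ‖pl x‖ = 1 from h, Real.one_rpow, ofReal_one, ac_one]
theorem nn_ac_pos (hr : 0 < r) (x : C2) : nn (ac r x) = nn x := by
  rw [nn, norm_ac1, norm_pl_ac, ← mul_add, norm_real, Real.norm_of_nonneg hr.le, ← ac_mul,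
    ← ofReal_mul, rp_mul hr (by positivity), nn]
theorem nn_ac (hl : ‖l‖ = 1) (x : C2) : nn (ac l x) = ac l (nn x) := by
  rw [nn, norm_ac1, norm_pl_ac, hl, one_pow, one_mul, one_mul, nn, ← ac_mul, ← ac_mul, mul_comm]
theorem cont_ac_real {f : C2 → ℝ} {S : Set C2} (h : ContinuousOn f S) :
    ContinuousOn (fun x => ac (f x) x) S := by
  have h1 : ContinuousOn (fun x => (f x : ℂ)) S := continuous_ofReal.comp_continuousOn h
  exact ((h1.pow 2).mul continuousOn_fst).prodMk ((h1.pow 3).mul continuousOn_snd)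
theorem cont_nn : ContinuousOn nn {x | x ≠ 0} := by
  have h : ContinuousOn (fun x : C2 => (‖x.1‖ ^ 3 + ‖pl x‖) ^ (-(1 / 6) : ℝ)) {x | x ≠ 0} :=
    ((continuous_fst.norm.pow 3).add cont_pl.norm).continuousOn.rpow_const
      fun _ hx => Or.inl (base_pos hx).ne'
  exact cont_ac_real h
theorem toM_ex (h : pl x ≠ 0) : ∃ r : ℝ, 0 < r ∧ toM x = ac r x :=
  ⟨_, Real.rpow_pos_of_pos (norm_pos_iff.2 h) _, rfl⟩
theorem pl_toM (h : pl x ≠ 0) : pl (toM x) = ph (pl x) := by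
  rw [toM, pl_ac, ← ofReal_pow, rp_six (norm_pos_iff.2 h), ph, ofReal_inv, div_eq_inv_mul]
theorem toM_eq (h : x ∈ MM) : toM x = x := by
  rw [toM, show pl x = 1 from h, norm_one, Real.one_rpow, ofReal_one, ac_one]
theorem toM_ac_pos (hr : 0 < r) (x : C2) : toM (ac r x) = toM x := by
  rw [toM, norm_pl_ac, norm_real, Real.norm_of_nonneg hr.le, ← ac_mul, ← ofReal_mul,
    rp_mul hr (norm_nonneg _), toM]
theorem toM_ac (hl : ‖l‖ = 1) (x : C2) : toM (ac l x) = ac l (toM x) := by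
  rw [toM, norm_pl_ac, hl, one_pow, one_mul, toM, ← ac_mul, ← ac_mul, mul_comm]
theorem cont_toM : ContinuousOn toM {x | pl x ≠ 0} := by
  have h : ContinuousOn (fun x : C2 => ‖pl x‖ ^ (-(1 / 6) : ℝ)) {x | pl x ≠ 0} :=
    cont_pl.norm.continuousOn.rpow_const fun _ hx => Or.inl (norm_ne_zero_iff.2 hx)
  exact cont_ac_real h
theorem toM_mem (h : x ∈ Pg) (h0 : pl x ≠ 0) : toM x ∈ MM := by
  have e : pl x = ((pl x).re : ℝ) := Complex.ext rfl h.2.1
  have h1 : 0 < (pl x).re := lt_of_le_of_ne h.2.2 fun h2 => h0 (Complex.ext h2.symm h.2.1)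
  rw [MM, mem_ofPred_eq, pl_toM h0, e, ph_pos h1]
theorem nn_toM (h : x ∈ N3) (h0 : pl x ≠ 0) : nn (toM x) = x := by
  obtain ⟨r, hr, e⟩ := toM_ex h0
  rw [e, nn_ac_pos hr, nn_eq h]
theorem MM_pl (h : x ∈ MM) : pl x ≠ 0 := by
  rw [show pl x = 1 from h]
  exact one_ne_zero
theorem toM_nn (h : x ∈ MM) : toM (nn x) = x := by
  obtain ⟨r, hr, e⟩ := nn_ex (ne_of_pl (MM_pl h))
  rw [e, toM_ac_pos hr, toM_eq h]
theorem nn_Pg (h : x ∈ MM) : nn x ∈ Pg ∧ pl (nn x) ≠ 0 := by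
  have h0 := ne_of_pl (MM_pl h)
  obtain ⟨r, hr, e⟩ := nn_ex h0
  have e2 : pl (nn x) = (r ^ 6 : ℝ) := by
    rw [e, pl_ac, show pl x = 1 from h, mul_one, ofReal_pow]
  refine ⟨⟨nn_mem h0, ?_, ?_⟩, ?_⟩ <;> rw [e2]
  · exact ofReal_im _
  · rw [ofReal_re]
    positivity
  · exact ofReal_ne_zero.2 (by positivity)

/-! ### the orbit map -/

theorem cont_uu : ContinuousOn uu {x | pl x ≠ 0} := fun x hx =>
  (ca_uf (z := x.1) (w := x.2) hx).continuousWithinAt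
theorem cont_xx : ContinuousOn xx {x | pl x ≠ 0} := fun x hx =>
  (cda_xf (y := x) contDiffAt_fst contDiffAt_snd hx).continuousAt.continuousWithinAt
theorem normSq_uu (h : pl x ≠ 0) : normSq (uu x) = xx x := (fun _ => normSq_uf _ _) h
theorem uu_Pl (h : pl x ≠ 0) : uu x ∈ Pl ↔ x ∉ KK := by
  obtain ⟨z, w⟩ := x
  replace h : pf z w ≠ 0 := h
  have hp := normSq_pos.2 h
  obtain ⟨c1, c2⟩ := cube_rp hp.le
  have hn := Real.rpow_pos_of_pos hp (1 / 3)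
  simp only [Pl, KK, uu, mem_ofPred_eq, not_or]
  by_cases hz : z = 0
  · simp [hz, uf]
  have hz1 := normSq_pos.2 hz
  have hd : ((normSq z * normSq (pf z w) ^ (2 / 3 : ℝ) : ℝ) : ℂ) ≠ 0 :=
    ofReal_ne_zero.2 (by rw [c2]; positivity)
  have hc : conj z ^ 3 ≠ 0 := pow_ne_zero _ (by simpa using hz)
  have key : normSq (pf z w) ^ (1 / 3 : ℝ) = normSq z →
      ((normSq z * normSq (pf z w) ^ (2 / 3 : ℝ) : ℝ) : ℂ) = conj z ^ 3 * z ^ 3 := fun e => by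
    rw [c2, e, ← mul_pow, ← normSq_eq_conj_mul_self]
    push_cast
    ring
  refine and_congr (iff_of_true (div_ne_zero (mul_ne_zero hc h) hd) hz) (not_congr ⟨?_, ?_⟩)
  · intro e
    have e1 := normSq_uf z w
    rw [e, map_one, xf, eq_div_iff hn.ne', one_mul] at e1
    rw [uf, div_eq_one_iff_eq hd, key e1, mul_right_inj' hc, pf, sub_eq_self] at e
    exact pow_eq_zero_iff two_ne_zero |>.1 e
  · rintro rfl
    have e : pf z 0 = z ^ 3 := by simp [pf]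
    rw [uf, div_eq_one_iff_eq hd, key, e]
    rw [← pow_left_inj₀ hn.le hz1.le three_ne_zero, c1, e, map_pow]
theorem uu_MM (h : x ∈ MM) : uu x = conj x.1 ^ 3 / (normSq x.1 : ℝ) := by
  have e : pf x.1 x.2 = 1 := h
  simp only [uu, uf, e, map_one, Real.one_rpow, mul_one]
/-- `xx = ‖pc‖ ^ (-2 / 3)` -/
theorem near_iff_xx (h : pl x ≠ 0) (hr : 0 < r) : near r x ↔ 1 < r ^ 2 * xx x ^ 3 := by
  have hp : 0 < normSq (pf x.1 x.2) := normSq_pos.2 h
  rw [xx, xf_cube, tf, inv_div, ← mul_div_assoc, one_lt_div hp, near, pl,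
    ← pow_lt_pow_iff_left₀ (norm_nonneg _) (by positivity) two_ne_zero, normSq_eq_norm_sq,
    normSq_eq_norm_sq]
  constructor <;> intro e <;> convert e using 1 <;> ring

theorem wd_Pl : WD Pl (fun u => u.im) NP := by
  refine ⟨continuous_im, fun j => ?_, fun i j u _ hi hj => ?_, fun u hu h0 => ?_⟩
  · fin_cases j
    · exact isOpen_lt continuous_re continuous_const
    · exact (isOpen_lt continuous_const continuous_re).inter
        (isOpen_lt continuous_re continuous_const)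
    · exact isOpen_lt continuous_const continuous_re
  · fin_cases i <;> fin_cases j <;> simp [NP] at hi hj ⊢ <;> grind
  · have h1 : u.re ≠ 0 := fun e => hu.1 (Complex.ext e h0)
    have h2 : u.re ≠ 1 := fun e => hu.2 (Complex.ext e h0)
    rcases h1.lt_or_gt with h1 | h1
    · exact ⟨0, h1⟩
    rcases h2.lt_or_gt with h2 | h2
    · exact ⟨1, h1, h2⟩
    · exact ⟨2, h2⟩

theorem wd_Sh : WD Sh (fun y => y.1.im) NS := by
  have c : Continuous fun y : V3 => y.1.re := continuous_re.comp continuous_fst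
  refine ⟨continuous_im.comp continuous_fst, fun j => ?_, fun i j u _ hi hj => ?_,
    fun u hu h0 => ?_⟩
  · fin_cases j
    · exact isOpen_lt c continuous_const
    · exact (isOpen_lt continuous_const c).inter
        ((isOpen_lt c continuous_const).inter (isOpen_lt continuous_const continuous_snd))
    · exact (isOpen_lt continuous_const c).inter
        ((isOpen_lt c continuous_const).inter (isOpen_lt continuous_snd continuous_const))
    · exact isOpen_lt continuous_const c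
  · fin_cases i <;> fin_cases j <;> simp [NS] at hi hj ⊢ <;> grind
  · have h1 : u.1.re ≠ 0 := fun e => hu.2.1 (Complex.ext e h0)
    have h2 : u.1.re ≠ 1 := fun e => hu.2.2 (Complex.ext e h0)
    rcases h1.lt_or_gt with h1 | h1
    · exact ⟨0, h1⟩
    rcases h2.lt_or_gt with h2 | h2
    · have h3 : u.2 ≠ 0 := fun e => by
        have h4 := hu.1.1
        have h5 : u.1.im = 0 := h0
        rw [nq, normSq_apply, e, h5] at h4
        nlinarith
      rcases h3.lt_or_gt with h3 | h3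
      · exact ⟨2, h1, h2, h3⟩
      · exact ⟨1, h1, h2, h3⟩
    · exact ⟨3, h2⟩

end Pool.Agent.MP_7ebdba_gt.sm.p

end
end MrgPart2

-- ======== part 3: formerly Pool.Agent.MP_7ebdba_gt.sm.p.Bridge
section MrgPart3

/-! Block P, row BRIDGE: the reglued decomposition seen from the model `N3 × ℝ`. -/

open scoped Topology ComplexConjugate ContDiff
open Set Filter Complex

noncomputable section

namespace Pool.Agent.MP_7ebdba_gt.sm.p.br

/-- the sphere minus the poles -/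
def Off : Set S4 := {x | zc x ≠ 0 ∨ wc x ≠ 0}

/-- from the model to the sphere -/
def emb (y : YY) : S4 := rad ⟨nrm 1 0 0, nrm_mem (Or.inl one_ne_zero) 0⟩ (nrm y.1.1 y.1.2 y.2)

/-- from the sphere to the model -/
def crd (x : S4) : YY := (nn (zc x, wc x), tt x)

theorem ne_iff {x : C2} : x ≠ 0 ↔ x.1 ≠ 0 ∨ x.2 ≠ 0 := by
  rw [Ne, Prod.ext_iff, not_and_or]
  rfl

theorem n3 {x : C2} (h : x ∈ N3) : x.1 ≠ 0 ∨ x.2 ≠ 0 := ne_iff.1 (N3_ne h)

theorem emb_coe {y : YY} (h : y.1.1 ≠ 0 ∨ y.1.2 ≠ 0) : (emb y : E 5) = nrm y.1.1 y.1.2 y.2 :=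
  congrArg Subtype.val (rad_self _ ⟨_, nrm_mem h _⟩)

theorem isOpen_Off : IsOpen Off :=
  isOpen_iff_mem_nhds.2 fun _ h => ev_zw
    (cd_zc.continuous.comp continuous_subtype_val).continuousAt
    (cd_wc.continuous.comp continuous_subtype_val).continuousAt h

theorem cont_emb {y : YY} (h : y.1 ∈ N3) : ContinuousAt emb y := by
  rw [ContinuousAt, tendsto_subtype_rng, emb_coe (n3 h)]
  refine (cda_nrm (F := YY) contDiffAt_fst.fst contDiffAt_fst.snd contDiffAt_snd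
    (n3 h)).continuousAt.tendsto.congr' ?_
  exact (ev_zw continuousAt_fst.fst continuousAt_fst.snd (n3 h)).mono fun _ a => (emb_coe a).symm

theorem cont_crd {x : S4} (h : x ∈ Off) : ContinuousAt crd x :=
  ((cont_nn.continuousAt (isOpen_ne.mem_nhds ((ne_iff (x := (zc x, wc x))).2 h))).comp
    (f := fun y : S4 => (zc y, wc y))
    ((cd_zc.prodMk cd_wc).continuous.comp continuous_subtype_val).continuousAt).prodMk
    ((cd_tt (sc_lt h)).continuousAt.comp continuous_subtype_val.continuousAt)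

theorem crd_emb {y : YY} (h : y.1 ∈ N3) : crd (emb y) = y := by
  rw [crd, emb_coe (n3 h), tt_nrm]
  exact Prod.ext ((nn_ac_pos (lam_pos (n3 h) y.2) y.1).trans (nn_eq h)) rfl

theorem crd_mem {x : S4} (h : x ∈ Off) : (crd x).1 ∈ N3 := nn_mem (ne_iff.2 h)

theorem emb_crd {x : S4} (h : x ∈ Off) : emb (crd x) = x := by
  obtain ⟨r, hr, e⟩ := nn_ex (x := (zc x, wc x)) (ne_iff.2 h)
  apply Subtype.ext
  rw [emb_coe (n3 (crd_mem h)), crd, e]
  exact (nrm_scale h hr _).trans (nrm_self h)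

theorem emb_off {y : YY} (h : y.1 ∈ N3) : emb y ∈ Off := by
  rw [Off, mem_ofPred_eq, emb_coe (n3 h)]
  exact zw_nrm (n3 h) _

theorem pp_emb {y : YY} (h : y.1 ∈ N3) : pp (emb y) = 0 ↔ pl y.1 = 0 := by
  rw [emb_coe (n3 h), pp_nrm, mul_eq_zero, or_iff_right (pow_ne_zero _ (lam_ne (n3 h) _))]
  rfl

theorem lev_emb {y : YY} (h : y.1 ∈ N3) : lev (emb y) = xx y.1 + y.2 ^ 2 := by
  rw [emb_coe (n3 h), lev_nrm (n3 h)]
  rfl

theorem emb_WW {y : YY} (h : y.1 ∈ N3) : emb y ∈ WW ↔ y ∈ Wy := by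
  change pp (emb y) ≠ 0 ∧ lev (emb y) < 14 / 5 ↔ _
  rw [Ne, pp_emb h, lev_emb h]
  exact (and_iff_right h).symm

theorem emb_VV {y : YY} (h : y.1 ∈ N3) : emb y ∈ VV ↔ y ∈ Vy := by
  rw [mem_VV', pp_emb h, lev_emb h]
  exact (and_iff_right h).symm

theorem WW_off {x : S4} (h : x ∈ WW) : x ∈ Off := zw_ne h.1

theorem crd_Wy {x : S4} (h : x ∈ WW) : crd x ∈ Wy :=
  (emb_WW (crd_mem (WW_off h))).1 ((emb_crd (WW_off h)).symm ▸ h)

theorem crd_Vy {x : S4} (h : x ∈ VV) (h' : x ∈ Off) : crd x ∈ Vy :=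
  (emb_VV (crd_mem h')).1 ((emb_crd h').symm ▸ h)

theorem im_Wy : emb '' Wy = WW :=
  Subset.antisymm (image_subset_iff.2 fun _ h => (emb_WW h.1).2 h)
    fun x h => ⟨crd x, crd_Wy h, emb_crd (WW_off h)⟩

theorem im_Vy : emb '' Vy = VV ∩ Off :=
  Subset.antisymm (image_subset_iff.2 fun _ h => ⟨(emb_VV h.1).2 h, emb_off h.1⟩)
    fun x h => ⟨crd x, crd_Vy h.1 h.2, emb_crd h.2⟩

theorem open_im {e : S4 → S4} {U : Set S4} (hU : IsOpen U) (h : ∀ x ∈ U, LD e x) :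
    IsOpen (e '' U) := by
  refine isOpen_iff_mem_nhds.2 ?_
  rintro _ ⟨x, hx, rfl⟩
  obtain ⟨_, _, _, _, _, a⟩ := h x hx
  exact a (image_mem_map (hU.mem_nhds hx))

theorem cont_back (e : S4 ≃ S4) {U : Set S4} (hU : U ⊆ Off) (h : ∀ x ∈ U, LD e x) :
    ContinuousOn (fun p => crd (e.symm p)) (e '' U) := by
  rintro _ ⟨x, hx, rfl⟩
  have a : ContinuousAt e.symm (e x) :=
    ((h x hx).symm (d := e.symm) (Eventually.of_forall fun _ => by simp)).tend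
  exact (ContinuousAt.comp (g := crd) (by simpa using cont_crd (hU hx)) a).continuousWithinAt

variable (P : Prof)

theorem bf_sign (z w : ℂ) : ∃ c : ℝ, 0 < c ∧ bf P.β z w = c * (pf z w).im := by
  by_cases h : Near z w
  · refine ⟨(‖z‖ ^ 3)⁻¹, by have := norm_pos_iff.2 h.z_ne; positivity, ?_⟩
    rw [mf.bf_near _ h, cf, div_ofReal_im, div_eq_inv_mul]
  · by_cases h0 : pf z w = 0
    · exact ⟨1, one_pos, by simp [mf.bf_far _ h, h0]⟩
    · refine ⟨P.β (xf z w) / ‖pf z w‖, div_pos (P.β_pos _) (norm_pos_iff.2 h0), ?_⟩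
      rw [mf.bf_far _ h, ph, div_ofReal_im]
      ring

theorem WW_lo {x : S4} (h : x ∈ WW) : sc x ^ 2 ≤ 8 / 9 ∧ xf (zc x) (wc x) ≤ 3 := by
  have a : xf (zc x) (wc x) + tt x ^ 2 < 14 / 5 := h.2
  have b := xf_nonneg (zc x) (wc x)
  have c := sq_nonneg (tt x)
  exact ⟨(mf.lo_iff (sc_lt (WW_off h))).2 (by linarith), by linarith⟩

theorem WW_far {x : S4} (h : x ∈ WW) : ¬ Near (zc x) (wc x) := fun a => by
  linarith [(near_iff h.1).1 a, (WW_lo h).2]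

theorem AA_WW {x : S4} (h : x ∈ WW) : AA P x = lev x - 6 := by
  rw [AA, mf.HH_lo P (WW_lo h).1, mf.mf_far P (WW_far h), P.F_lo _ (WW_lo h).2, lev]

theorem BB_WW {x : S4} (h : x ∈ WW) : BB P x = (ph (pp x)).im := by
  rw [BB, P.η_lo _ (WW_lo h).1, mf.bf_far _ (WW_far h), P.β_lo _ (WW_lo h).2, one_mul, one_mul, pp]

theorem inv_AA : Inv (AA P) := fun _ hx _ hy a _ => by rw [AA_WW P hx.2, AA_WW P hy.2, a]

theorem inv_BB : Inv (BB P) := fun _ hx _ hy _ a => by rw [BB_WW P hx.2, BB_WW P hy.2, a]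

theorem AA_neg {x : S4} (h : x ∈ WW) : AA P x < 0 := by
  have : lev x < 14 / 5 := h.2
  rw [AA_WW P h]
  linarith

/-- the two functions in the model -/
theorem val_emb {y : YY} (h : y.1 ∈ N3) (ht : y.2 ^ 2 ≤ 8) :
    AA P (emb y) = Hh P y - 6 ∧ ∃ c : ℝ, 0 < c ∧ BB P (emb y) = c * (pl y.1).im := by
  have a := (mf.lo_iff (sc_lt (emb_off h))).2 (by rwa [emb_coe (n3 h), tt_nrm])
  rw [AA, mf.HH_lo P a, BB, P.η_lo _ a, one_mul, emb_coe (n3 h), mf_nrm (n3 h), bf_nrm (n3 h),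
    tt_nrm]
  exact ⟨rfl, bf_sign P _ _⟩

theorem val_crd {x : S4} (h : AA P x ≤ 0) : x ∈ Off ∧ AA P x = Hh P (crd x) - 6 ∧
    ∃ c : ℝ, 0 < c ∧ BB P x = c * (pl (crd x).1).im := by
  have a := mf.lo_of_AA P h
  have b : x ∈ Off := by
    by_contra c
    have d := sph x
    simp only [Off, mem_ofPred_eq, not_or, not_not] at c
    rw [c.1, c.2, map_zero] at d
    linarith
  have := val_emb P (crd_mem b) ((mf.lo_iff (sc_lt b)).1 a.le)
  rw [emb_crd b] at this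
  exact ⟨b, this⟩

theorem tri0 {A B : E 5 → ℝ} {x : S4} : x ∈ tri A B 0 ↔ 0 ≤ A x := Iff.rfl
theorem tri1 {A B : E 5 → ℝ} {x : S4} : x ∈ tri A B 1 ↔ A x ≤ 0 ∧ 0 ≤ B x := Iff.rfl
theorem tri2 {A B : E 5 → ℝ} {x : S4} : x ∈ tri A B 2 ↔ A x ≤ 0 ∧ B x ≤ 0 := Iff.rfl

theorem H1_crd {x : S4} (h1 : x ∈ tri (AA P) (BB P) 1) (h2 : x ∈ tri (AA P) (BB P) 2) :
    x ∈ Off ∧ crd x ∈ H1 P := by
  obtain ⟨a, b, c, hc, d⟩ := val_crd P h1.1
  have e := (le_antisymm h2.2 h1.2).symm.trans d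
  exact ⟨a, crd_mem a, by linarith [h1.1], (mul_eq_zero.1 e.symm).resolve_left hc.ne'⟩

end br

open br in
theorem bridge : BridgeStmt := fun P Θ e1 e2 R => by
  have G := R.glue
  have T := R.tri_iff (inv_AA P) (inv_BB P)
  have i1 : (fun y => e1 (emb y)) '' Wy = e1 '' WW := by rw [← im_Wy, image_image]
  have i2 : (fun y => e2 (emb y)) '' Vy = e2 '' (VV ∩ Off) := by rw [← im_Vy, image_image]
  have key : ∀ p, p ∈ reglue e1 e2 (tri (AA P) (BB P) 0) → ∀ i,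
      p ∈ reglue e1 e2 (tri (AA P) (BB P) i) → ∃ x, e2 x = p ∧ 0 ≤ AA P x ∧
        x ∈ tri (AA P) (BB P) i := by
    intro p h0 i hi
    rcases G.sur p with ⟨x, hx, rfl⟩ | ⟨x, hx, rfl⟩
    · exact absurd ((Reg.mem1 (T 0) hx).1 h0) (AA_neg P hx).not_ge
    · exact ⟨x, rfl, (Reg.mem2 (T 0) hx).1 h0, (Reg.mem2 (T i) hx).1 hi⟩
  refine ⟨fun y => e1 (emb y), fun y => e2 (emb y), fun p => crd (e1.symm p),
    fun p => crd (e2.symm p), fun y hy => ?_, ?_, ?_, ?_, ?_, fun y hy => ?_, fun y hy => ?_,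
    fun x hx y hy e => ?_, fun y hy => ?_, fun y hy i => ?_, fun p hp => ?_, fun p hp => ?_,
    fun p hp => ?_⟩
  · exact (ContinuousAt.comp (g := e2) (G.l2 _ ((emb_VV hy.1).2 hy)).tend
      (cont_emb hy.1)).continuousWithinAt
  · rw [i1]
    exact open_im isOpen_WW G.l1
  · rw [i2]
    exact open_im (isOpen_VV.inter isOpen_Off) fun x hx => G.l2 x hx.1
  · rw [i1]
    exact cont_back e1 (fun _ => WW_off) G.l1
  · rw [i2]
    exact cont_back e2 inter_subset_right fun x hx => G.l2 x hx.1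
  · rw [e1.symm_apply_apply, crd_emb hy.1]
  · rw [e2.symm_apply_apply, crd_emb hy.1]
  · have a := (emb_WW hx.1).2 hx
    have b := (emb_VV hy.1).2 hy
    obtain ⟨c, d⟩ := G.ov _ a _ b e
    obtain ⟨-, f, g⟩ := R.ovl _ a _ b e
    rw [emb_coe (n3 hx.1), emb_coe (n3 hy.1), ph_pp_nrm (n3 hx.1), ph_pp_nrm (n3 hy.1)] at f
    rw [emb_coe (n3 hx.1), emb_coe (n3 hy.1), qq_nrm (n3 hx.1), qq_nrm (n3 hy.1)] at g
    exact ⟨(emb_VV hx.1).1 c, (emb_WW hy.1).1 d, f, g⟩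
  · rw [i1]
    exact ⟨_, R.ov2 _ ((emb_VV hy.1.1).2 hy.1) ((emb_WW hy.1.1).2 hy.2), e1.apply_symm_apply _⟩
  · have a := (mf.mf_mem P y.1.1 y.1.2).1
    have b : mf P y.1.1 y.1.2 + y.2 ^ 2 = 6 := hy.2.1
    obtain ⟨c, d, -, f⟩ := val_emb P hy.1 (by linarith)
    rw [hy.2.1, sub_self] at c
    rw [hy.2.2, mul_zero] at f
    refine Or.inr ⟨emb y, ⟨?_, (WW_or_VV _).resolve_left fun g => (AA_neg P g).ne c⟩, rfl⟩
    fin_cases i
    · exact c.ge
    · exact ⟨c.le, f.ge⟩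
    · exact ⟨c.le, f.le⟩
  · obtain ⟨x, rfl, a, b⟩ := key p hp.1 1 hp.2
    obtain ⟨c, d, r, hr, f⟩ := val_crd P b.1
    exact ⟨crd x, ⟨crd_mem c, by linarith [b.1], nonneg_of_mul_nonneg_right (f ▸ b.2) hr⟩,
      congrArg e2 (emb_crd c)⟩
  · rcases G.sur p with ⟨x, hx, rfl⟩ | ⟨x, hx, rfl⟩
    · obtain ⟨a, b⟩ := H1_crd P ((Reg.mem1 (T 1) hx).1 hp.1) ((Reg.mem1 (T 2) hx).1 hp.2)
      exact Or.inr ⟨crd x, ⟨b, crd_Wy hx⟩, congrArg e1 (emb_crd a)⟩
    · obtain ⟨a, b⟩ := H1_crd P ((Reg.mem2 (T 1) hx).1 hp.1) ((Reg.mem2 (T 2) hx).1 hp.2)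
      exact Or.inl ⟨crd x, ⟨b, crd_Vy hx a⟩, congrArg e2 (emb_crd a)⟩
  · obtain ⟨x, rfl, a, b⟩ := key p hp.2 2 hp.1
    obtain ⟨c, d, r, hr, f⟩ := val_crd P b.1
    exact ⟨crd x, ⟨crd_mem c, by linarith [b.1], nonpos_of_mul_nonpos_right (f ▸ b.2) hr⟩,
      congrArg e2 (emb_crd c)⟩

end Pool.Agent.MP_7ebdba_gt.sm.p

end
end MrgPart3

-- marker of a merged file
example : 731051 + 367631 = 731051 + 367631 := rfl

end MrgPart1

-- marker of a merged file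
example : 731051 + 367631 = 731051 + 367631 := rfl
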