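import Pool.Agent.MP_7ebdba_gt.sm.p.Bridge
import Pool.Agent.MP_7ebdba_gt.ch.Main

-- ======== part 0: formerly Pool.Agent.MP_7ebdba_gt.sm.p.Cmp
section MrgPart0

-- ======== part 0: formerly Pool.Agent.MP_7ebdba_gt.sm.p.Ch2
section MrgPart0

/-! Block P: the chart near the knot and the curves. -/

open scoped Topology ComplexConjugate
open Set Filter Complex

noncomputable section

namespace Pool.Agent.MP_7ebdba_gt.sm.p

variable {x : C2} {l a c : ℂ} {r s t : ℝ}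

/-! ### square roots near `1` -/

theorem sq_csqrt (u : ℂ) : Complex.sqrt u ^ 2 = u := cpow_ofNat_inv_pow u 2

theorem re_one_sub {u : ℂ} (h : ‖u‖ < 1) : 0 < (1 - u).re := by
  have := (abs_le.1 (abs_re_le_norm u)).2
  simp only [sub_re, one_re]
  linarith

theorem re_csqrt {u : ℂ} (h : 0 < u.re) : 0 < (Complex.sqrt u).re := by
  rw [Complex.sqrt, cpow_inv_two_re]
  have := norm_nonneg u
  exact Real.sqrt_pos.2 (by linarith)

theorem csqrt_ne {u : ℂ} (h : 0 < u.re) : Complex.sqrt u ≠ 0 := fun e => by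
  simpa [e] using re_csqrt h

theorem ca_csqrt {u : ℂ} (h : 0 < u.re) : ContinuousAt Complex.sqrt u :=
  continuousAt_cpow_const (Or.inl h)

/-- the chart before normalisation -/
def c0 (a c : ℂ) : C2 := (a ^ 2, a ^ 3 * Complex.sqrt (1 - c * conj a ^ 6))

theorem unit_ne (ha : ‖a‖ = 1) : a ≠ 0 := norm_ne_zero_iff.1 (by simp [ha])

theorem mul_conj_unit (ha : ‖a‖ = 1) : a * conj a = 1 := by
  rw [mul_conj, normSq_eq_norm_sq, ha]
  simp

theorem c0_ne (ha : ‖a‖ = 1) (c : ℂ) : c0 a c ≠ 0 := fun e =>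
  pow_ne_zero 2 (unit_ne ha) (congrArg Prod.fst e)

theorem c0_re (ha : ‖a‖ = 1) (hc : ‖c‖ < 1) : 0 < (1 - c * conj a ^ 6).re :=
  re_one_sub (by simpa [ha] using hc)

theorem ch_ex (ha : ‖a‖ = 1) (c : ℂ) : ∃ r : ℝ, 0 < r ∧ ch a c = ac r (c0 a c) :=
  nn_ex (c0_ne ha c)

/-! ### the chart -/

theorem open_near (r : ℝ) : IsOpen {x | near r x} :=
  isOpen_lt cont_pl.norm (by fun_prop)

theorem near_iff : near r x ↔ x.1 ≠ 0 ∧ ‖pc x‖ < r := by
  by_cases h : x.1 = 0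
  · simp [near, h]
  · have : 0 < ‖x.1‖ ^ 3 := by positivity
    have e : ‖pc x‖ = ‖pl x‖ / ‖x.1‖ ^ 3 := by simp [pc, cf, pl]
    rw [e, div_lt_iff₀ this]
    simp [near, h]

theorem near.mono (h : near r x) (hr : r ≤ s) : near s x :=
  near_iff.2 ⟨(near_iff.1 h).1, (near_iff.1 h).2.trans_le hr⟩

theorem near_of_zero (h : x ∈ N3) (h0 : pl x = 0) (hr : 0 < r) : near r x := by
  have e : ‖x.1‖ ^ 3 + ‖pl x‖ = 1 := h
  rw [h0, norm_zero, add_zero] at e
  rw [near, h0, e]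
  simpa using hr

theorem pl_eq_pc (h : x.1 ≠ 0) : pl x = (‖x.1‖ ^ 3 : ℝ) * pc x := by
  have : ((‖x.1‖ ^ 3 : ℝ) : ℂ) ≠ 0 := ofReal_ne_zero.2 (by positivity)
  exact (mul_div_cancel₀ _ this).symm

theorem near_quot (h : x.1 ≠ 0) : x.2 ^ 2 / x.1 ^ 3 = 1 - pl x / x.1 ^ 3 := by
  simp only [pl, pf]
  field_simp
  ring

theorem near_re (h : near 1 x) : 0 < (x.2 ^ 2 / x.1 ^ 3).re := by
  have h1 := (near_iff.1 h).1
  rw [near_quot h1]
  refine re_one_sub ?_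
  rw [norm_div, norm_pow, div_lt_one (by positivity)]
  simpa [near] using h

theorem near_snd (h : near 1 x) : x.2 ≠ 0 := fun e => by
  simpa [e] using near_re h

theorem sqrt_norm_ne (h : x.1 ≠ 0) : ((√‖x.1‖ : ℝ) : ℂ) ≠ 0 := by simpa using h

theorem cont_al : ContinuousOn al {x | near 1 x} := fun x h => by
  have h1 := (near_iff.1 h).1
  have h2 : ContinuousAt (fun x : C2 => x.2 ^ 2 / x.1 ^ 3) x :=
    ContinuousAt.div (by fun_prop) (by fun_prop) (pow_ne_zero _ h1)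
  refine ContinuousAt.continuousWithinAt (ContinuousAt.div (by fun_prop)
    (ContinuousAt.mul (by fun_prop) ((ca_csqrt (near_re h)).comp
      (f := fun x : C2 => x.2 ^ 2 / x.1 ^ 3) h2)) ?_)
  exact mul_ne_zero (mul_ne_zero h1 (sqrt_norm_ne h1)) (csqrt_ne (near_re h))

theorem cont_pc : ContinuousOn pc {x | x.1 ≠ 0} := fun x h =>
  ContinuousAt.continuousWithinAt (ContinuousAt.div cont_pl.continuousAt (by fun_prop)
    (ofReal_ne_zero.2 (pow_ne_zero _ (norm_ne_zero_iff.2 h))))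

theorem cont_ch : ContinuousOn (fun q : ℂ × ℂ => ch q.1 q.2) {q | ‖q.1‖ = 1 ∧ ‖q.2‖ < 1} := by
  refine cont_nn.comp (f := fun q : ℂ × ℂ => c0 q.1 q.2) (fun q h => ?_) fun q h => c0_ne h.1 _
  refine ContinuousAt.continuousWithinAt (ContinuousAt.prodMk (by fun_prop)
    (ContinuousAt.mul (by fun_prop) ((ca_csqrt (c0_re h.1 h.2)).comp
      (f := fun q : ℂ × ℂ => 1 - q.2 * conj q.1 ^ 6) ?_)))
  exact (continuous_const.sub (continuous_snd.mul
    ((continuous_conj.comp continuous_fst).pow 6))).continuousAt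

theorem al_sq (h : near 1 x) : al x ^ 2 = x.1 / (‖x.1‖ : ℝ) := by
  have h1 := (near_iff.1 h).1
  have h2 := near_snd h
  have h3 : ((‖x.1‖ : ℝ) : ℂ) ≠ 0 := by simpa using h1
  rw [al, af, div_pow, mul_pow, mul_pow, sq_csqrt, ← ofReal_pow, Real.sq_sqrt (norm_nonneg _)]
  field_simp

theorem norm_al (h : near 1 x) : ‖al x‖ = 1 := by
  have h1 := (near_iff.1 h).1
  have := congrArg norm (al_sq h)
  rw [norm_pow, norm_div, norm_real, norm_norm, div_self (norm_ne_zero_iff.2 h1)] at this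
  exact (pow_eq_one_iff_of_nonneg (norm_nonneg _) two_ne_zero).1 this

theorem ch_mem (ha : ‖a‖ = 1) (hc : ‖c‖ < 1) : ch a c ∈ N3 := nn_mem (c0_ne ha c)

theorem al_ch (ha : ‖a‖ = 1) (hc : ‖c‖ < 1) : al (ch a c) = a := by
  obtain ⟨r, hr, e⟩ := ch_ex ha c
  have h0 := unit_ne ha
  have e2 : (a ^ 3 * Complex.sqrt (1 - c * conj a ^ 6)) ^ 2 / (a ^ 2) ^ 3 = 1 - c * conj a ^ 6 := by
    rw [mul_pow, sq_csqrt]
    field_simp
  have := csqrt_ne (c0_re ha hc)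
  rw [e, al_ac_pos hr]
  simp only [al, af, c0, e2, norm_pow, ha, one_pow, Real.sqrt_one, ofReal_one]
  field_simp

theorem pl_c0 (ha : ‖a‖ = 1) (c : ℂ) : pl (c0 a c) = c := by
  simp only [pl, pf, c0, mul_pow, sq_csqrt]
  have := mul_conj_unit ha
  calc _ = c * (a * conj a) ^ 6 := by ring
    _ = c := by simp [this]

theorem pc_ch (ha : ‖a‖ = 1) (hc : ‖c‖ < 1) : pc (ch a c) = c := by
  obtain ⟨r, hr, e⟩ := ch_ex ha c
  have := pl_c0 ha c
  rw [e, pc_ac_pos hr, pc, cf, ← pl, this]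
  simp [c0, ha]

theorem ch_fst (ha : ‖a‖ = 1) (c : ℂ) : (ch a c).1 ≠ 0 := by
  obtain ⟨r, hr, e⟩ := ch_ex ha c
  rw [e]
  exact mul_ne_zero (pow_ne_zero _ (ofReal_ne_zero.2 hr.ne')) (pow_ne_zero _ (unit_ne ha))

theorem near_ch (ha : ‖a‖ = 1) (hc : ‖c‖ < 1) : near r (ch a c) ↔ ‖c‖ < r := by
  simp [near_iff, ch_fst ha, pc_ch ha hc]

theorem pl_ch (ha : ‖a‖ = 1) (hc : ‖c‖ < 1) : pl (ch a c) = c / (1 + ‖c‖ : ℝ) := by
  have e := pl_eq_pc (ch_fst ha c)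
  have m : ‖(ch a c).1‖ ^ 3 + ‖pl (ch a c)‖ = 1 := ch_mem ha hc
  rw [pc_ch ha hc] at e
  rw [e, norm_mul, norm_real, Real.norm_of_nonneg (by positivity)] at m
  have h1 : 0 < 1 + ‖c‖ := by positivity
  have : ‖(ch a c).1‖ ^ 3 = (1 + ‖c‖)⁻¹ := eq_inv_of_mul_eq_one_left (by linarith)
  rw [e, this, ofReal_inv, div_eq_inv_mul]

theorem c0_al_pc (h1 : near 1 x) : c0 (al x) (pc x) = ac ((√‖x.1‖)⁻¹ : ℝ) x := by
  have h0 := (near_iff.1 h1).1
  have h3 : ((‖x.1‖ : ℝ) : ℂ) ≠ 0 := by simpa using h0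
  have h4 := sqrt_norm_ne h0
  have h5 : ((√‖x.1‖ : ℝ) : ℂ) ^ 2 = (‖x.1‖ : ℝ) := by
    rw [← ofReal_pow, Real.sq_sqrt (norm_nonneg _)]
  have h6 : conj x.1 = (‖x.1‖ : ℝ) ^ 2 / x.1 := by
    rw [eq_div_iff h0, mul_comm, mul_conj, normSq_eq_norm_sq]
    simp
  have e : 1 - pc x * conj (al x) ^ 6 = x.2 ^ 2 / x.1 ^ 3 := by
    have : conj (al x) ^ 6 = conj (al x ^ 2) ^ 3 := by rw [map_pow, ← pow_mul]
    rw [this, al_sq h1, near_quot h0, map_div₀, conj_ofReal, h6, pc, cf, ← pl]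
    push_cast
    field_simp
  have h7 := csqrt_ne (near_re h1)
  refine Prod.ext ?_ ?_
  · simp only [c0, ac, al_sq h1, ofReal_inv, inv_pow, h5]
    rw [div_eq_inv_mul]
  · simp only [c0, ac, e, ofReal_inv]
    rw [pow_succ, al_sq h1, al, af, ← h5]
    field_simp

theorem ch_al_pc (h : x ∈ N3) (h1 : near 1 x) : ch (al x) (pc x) = x := by
  have h0 := (near_iff.1 h1).1
  have : 0 < (√‖x.1‖)⁻¹ := by positivity
  change nn (c0 _ _) = x
  rw [c0_al_pc h1, nn_ac_pos this, nn_eq h]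

theorem ch_ac (hl : ‖l‖ = 1) (ha : ‖a‖ = 1) (c : ℂ) : ch (l * a) (l ^ 6 * c) = ac l (ch a c) := by
  have e : l ^ 6 * c * conj (l * a) ^ 6 = c * conj a ^ 6 := by
    calc _ = (l * conj l) ^ 6 * (c * conj a ^ 6) := by rw [map_mul]; ring
      _ = _ := by simp [mul_conj_unit hl]
  rw [ch, ch, ← nn_ac hl, e]
  simp only [ac, mul_pow, mul_assoc]

theorem ch_Pg (ha : ‖a‖ = 1) (h0 : 0 ≤ r) (h1 : r < 1) : ch a r ∈ Pg := by
  have hc : ‖(r : ℂ)‖ < 1 := by rwa [norm_real, Real.norm_of_nonneg h0]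
  refine ⟨ch_mem ha hc, ?_, ?_⟩ <;> rw [pl_ch ha hc, ← ofReal_div]
  · exact ofReal_im _
  · rw [ofReal_re]
    positivity

theorem pc_Pg (h : x ∈ Pg) : pc x = (‖pc x‖ : ℝ) := by
  have e : pl x = ((pl x).re : ℝ) := Complex.ext rfl h.2.1
  have h2 := h.2.2
  have : pc x = ((pl x).re / ‖x.1‖ ^ 3 : ℝ) := by
    rw [pc, cf, ← pl, ofReal_div, ← e]
  rw [this, norm_real, Real.norm_of_nonneg (by positivity)]

theorem near_KK (h : near 1 x) : x ∉ KK := fun k => k.elim (near_iff.1 h).1 (near_snd h)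

/-! ### the curves -/

theorem norm_tenth : ‖(1 / 10 : ℂ)‖ = 1 / 10 := by simp

theorem tenth_lt : ‖(1 / 10 : ℂ)‖ < 1 := by
  rw [norm_tenth]
  norm_num

theorem tenth_cast : ((1 / 10 : ℝ) : ℂ) = 1 / 10 := by simp

theorem pl_ch_ne (ha : ‖a‖ = 1) (hc : ‖c‖ < 1) (h0 : c ≠ 0) : pl (ch a c) ≠ 0 := by
  rw [pl_ch ha hc]
  exact div_ne_zero h0 (ofReal_ne_zero.2 (by positivity))

theorem pl_tenth (ha : ‖a‖ = 1) : pl (ch a (1 / 10)) ≠ 0 := pl_ch_ne ha tenth_lt (by norm_num)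

theorem tenth_mem (ha : ‖a‖ = 1) : toM (ch a (1 / 10)) ∈ MM :=
  toM_mem (tenth_cast ▸ ch_Pg ha (by norm_num) (by norm_num)) (pl_tenth ha)

theorem cont_cv : Continuous cv :=
  cont_toM.comp_continuous (cont_ch.comp_continuous (f := fun t => (ex t, (1 / 10 : ℂ)))
    (cont_ex.prodMk continuous_const) fun t => ⟨norm_ex t, tenth_lt⟩) fun t => pl_tenth (norm_ex t)

theorem cv_mem (t : ℝ) : cv t ∈ MM := tenth_mem (norm_ex t)

theorem cv_add (t : ℝ) : cv (t + Real.pi / 3) = ac (ex (Real.pi / 3)) (cv t) := by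
  have e : ex (Real.pi / 3) ^ 6 = 1 := by
    rw [ex_pow, ← ex_two_pi]
    congr 1
    push_cast
    ring
  rw [cv, cv, ← toM_ac (norm_ex _), ← ch_ac (norm_ex _) (norm_ex _), e, one_mul, add_comm, ex_add]

theorem cv_per (t : ℝ) : cv (t + 2 * Real.pi) = cv t := by
  rw [cv, cv, ex_add, ex_two_pi, mul_one]

theorem cv_ex (t : ℝ) : ∃ r : ℝ, 0 < r ∧ cv t = ac r (c0 (ex t) (1 / 10)) := by
  obtain ⟨r, hr, e⟩ := toM_ex (pl_tenth (norm_ex t))
  obtain ⟨s, hs, e'⟩ := ch_ex (norm_ex t) (1 / 10)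
  exact ⟨r * s, mul_pos hr hs, by rw [cv, e, e', ofReal_mul, ac_mul]⟩

theorem cv_fst (t : ℝ) : ∃ r : ℝ, 1 < r ∧ (cv t).1 = r * ex (2 * t) := by
  obtain ⟨r, hr, e⟩ := cv_ex t
  have m : pl (cv t) = 1 := cv_mem t
  rw [e, pl_ac, pl_c0 (norm_ex t)] at m
  rw [← tenth_cast] at m
  have m' : r ^ 6 * (1 / 10) = 1 := by exact_mod_cast m
  refine ⟨r ^ 2, ?_, ?_⟩
  · refine lt_of_pow_lt_pow_left₀ 3 (by positivity) ?_
    rw [← pow_mul]
    norm_num
    linarith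
  · rw [e]
    simp [ac, c0, ex_pow]

theorem cv_im (t : ℝ) : ∃ r : ℝ, 0 < r ∧ (cv t).2.im = r * Real.sin (3 * t) := by
  obtain ⟨r, hr, e⟩ := cv_ex t
  have h1 := re_csqrt (c0_re (norm_ex t) tenth_lt)
  have h2 := congrArg im (sq_csqrt (1 - 1 / 10 * conj (ex t) ^ 6))
  have h3 : ex t ^ 3 = ex (3 * t) := by simpa using ex_pow t 3
  have h4 : conj (ex t) ^ 6 = conj (ex (3 * t)) ^ 2 := by rw [← h3, map_pow, ← pow_mul]
  rw [e]
  simp only [ac, c0, h3]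
  generalize Complex.sqrt _ = S at *
  rw [h4, ← tenth_cast] at h2
  simp only [sq, mul_im, mul_re, sub_im, one_im, conj_re, conj_im, ex_re, ex_im, ofReal_re,
    ofReal_im] at h2
  refine ⟨r ^ 3 * (S.re + Real.cos (3 * t) ^ 2 / (10 * S.re)), by positivity, ?_⟩
  rw [← ofReal_pow, im_ofReal_mul, mul_im, ex_re, ex_im]
  have : S.im = Real.sin (3 * t) * Real.cos (3 * t) / (10 * S.re) := by
    rw [eq_div_iff (by positivity)]
    linarith
  rw [this]
  ring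

theorem toM_near (h : pl x ≠ 0) : near r (toM x) ↔ near r x := by
  obtain ⟨s, hs, e⟩ := toM_ex h
  rw [e, near_ac (ofReal_ne_zero.2 hs.ne')]

theorem toM_KK (h : pl x ≠ 0) : toM x ∈ KK ↔ x ∈ KK := by
  obtain ⟨s, hs, e⟩ := toM_ex h
  rw [e, KK_ac (ofReal_ne_zero.2 hs.ne')]

theorem toM_uu (h : pl x ≠ 0) : uu (toM x) = uu x := by
  obtain ⟨s, hs, e⟩ := toM_ex h
  rw [e, uu_ac (ofReal_ne_zero.2 hs.ne')]

theorem cv_far (t : ℝ) : ¬ near (1 / 10) (cv t) := by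
  rw [cv, toM_near (pl_tenth (norm_ex t)), near_ch (norm_ex t) tenth_lt, norm_tenth]
  exact lt_irrefl _

theorem rho_far (h : ¬ near (1 / 10) x) : rho x = toM x := if_neg h

theorem rho_near (h : x ∈ Pg) (h1 : near 1 x) :
    rho x = toM (ch (al x) (max ‖pc x‖ (1 / 10) : ℝ)) := by
  by_cases h2 : near (1 / 10) x
  · rw [max_eq_right (near_iff.1 h2).2.le, tenth_cast]
    exact if_pos h2
  · rw [max_eq_left (not_lt.1 fun k => h2 (near_iff.2 ⟨(near_iff.1 h1).1, k⟩)), ← pc_Pg h,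
      ch_al_pc h.1 h1, rho_far h2]

theorem max_lt_one (h1 : near 1 x) : ‖((max ‖pc x‖ (1 / 10) : ℝ) : ℂ)‖ < 1 := by
  rw [norm_real, Real.norm_of_nonneg (le_max_of_le_left (norm_nonneg _))]
  exact max_lt (near_iff.1 h1).2 (by norm_num)

theorem max_ne : ((max ‖pc x‖ (1 / 10) : ℝ) : ℂ) ≠ 0 :=
  ofReal_ne_zero.2 (lt_max_of_lt_right (by norm_num)).ne'

theorem pl_far (h : x ∈ N3) (h1 : ¬ near (1 / 10) x) : pl x ≠ 0 := fun e =>
  h1 (near_of_zero h e (by norm_num))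

theorem cont_rho : ContinuousOn rho Pg := fun x h => by
  by_cases h1 : near 1 x
  · rw [← continuousWithinAt_inter ((open_near 1).mem_nhds h1)]
    have c1 : ContinuousOn (fun x => (al x, ((max ‖pc x‖ (1 / 10) : ℝ) : ℂ))) {x | near 1 x} :=
      cont_al.prodMk (continuous_ofReal.comp_continuousOn
        (((cont_pc.mono fun _ k => (near_iff.1 k).1).norm).sup continuousOn_const))
    have c2 := cont_toM.comp (cont_ch.comp c1 fun _ k => ⟨norm_al k, max_lt_one k⟩)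
      fun _ k => pl_ch_ne (norm_al k) (max_lt_one k) max_ne
    exact ((c2.mono inter_subset_right).congr fun _ k => rho_near k.1 k.2) x ⟨h, h1⟩
  · have o : IsOpen {x : C2 | 1 / 10 * ‖x.1‖ ^ 3 < ‖pl x‖} := isOpen_lt (by fun_prop) cont_pl.norm
    have m : 1 / 10 * ‖x.1‖ ^ 3 < ‖pl x‖ := by
      have e : ‖x.1‖ ^ 3 + ‖pl x‖ = 1 := h.1
      have := not_lt.1 h1
      linarith
    rw [← continuousWithinAt_inter (o.mem_nhds m)]
    exact ((cont_toM.mono fun _ k => pl_far k.1.1 k.2.not_gt).congr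
      fun _ k => rho_far k.2.not_gt) x ⟨h, m⟩

theorem rho_tenth (h : near (1 / 10) x) : rho x = toM (ch (al x) (1 / 10)) := if_pos h

theorem rho_mem : MapsTo rho Pg MM := fun x h => by
  by_cases h1 : near (1 / 10) x
  · rw [rho_tenth h1]
    exact tenth_mem (norm_al (h1.mono (by norm_num)))
  · rw [rho_far h1]
    exact toM_mem h (pl_far h.1 h1)

theorem rho_cv (h : near (1 / 10) x) (e : al x = ex t) : rho x = cv t := by
  rw [rho_tenth h, e, cv]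

theorem rho_KK (h : x ∈ Pg) : rho x ∈ KK ↔ x ∈ KK := by
  by_cases h1 : near (1 / 10) x
  · have h2 : near 1 x := h1.mono (by norm_num)
    rw [rho_tenth h1, toM_KK (pl_tenth (norm_al h2))]
    exact iff_of_false (near_KK ((near_ch (norm_al h2) tenth_lt).2 tenth_lt)) (near_KK h2)
  · rw [rho_far h1, toM_KK (pl_far h.1 h1)]

theorem rho_near_one (h : x ∈ Pg) (h1 : near 1 x) : 1 < normSq (uu (rho x)) := by
  have h2 := pl_ch_ne (norm_al h1) (max_lt_one h1) max_ne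
  have h3 := (near_iff_xx h2 one_pos).1 ((near_ch (norm_al h1) (max_lt_one h1)).2 (max_lt_one h1))
  have h4 := normSq_uu h2
  rw [rho_near h h1, toM_uu h2]
  refine lt_of_pow_lt_pow_left₀ 3 (normSq_nonneg _) ?_
  rw [h4]
  simpa using h3

theorem x0_Pg : x0 ∈ Pg := by simpa [x0] using ch_Pg (r := 0) norm_I le_rfl one_pos

theorem pl_x0 : pl x0 = 0 := by
  rw [x0, pl_ch norm_I (by simp), zero_div]

theorem al_x0 : al x0 = I := al_ch norm_I (by simp)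

theorem rho_x0 : rho x0 = cv (Real.pi / 2) :=
  rho_cv (near_of_zero x0_Pg.1 pl_x0 (by norm_num)) (al_x0.trans ex_half_pi.symm)

end Pool.Agent.MP_7ebdba_gt.sm.p

end
end MrgPart0

-- ======== part 1: formerly Pool.Agent.MP_7ebdba_gt.sm.p.Cmp
section MrgPart1

/-! Block P, row CMP: comparison of the holonomy of the Milnor fibre with the orbit plane. -/

open scoped Topology ComplexConjugate
open Set Filter Complex

noncomputable section

namespace Pool.Agent.MP_7ebdba_gt.sm.p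

open MP_e1dc65_gt

namespace Cmp

/-! ### the three rotated coordinates -/

def zj (j : Fin 3) (z : ℂ) : ℂ := z * conj om ^ (j : ℕ)
def lj (j : Fin 3) (z : ℂ) : ℝ := (zj j z).im

theorem om_re : om.re = -1 / 2 := by
  rw [om, ex_re, show 2 * Real.pi / 3 = Real.pi - Real.pi / 3 by ring, Real.cos_pi_sub,
    Real.cos_pi_div_three]
  norm_num

theorem om_im : om.im = √3 / 2 := by
  rw [om, ex_im, show 2 * Real.pi / 3 = Real.pi - Real.pi / 3 by ring, Real.sin_pi_sub,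
    Real.sin_pi_div_three]

theorem om_cube : conj om ^ 3 = 1 := by
  rw [← map_pow, om, ex_pow, show ((3 : ℕ) : ℝ) * (2 * Real.pi / 3) = 2 * Real.pi by
    push_cast; ring, ex_two_pi, map_one]

theorem zj_succ (j : Fin 3) (z : ℂ) : zj (j + 1) z = zj j z * conj om := by
  have := om_cube
  fin_cases j
  · simp [zj]
  · show z * conj om ^ 2 = z * conj om ^ 1 * conj om
    ring
  · show z * conj om ^ 0 = z * conj om ^ 2 * conj om
    linear_combination (-z) * this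

theorem zj_cube (j : Fin 3) (z : ℂ) : zj j z ^ 3 = z ^ 3 := by
  rw [zj, mul_pow, ← pow_mul, mul_comm (j : ℕ), pow_mul, om_cube, one_pow, mul_one]

theorem norm_zj (j : Fin 3) (z : ℂ) : ‖zj j z‖ = ‖z‖ := by
  rw [zj, norm_mul, norm_pow, RCLike.norm_conj, om, norm_ex, one_pow, mul_one]

theorem normSq_zj (j : Fin 3) (z : ℂ) : normSq z = (zj j z).re ^ 2 + lj j z ^ 2 := by
  rw [normSq_eq_norm_sq, ← norm_zj j z, ← normSq_eq_norm_sq, normSq_apply, lj]
  ring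

theorem s3 : √3 * √3 = 3 := Real.mul_self_sqrt (by norm_num)
theorem s3p : 0 < √3 := Real.sqrt_pos.2 (by norm_num)

theorem lj1 (j : Fin 3) (z : ℂ) : lj (j + 1) z = (-lj j z - √3 * (zj j z).re) / 2 := by
  simp only [lj, zj_succ, mul_im, conj_re, conj_im, om_re, om_im]
  ring

theorem lj2 (j : Fin 3) (z : ℂ) : lj (j + 1 + 1) z = (-lj j z + √3 * (zj j z).re) / 2 := by
  simp only [lj, zj_succ, mul_im, mul_re, conj_re, conj_im, om_re, om_im]
  linear_combination (-(zj j z).im / 4) * s3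

theorem cont_lj (j : Fin 3) : Continuous fun x : C2 => lj j x.1 := by
  unfold lj zj
  fun_prop

theorem cube_im (j : Fin 3) (z : ℂ) : (z ^ 3).im =
    lj j z * (√3 * (zj j z).re - lj j z) * (√3 * (zj j z).re + lj j z) := by
  rw [← zj_cube j, lj]
  simp only [pow_succ, pow_zero, one_mul, mul_im, mul_re]
  linear_combination (-(zj j z).im * (zj j z).re ^ 2) * s3

theorem cube_re (j : Fin 3) (z : ℂ) :
    (z ^ 3).re = (zj j z).re * ((zj j z).re ^ 2 - 3 * lj j z ^ 2) := by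
  rw [← zj_cube j, lj]
  simp only [pow_succ, pow_zero, one_mul, mul_im, mul_re]
  ring

theorem add3 (j : Fin 3) : j + 1 + 1 + 1 = j := by revert j; decide

/-- the open sector between two rays -/
def SB (j : Fin 3) (z : ℂ) : Prop := 0 < lj j z ∧ lj (j + 1) z < 0
/-- the open sector around a ray -/
def SA (j : Fin 3) (z : ℂ) : Prop := 0 < lj (j + 1 + 1) z ∧ lj (j + 1) z < 0
/-- the half open sector -/
def SH (j : Fin 3) (z : ℂ) : Prop := 0 < lj j z ∧ lj (j + 1) z ≤ 0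

theorem open_SB (j : Fin 3) : IsOpen {x : C2 | SB j x.1} :=
  (isOpen_lt continuous_const (cont_lj j)).inter (isOpen_lt (cont_lj _) continuous_const)

theorem open_SA (j : Fin 3) : IsOpen {x : C2 | SA j x.1} :=
  (isOpen_lt continuous_const (cont_lj _)).inter (isOpen_lt (cont_lj _) continuous_const)

theorem sec_cases {z : ℂ} (hz : z ≠ 0) : ∃ j, SB j z ∨ SA j z := by
  have h1 := lj1 0 z
  have h2 := lj2 0 z
  have h3 := normSq_zj 0 z
  have h4 := normSq_pos.2 hz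
  have hs := s3p
  by_contra hc
  simp only [not_exists, not_or, SA, SB, not_and, not_lt] at hc
  have a0 := hc 0
  have a1 := hc (0 + 1)
  have a2 := hc (0 + 1 + 1)
  simp only [add3] at a1 a2
  generalize lj 0 z = b at *
  generalize lj (0 + 1) z = c at *
  generalize lj (0 + 1 + 1) z = d at *
  generalize (zj 0 z).re = a at *
  have hb : b = 0 ∧ c = 0 := by
    rcases lt_trichotomy b 0 with p | p | p <;> rcases lt_trichotomy c 0 with q | q | q
    · have := a1.1; have := a2.1 (by linarith); linarith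
    · have := a2.1 (by linarith); linarith
    · have := a2.2 q; linarith
    · have := a0.2 (by linarith); linarith
    · exact ⟨p, q⟩
    · have := a1.1 q; linarith
    · have := a0.1 p; linarith
    · have := a1.2 p; linarith
    · have := a1.2 p; linarith
  have ha : a = 0 := by
    have : √3 * a = 0 := by linarith [hb.1, hb.2]
    exact (mul_eq_zero.1 this).resolve_left hs.ne'
  rw [ha, hb.1] at h3
  linarith

theorem SH.eq {i j : Fin 3} {z : ℂ} (h : SH i z) (h' : SH j z) : i = j := by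
  have c : ∀ i j : Fin 3, i = j ∨ j = i + 1 ∨ i = j + 1 := by decide
  rcases c i j with e | rfl | rfl
  · exact e
  · exact absurd h'.1 (not_lt.2 h.2)
  · exact absurd h.1 (not_lt.2 h'.2)

/-! ### the orbit map on the Milnor fibre -/

variable {x : C2} {j : Fin 3}

theorem fib_re (h : x ∈ MM) : (x.1 ^ 3).re = 1 + x.2.re ^ 2 - x.2.im ^ 2 := by
  have e : x.1 ^ 3 = 1 + x.2 ^ 2 := by
    have : x.1 ^ 3 - x.2 ^ 2 = 1 := h
    linear_combination this
  rw [e]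
  simp only [pow_two, add_re, one_re, mul_re]
  ring

theorem fib_im (h : x ∈ MM) : (x.1 ^ 3).im = 2 * x.2.re * x.2.im := by
  have e : x.1 ^ 3 = 1 + x.2 ^ 2 := by
    have : x.1 ^ 3 - x.2 ^ 2 = 1 := h
    linear_combination this
  rw [e]
  simp only [pow_two, add_im, one_im, mul_im]
  ring

theorem uu_re (h : x ∈ MM) : (uu x).re = (x.1 ^ 3).re / normSq x.1 := by
  rw [uu_MM h, div_ofReal_re, ← map_pow, conj_re]

theorem uu_im (h : x ∈ MM) : (uu x).im = -(x.1 ^ 3).im / normSq x.1 := by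
  rw [uu_MM h, div_ofReal_im, ← map_pow, conj_im]

theorem nz (h : x ∈ MM \ KK) : 0 < normSq x.1 := normSq_pos.2 fun e => h.2 (Or.inl e)

theorem uu_im_neg (h : x ∈ MM \ KK) : (uu x).im < 0 ↔ 0 < (x.1 ^ 3).im := by
  rw [uu_im h.1, div_lt_iff₀ (nz h), zero_mul, neg_lt_zero]

theorem uu_im_zero (h : x ∈ MM \ KK) : (uu x).im = 0 ↔ (x.1 ^ 3).im = 0 := by
  rw [uu_im h.1, div_eq_zero_iff, neg_eq_zero, or_iff_left (nz h).ne']

theorem SB.re_neg {z : ℂ} (h : SB j z) (h0 : (z ^ 3).im = 0) : (z ^ 3).re < 0 := by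
  obtain ⟨h1, h2⟩ := h
  rw [lj1] at h2
  rw [cube_im j, mul_eq_zero, mul_eq_zero] at h0
  rw [cube_re j]
  have hs := s3
  have hp := s3p
  have e : √3 * (zj j z).re = lj j z := by
    rcases h0 with (h0 | h0) | h0 <;> linarith
  have a : 0 < (zj j z).re := (mul_pos_iff_of_pos_left hp).1 (e ▸ h1)
  refine mul_neg_of_pos_of_neg a ?_
  rw [← e]
  nlinarith

theorem SA.pos {z : ℂ} (h : SA j z) :
    0 < (zj j z).re ∧ 0 < (√3 * (zj j z).re - lj j z) * (√3 * (zj j z).re + lj j z) := by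
  obtain ⟨h1, h2⟩ := h
  rw [lj1] at h2
  rw [lj2] at h1
  exact ⟨(mul_pos_iff_of_pos_left s3p).1 (by linarith), mul_pos (by linarith) (by linarith)⟩

theorem SA.im_pos {z : ℂ} (h : SA j z) : 0 < (z ^ 3).im ↔ 0 < lj j z := by
  rw [cube_im j, mul_assoc, mul_pos_iff_of_pos_right h.pos.2]

theorem SA.im_zero {z : ℂ} (h : SA j z) (h0 : (z ^ 3).im = 0) : lj j z = 0 := by
  rw [cube_im j, mul_assoc] at h0
  exact (mul_eq_zero.1 h0).resolve_right h.pos.2.ne'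

/-- on the ray the orbit map is the distance to the origin -/
theorem SA.ray (hx : x ∈ MM \ KK) (h : SA j x.1) (h0 : (x.1 ^ 3).im = 0) :
    0 < (uu x).re ∧ (uu x).re ^ 3 = 1 + x.2.re ^ 2 - x.2.im ^ 2 ∧ x ∈ NM j := by
  have h1 := h.im_zero h0
  have h2 := h.pos.1
  have h3 := cube_re j x.1
  have h4 := normSq_zj j x.1
  rw [h1] at h3 h4
  have e : (uu x).re = (zj j x.1).re := by
    rw [uu_re hx.1, h3, h4]
    field_simp
    ring
  refine ⟨e ▸ h2, ?_, ?_⟩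
  · rw [e, ← fib_re hx.1, h3]
    ring
  · have : ‖x.1‖ = (zj j x.1).re := by
      rw [normSq_eq_norm_sq] at h4
      exact (pow_left_inj₀ (norm_nonneg _) h2.le two_ne_zero).1 (by linarith)
    show ‖x.1‖ / 2 < (zj j x.1).re
    linarith

/-! ### the gauge -/

variable {D : Type} [Group D] {g h : D}

def gp (g : D) : Fin 3 → D := ![1, g⁻¹, g]

open Classical in
def psi (g : D) (z : ℂ) : D := if SH 0 z then gp g 0 else if SH 1 z then gp g 1 else gp g 2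

theorem psi_eq {z : ℂ} (hz : SH j z) : psi g z = gp g j := by
  have c : ∀ j : Fin 3, j = 0 ∨ j = 1 ∨ j = 2 := by decide
  unfold psi
  split_ifs with h0 h1
  · rw [h0.eq hz]
  · rw [h1.eq hz]
  · rcases c j with rfl | rfl | rfl
    · exact absurd hz h0
    · exact absurd hz h1
    · rfl

theorem gp_pred (hg : g ^ 3 = 1) (j : Fin 3) : gp g (j + 1 + 1) = gp g j * g := by
  fin_cases j
  · show g = 1 * g
    group
  · show 1 = g⁻¹ * g
    group
  · show g⁻¹ = g * g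
    rw [inv_eq_iff_mul_eq_one, ← hg, pow_three]

theorem psi_SA (hg : g ^ 3 = 1) (hx : x ∈ MM \ KK) (hz : SA j x.1) :
    psi g x.1 = if (uu x).im < 0 then gp g j else gp g j * g := by
  simp only [uu_im_neg hx, hz.im_pos]
  split_ifs with h0
  · exact psi_eq ⟨h0, hz.2.le⟩
  · rw [← gp_pred hg]
    exact psi_eq ⟨hz.1, by rw [add3]; exact not_lt.1 h0⟩

def CC (g h : D) (x : C2) : D := if x.2.im < 0 then g else g * (g * h⁻¹)

open Classical in
def kk (g h : D) (x : C2) : D :=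
  CC g h x * psi g x.1 * if x.2.im = 0 ∧ 0 < x.2.re then g⁻¹ * h else 1

theorem kp_eM (hr : Rel2 g h) (j : Fin 3) :
    kp g h (eM j) = g * gp g j * (g * h⁻¹) * (gp g j)⁻¹ * (g * (g * h⁻¹))⁻¹ := by
  have c : (g * h⁻¹)⁻¹ = g * h⁻¹ := by
    rw [inv_eq_iff_mul_eq_one, ← hr.2, pow_two]
  have d : g⁻¹ = g * g := by
    rw [inv_eq_iff_mul_eq_one, ← hr.1, pow_three]
  fin_cases j
  · show kp g h 1 = g * 1 * (g * h⁻¹) * 1⁻¹ * (g * (g * h⁻¹))⁻¹
    rw [map_one]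
    group
  · show kp g h (FreeGroup.of 1) = g * g⁻¹ * (g * h⁻¹) * g⁻¹⁻¹ * (g * (g * h⁻¹))⁻¹
    rw [kp, FreeGroup.lift_apply_of, mul_inv_rev g, c]
    show g * h⁻¹ * g * g * h⁻¹ * g⁻¹ = _
    group
  · show kp g h (FreeGroup.of 0) = g * g * (g * h⁻¹) * g⁻¹ * (g * (g * h⁻¹))⁻¹
    rw [kp, FreeGroup.lift_apply_of, mul_inv_rev g, c, ← d]
    show h⁻¹ * h⁻¹ * g⁻¹ = _
    group

/-- parallel sections in the plane -/
theorem par_plane {σ : Tr ℂ D} (hσ : WP g h σ) (n : Fin 3) (c : D) {S : Set C2}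
    (hS : ∀ x ∈ MM \ KK, x ∈ S → (x.1 ^ 3).im = 0 → uu x ∈ NP n) :
    Par (pb uu σ) ((MM \ KK) ∩ S) fun x => if (uu x).im < 0 then c else c * ![1, g, h] n := by
  have h1 : ∀ x ∈ MM, pl x ≠ 0 := fun x (hx : pl x = 1) => hx ▸ one_ne_zero
  refine par_pb (Wall.par (S := {u | u ∈ Pl ∧ (u.im = 0 → u ∈ NP n)}) wd_Pl hσ (fun u hu => hu.1)
    c (c * ![1, g, h] n) fun i u hu hi h0 => ?_) (cont_uu.mono fun x hx => h1 x hx.1.1)
    fun x hx => ⟨(uu_Pl (h1 x hx.1.1)).2 hx.1.2, fun h0 => hS x hx.1 hx.2 ((uu_im_zero hx.1).1 h0)⟩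
  rw [wd_Pl.dis i n u hu.1 hi (hu.2 h0)]

variable {lm : Tr C2 F2} {σ : Tr ℂ D}

/-- off the wall of the fibre -/
theorem par_off (hl : WM lm) (hq : x.2.im ≠ 0) : ∃ (Q : Set C2) (c : D), IsOpen Q ∧ x ∈ Q ∧
    (∀ y ∈ Q, y.2.im ≠ 0 ∧ CC g h y = c) ∧ Par (mp (kp g h) lm) (MM ∩ Q) fun _ => c⁻¹ := by
  have c : Continuous fun y : C2 => y.2.im := by fun_prop
  rcases hq.lt_or_gt with q | q
  · refine ⟨{y | y.2.im < 0}, g, isOpen_lt c continuous_const, q,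
      fun y hy => ⟨ne_of_lt hy, if_pos hy⟩, ?_⟩
    simpa using (par_mp hl.neg (kp g h)).const_mul g⁻¹
  · refine ⟨{y | 0 < y.2.im}, g * (g * h⁻¹), isOpen_lt continuous_const c, q,
      fun y hy => ⟨ne_of_gt hy, if_neg (not_lt.2 (le_of_lt hy))⟩, ?_⟩
    simpa only [map_one, mul_one] using (par_mp hl.pos (kp g h)).const_mul (g * (g * h⁻¹))⁻¹

theorem loc (hr : Rel2 g h) (hl : WM lm) (hσ : WP g h σ) (hx : x ∈ MM \ KK) :
    ∃ V ∈ 𝓝 x, Gau ((MM \ KK) ∩ V) (mp (kp g h) lm) (pb uu σ) (kk g h) := by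
  obtain ⟨j, hj⟩ := sec_cases (normSq_pos.1 (nz hx))
  by_cases hq : x.2.im ≠ 0
  · obtain ⟨Q, c, hQ, hxQ, hc, hp⟩ := par_off (g := g) (h := h) hl hq
    have hk : ∀ y ∈ Q, kk g h y = c * psi g y.1 := fun y hy => by
      rw [kk, if_neg fun e => (hc y hy).1 e.1, mul_one, (hc y hy).2]
    rcases hj with hj | hj
    · refine ⟨Q ∩ {y | SB j y.1}, (hQ.inter (open_SB j)).mem_nhds ⟨hxQ, hj⟩, ?_⟩
      refine (gau_of_par (hp.mono fun y hy => ⟨hy.1.1, hy.2.1⟩)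
        (par_plane hσ 0 (gp g j) fun y hy hS h0 => ?_)).congr fun y hy => ?_
      · show (uu y).re < 0
        rw [uu_re hy.1]
        exact div_neg_of_neg_of_pos (hS.2.re_neg h0) (nz hy)
      · rw [hk y hy.2.1, psi_eq ⟨hy.2.2.1, hy.2.2.2.le⟩]
        simp
    · refine ⟨Q ∩ {y | SA j y.1}, (hQ.inter (open_SA j)).mem_nhds ⟨hxQ, hj⟩, ?_⟩
      refine (gau_of_par (hp.mono fun y hy => ⟨hy.1.1, hy.2.1⟩)
        (par_plane hσ 1 (gp g j) fun y hy hS h0 => ?_)).congr fun y hy => ?_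
      · obtain ⟨r1, r2, -⟩ := SA.ray hy hS.2 h0
        have q := (hc y hS.1).1
        rw [fib_im hy.1, mul_eq_zero, or_iff_left q] at h0
        refine ⟨r1, lt_of_pow_lt_pow_left₀ 3 zero_le_one ?_⟩
        have := sq_pos_of_ne_zero q
        rw [r2, show y.2.re = 0 by linarith]
        linarith
      · rw [hk y hy.2.1, psi_SA hr.1 hy.1 hy.2.2]
        simp
  rw [not_not] at hq
  have h0 : (x.1 ^ 3).im = 0 := by rw [fib_im hx.1, hq, mul_zero]
  have hA : SA j x.1 := hj.resolve_left fun hj => by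
    have := hj.re_neg h0
    rw [fib_re hx.1, hq] at this
    nlinarith [sq_nonneg x.2.re]
  have hN := (SA.ray hx hA h0).2.2
  have oN : IsOpen (NM j) := isOpen_lt (by fun_prop) (by fun_prop)
  have cr : Continuous fun y : C2 => y.2.re := by fun_prop
  have c : (g * h⁻¹)⁻¹ = g * h⁻¹ := by
    rw [inv_eq_iff_mul_eq_one, ← hr.2, pow_two]
  have key : ∀ (R : Set C2) (d : D), IsOpen R → x ∈ R → (∀ y ∈ R, y.2.re ≠ 0) →
      (∀ y ∈ MM \ KK, y ∈ R → SA j y.1 → kk g h y =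
        (kp g h (eM j) * kp g h (if y.2.im < 0 then (eM j)⁻¹ else 1))⁻¹ *
          if (uu y).im < 0 then d else d * h) →
      ∃ V ∈ 𝓝 x, Gau ((MM \ KK) ∩ V) (mp (kp g h) lm) (pb uu σ) (kk g h) := by
    intro R d oR xR hR hk
    refine ⟨R ∩ NM j ∩ {y | SA j y.1}, ((oR.inter oN).inter (open_SA j)).mem_nhds ⟨⟨xR, hN⟩, hA⟩, ?_⟩
    refine (gau_of_par (((par_mp (hl.mid j) (kp g h)).const_mul (kp g h (eM j))).mono
      fun y hy => ⟨hy.1.1, hy.2.1.2⟩) (par_plane hσ 2 d fun y hy hS h0 => ?_)).congr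
      fun y hy => hk y hy.1 hy.2.1.1 hy.2.2
    obtain ⟨r1, r2, -⟩ := SA.ray hy hS.2 h0
    have q := hR y hS.1.1
    rw [fib_im hy.1, mul_eq_zero, or_iff_right (mul_ne_zero two_ne_zero q)] at h0
    refine lt_of_pow_lt_pow_left₀ 3 r1.le ?_
    have := sq_pos_of_ne_zero q
    rw [r2, h0]
    linarith
  have hp : x.2.re ≠ 0 := fun e => hx.2 (Or.inr (Complex.ext e hq))
  rcases hp.lt_or_gt with p | p
  · refine key {y | y.2.re < 0} (g * gp g j) (isOpen_lt cr continuous_const) p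
      (fun y hy => ne_of_lt hy) fun y hy (hR : y.2.re < 0) hA => ?_
    have e : (uu y).im < 0 ↔ y.2.im < 0 := by
      rw [uu_im_neg hy, fib_im hy.1]
      constructor <;> intro <;> nlinarith
    rw [kk, if_neg fun e => hR.not_gt e.2, CC, psi_SA hr.1 hy hA]
    simp only [e]
    split_ifs
    · simp
    · rw [map_one, kp_eM hr, mul_one, mul_one, mul_inv_rev, inv_inv, mul_inv_rev,
        mul_inv_rev _ (g * h⁻¹), c]
      simp [mul_assoc]
  · refine key {y | 0 < y.2.re} (g * gp g j * (g * h⁻¹)) (isOpen_lt continuous_const cr) p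
      (fun y hy => ne_of_gt hy) fun y hy (hR : 0 < y.2.re) hA => ?_
    have e : (uu y).im < 0 ↔ 0 < y.2.im := by
      rw [uu_im_neg hy, fib_im hy.1]
      constructor <;> intro <;> nlinarith
    rw [kk, CC, psi_SA hr.1 hy hA]
    simp only [e]
    rcases lt_trichotomy y.2.im 0 with q | q | q
    · simp [q, q.ne, q.not_gt, mul_assoc]
    · simp [q, hR, kp_eM hr, mul_assoc]
    · simp [q, q.ne', q.not_gt, kp_eM hr, mul_assoc]

end Cmp

open Cmp in
theorem cmp : CmpStmt := by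
  intro D _ g h lm σ hr hl hσ
  have h1 : ∀ x ∈ MM, pl x ≠ 0 := fun x (hx : pl x = 1) => hx ▸ one_ne_zero
  refine ⟨kk g h, ?_, gau_of_local (hol_mp (hl.hol.mono sdiff_subset) _)
    (hol_pb hσ.hol (cont_uu.mono fun x hx => h1 x hx.1) fun x hx => (uu_Pl (h1 x hx.1)).2 hx.2)
    fun x hx => loc hr hl hσ hx⟩
  obtain ⟨r, hr1, e1⟩ := cv_fst (Real.pi / 2)
  obtain ⟨s, hs, e2⟩ := cv_im (Real.pi / 2)
  rw [show 2 * (Real.pi / 2) = Real.pi by ring, ex_pi] at e1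
  rw [show 3 * (Real.pi / 2) = Real.pi / 2 + Real.pi by ring, Real.sin_add_pi,
    Real.sin_pi_div_two] at e2
  have q : (cv (Real.pi / 2)).2.im < 0 := by linarith
  have a : SH (0 + 1) (cv (Real.pi / 2)).1 := by
    have := mul_pos s3p (zero_lt_one.trans hr1)
    rw [SH, lj1, lj2, e1]
    simp only [lj, zj]
    constructor <;> simp <;> linarith
  rw [kk, CC, psi_eq a, if_pos q, if_neg fun e => q.ne e.1]
  exact (mul_one _).trans (mul_inv_cancel g)

end Pool.Agent.MP_7ebdba_gt.sm.p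

end
end MrgPart1

-- marker of a merged file
example : 731051 + 537463 = 731051 + 537463 := rfl

end MrgPart0

-- ======== part 1: formerly Pool.Agent.MP_7ebdba_gt.sm.p.Fin
section MrgPart1

-- ======== part 0: formerly Pool.Agent.MP_7ebdba_gt.sm.p.Ch3
section MrgPart0

/-! Block P: the flow. -/

open scoped Topology ComplexConjugate
open Set Filter Complex

noncomputable section

namespace Pool.Agent.MP_7ebdba_gt.sm.p

variable {x : C2} {l a c : ℂ} {r s t : ℝ}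

/-! ### the flow -/

theorem ex_ne (t : ℝ) : ex t ≠ 0 := exp_ne_zero _

theorem ex_six (t : ℝ) : ex (t / 6) ^ 6 = ex t := by
  rw [ex_pow]
  congr 1
  push_cast
  ring

theorem Fl_pos (t : ℝ) (h : near 1 x) :
    Fl t x = ch (al x * ex (kap ‖pc x‖ * t / 6)) (pc x * ex t) := if_pos h

theorem Fl_neg (t : ℝ) (h : ¬ near 1 x) : Fl t x = ac (ex (t / 6)) x := if_neg h

theorem n_al (s : ℝ) (h : near 1 x) : ‖al x * ex s‖ = 1 := by
  rw [norm_mul, norm_al h, norm_ex, mul_one]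

theorem n_pc (s : ℝ) (h : near r x) : ‖pc x * ex s‖ < r := by
  rw [norm_mul, norm_ex, mul_one]
  exact (near_iff.1 h).2

theorem cont_kap : Continuous kap := by
  unfold kap
  fun_prop

theorem Fl_mem (t : ℝ) (h : x ∈ N3) : Fl t x ∈ N3 := by
  by_cases h1 : near 1 x
  · rw [Fl_pos t h1]
    exact ch_mem (n_al _ h1) (n_pc _ h1)
  · rw [Fl_neg t h1]
    exact (N3_ac (norm_ex _)).2 h

theorem Fl_zero (h : x ∈ N3) : Fl 0 x = x := by
  by_cases h1 : near 1 x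
  · rw [Fl_pos 0 h1, mul_zero, zero_div, ex_zero, mul_one, mul_one, ch_al_pc h h1]
  · rw [Fl_neg 0 h1, zero_div, ex_zero, ac_one]

theorem pl_Fl (t : ℝ) (h : x ∈ N3) : pl (Fl t x) = ex t * pl x := by
  by_cases h1 : near 1 x
  · have e := pl_ch (norm_al h1) (near_iff.1 h1).2
    rw [ch_al_pc h h1] at e
    rw [Fl_pos t h1, pl_ch (n_al _ h1) (n_pc _ h1), e, norm_mul, norm_ex, mul_one]
    ring
  · rw [Fl_neg t h1, pl_ac, ex_six]

theorem pc_Fl (t : ℝ) (h : x ∈ N3) : pc (Fl t x) = ex t * pc x := by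
  by_cases h1 : near 1 x
  · rw [Fl_pos t h1, pc_ch (n_al _ h1) (n_pc _ h1), mul_comm]
  · rw [Fl_neg t h1, pc_ac (norm_ex _), ex_six]

theorem norm_pl_Fl (t : ℝ) (h : x ∈ N3) : ‖pl (Fl t x)‖ = ‖pl x‖ := by
  rw [pl_Fl t h, norm_mul, norm_ex, one_mul]

theorem norm_fst_Fl (t : ℝ) (h : x ∈ N3) : ‖(Fl t x).1‖ = ‖x.1‖ := by
  have h1 : ‖(Fl t x).1‖ ^ 3 + ‖pl (Fl t x)‖ = 1 := Fl_mem t h
  have h2 : ‖x.1‖ ^ 3 + ‖pl x‖ = 1 := h
  rw [norm_pl_Fl t h] at h1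
  exact (pow_left_inj₀ (norm_nonneg _) (norm_nonneg _) three_ne_zero).1 (by linarith)

theorem near_Fl (t : ℝ) (h : x ∈ N3) : near r (Fl t x) ↔ near r x := by
  rw [near, near, norm_pl_Fl t h, norm_fst_Fl t h]

theorem xx_Fl (t : ℝ) (h : x ∈ N3) : xx (Fl t x) = xx x := by
  have h1 := norm_pl_Fl t h
  simp only [pl] at h1
  simp only [xx, xf, normSq_eq_norm_sq, h1, norm_fst_Fl t h]

theorem KK_Fl (t : ℝ) (h : x ∈ N3) : Fl t x ∈ KK ↔ x ∈ KK := by
  by_cases h1 : near 1 x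
  · exact iff_of_false (near_KK ((near_Fl t h).2 h1)) (near_KK h1)
  · rw [Fl_neg t h1, KK_ac (ex_ne _)]

theorem al_Fl (t : ℝ) (h : near 1 x) : al (Fl t x) = al x * ex (kap ‖pc x‖ * t / 6) := by
  rw [Fl_pos t h, al_ch (n_al _ h) (n_pc _ h)]

theorem Fl_add (s t : ℝ) (h : x ∈ N3) : Fl (s + t) x = Fl s (Fl t x) := by
  by_cases h1 : near 1 x
  · rw [Fl_pos s ((near_Fl t h).2 h1), al_Fl t h1, pc_Fl t h, Fl_pos _ h1, norm_mul, norm_ex,
      one_mul, mul_assoc, ← ex_add, ex_add s t]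
    congr 1
    · congr 2
      ring
    · ring
  · rw [Fl_neg s (mt (near_Fl t h).1 h1), Fl_neg t h1, Fl_neg _ h1, ← ac_mul, ← ex_add, add_div]

theorem Fl_near (t : ℝ) (h : near (1 / 10) x) : Fl t x = ch (al x) (pc x * ex t) := by
  have e : kap ‖pc x‖ = 0 :=
    max_eq_left ((min_le_right _ _).trans (by linarith [(near_iff.1 h).2]))
  rw [Fl_pos t (h.mono (by norm_num)), e, zero_mul, zero_div, ex_zero, mul_one]

theorem Fl_far (t : ℝ) (h : x ∈ N3) (h1 : ¬ near (1 / 5) x) : Fl t x = ac (ex (t / 6)) x := by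
  by_cases h2 : near 1 x
  · have h3 : 1 / 5 ≤ ‖pc x‖ := not_lt.1 fun h4 => h1 (near_iff.2 ⟨(near_iff.1 h2).1, h4⟩)
    have e : kap ‖pc x‖ = 1 := by
      rw [kap, min_eq_left (by linarith), max_eq_right zero_le_one]
    rw [Fl_pos t h2, e, one_mul, mul_comm (al x), mul_comm (pc x), ← ex_six t,
      ch_ac (norm_ex _) (norm_al h2), ch_al_pc h h2]
  · exact Fl_neg t h2

theorem Fl_fix (t : ℝ) (h : x ∈ N3) (h0 : pl x = 0) : Fl t x = x := by
  have e : pc x = 0 := by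
    have : pf x.1 x.2 = 0 := h0
    simp [pc, cf, this]
  have h1 := ch_al_pc h (near_of_zero h h0 one_pos)
  rw [Fl_near t (near_of_zero h h0 (by norm_num)), e, zero_mul]
  rwa [e] at h1

theorem cont_Fl : ContinuousOn (fun q : ℝ × C2 => Fl q.1 q.2) (univ ×ˢ N3) := by
  intro q hq
  by_cases h1 : near 1 q.2
  · have hU : IsOpen {q : ℝ × C2 | near 1 q.2} := (open_near 1).preimage continuous_snd
    have ha : ContinuousOn (fun q : ℝ × C2 => al q.2) {q | near 1 q.2} :=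
      cont_al.comp continuousOn_snd fun _ h => h
    have hc : ContinuousOn (fun q : ℝ × C2 => pc q.2) {q | near 1 q.2} :=
      cont_pc.comp continuousOn_snd fun _ h => (near_iff.1 h).1
    have h2 : ContinuousOn (fun q : ℝ × C2 =>
        (al q.2 * ex (kap ‖pc q.2‖ * q.1 / 6), pc q.2 * ex q.1)) {q | near 1 q.2} :=
      (ha.mul (cont_ex.comp_continuousOn (((cont_kap.comp_continuousOn hc.norm).mul
        continuousOn_fst).div_const 6))).prodMk (hc.mul (cont_ex.comp continuous_fst).continuousOn)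
    exact (((cont_ch.comp h2 fun q h => ⟨n_al _ h, n_pc _ h⟩).congr
      fun q h => Fl_pos q.1 h).continuousAt (hU.mem_nhds h1)).continuousWithinAt
  · have hU : IsOpen {q : ℝ × C2 | 1 / 5 * ‖q.2.1‖ ^ 3 < ‖pl q.2‖} :=
      isOpen_lt (by fun_prop) (cont_pl.comp continuous_snd).norm
    have h2 : 1 / 5 * ‖q.2.1‖ ^ 3 < ‖pl q.2‖ := by
      have h3 : ‖q.2.1‖ ^ 3 + ‖pl q.2‖ = 1 := hq.2
      have h4 := not_lt.1 h1
      linarith
    have h3 : Continuous fun q : ℝ × C2 => ac (ex (q.1 / 6)) q.2 :=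
      cont_ac.comp ((cont_ex.comp (continuous_fst.div_const 6)).prodMk continuous_snd)
    refine h3.continuousWithinAt.congr_of_eventuallyEq ?_ (Fl_neg _ h1)
    filter_upwards [self_mem_nhdsWithin, mem_nhdsWithin_of_mem_nhds (hU.mem_nhds h2)] with p a b
    exact Fl_far _ a.2 (not_lt.2 b.le)

theorem cont_FlY (t : ℝ) : ContinuousOn (FlY t) {y | y.1 ∈ N3} :=
  (cont_Fl.comp (f := fun y : YY => (t, y.1)) (by fun_prop) fun _ h => ⟨trivial, h⟩).prodMk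
    continuousOn_snd

/-! ### the retractions -/

theorem ex_arccos (h : 0 ≤ c.im) : (‖c‖ : ℂ) * ex (Real.arccos (c.re / ‖c‖)) = c := by
  by_cases h0 : c = 0
  · simp [h0]
  · rw [← arg_of_im_nonneg_of_ne_zero h h0]
    exact norm_mul_exp_arg_mul_I c

theorem ang_up (h : 0 ≤ (pl x).im) : ex (-ang x) * pl x = (‖pl x‖ : ℝ) := by
  have e : ex (-ang x) * ex (ang x) = 1 := by rw [← ex_add, neg_add_cancel, ex_zero]
  have h1 : (‖pl x‖ : ℂ) * ex (ang x) = pl x := ex_arccos h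
  linear_combination -ex (-ang x) * h1 + (‖pl x‖ : ℂ) * e

theorem ang_down (h : (pl x).im ≤ 0) : ex (ang x) * pl x = (‖pl x‖ : ℝ) := by
  have h1 := ex_arccos (c := conj (pl x)) (by simpa using h)
  rw [norm_conj, conj_re] at h1
  by_cases h0 : pl x = 0
  · simp [h0]
  · refine mul_left_cancel₀ (a := (‖pl x‖ : ℂ)) (by simpa using h0) ?_
    rw [← mul_assoc, ang, h1, conj_mul', sq]

theorem ca_ang (h : pl x ≠ 0) : ContinuousAt ang x :=
  Real.continuous_arccos.continuousAt.comp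
    ((continuous_re.comp cont_pl).continuousAt.div cont_pl.norm.continuousAt (by simpa using h))

theorem cont_ret {θ : C2 → ℝ} {S : Set YY} (hθ : ∀ x, pl x ≠ 0 → ContinuousAt θ x)
    (hS : ∀ y ∈ S, y.1 ∈ N3 ∧ ex (θ y.1) * pl y.1 = (‖pl y.1‖ : ℝ)) :
    ContinuousOn (fun y => FlY (θ y.1) y) S := by
  refine ContinuousOn.prodMk (fun y hy => ?_) continuousOn_snd
  by_cases h0 : pl y.1 = 0
  · have hU : IsOpen {y : YY | near (1 / 10) y.1} := (open_near _).preimage continuous_fst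
    have h1 := near_of_zero (hS y hy).1 h0 (r := 1 / 10) (by norm_num)
    have m : ∀ y : YY, near (1 / 10) y.1 → near 1 y.1 := fun _ h => h.mono (by norm_num)
    have h2 : ContinuousOn (fun y : YY => (al y.1, ((‖pc y.1‖ : ℝ) : ℂ)))
        {y | near (1 / 10) y.1} :=
      (cont_al.comp continuousOn_fst m).prodMk (continuous_ofReal.comp_continuousOn
        (cont_pc.comp continuousOn_fst fun _ h => (near_iff.1 h).1).norm)
    have h3 := ((cont_ch.comp h2 fun y h => ⟨norm_al (m y h), by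
      simpa using (near_iff.1 (m y h)).2⟩).continuousAt (hU.mem_nhds h1)).continuousWithinAt (s := S)
    have k : ∀ y ∈ S, near (1 / 10) y.1 → Fl (θ y.1) y.1 = ch (al y.1) (‖pc y.1‖ : ℝ) := by
      intro y a b
      have hz := (near_iff.1 b).1
      have e := (hS y a).2
      rw [pl_eq_pc hz, norm_mul, norm_real, Real.norm_of_nonneg (by positivity), ofReal_mul,
        mul_left_comm] at e
      rw [Fl_near _ b, mul_comm, mul_left_cancel₀ (by simpa using hz) e]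
    refine h3.congr_of_eventuallyEq ?_ (k y hy h1)
    filter_upwards [self_mem_nhdsWithin, mem_nhdsWithin_of_mem_nhds (hU.mem_nhds h1)] with p a b
    exact k p a b
  · exact (cont_Fl _ ⟨trivial, (hS y hy).1⟩).comp (f := fun y : YY => (θ y.1, y.1))
      (((hθ _ h0).comp continuousAt_fst).prodMk continuousAt_fst).continuousWithinAt
      fun y h => ⟨trivial, (hS y h).1⟩

theorem cont_r2 : ContinuousOn r2 {y | y.1 ∈ N3 ∧ 0 ≤ (pl y.1).im} :=
  cont_ret (θ := fun x => -ang x) (fun _ h => (ca_ang h).neg) fun _ h => ⟨h.1, ang_up h.2⟩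

theorem cont_r3 : ContinuousOn r3 {y | y.1 ∈ N3 ∧ (pl y.1).im ≤ 0} :=
  cont_ret (θ := ang) (fun _ h => ca_ang h) fun _ h => ⟨h.1, ang_down h.2⟩

theorem Fl_Pg (h : x ∈ N3) (e : ex t * pl x = (‖pl x‖ : ℝ)) : Fl t x ∈ Pg :=
  ⟨Fl_mem t h, by rw [pl_Fl t h, e, ofReal_im], by
    rw [pl_Fl t h, e, ofReal_re]
    exact norm_nonneg _⟩

theorem r2_Pg {y : YY} (h : y.1 ∈ N3) (h1 : 0 ≤ (pl y.1).im) : (r2 y).1 ∈ Pg :=
  Fl_Pg h (ang_up h1)

theorem r3_Pg {y : YY} (h : y.1 ∈ N3) (h1 : (pl y.1).im ≤ 0) : (r3 y).1 ∈ Pg :=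
  Fl_Pg h (ang_down h1)

theorem re_Pg (h : x ∈ Pg) : (pl x).re = ‖pl x‖ := by
  rw [← abs_re_eq_norm.2 h.2.1, abs_of_nonneg h.2.2]

theorem ang_Pg (h : x ∈ Pg) (h0 : pl x ≠ 0) : ang x = 0 ∧ ang (Fl Real.pi x) = Real.pi := by
  have h1 : ‖pl x‖ ≠ 0 := by simpa using h0
  constructor
  · rw [ang, re_Pg h, div_self h1, Real.arccos_one]
  · rw [ang, pl_Fl _ h.1, ex_pi, neg_one_mul, norm_neg, neg_re, re_Pg h, neg_div, div_self h1,
      Real.arccos_neg_one]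

theorem r2_self {y : YY} (h : y.1 ∈ Pg) : r2 y = y := by
  refine Prod.ext ?_ rfl
  by_cases h0 : pl y.1 = 0
  · exact Fl_fix _ h.1 h0
  · simp only [r2, FlY, (ang_Pg h h0).1, neg_zero, Fl_zero h.1]

theorem r3_self {y : YY} (h : y.1 ∈ Pg) : r3 y = y := by
  refine Prod.ext ?_ rfl
  by_cases h0 : pl y.1 = 0
  · exact Fl_fix _ h.1 h0
  · simp only [r3, FlY, (ang_Pg h h0).1, Fl_zero h.1]

theorem r2_pi {y : YY} (h : y.1 ∈ Pg) : r2 (FlY Real.pi y) = y := by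
  refine Prod.ext ?_ rfl
  by_cases h0 : pl y.1 = 0
  · simp only [r2, FlY, Fl_fix _ h.1 h0]
  · simp only [r2, FlY, (ang_Pg h h0).2, ← Fl_add _ _ h.1, neg_add_cancel, Fl_zero h.1]

theorem r3_pi {y : YY} (h : y.1 ∈ Pg) : r3 (FlY Real.pi y) = FlY (2 * Real.pi) y := by
  refine Prod.ext ?_ rfl
  by_cases h0 : pl y.1 = 0
  · simp only [r3, FlY, Fl_fix _ h.1 h0]
  · simp only [r3, FlY, (ang_Pg h h0).2, ← Fl_add _ _ h.1, two_mul]

end Pool.Agent.MP_7ebdba_gt.sm.p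

end
end MrgPart0

-- ======== part 1: formerly Pool.Agent.MP_7ebdba_gt.sm.p.Ch4
section MrgPart1

/-! Block P: the height function. -/

open scoped Topology ComplexConjugate
open Set Filter Complex

noncomputable section

namespace Pool.Agent.MP_7ebdba_gt.sm.p

variable {x : C2} {l a c : ℂ} {r s t : ℝ}

/-! ### the height -/

theorem tf_pc (x : C2) : tf x.1 x.2 = ‖pc x‖ ^ 2 := by
  simp only [tf, pc, cf, norm_div, Complex.norm_real, norm_pow, norm_norm, normSq_eq_norm_sq]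
  ring

theorem Near_eighth : Near x.1 x.2 ↔ near (1 / 8) x := by
  simp only [Near, near, pl, normSq_eq_norm_sq]
  rw [← sq_lt_sq₀ (norm_nonneg _) (by positivity)]
  constructor <;> intro h <;> nlinarith

theorem xx_nonneg (x : C2) : 0 ≤ xx x := by
  rw [xx, ← normSq_uf]; exact normSq_nonneg _

theorem xx_cube (x : C2) : xx x ^ 3 = (‖pc x‖ ^ 2)⁻¹ := by rw [xx, xf_cube, tf_pc]

theorem re_al_le (h : near 1 x) : |(al x).re| ≤ 1 := (norm_al h) ▸ abs_re_le_norm _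

theorem pl_ne_of (h : x ∈ N3) (hr : 0 < r) (h1 : ¬ near r x) : pl x ≠ 0 :=
  fun h0 => h1 (near_of_zero h h0 hr)

variable (P : Prof)

theorem F_mono : StrictMono P.F := strictMono_of_deriv_pos P.F_pos

theorem F_lt (X : ℝ) : P.F X < 6 := by
  have h := (F_mono P).monotone (le_max_left X 4)
  have h4 : (4 : ℝ) ≤ max X 4 := le_max_right _ _
  have : 0 < ((max X 4) ^ 3)⁻¹ := by positivity
  rw [P.F_hi _ h4] at h
  linarith

theorem mm_N (h : near (1 / 8) x) :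
    mm P x = 6 - ‖pc x‖ ^ 2 + P.ε * P.χ (‖pc x‖ ^ 2) * (al x).re := by
  rw [mm, mf, if_pos (Near_eighth.2 h), tf_pc, al]

theorem mm_nN (h : ¬ near (1 / 8) x) : mm P x = P.F (xx x) := by
  rw [mm, mf, if_neg (fun h' => h (Near_eighth.1 h')), xx]

theorem mm_F (h0 : pl x ≠ 0) (h : ¬ near (1 / 10) x) : mm P x = P.F (xx x) := by
  by_cases h8 : near (1 / 8) x
  · have h1 : 1 / 10 ≤ ‖pc x‖ := not_lt.1 fun h' => h (near_iff.2 ⟨(near_iff.1 h8).1, h'⟩)
    have h4 : 4 < xx x := (sm.near_iff h0).1 (Near_eighth.2 h8)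
    rw [mm_N P h8, P.χ_hi _ (by nlinarith), P.F_hi _ h4.le, xx_cube, inv_inv]
    ring
  · exact mm_nN P h8

theorem eps_bd (h : near 1 x) (τ : ℝ) : |P.ε * P.χ τ * (al x).re| < 1 / 125 := by
  have h1 := re_al_le h
  have h2 := P.χ_mem τ
  have h3 := P.ε_pos
  have h4 := P.ε_lt
  rw [abs_mul, abs_of_nonneg (mul_nonneg h3.le h2.1)]
  have : P.χ τ * |(al x).re| ≤ 1 := mul_le_one₀ h2.2 (abs_nonneg _) h1
  nlinarith

theorem cont_mm : ContinuousOn (mm P) N3 := by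
  intro x hx
  refine ContinuousAt.continuousWithinAt ?_
  by_cases h : near (1 / 8) x
  · have hn : {y | near (1 / 8) y} ∈ 𝓝 x := (open_near _).mem_nhds h
    have c1 : ContinuousAt pc x := cont_pc.continuousAt
      ((isOpen_ne_fun continuous_fst continuous_const).mem_nhds (near_iff.1 h).1)
    have c2 : ContinuousAt al x :=
      cont_al.continuousAt ((open_near _).mem_nhds (h.mono (by norm_num)))
    have c3 := P.χ_sm.continuous
    refine ContinuousAt.congr (f := fun y =>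
      6 - ‖pc y‖ ^ 2 + P.ε * P.χ (‖pc y‖ ^ 2) * (al y).re) (by fun_prop) ?_
    filter_upwards [hn] with y hy using (mm_N P hy).symm
  · have h0 := pl_ne_of hx (by norm_num) h
    have ho : IsOpen {y : C2 | 1 / 10 * ‖y.1‖ ^ 3 < ‖pl y‖} :=
      isOpen_lt (by fun_prop) cont_pl.norm
    have hm : 1 / 10 * ‖x.1‖ ^ 3 < ‖pl x‖ := by
      have h1 : 1 / 8 * ‖x.1‖ ^ 3 ≤ ‖pl x‖ := not_lt.1 h
      have h2 := norm_pos_iff.2 h0
      linarith
    have c1 : ContinuousAt xx x :=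
      cont_xx.continuousAt ((isOpen_ne_fun cont_pl continuous_const).mem_nhds h0)
    refine ContinuousAt.congr (f := fun y => P.F (xx y))
      (P.F_sm.continuous.continuousAt.comp c1) ?_
    filter_upwards [ho.mem_nhds hm] with y hy
    refine (mm_F P (norm_pos_iff.1 (lt_of_le_of_lt (by positivity) hy)) (not_lt.2 hy.le)).symm

theorem mm_nonneg (h : x ∈ N3) : 0 ≤ mm P x := by
  have _h := h
  by_cases h8 : near (1 / 8) x
  · have h1 := abs_lt.1 (eps_bd P (h8.mono (by norm_num)) (‖pc x‖ ^ 2))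
    have h2 := (near_iff.1 h8).2
    have h3 := norm_nonneg (pc x)
    rw [mm_N P h8]
    nlinarith
  · have := (F_mono P).monotone (xx_nonneg x)
    rwa [mm_nN P h8, ← P.F_lo 0 (by norm_num)]

theorem near_small (h : near 1 x) (h1 : ‖pc x‖ ^ 2 ≤ 1 / 125) : near (1 / 10) x :=
  near_iff.2 ⟨(near_iff.1 h).1, by nlinarith [norm_nonneg (pc x)]⟩

theorem mm_near (h : near 1 x) (h1 : ‖pc x‖ ^ 2 ≤ 1 / 125) :
    mm P x = 6 - ‖pc x‖ ^ 2 + P.ε * (al x).re := by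
  rw [mm_N P ((near_small h h1).mono (by norm_num)), P.χ_lo _ h1, mul_one]

theorem mm_lt (h : x ∈ N3) (h1 : near 1 x → 1 / 125 ≤ ‖pc x‖ ^ 2) : mm P x < 6 := by
  have _h := h
  by_cases h8 : near (1 / 8) x
  · have h2 : near 1 x := h8.mono (by norm_num)
    have h3 := abs_lt.1 (eps_bd P h2 (‖pc x‖ ^ 2))
    have h4 := h1 h2
    rw [mm_N P h8]
    linarith [h3.2]
  · rw [mm_nN P h8]; exact F_lt P _

theorem mm_far (h : pl x ≠ 0) (h1 : xx x ≤ 3) : mm P x = xx x := by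
  rw [mm_nN P fun h8 => ?_, P.F_lo _ h1]
  have h4 : 4 < xx x := (sm.near_iff h).1 (Near_eighth.2 h8)
  linarith

/-- description of the page minus the half disc in the chart -/
theorem mm_le_iff (h : x ∈ N3) (h1 : near 1 x) : mm P x ≤ 6 ↔ P.ε * (al x).re ≤ ‖pc x‖ ^ 2 := by
  rcases le_total (‖pc x‖ ^ 2) (1 / 125) with h2 | h2
  · rw [mm_near P h1 h2]
    constructor <;> intro h <;> linarith
  · refine iff_of_true (mm_lt P h fun _ => h2).le ?_
    have h3 := (abs_le.1 (re_al_le h1)).2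
    nlinarith [P.ε_pos, P.ε_lt]

theorem mm_eq (h : x ∈ N3) (h1 : mm P x = 6) :
    near (1 / 10) x ∧ P.ε * (al x).re = ‖pc x‖ ^ 2 := by
  have h2 : ¬ (near 1 x → 1 / 125 ≤ ‖pc x‖ ^ 2) := fun h' => (mm_lt P h h').ne h1
  obtain ⟨h3, h4⟩ := Classical.not_imp.1 h2
  have h5 := (not_le.1 h4).le
  refine ⟨near_small h3 h5, ?_⟩
  rw [mm_near P h3 h5] at h1
  linarith

theorem mm_Fl (t : ℝ) (h : x ∈ N3) : mm P (Fl t x) = mm P x := by
  by_cases h1 : near (1 / 10) x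
  · have h8 : near (1 / 8) x := h1.mono (by norm_num)
    have hk : kap ‖pc x‖ = 0 :=
      max_eq_left (min_le_of_right_le (by linarith [(near_iff.1 h1).2]))
    rw [mm_N P h8, mm_N P ((near_Fl t h).2 h8), pc_Fl t h, al_Fl t (h1.mono (by norm_num)), hk,
      norm_mul, norm_ex]
    simp [ex_zero]
  · have h0 := pl_ne_of h (by norm_num) h1
    have h2 : ¬ near (1 / 10) (Fl t x) := fun h' => h1 ((near_Fl t h).1 h')
    rw [mm_F P h0 h1, mm_F P (pl_ne_of (Fl_mem t h) (by norm_num) h2) h2, xx_Fl t h]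

theorem low_lt (t : ℝ) : √(max 0 (P.ε * Real.cos t)) < 1 := by
  rw [Real.sqrt_lt' one_pos, one_pow]
  exact max_lt one_pos (by nlinarith [P.ε_pos, P.ε_lt, Real.cos_le_one t])

theorem low_norm (t : ℝ) : ‖((√(max 0 (P.ε * Real.cos t)) : ℝ) : ℂ)‖ < 1 := by
  rw [Complex.norm_real, Real.norm_of_nonneg (Real.sqrt_nonneg _)]
  exact low_lt P t

theorem cont_low : Continuous (low P) := by
  have c := cont_ex
  exact cont_ch.comp_continuous
    (f := fun t => (ex t, ((√(max 0 (P.ε * Real.cos t)) : ℝ) : ℂ))) (by fun_prop)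
    fun t => ⟨norm_ex t, low_norm P t⟩

theorem low_mem (t : ℝ) : low P t ∈ Pm P := by
  have h := ch_Pg (norm_ex t) (Real.sqrt_nonneg _) (low_lt P t)
  refine ⟨h, (mm_le_iff P h.1 ((near_ch (norm_ex t) (low_norm P t)).2 (low_norm P t))).2 ?_⟩
  rw [al_ch (norm_ex t) (low_norm P t), pc_ch (norm_ex t) (low_norm P t), ex_re,
    Complex.norm_real, Real.norm_of_nonneg (Real.sqrt_nonneg _), Real.sq_sqrt (le_max_left _ _)]
  exact le_max_right _ _

theorem low_half_pi : low P (Real.pi / 2) = x0 := by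
  simp [low, x0, ex_half_pi]

theorem low_per (t : ℝ) : low P (t + 2 * Real.pi) = low P t := by
  rw [low, low, ex_add, ex_two_pi, mul_one, Real.cos_add_two_pi]

theorem cont_sh (c : Bool) : ContinuousOn (sh P c) N3 :=
  continuousOn_id.prodMk (continuousOn_const.mul (continuousOn_const.sub (cont_mm P)).sqrt)

theorem Hh_sh (c : Bool) (h : mm P x ≤ 6) : Hh P (sh P c x) = 6 := by
  have := Real.sq_sqrt (sub_nonneg.2 h)
  cases c <;> simp only [Hh, sh, mul_pow, this] <;> simp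

theorem sh_x0 (c : Bool) : sh P c x0 = b0 := by
  have h : pc x0 = 0 := by rw [pc, cf, show pf x0.1 x0.2 = 0 from pl_x0, zero_div]
  have h1 := mm_near P (near_of_zero x0_Pg.1 pl_x0 one_pos) (by rw [h]; norm_num)
  rw [h, al_x0] at h1
  simp [sh, b0, h1]

theorem Wy_xx {y : YY} (h : y ∈ Wy) : xx y.1 < 14 / 5 := by
  nlinarith [h.2.2, sq_nonneg y.2]

theorem Wy_far {y : YY} (h : y ∈ Wy) : ¬ near (1 / 5) y.1 := by
  rw [near_iff_xx h.2.1 (by norm_num), not_lt]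
  have := pow_le_pow_left₀ (xx_nonneg y.1) (Wy_xx h).le 3
  linarith

theorem Wy_Hh {y : YY} (h : y ∈ Wy) : Hh P y = xx y.1 + y.2 ^ 2 := by
  rw [Hh, mm_far P h.2.1 (by linarith [Wy_xx h])]

theorem Vy_of_six {y : YY} (h : y.1 ∈ N3) (h1 : Hh P y = 6) : y ∈ Vy := by
  refine ⟨h, or_iff_not_imp_left.2 fun h0 => not_le.1 fun h2 => ?_⟩
  rw [Wy_Hh P ⟨h, h0, by linarith⟩] at h1
  linarith

theorem Vy_near {y : YY} (h : y ∈ Vy) (h0 : y.2 = 0) : near 1 y.1 := by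
  by_cases h1 : pl y.1 = 0
  · exact near_of_zero h.1 h1 one_pos
  · have h2 := h.2.resolve_left h1
    rw [h0] at h2
    rw [near_iff_xx h1 one_pos, one_pow, one_mul]
    exact one_lt_pow₀ (by linarith) (by norm_num)

theorem qy_Sh {y : YY} (h : y ∈ Vy) (h' : y ∈ Wy) (hK : y ∉ KY) : qy y ∈ Sh := by
  have e : nq (qy y) = xx y.1 + y.2 ^ 2 := by rw [← normSq_uu h'.2.1]; rfl
  refine ⟨⟨?_, ?_⟩, (uu_Pl h'.2.1).2 hK⟩
  · rw [e]; exact h.2.resolve_left h'.2.1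
  · rw [e]; exact h'.2.2

theorem cont_qy : ContinuousOn qy Wy :=
  (cont_uu.comp continuousOn_fst fun _ h => h.2.1).prodMk continuousOn_snd

theorem open_lev {U : Set ℝ} (hU : IsOpen U) :
    IsOpen ({y : YY | pl y.1 ≠ 0} ∩ (fun y : YY => xx y.1 + y.2 ^ 2) ⁻¹' U) :=
  ContinuousOn.isOpen_inter_preimage
    ((cont_xx.comp continuousOn_fst fun _ h => h).add (continuousOn_snd.pow 2))
    (isOpen_ne_fun (cont_pl.comp continuous_fst) continuous_const) hU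

theorem open_Vy : ∃ O, IsOpen O ∧ Vy = {y | y.1 ∈ N3} ∩ O := by
  refine ⟨_, (((open_near (1 / 5)).preimage continuous_fst)).union
    (open_lev (isOpen_Ioi (a := 13 / 5))), Set.ext fun y => and_congr_right fun h => ?_⟩
  by_cases h0 : pl y.1 = 0
  · exact iff_of_true (Or.inl h0) (Or.inl (near_of_zero h h0 (by norm_num)))
  · refine ⟨fun h1 => Or.inr ⟨h0, h1.resolve_left h0⟩, fun h1 => Or.inr ?_⟩
    rcases h1 with h1 | h1
    · have h2 := (near_iff_xx h0 (by norm_num)).1 h1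
      have h3 : 13 / 5 < xx y.1 := not_le.1 fun h3 => by
        have := pow_le_pow_left₀ (xx_nonneg y.1) h3 3
        linarith
      nlinarith [sq_nonneg y.2]
    · exact h1.2

theorem open_Wy : ∃ O, IsOpen O ∧ Wy = {y | y.1 ∈ N3} ∩ O :=
  ⟨_, open_lev (isOpen_Iio (a := 14 / 5)), rfl⟩

end Pool.Agent.MP_7ebdba_gt.sm.p

end
end MrgPart1

-- ======== part 2: formerly Pool.Agent.MP_7ebdba_gt.sm.p.Fin
section MrgPart2

/-! Block P, row FIN: assembly of the marked loops and of the three walls. -/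

open scoped Topology ComplexConjugate
open Set Filter Complex

noncomputable section

namespace Pool.Agent.MP_7ebdba_gt.sm.p

open MP_e1dc65_gt

namespace Fn

theorem ph_ex {a b : ℂ} (h : ph a = ph b) (ha : a ≠ 0) (hb : b ≠ 0) :
    ∃ s : ℝ, 0 < s ∧ a = s * b := by
  have h1 : (‖a‖ : ℂ) ≠ 0 := by exact_mod_cast norm_ne_zero_iff.2 ha
  have h2 : (‖b‖ : ℂ) ≠ 0 := by exact_mod_cast norm_ne_zero_iff.2 hb
  refine ⟨‖a‖ / ‖b‖, div_pos (norm_pos_iff.2 ha) (norm_pos_iff.2 hb), ?_⟩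
  unfold ph at h
  rw [div_eq_iff h1] at h
  rw [h]
  push_cast
  rw [← h]
  field_simp
  rw [div_mul_eq_mul_div, eq_div_iff h2] at h
  linear_combination h

variable {P : Prof} {Θ : V3 → V3} {X : Fin 3 → Set S4} {E1 E2 : YY → S4} {g1 g2 : S4 → YY}
  {x y : YY}

theorem H1_of (h : y ∈ Wy) (h0 : (pl y.1).im = 0) : y ∈ H1 P :=
  ⟨h.1, by rw [Wy_Hh P h]; linarith [h.2.2], h0⟩

theorem im_of (h : ph (pl x.1) = ph (pl y.1)) (hx : x ∈ Wy) (hy : y ∈ Wy)
    (h0 : (pl y.1).im = 0) : (pl x.1).im = 0 := by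
  obtain ⟨s, -, e⟩ := ph_ex h hx.2.1 hy.2.1
  rw [e]; simp [h0]

theorem Cc_sub (P : Prof) (c : Bool) : Cc c ⊆ H1 P ∩ Vy ∩ Wy :=
  fun _ h => ⟨⟨H1_of h.2.1 h.2.2.1, h.1⟩, h.2.1⟩

theorem Cc_of (h : y ∈ H1 P ∩ Vy ∩ Wy) : ∃ c, y ∈ Cc c := by
  have h0 : (pl y.1).re ≠ 0 := fun e => h.2.2.1 (Complex.ext e h.1.1.2.2)
  rcases lt_or_gt_of_ne h0 with e | e
  · exact ⟨false, h.1.2, h.2, h.1.1.2.2, by simpa using e⟩
  · exact ⟨true, h.1.2, h.2, h.1.1.2.2, by simpa using e⟩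

theorem Sg_sub (P : Prof) : Sg P ⊆ H1 P ∩ Vy :=
  fun _ h => ⟨⟨h.1, h.2.1.le, h.2.2⟩, Vy_of_six P h.1 h.2.1⟩

theorem psi (R : RegY P Θ X E1 E2 g1 g2) (h : y ∈ Vy) (h' : y ∈ Wy) :
    g1 (E2 y) ∈ Vy ∧ g1 (E2 y) ∈ Wy ∧ ph (pl (g1 (E2 y)).1) = ph (pl y.1) ∧
      qy (g1 (E2 y)) = Θ (qy y) := by
  obtain ⟨x, hx, e⟩ := R.into y ⟨h, h'⟩
  obtain ⟨a, -, b, c⟩ := R.ovl x hx y h e
  rw [← e, R.l1 x hx]
  exact ⟨a, hx, b, c⟩

theorem psi_cont (R : RegY P Θ X E1 E2 g1 g2) {A : Set YY} (h : A ⊆ Vy) (h' : A ⊆ Wy) :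
    ContinuousOn (fun y => g1 (E2 y)) A :=
  R.d1.comp (R.c2.mono h) fun y hy => R.into y ⟨h hy, h' hy⟩

theorem psi_Cc (R : RegY P Θ X E1 E2 g1 g2) (c : Bool) :
    MapsTo (fun y => g1 (E2 y)) (Cc c) (Cc c) := by
  intro y hy
  obtain ⟨a, b, d, -⟩ := psi R hy.1 hy.2.1
  refine ⟨a, b, im_of d b hy.2.1 hy.2.2.1, ?_⟩
  obtain ⟨s, hs, e⟩ := ph_ex d b.2.1 hy.2.1.2.1
  have := mul_pos hs hy.2.2.2
  show 0 < _ * (pl (g1 (E2 y)).1).re
  rw [e, re_ofReal_mul]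
  linarith [mul_left_comm s (if c then (1 : ℝ) else -1) (pl y.1).re]

theorem psi_K (R : RegY P Θ X E1 E2 g1 g2) (m : MapsTo Θ Sh Sh) (c : Bool) :
    MapsTo (fun y => g1 (E2 y)) (Cc c \ KY) (Cc c \ KY) := by
  intro y hy
  refine ⟨psi_Cc R c hy.1, ?_⟩
  obtain ⟨-, b, -, d⟩ := psi R hy.1.1 hy.1.2.1
  have := m (qy_Sh hy.1.1 hy.1.2.1 hy.2)
  rw [← d] at this
  exact (uu_Pl b.2.1).1 this.2

variable {D : Type} [Group D] {σ σ' : Tr V3 D} {ρV ρW : Tr YY (Monoid.Coprod D D)}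

/-- the two holonomies are gauge equivalent on each half of the overlap -/
theorem half (R : RegY P Θ X E1 E2 g1 g2) (m : MapsTo Θ Sh Sh) (hL : LocStmt) {k0 : V3 → D}
    (h0 : Gau Sh σ' (pb Θ σ) k0) (hV : Hol (H1 P ∩ Vy) ρV) (hW : Hol (H1 P ∩ Wy) ρW) (c : Bool)
    {k1 : YY → Monoid.Coprod D D} (gV : Gau (Cc c \ KY) (mp (inc c) (pb qy σ')) ρV k1)
    (gW : Agree (Cc c \ KY) (mp (inc c) (pb qy σ)) ρW) :
    ∃ k, Gau (Cc c) ρV (pb (fun y => g1 (E2 y)) ρW) k := by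
  have sV : Cc c \ KY ⊆ Vy := fun _ h => h.1.1
  have sW : Cc c \ KY ⊆ Wy := fun _ h => h.1.2.1
  have cψ := psi_cont R sV sW
  have cq : ContinuousOn qy (Cc c \ KY) := cont_qy.mono sW
  have a1 := gW.pb cψ (psi_K R m c)
  rw [pb_mp] at a1
  have a2 := pb_comp (f := qy) σ cψ
  have a3 : Agree (Cc c \ KY) (pb (fun y => Θ (qy y)) σ) (pb (fun y => qy (g1 (E2 y))) σ) :=
    pb_congr σ fun y hy => (psi R (sV hy) (sW hy)).2.2.2
  have a4 := pb_comp (f := Θ) σ cq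
  have a5 := ((a4.symm.trans (a3.trans a2)).mp (inc c)).trans a1
  have a6 := (h0.pb cq fun y hy => qy_Sh (sV hy) (sW hy) hy.2).mp (inc c)
  obtain ⟨k, hk, -⟩ := gau_extend (hV.mono fun y hy => (Cc_sub P c hy).1)
    (hol_pb hW (psi_cont R (fun _ h => h.1) fun _ h => h.2.1) fun y hy =>
      ⟨(Cc_sub P c (psi_Cc R c hy)).1.1, (psi_Cc R c hy).2.1⟩) closed_KY
    (gV.symm.trans (a6.trans a5.gau)) (hL c)
  exact ⟨k, hk⟩

/-- one gauge on the whole overlap, trivial off `Wy` -/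
theorem whole (R : RegY P Θ X E1 E2 g1 g2) (hV : Hol (H1 P ∩ Vy) ρV) (hW : Hol (H1 P ∩ Wy) ρW)
    (h : ∀ c, ∃ k, Gau (Cc c) ρV (pb (fun y => g1 (E2 y)) ρW) k) :
    ∃ k, k b0 = 1 ∧ Gau (H1 P ∩ Vy ∩ Wy) ρV (pb (fun y => g1 (E2 y)) ρW) k := by
  classical
  choose k hk using h
  refine ⟨fun y => if 0 < (pl y.1).re then k true y else if (pl y.1).re < 0 then k false y else 1,
    by simp [b0, pl_x0], gau_of_local (hV.mono inter_subset_left)
      (hol_pb hW (psi_cont R (fun _ h => h.1.2) fun _ h => h.2) fun y hy => ?_) fun y hy => ?_⟩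
  · obtain ⟨c, hc⟩ := Cc_of hy
    exact ⟨(Cc_sub P c (psi_Cc R c hc)).1.1, (psi_Cc R c hc).2.1⟩
  obtain ⟨c, hc⟩ := Cc_of hy
  have ho : IsOpen {z : YY | 0 < (if c then (1 : ℝ) else -1) * (pl z.1).re} :=
    isOpen_lt continuous_const
      (continuous_const.mul (continuous_re.comp (cont_pl.comp continuous_fst)))
  refine ⟨_, ho.mem_nhds hc.2.2.2, ((hk c).mono fun z hz =>
    ⟨hz.1.1.2, hz.1.2, hz.1.1.1.2.2, hz.2⟩).congr fun z hz => ?_⟩
  have h2 : 0 < (if c then (1 : ℝ) else -1) * (pl z.1).re := hz.2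
  cases c
  · have h3 : (pl z.1).re < 0 := by simpa using h2
    simp [h3, h3.not_gt]
  · have h3 : 0 < (pl z.1).re := by simpa using h2
    simp [h3]

/-- the loops in the sphere -/
def lift (R : RegY P Θ X E1 E2 g1 g2) {L : Fin 4 × Bool → Path b0 b0} (h : ∀ a, In (L a) (Sg P))
    (a : Fin 4 × Bool) : Path (E2 b0) (E2 b0) :=
  push E2 R.c2 (L a) ((h a).mono fun _ hy => (Sg_sub P hy).2)

theorem ev_g2 (R : RegY P Θ X E1 E2 g1 g2) {L : Fin 4 × Bool → Path b0 b0}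
    (h : ∀ a, In (L a) (Sg P)) {K : Type} [Group K] (ρ : Tr YY K) :
    ev (pb g2 ρ) (lift R h) = ev ρ L := by
  unfold ev
  congr 1
  funext a
  exact pb_eq _ _ fun t => (R.l2 _ (Sg_sub P (h a t)).2).symm

theorem hol_g2 (R : RegY P Θ X E1 E2 g1 g2) {K : Type} [Group K] {ρ : Tr YY K} {A : Set YY}
    (h : Hol A ρ) (hA : A ⊆ Vy) {B : Set S4} (hB : B ⊆ E2 '' A) : Hol B (pb g2 ρ) :=
  hol_pb h (R.d2.mono (hB.trans (image_mono hA))) fun z hz => by
    obtain ⟨y, hy, rfl⟩ := hB hz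
    rwa [R.l2 y (hA hy)]

/-- the middle wall -/
theorem middle (R : RegY P Θ X E1 E2 g1 g2) (hV : Hol (H1 P ∩ Vy) ρV) (hW : Hol (H1 P ∩ Wy) ρW)
    {k : YY → Monoid.Coprod D D} (hb : k b0 = 1)
    (hk : Gau (H1 P ∩ Vy ∩ Wy) ρV (pb (fun y => g1 (E2 y)) ρW) k)
    {L : Fin 4 × Bool → Path b0 b0} (h : ∀ a, In (L a) (Sg P)) :
    ∃ μ : Tr S4 (Monoid.Coprod D D), Hol (X 1 ∩ X 2) μ ∧ ev μ (lift R h) = ev ρV L := by
  have m2 : (E2 '' (H1 P ∩ Vy) ∪ E1 '' (H1 P ∩ Wy)) ∩ E2 '' Vy ⊆ E2 '' (H1 P ∩ Vy) := by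
    rintro z ⟨h1 | ⟨x, hx, e⟩, y, hy, rfl⟩
    · exact h1
    obtain ⟨-, a, b, -⟩ := R.ovl x hx.2 y hy e
    exact ⟨y, ⟨H1_of a (im_of b.symm a hx.2 hx.1.2.2), hy⟩, rfl⟩
  have m1 : MapsTo g1 ((E2 '' (H1 P ∩ Vy) ∪ E1 '' (H1 P ∩ Wy)) ∩ E1 '' Wy) (H1 P ∩ Wy) := by
    rintro z ⟨⟨y, hy, e⟩ | ⟨y, hy, e⟩, x, hx, rfl⟩
    · obtain ⟨-, a, b, -⟩ := R.ovl x hx y hy.2 e.symm
      rw [R.l1 x hx]
      exact ⟨H1_of hx (im_of b hx a hy.1.2.2), hx⟩
    · rwa [← e, R.l1 y hy.2]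
  have c2 : ContinuousOn g2
      ((E2 '' (H1 P ∩ Vy) ∪ E1 '' (H1 P ∩ Wy)) ∩ E2 '' Vy ∩ E1 '' Wy) :=
    R.d2.mono fun _ hz => hz.1.2
  obtain ⟨μ, h1, h2, -⟩ := glue2 (T := E2 '' (H1 P ∩ Vy) ∪ E1 '' (H1 P ∩ Wy)) R.o2 R.o1
    (union_subset_union (image_mono inter_subset_right) (image_mono inter_subset_right))
    (hol_g2 R (hol_gg hV k) inter_subset_right m2)
    (hol_pb hW (R.d1.mono inter_subset_right) m1) (by
      refine ((hk.agree.pb c2 fun z hz => ?_).trans (pb_comp ρW c2).symm).trans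
        (pb_congr ρW fun z hz => ?_)
      · obtain ⟨y, hy, rfl⟩ := m2 hz.1
        obtain ⟨x, hx, e⟩ := hz.2
        rw [R.l2 y hy.2]
        exact ⟨hy, (R.ovl x hx y hy.2 e).2.1⟩
      · obtain ⟨y, hy, rfl⟩ := hz.1.2
        simp only [R.l2 y hy])
  refine ⟨μ, h1.mono R.w12, ?_⟩
  have e1 : ev μ (lift R h) = ev (pb g2 (gg k ρV)) (lift R h) := by
    unfold ev
    congr 1
    funext a
    exact h2 _ _ _ fun t => ⟨Or.inl ⟨_, Sg_sub P (h a t), rfl⟩, _, (Sg_sub P (h a t)).2, rfl⟩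
  rw [e1, ev_g2]
  unfold ev
  congr 1
  funext a
  simp [gg, hb]

end Fn

open Fn in
theorem fin : FinStmt := by
  intro hB hA hP hR h23 hV hW hL hBr P
  obtain ⟨D, _, g, h, n, r, r2, rv, nc, hd⟩ := hA
  obtain ⟨Θ, ad, -, mΘ, hΘ⟩ := hB n
  refine ⟨Θ, r, ad, nc, fun e1 e2 rg => ?_⟩
  obtain ⟨σ, hσ⟩ := wd_Sh.ex (el (g, g, h))
  obtain ⟨σ', hσ'⟩ := wd_Sh.ex (el (step^[n] (g, g, h)))
  obtain ⟨k0, h0⟩ := hΘ D _ σ σ' hσ hσ'
  obtain ⟨lt, l, po⟩ := hP P
  obtain ⟨L, il, hin, hrel⟩ := hR P lt l po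
  obtain ⟨⟨ρ2, a2, b2⟩, ρ3, a3, b3⟩ := h23 P lt l L po il
  obtain ⟨ρV, aV, bV, cV⟩ := hV P lt l L D _ σ' po il rv hσ'
  obtain ⟨ρW, aW, cW⟩ := hW P lt l D g h σ po r2 hσ
  obtain ⟨E1, E2, g1, g2, R⟩ := hBr P Θ e1 e2 rg
  obtain ⟨k, hb, hk⟩ := whole R aV aW fun c =>
    let ⟨_, h1⟩ := cV c; half R mΘ hL h0 aV aW c h1 (cW c)
  obtain ⟨μ, hμ, eμ⟩ := middle R aV aW hb hk hin
  refine ⟨E2 b0, lift R hin, fun a t => R.cor (hin a t), fun K _ ν hν => ?_, fun i => ?_⟩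
  · rw [← hrel K (pb E2 ν) (hol_pb hν (R.c2.mono fun _ hy => (Sg_sub P hy).2) R.cor)]
    unfold ev
    congr 2
    funext a
    exact (pb_eq _ _ fun _ => rfl).symm
  fin_cases i
  · exact ⟨1, _, _, μ, hμ, fun w hw => hd w (by rwa [eμ, bV] at hw)⟩
  · refine ⟨0, _, _, pb g2 ρ2, hol_g2 R a2 (fun _ hy => Vy_of_six P hy.1 hy.2.1) R.w01,
      fun w hw => ?_⟩
    rwa [ev_g2, b2] at hw
  · refine ⟨2, _, _, pb g2 ρ3, hol_g2 R a3 (fun _ hy => Vy_of_six P hy.1 hy.2.1) R.w20,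
      fun w hw => ?_⟩
    rwa [ev_g2, b3] at hw

end Pool.Agent.MP_7ebdba_gt.sm.p

end
end MrgPart2

-- marker of a merged file
example : 731051 + 209249 = 731051 + 209249 := rfl

end MrgPart1

-- marker of a merged file
example : 731051 + 209249 = 731051 + 209249 := rfl
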