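import Pool.Agent.MP_7ebdba_gt.sm.p.Fin

/-! Block P, row REL: the eight loops in the core and the surface relation. -/

open scoped Topology ComplexConjugate
open Set Filter Complex

noncomputable section

namespace Pool.Agent.MP_7ebdba_gt.sm.p

open MP_e1dc65_gt

namespace rl

variable (P : Prof)

/-- the four sheets of the core over the page minus the half disc -/
def sht (e c : Bool) (x : C2) : YY := if e then FlY Real.pi (sh P c x) else sh P c x

theorem cont_sht (e c : Bool) : ContinuousOn (sht P e c) (Pm P) := by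
  have h : ContinuousOn (sh P c) (Pm P) := (cont_sh P c).mono fun x hx => hx.1.1
  cases e
  · exact h
  · exact (cont_FlY Real.pi).comp h fun x hx => hx.1.1

theorem maps_sht (e c : Bool) : MapsTo (sht P e c) (Pm P) (Sg P) := by
  intro x hx
  have h := Hh_sh P c hx.2
  cases e
  · exact ⟨hx.1.1, h, hx.1.2.1⟩
  · refine ⟨Fl_mem _ hx.1.1, ?_, ?_⟩
    · rw [← h]
      exact congrArg (· + (sh P c x).2 ^ 2) (mm_Fl P _ hx.1.1)
    · change (pl (Fl Real.pi x)).im = 0
      rw [pl_Fl _ hx.1.1, ex_pi, neg_one_mul, neg_im, hx.1.2.1, neg_zero]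

theorem sht_x0 (e c : Bool) : sht P e c x0 = b0 := by
  cases e
  · exact sh_x0 P c
  · change FlY Real.pi (sh P c x0) = b0
    rw [sh_x0]
    exact Prod.ext (Fl_fix _ x0_Pg.1 pl_x0) rfl

/-- a loop of the page lifted to a sheet -/
def lp (e c : Bool) (γ : Path x0 x0) (h : In γ (Pm P)) : Path b0 b0 where
  toFun t := sht P e c (γ t)
  continuous_toFun := (cont_sht P e c).comp_continuous γ.continuous h
  source' := by simp [sht_x0]
  target' := by simp [sht_x0]

theorem rad_sq (t : ℝ) :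
    ‖((√(max 0 (P.ε * Real.cos t)) : ℝ) : ℂ)‖ ^ 2 = max 0 (P.ε * Real.cos t) := by
  rw [norm_real, Real.norm_eq_abs, sq_abs, Real.sq_sqrt (le_max_left _ _)]

theorem rad_le (t : ℝ) : max 0 (P.ε * Real.cos t) ≤ 1 / 125 := by
  have := P.ε_pos
  have := P.ε_lt
  have := Real.cos_le_one t
  exact max_le (by norm_num) (by nlinarith)

theorem rad_lt (t : ℝ) : ‖((√(max 0 (P.ε * Real.cos t)) : ℝ) : ℂ)‖ < 1 := by
  have h := rad_sq P t
  have := rad_le P t
  nlinarith [norm_nonneg ((√(max 0 (P.ε * Real.cos t)) : ℝ) : ℂ)]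

theorem mm_low {t : ℝ} (h : 0 ≤ Real.cos t) : mm P (low P t) = 6 := by
  have h1 : pc (low P t) = _ := pc_ch (norm_ex t) (rad_lt P t)
  have h2 : al (low P t) = _ := al_ch (norm_ex t) (rad_lt P t)
  have h3 : near 1 (low P t) := (near_ch (norm_ex t) (rad_lt P t)).2 (rad_lt P t)
  rw [mm_near P h3 (by rw [h1, rad_sq]; exact rad_le P t), h1, h2, rad_sq, ex_re,
    max_eq_right (mul_nonneg P.ε_pos.le h)]
  ring

theorem pl_low {t : ℝ} (h : Real.cos t ≤ 0) : pl (low P t) = 0 := by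
  have h1 : pl (low P t) = _ := pl_ch (norm_ex t) (rad_lt P t)
  rw [h1, max_eq_left (mul_nonpos_of_nonneg_of_nonpos P.ε_pos.le h), Real.sqrt_zero, ofReal_zero,
    zero_div]

variable {Γ : Type} [Group Γ] (μ : Tr YY Γ)

/-- on the binding the flow does nothing -/
theorem left_eq (c : Bool) (hc : Continuous (low P)) :
    pb (sht P true c) μ _ _ (seg (low P) hc (Real.pi / 2) (Real.pi + Real.pi / 2)) =
      pb (sht P false c) μ _ _ (seg (low P) hc (Real.pi / 2) (Real.pi + Real.pi / 2)) := by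
  refine pb_congr (A := {x | x ∈ N3 ∧ pl x = 0}) μ (fun x hx => ?_) _ _ _ (in_seg hc fun t ht => ?_)
  · exact Prod.ext (Fl_fix _ hx.1 hx.2) rfl
  · rw [uIcc_of_le (by linarith [Real.pi_pos])] at ht
    exact ⟨(low_mem P t).1.1, pl_low P (Real.cos_nonpos_of_pi_div_two_le_of_le ht.1 ht.2)⟩

/-- on the free arc the two sheets meet -/
theorem right_eq (e : Bool) (hc : Continuous (low P)) :
    pb (sht P e true) μ _ _ (seg (low P) hc (Real.pi + Real.pi / 2) (Real.pi / 2 + 2 * Real.pi)) =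
      pb (sht P e false) μ _ _
        (seg (low P) hc (Real.pi + Real.pi / 2) (Real.pi / 2 + 2 * Real.pi)) := by
  refine pb_congr (A := {x | mm P x = 6}) μ (fun x hx => ?_) _ _ _ (in_seg hc fun t ht => ?_)
  · have : sh P true x = sh P false x := by
      simp only [sh, show mm P x = 6 from hx, sub_self, Real.sqrt_zero, mul_zero]
    simp only [sht, this]
  · rw [uIcc_of_le (by linarith [Real.pi_pos])] at ht
    refine mm_low P ?_
    rw [← Real.cos_sub_two_pi]
    exact Real.cos_nonneg_of_mem_Icc ⟨by linarith [ht.1], by linarith [ht.2]⟩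

theorem ev_rel {Y : Type} [TopologicalSpace Y] {y : Y} (ν : Tr Y Γ)
    (L : Fin 4 × Bool → Path y y) {a0 b0 a1 b1 a2 b2 a3 b3 : Γ}
    (h0 : ν y y (L (0, false)) = a0) (k0 : ν y y (L (0, true)) = b0)
    (h1 : ν y y (L (1, false)) = a1) (k1 : ν y y (L (1, true)) = b1)
    (h2 : ν y y (L (2, false)) = a2) (k2 : ν y y (L (2, true)) = b2)
    (h3 : ν y y (L (3, false)) = a3) (k3 : ν y y (L (3, true)) = b3) :
    ev ν L (rel 4) = a0 * b0 * a0⁻¹ * b0⁻¹ * (b1 * a1 * b1⁻¹ * a1⁻¹)⁻¹ *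
      (a2 * b2 * a2⁻¹ * b2⁻¹) * (b3 * a3 * b3⁻¹ * a3⁻¹)⁻¹ := by
  have e : rel 4 = FreeGroup.of (0, false) * FreeGroup.of (0, true) * (FreeGroup.of (0, false))⁻¹ *
      (FreeGroup.of (0, true))⁻¹ * (FreeGroup.of (1, false) * FreeGroup.of (1, true) *
      (FreeGroup.of (1, false))⁻¹ * (FreeGroup.of (1, true))⁻¹) * (FreeGroup.of (2, false) *
      FreeGroup.of (2, true) * (FreeGroup.of (2, false))⁻¹ * (FreeGroup.of (2, true))⁻¹) *
      (FreeGroup.of (3, false) * FreeGroup.of (3, true) * (FreeGroup.of (3, false))⁻¹ *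
      (FreeGroup.of (3, true))⁻¹) := by decide +kernel
  simp only [e, ev, map_mul, map_inv, FreeGroup.lift_apply_of, h0, k0, h1, k1, h2, k2, h3, k3]
  group

variable {P} in
theorem rel_one {lt : Tr C2 F2} {l : Fin 2 → Path x0 x0} (h : PgOut P lt l)
    {L : Fin 4 × Bool → Path b0 b0} (hL : IsL P l L) (hμ : Hol (Sg P) μ) : ev μ L (rel 4) = 1 := by
  have H : ∀ e c, Hol (Pm P) (pb (sht P e c) μ) := fun e c =>
    hol_pb hμ (cont_sht P e c) (maps_sht P e c)
  have Z : ∀ e c, _ = _ := fun e c => (h.rel (cont_low P) Γ _ (H e c)).trans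
    ((H e c).seg_mul (cont_low P) convex_univ (fun t _ => low_mem P t) trivial
      (mem_univ (Real.pi + Real.pi / 2)) trivial)
  rw [ev_rel μ L
    (pb_eq (f := sht P false true) (l 0) _ fun t => (hL t).1).symm
    (pb_eq (f := sht P false true) (l 1) _ fun t => (hL t).2.1).symm
    (pb_eq (f := sht P false false) (l 1) _ fun t => (hL t).2.2.1).symm
    (pb_eq (f := sht P false false) (l 0) _ fun t => (hL t).2.2.2.1).symm
    (pb_eq (f := sht P true false) (l 0) _ fun t => (hL t).2.2.2.2.2.2.2).symm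
    (pb_eq (f := sht P true false) (l 1) _ fun t => (hL t).2.2.2.2.2.2.1).symm
    (pb_eq (f := sht P true true) (l 1) _ fun t => (hL t).2.2.2.2.2.1).symm
    (pb_eq (f := sht P true true) (l 0) _ fun t => (hL t).2.2.2.2.1).symm,
    Z, Z, Z, Z, left_eq, left_eq, right_eq, right_eq]
  group

end rl

theorem rel : RelStmt := fun P _ l h =>
  have hL : IsL P l fun a => rl.lp P (decide (2 ≤ a.1)) (decide (a.1 = 0 ∨ a.1 = 3))
      (l (if (a.1 = 1 ∨ a.1 = 3) = (a.2 = true) then 0 else 1)) (h.inn _) :=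
    fun _ => ⟨rfl, rfl, rfl, rfl, rfl, rfl, rfl, rfl⟩
  ⟨_, hL, fun _ t => rl.maps_sht P _ _ (h.inn _ t), fun _ _ μ hμ => rl.rel_one μ h hL hμ⟩

end Pool.Agent.MP_7ebdba_gt.sm.p
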