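import Pool.Agent.MP_7ebdba_gt.ch.Main
import Pool.Agent.MP_7ebdba_gt.sm.m.Smo
import Pool.Agent.MP_7ebdba_gt.sm.p.NoCh
import Pool.Agent.MP_7ebdba_gt.Base
import Pool.Agent.MP_7ebdba_gt.sm.p.Bridge
import Pool.Agent.MP_7ebdba_gt.sm.p.Fin

-- ======== part 0: formerly Pool.Agent.MP_7ebdba_gt.sm.Trans
section MrgPart0

/-! Row TRANS: the reglued model is a trisection. -/

open scoped ContDiff Topology
open Set Filter

namespace Pool.Agent.MP_7ebdba_gt.sm

theorem Sm.neg' {f : E 5 → ℝ} (h : Sm f) : Sm (-f) := fun x => (h x).neg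

/-- with Morse data on the six pieces only the core has to be connected -/
theorem tri_of_mo {A B : E 5 → ℝ} (sA : Sm A) (sB : Sm B)
    (t1 : ∀ x : S4, A x = 0 → ∃ v, Tangent [] x v ∧ fderiv ℝ A x v ≠ 0)
    (t2 : ∀ x : S4, A x ≤ 0 → B x = 0 → ∃ v, Tangent [] x v ∧ fderiv ℝ B x v ≠ 0)
    (con : IsConnected {x : S4 | A x = 0 ∧ B x = 0}) {g : ℕ} :
    (Mo 3 [A] [-B] g → Handlebody 3 [A] [-B] g) ∧ (Mo 3 [B] [A] g → Handlebody 3 [B] [A] g) ∧
    (Mo 3 [A] [B] g → Handlebody 3 [A] [B] g) ∧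
    (∀ k, Handlebody 3 [A] [-B] g → Handlebody 3 [A] [B] g → Mo 4 [] [-A] k →
      Handlebody 4 [] [-A] k) ∧
    (∀ k, Handlebody 3 [A] [-B] g → Handlebody 3 [B] [A] g → Mo 4 [] [A, -B] k →
      Handlebody 4 [] [A, -B] k) ∧
    (∀ k, Handlebody 3 [A] [B] g → Handlebody 3 [B] [A] g → Mo 4 [] [A, B] k →
      Handlebody 4 [] [A, B] k) := by
  obtain ⟨x₀, hx₀⟩ := con.nonempty
  have o : ∀ {f : E 5 → ℝ}, Sm f → ∀ e ∈ [f], Sm e := fun h e he => by
    rwa [List.mem_singleton.1 he]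
  have o2 : ∀ {f f' : E 5 → ℝ}, Sm f → Sm f' → ∀ e ∈ [f, f'], Sm e := fun h h' e he => by
    rcases List.mem_pair.1 he with rfl | rfl <;> assumption
  refine ⟨fun ⟨k, C0, C1, m⟩ => ⟨conn_of_bd (by norm_num) (o sA) (o sB.neg') (fun x hx => ?_) m con
      ?_ ?_, k, C0, C1, m⟩,
    fun ⟨k, C0, C1, m⟩ => ⟨conn_of_bd (by norm_num) (o sB) (o sA) (fun x hx => ?_) m con
      ?_ ?_, k, C0, C1, m⟩,
    fun ⟨k, C0, C1, m⟩ => ⟨conn_of_bd (by norm_num) (o sA) (o sB) (fun x hx => ?_) m con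
      ?_ ?_, k, C0, C1, m⟩,
    fun _ a b ⟨k, C0, C1, m⟩ => ⟨conn_of_bd (by norm_num) (by simp) (o sA.neg')
      (fun x _ => curves_nil x) m (a.1.union ⟨x₀, ?_⟩ b.1) ?_ ?_, k, C0, C1, m⟩,
    fun _ a b ⟨k, C0, C1, m⟩ => ⟨conn_of_bd (by norm_num) (by simp) (o2 sA sB.neg')
      (fun x _ => curves_nil x) m (a.1.union ⟨x₀, ?_⟩ b.1) ?_ ?_, k, C0, C1, m⟩,
    fun _ a b ⟨k, C0, C1, m⟩ => ⟨conn_of_bd (by norm_num) (by simp) (o2 sA sB)
      (fun x _ => curves_nil x) m (a.1.union ⟨x₀, ?_⟩ b.1) ?_ ?_, k, C0, C1, m⟩⟩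
  · exact curves_one sA (hx.1 A (by simp)) (t1 x (hx.1 A (by simp)))
  · intro x hx; simp [Piece, hx.1, hx.2]
  · intro x hx; simp [Piece] at hx ⊢; exact fun h => ⟨hx.1, h⟩
  · exact curves_one sB (hx.1 B (by simp)) (t2 x (hx.2 A (by simp)) (hx.1 B (by simp)))
  · intro x hx; simp [Piece, hx.1, hx.2]
  · intro x hx; simp [Piece] at hx ⊢; exact fun h => ⟨h, hx.1⟩
  · exact curves_one sA (hx.1 A (by simp)) (t1 x (hx.1 A (by simp)))
  · intro x hx; simp [Piece, hx.1, hx.2]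
  · intro x hx; simp [Piece] at hx ⊢; exact fun h => ⟨hx.1, h⟩
  · simp [Piece, hx₀.1, hx₀.2]
  · rintro x (hx | hx) <;> simp [Piece] at hx ⊢ <;> exact hx.1.ge
  · intro x hx; simp [Piece] at hx ⊢; exact fun h => by simp [h, le_total]
  · simp [Piece, hx₀.1, hx₀.2]
  · rintro x (hx | hx) <;> simp [Piece] at hx ⊢ <;> simp [hx.1, hx.2]
  · intro x hx; simp [Piece] at hx ⊢
    exact ⟨fun h => by simp [h, hx.2], fun h => by simp [h, hx.1]⟩
  · simp [Piece, hx₀.1, hx₀.2]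
  · rintro x (hx | hx) <;> simp [Piece] at hx ⊢ <;> simp [hx.1, hx.2]
  · intro x hx; simp [Piece] at hx ⊢
    exact ⟨fun h => by simp [h, hx.2], fun h => by simp [h, hx.1]⟩

variable {W V : Set S4} {e1 e2 : S4 → S4} {es es' cs cs' : List (E 5 → ℝ)}

/-- transfer of Morse data -/
theorem Glue.mo (h : Glue W V e1 e2) (hes : List.Forall₂ (Rel W V e1 e2) es es')
    (hcs : List.Forall₂ (Rel W V e1 e2) cs cs') {n g : ℕ} {k : E 5 → ℝ} {C0 C1 : Finset S4}
    (hk : Compat W V e1 e2 k) (hm : Morse n es cs g k C0 C1)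
    (hC : ∀ x ∈ W, x ∈ V → x ∉ C0 ∧ x ∉ C1) : Mo n es' cs' g := by
  classical
  obtain ⟨m1, m2, m3, m4, m5⟩ := hm
  obtain ⟨k', r⟩ := h.exists_rel m1 hk
  have r1 : Rel1 W e1 k k' := ⟨r.s, r.s', r.r1⟩
  have r2 : Rel1 V e2 k k' := ⟨r.s, r.s', r.r2⟩
  let e : S4 → S4 := fun x => if x ∈ V then e2 x else e1 x
  have inj : Function.Injective e := by
    intro x y hxy
    by_cases hx : x ∈ V <;> by_cases hy : y ∈ V <;> simp only [e, hx, hy, if_true, if_false] at hxy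
    · exact h.i2 hx hy hxy
    · exact absurd (h.ov y ((h.cov y).resolve_right hy) x hx hxy.symm).1 hy
    · exact absurd (h.ov x ((h.cov x).resolve_right hx) y hy hxy).1 hx
    · exact h.i1 ((h.cov x).resolve_right hx) ((h.cov y).resolve_right hy) hxy
  have cr : ∀ (C : Finset S4) i,
      (∀ x ∈ C, x ∈ Piece es [] ∧ (∀ c ∈ cs, c x < 0) ∧ Crit n es k i x) → ∀ x ∈ C.image e,
      x ∈ Piece es' [] ∧ (∀ c ∈ cs', c x < 0) ∧ Crit n es' k' i x := by
    intro C i hh y hy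
    obtain ⟨x, hx, rfl⟩ := Finset.mem_image.1 hy
    by_cases hV : x ∈ V <;> simp only [e, hV, if_true, if_false]
    · exact crit1 h.oV hV (h.l2 x hV) (Glue.f2 hes) (Glue.f2 hcs) r2 (hh x hx)
    · have hW := (h.cov x).resolve_right hV
      exact crit1 h.oW hW (h.l1 x hW) (Glue.f1 hes) (Glue.f1 hcs) r1 (hh x hx)
  refine ⟨k', C0.image e, C1.image e, r.s', ?_, cr C0 0 m3, cr C1 1 m4, fun y hy n0 n1 => ?_⟩
  · rwa [Finset.card_image_of_injective _ inj, Finset.card_image_of_injective _ inj]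
  rcases h.sur y with ⟨x, hx, rfl⟩ | ⟨x, hx, rfl⟩
  · refine out1 h.oW hx (h.l1 x hx) (Glue.f1 hes) (Glue.f1 hcs) r1
      (m5 x ((piece_iff (Glue.f1 hes) (Glue.f1 hcs) hx).1 hy) (fun a => ?_) fun a => ?_)
    · have hV : x ∉ V := fun b => (hC x hx b).1 a
      exact n0 (Finset.mem_image.2 ⟨x, a, if_neg hV⟩)
    · have hV : x ∉ V := fun b => (hC x hx b).2 a
      exact n1 (Finset.mem_image.2 ⟨x, a, if_neg hV⟩)
  · exact out1 h.oV hx (h.l2 x hx) (Glue.f2 hes) (Glue.f2 hcs) r2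
      (m5 x ((piece_iff (Glue.f2 hes) (Glue.f2 hcs) hx).1 hy)
        (fun a => n0 (Finset.mem_image.2 ⟨x, a, if_pos hx⟩))
        fun a => n1 (Finset.mem_image.2 ⟨x, a, if_pos hx⟩))

theorem trans : TransStmt := by
  intro Θ e1 e2 A B r M
  have h := r.glue
  have cp : ∀ {f}, Inv f → Compat WW VV e1 e2 f := fun hf x hx y hy e =>
    hf x ⟨(h.ov x hx y hy e).1, hx⟩ y ⟨hy, (h.ov x hx y hy e).2⟩ (r.ovl x hx y hy e).1
      (r.ovl x hx y hy e).2.1
  have far : ∀ x ∈ closure WW, A x < 0 := fun x hx => by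
    have : A x ≤ -1 := closure_minimal M.far (isClosed_le M.sA.cont continuous_const) hx
    linarith
  obtain ⟨A', a⟩ := h.exists_rel M.sA (cp M.iA)
  obtain ⟨B', b⟩ := h.exists_rel M.sB (cp M.iB)
  have o : ∀ {φ φ'}, Rel WW VV e1 e2 φ φ' → List.Forall₂ (Rel WW VV e1 e2) [φ] [φ'] := fun r =>
    .cons r .nil
  have mo' : ∀ {n es es' cs cs' g}, List.Forall₂ (Rel WW VV e1 e2) es es' →
      List.Forall₂ (Rel WW VV e1 e2) cs cs' → MoI n es cs g → Mo n es' cs' g :=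
    fun hes hcs ⟨_, _, _, m, k, C⟩ => h.mo hes hcs (cp k) m fun x a b => C x ⟨b, a⟩
  have t1 := h.trans .nil a (p' := fun y => A' y = 0) (fun x hx c => a.r1 x hx ▸ c)
    (fun x hx c => a.r2 x hx ▸ c) M.t1
  have t2 := h.trans .nil b (p := fun y => A y ≤ 0 ∧ B y = 0) (p' := fun y => A' y ≤ 0 ∧ B' y = 0)
    (fun x hx c => ⟨a.r1 x hx ▸ c.1, b.r1 x hx ▸ c.2⟩)
    (fun x hx c => ⟨a.r2 x hx ▸ c.1, b.r2 x hx ▸ c.2⟩) fun x c => M.t2 x c.1 c.2
  have t3 := h.trans (o a) b (p := fun y => A y = 0 ∧ B y = 0) (p' := fun y => A' y = 0 ∧ B' y = 0)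
    (fun x hx c => ⟨a.r1 x hx ▸ c.1, b.r1 x hx ▸ c.2⟩)
    (fun x hx c => ⟨a.r2 x hx ▸ c.1, b.r2 x hx ▸ c.2⟩) fun x c => M.t3 x c.1 c.2
  have nW : ∀ x : S4, A x = 0 → x ∉ WW := fun x hx hW => (far x (subset_closure hW)).ne hx
  have con : IsConnected {x : S4 | A' x = 0 ∧ B' x = 0} :=
    h.conn (P := {x : S4 | A x = 0 ∧ B x = 0})
      (fun x hx => by simp only [mem_ofPred_eq, a.r1 x hx, b.r1 x hx])
      (fun x hx => by simp only [mem_ofPred_eq, a.r2 x hx, b.r2 x hx])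
      ⟨by rw [inter_eq_left.2 fun x hx => (h.cov x).resolve_left (nW x hx.1)]; exact M.con,
        fun x hx => (nW x hx.1.1 hx.2).elim⟩
  obtain ⟨u0, -, u2, u3, -, -⟩ := tri_of_mo M.sA M.sB M.t1 M.t2 M.con (g := 4)
  obtain ⟨-, v1, -, -, v4, v5⟩ := tri_of_mo a.s' b.s' t1 (fun x c d => t2 x ⟨c, d⟩) con (g := 4)
  have w0 := h.hb_far (o a) (o b.neg) (u0 M.h0)
    (disjoint_left.2 fun x hx hW => (far x hW).ne (hx.1 A (by simp)))
  have w2 := h.hb_far (o a) (o b) (u2 M.h2)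
    (disjoint_left.2 fun x hx hW => (far x hW).ne (hx.1 A (by simp)))
  have w1 := v1 (mo' (o b) (o a) M.h1)
  refine ⟨A', B', a.s', b.s', fun i => ?_, t1, fun x c d => t2 x ⟨c, d⟩, fun x c d => t3 x ⟨c, d⟩,
    h.hb_far .nil (o a.neg) (u3 _ (u0 M.h0) (u2 M.h2) M.x0) (disjoint_left.2 fun x hx hW => ?_),
    v4 _ w0 w1 (mo' .nil (.cons a (o b.neg)) M.x1), v5 _ w2 w1 (mo' .nil (.cons a (o b)) M.x2),
    w0, w1, w2⟩
  · ext y
    simp only [reglue, tri, mem_ofPred_eq]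
    constructor
    · rintro (⟨x, hx, rfl⟩ | ⟨x, hx, rfl⟩)
      · rw [a.r1 x hx.2, b.r1 x hx.2]; exact hx.1
      · rw [a.r2 x hx.2, b.r2 x hx.2]; exact hx.1
    · intro hy
      rcases h.sur y with ⟨x, hx, rfl⟩ | ⟨x, hx, rfl⟩
      · rw [a.r1 x hx, b.r1 x hx] at hy; exact Or.inl ⟨x, ⟨hy, hx⟩, rfl⟩
      · rw [a.r2 x hx, b.r2 x hx] at hy; exact Or.inr ⟨x, ⟨hy, hx⟩, rfl⟩
  · have := hx.2 (-A) (by simp)
    have := far x hW
    simp only [Pi.neg_apply] at *
    linarith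

end Pool.Agent.MP_7ebdba_gt.sm

end MrgPart0

-- ======== part 1: formerly Pool.Agent.MP_7ebdba_gt.sm.n.Stab
section MrgPart1

/-! Block NEG: a marked decomposition is not standard (from the rows). -/

open Set Monoid

namespace Pool.Agent.MP_7ebdba_gt.sm.n

open MP_e1dc65_gt

section gen
variable {K K' α : Type} [Group K] [Group K']

/-- pull-back by a continuous map -/
def pm {c : S4 → S4} (hc : Continuous c) (τ : ∀ x y : S4, Path x y → K) (x y : S4) (γ : Path x y) :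
    K := τ _ _ (γ.map hc)

theorem hol_pm {c : S4 → S4} (hc : Continuous c) {τ : ∀ x y : S4, Path x y → K} {S T : Set S4}
    (h : Hol T τ) (hm : MapsTo c S T) : Hol S (pm hc τ) :=
  Pull.hol (f := c) (fun _ _ _ _ _ _ _ e => tau_congr τ fun t => (e t).symm) h hc.continuousOn hm

theorem ev_map {x y : S4} {μ : ∀ x y : S4, Path x y → K} {ν : ∀ x y : S4, Path x y → K'}
    {L : α → Path x x} {L' : α → Path y y} (φ : K →* K')
    (h : ∀ a, φ (μ x x (L a)) = ν y y (L' a)) (w : FreeGroup α) : φ (ev μ L w) = ev ν L' w := by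
  have : φ.comp (ev μ L) = ev ν L' := by
    ext a
    simpa [ev] using h a
  exact DFunLike.congr_fun this w

theorem ev_comm {x : S4} {μ : ∀ x y : S4, Path x y → K} {L : α → Path x x}
    (h : ∀ a b, Commute (μ x x (L a)) (μ x x (L b))) (u v : FreeGroup α) :
    Commute (ev μ L u) (ev μ L v) := by
  have key : ∀ g : K, (∀ b, Commute g (μ x x (L b))) → ∀ v, Commute g (ev μ L v) := by
    intro g hg v
    induction v using FreeGroup.induction_on with
    | C1 => simp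
    | of b => simpa [ev] using hg b
    | inv_of b hb => rw [map_inv]; exact hb.inv_right
    | mul a b ha hb => rw [map_mul]; exact ha.mul_right hb
  exact key _ (fun b => (key _ (h b) u).symm) v

theorem conj_comm {k m n : K} (h : Commute (k * m * k⁻¹) (k * n * k⁻¹)) : m * n = n * m :=
  calc m * n = k⁻¹ * (k * m * k⁻¹ * (k * n * k⁻¹)) * k := by group
    _ = n * m := by rw [h.eq]; group

/-- change of gauge that kills the holonomy on a simply connected subset -/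
theorem normalise {W O : Set S4} {ρ : ∀ x y : S4, Path x y → K} (h : Hol W ρ) (hO : SC O)
    (hs : O ⊆ W) : ∃ ρ' : ∀ x y : S4, Path x y → K, Hol W ρ' ∧
      (∀ x y γ, In γ O → ρ' x y γ = 1) ∧
      ∀ (x : S4) (L : α → Path x x) (w : FreeGroup α), ev ρ' L w = 1 → ev ρ L w = 1 := by
  obtain ⟨s, hs⟩ := h.triv_of_sc hO hs
  refine ⟨_, h.gauge fun x => (s x)⁻¹, fun x y γ hγ => ?_, fun x L w hw => ?_⟩
  · rw [hs x y γ hγ]; group
  · rw [← ev_map (μ := ρ) (L := L) (MulAut.conj (s x)).toMonoidHom (fun a => by simp) w] at hw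
    simpa using (MulAut.conj (s x)).map_eq_one_iff.1 hw

end gen

theorem core_sub (X : Fin 3 → Set S4) (j : Fin 3) : core X ⊆ wall X j := fun _ h => ⟨h _, h _⟩

section side
variable {X Z : Fin 3 → Set S4} {f : OpenPartialHomeomorph S4 S4} {V B B' : Set S4} {p : S4}
  {c : S4 → S4}

theorem Side.ne (hs : Side X Z f V p B B' c) {x : S4} (hx : x ∉ B') : x ≠ p :=
  fun e => hx (e ▸ hs.pB)

theorem Side.open (hs : Side X Z f V p B B' c) : IsOpen (f '' B'ᶜ) :=
  f.isOpen_image_of_subset_source hs.cB.isOpen_compl fun _ hx => hs.src ▸ hs.ne hx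

theorem Side.img (hs : Side X Z f V p B B' c) : f '' B'ᶜ ⊆ f.target := by
  rintro _ ⟨x, hx, rfl⟩
  exact f.map_source (hs.src ▸ hs.ne hx)

theorem Side.near (hs : Side X Z f V p B B' c) {z : S4} (hz : z ∈ f.target) :
    z ∈ f '' B'ᶜ ∨ z ∈ V := by
  have h1 : f.symm z ≠ p := by simpa [hs.src] using f.map_target hz
  by_cases h : f.symm z ∈ B'
  · exact Or.inr (f.right_inv hz ▸ (hs.ovl _ h1).2 (hs.sub h))
  · exact Or.inl ⟨_, h, f.right_inv hz⟩

theorem Side.core (hs : Side X Z f V p B B' c) : MapsTo c (core Z) (core X) :=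
  fun _ hz i => hs.cmem i _ (hz i)

/-- a holonomy on a wall of the sum that is trivial on the neck extends over the wall of a side -/
theorem Side.half (hs : Side X Z f V p B B' c) (hg : GlueStmt) {j : Fin 3} {K : Type} [Group K]
    {ρ : ∀ x y : S4, Path x y → K} (hρ : Hol (wall Z j) ρ)
    (h1 : ∀ x y γ, In γ (wall Z j ∩ (f.target ∩ V)) → ρ x y γ = 1) :
    ∃ α : ∀ x y : S4, Path x y → K, Hol (wall X j) α ∧
      (∀ x y γ, In γ (wall X j ∩ B) → α x y γ = 1) ∧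
      ∀ x y γ, In γ (wall Z j ∩ f '' B'ᶜ) → pm hs.cont α x y γ = ρ x y γ := by
  have hf : ContinuousOn f (wall X j ∩ {p}ᶜ) :=
    f.continuousOn.mono fun x hx => hs.src ▸ hx.2
  have hm : MapsTo f (wall X j ∩ {p}ᶜ) (wall Z j) := fun x hx =>
    ⟨(hs.mem _ x hx.2).2 hx.1.1, (hs.mem _ x hx.2).2 hx.1.2⟩
  have hp := pullT_pull f hf ρ
  obtain ⟨α, hα, e1, e2⟩ := hg K (wall X j) {p}ᶜ B (pullT f hf ρ) (fun _ _ _ => 1)
    isOpen_compl_singleton hs.oB
    (fun x _ => by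
      by_cases h : x = p
      · exact Or.inr (h ▸ hs.sub hs.pB)
      · exact Or.inl h)
    (hp.hol hρ hf hm) (hol_one _) fun x y γ hγ => by
      rw [hp.eq hf fun t => (hγ t).1]
      exact h1 _ _ _ fun t => ⟨hm (hγ t).1, f.map_source (hs.src ▸ (hγ t).1.2),
        (hs.ovl _ (hγ t).1.2).2 (hγ t).2⟩
  refine ⟨α, hα, e2, fun x y γ hγ => ?_⟩
  have h2 : ∀ t, c (γ t) ≠ p ∧ γ t = f (c (γ t)) := fun t => by
    obtain ⟨u, hu, e⟩ := (hγ t).2
    rw [← e, hs.inv u hu]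
    exact ⟨hs.ne hu, rfl⟩
  have h3 : In (γ.map hs.cont) (wall X j ∩ {p}ᶜ) := fun t =>
    ⟨⟨hs.cmem _ _ (hγ t).1.1, hs.cmem _ _ (hγ t).1.2⟩, (h2 t).1⟩
  rw [pm, e1 _ _ _ h3]
  exact hp _ _ _ h3 _ _ γ fun t => (h2 t).2

end side

theorem hol_pi {K : Fin 3 → Type} [∀ i, Group (K i)] {T : Set S4}
    {α : ∀ i, ∀ x y : S4, Path x y → K i} (h : ∀ i, Hol T (α i)) :
    Hol T fun x y γ i => α i x y γ :=
  ⟨fun x y z γ δ h1 h2 => funext fun i => (h i).mul x y z γ δ h1 h2,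
    fun x y γ δ h1 => funext fun i => (h i).hom x y γ δ h1⟩

/-- the projection of a free product of two copies onto one of them -/
def pr (M : Type) [Group M] (b : Bool) : CoprodI (fun _ : Bool => M) →* M :=
  CoprodI.lift fun b' => if b' = b then MonoidHom.id M else 1

theorem pr_same {M : Type} [Group M] (b : Bool) (m : M) :
    pr M b (CoprodI.of (M := fun _ : Bool => M) (i := b) m) = m := by simp [pr]

theorem pr_ne {M : Type} [Group M] {b b' : Bool} (h : b' ≠ b) (m : M) :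
    pr M b (CoprodI.of (M := fun _ : Bool => M) (i := b') m) = 1 := by simp [pr, h]

/-- the inductive step -/
theorem stab (hg : GlueStmt) (hS : SideStmt) {X Y Z : Fin 3 → Set S4} {T : Tri 4}
    (hC : ConnSum X Y Z) (hM : Mark Z T) (hN : NoPinch T)
    (hY : ∀ (K : Type) [Group K] (τ : ∀ x y : S4, Path x y → K), Hol (core Y) τ →
      ∀ (x : S4) (γ δ : Path x x), In γ (core Y) → In δ (core Y) → Commute (τ x x γ) (τ x x δ)) :
    Mark X T ∨ ∀ i g h, g * h * g⁻¹ * h⁻¹ ∈ T i := by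
  obtain ⟨f, h, p, q, B, B', C, C', c, d, hU, s0, s1, hO⟩ := hS X Y Z hC
  obtain ⟨x, L, hL, hR, hW⟩ := hM
  choose j K inst ρ₀ hρ₀ hk₀ using hW
  choose ρ hρ h1 hk₁ using fun i =>
    normalise (α := Fin 4 × Bool) (hρ₀ i) (hO (j i)) inter_subset_left
  have hk : ∀ i w, ev (ρ i) L w = 1 → mk 4 w ∈ T i := fun i w hw => hk₀ i w (hk₁ i x L w hw)
  choose α hα α1 α2 using fun i => s0.half hg (hρ i) (h1 i)
  choose β hβ β1 β2 using fun i => s1.half hg (hρ i) fun x y γ hγ =>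
    h1 i x y γ fun t => ⟨(hγ t).1, (hγ t).2.2, (hγ t).2.1⟩
  let M := ∀ i, K i
  let A : ∀ x y : S4, Path x y → M := fun x y γ i => α i x y γ
  let D : ∀ x y : S4, Path x y → M := fun x y γ i => β i x y γ
  have hA : Hol (core X) A := hol_pi fun i => (hα i).mono (core_sub X _)
  have hD : Hol (core Y) D := hol_pi fun i => (hβ i).mono (core_sub Y _)
  have hA' := hol_pm s0.cont hA s0.core
  have hD' := hol_pm s1.cont hD s1.core
  have A1 : ∀ x y γ, In γ (core Z ∩ h.target) → pm s0.cont A x y γ = 1 := fun x y γ hγ =>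
    funext fun i => α1 i _ _ _ fun t => ⟨core_sub X _ (s0.core (hγ t).1), s0.col _ (hγ t).2⟩
  have D1 : ∀ x y γ, In γ (core Z ∩ f.target) → pm s1.cont D x y γ = 1 := fun x y γ hγ =>
    funext fun i => β1 i _ _ _ fun t => ⟨core_sub Y _ (s1.core (hγ t).1), s1.col _ (hγ t).2⟩
  obtain ⟨ν, hν, e0, e1⟩ := hg (CoprodI fun _ : Bool => M) (core Z) f.target h.target
    (fun x y γ => CoprodI.of (i := false) (pm s0.cont A x y γ))
    (fun x y γ => CoprodI.of (i := true) (pm s1.cont D x y γ)) f.open_target h.open_target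
    (hU ▸ subset_univ _) ((hA'.mono inter_subset_left).map _) ((hD'.mono inter_subset_left).map _)
    fun x y γ hγ => by
      rw [A1 x y γ fun t => ⟨(hγ t).1.1, (hγ t).2⟩, D1 x y γ fun t => (hγ t).1, map_one, map_one]
  have cov : ∀ z, z ∈ f.target ∨ z ∈ h.target := fun z => (hU ▸ mem_univ z : z ∈ _ ∪ _)
  have pA : ∀ a, pr M false (ν x x (L a)) = A _ _ ((L a).map s0.cont) := fun a =>
    (hν.map (pr M false)).ext_of_local hA' (fun z _ => by
      rcases cov z with hz | hz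
      · exact ⟨_, f.open_target.mem_nhds hz, fun a b γ hγ => by rw [e0 _ _ _ hγ, pr_same]⟩
      · exact ⟨_, h.open_target.mem_nhds hz, fun a b γ hγ => by
          rw [e1 _ _ _ hγ, pr_ne (by decide), A1 _ _ _ hγ]⟩) (hL a)
  have pD : ∀ a, pr M true (ν x x (L a)) = D _ _ ((L a).map s1.cont) := fun a =>
    (hν.map (pr M true)).ext_of_local hD' (fun z _ => by
      rcases cov z with hz | hz
      · exact ⟨_, f.open_target.mem_nhds hz, fun a b γ hγ => by
          rw [e0 _ _ _ hγ, pr_ne (by decide), D1 _ _ _ hγ]⟩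
      · exact ⟨_, h.open_target.mem_nhds hz, fun a b γ hγ => by rw [e1 _ _ _ hγ, pr_same]⟩) (hL a)
  let φ : ∀ i, CoprodI (fun _ : Bool => M) →* K i := fun i =>
    CoprodI.lift fun _ => Pi.evalMonoidHom K i
  have φof : ∀ i b (m : M), φ i (CoprodI.of (i := b) m) = m i := fun i b m => CoprodI.lift_of _ _
  have pφ : ∀ i a, φ i (ν x x (L a)) = ρ i x x (L a) := fun i a =>
    (hν.map (φ i)).ext_of_local ((hρ i).mono (core_sub Z _)) (fun z _ => by
      have both : z ∈ f.target → z ∈ h.target → ∃ V ∈ nhds z, ∀ a b (γ : Path a b),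
          In γ (core Z ∩ V) → φ i (ν a b γ) = ρ i a b γ := fun z0 z1 =>
        ⟨_, (f.open_target.inter h.open_target).mem_nhds ⟨z0, z1⟩, fun a b γ hγ => by
          rw [e0 _ _ _ fun t => ⟨(hγ t).1, (hγ t).2.1⟩, A1 _ _ _ fun t => ⟨(hγ t).1, (hγ t).2.2⟩,
            map_one, map_one, h1 i _ _ _ fun t => ⟨core_sub Z _ (hγ t).1, (hγ t).2⟩]⟩
      rcases cov z with hz | hz
      · rcases s0.near hz with h2 | h2
        · exact ⟨_, s0.open.mem_nhds h2, fun a b γ hγ => by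
            rw [e0 _ _ _ fun t => ⟨(hγ t).1, s0.img (hγ t).2⟩, φof]
            exact α2 i _ _ _ fun t => ⟨core_sub Z _ (hγ t).1, (hγ t).2⟩⟩
        · exact both hz h2
      · rcases s1.near hz with h2 | h2
        · exact ⟨_, s1.open.mem_nhds h2, fun a b γ hγ => by
            rw [e1 _ _ _ fun t => ⟨(hγ t).1, s1.img (hγ t).2⟩, φof]
            exact β2 i _ _ _ fun t => ⟨core_sub Z _ (hγ t).1, (hγ t).2⟩⟩
        · exact both h2 hz) (hL a)
  let η := desc (ev ν L) (hR _ ν hν)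
  have hker : ∀ i, η.ker ≤ T i := fun i g hg => by
    obtain ⟨w, rfl⟩ := mk_surjective 4 g
    refine hk i w ?_
    rw [← ev_map (φ i) (pφ i) w, show ev ν L w = 1 from hg, map_one]
  obtain ⟨b, w₀, hw⟩ := hN _ η hker
  cases b
  · refine Or.inl ⟨c x, fun a => (L a).map s0.cont, fun a t => s0.core (hL a t),
      fun K' _ μ hμ => hR K' _ (hol_pm s0.cont hμ s0.core), fun i => ⟨j i, K i, inst i, α i, hα i,
        fun w hw' => hk i w ?_⟩⟩
    obtain ⟨m, hm⟩ := hw (mk 4 w)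
    rw [desc_mk] at hm
    have h2 := ev_map (pr M false) pA w
    have h3 := ev_map (μ := A) (ν := α i) (L := fun a => (L a).map s0.cont)
      (Pi.evalMonoidHom K i) (fun _ => rfl) w
    rw [hw', ← h2, hm] at h3
    simp only [map_mul, pr_same] at h3
    rw [map_inv, map_inv, mul_inv_eq_one, mul_eq_left] at h3
    rw [← ev_map (φ i) (pφ i) w, hm, map_mul, map_mul, φof, show m i = 1 from h3, mul_one,
      map_inv, mul_inv_cancel]
  · refine Or.inr fun i g g' => hker i ?_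
    obtain ⟨u, rfl⟩ := mk_surjective 4 g
    obtain ⟨v, rfl⟩ := mk_surjective 4 g'
    obtain ⟨m, hm⟩ := hw (mk 4 u)
    obtain ⟨n, hn⟩ := hw (mk 4 v)
    have h2 := ev_comm (μ := D) (L := fun a => (L a).map s1.cont) (fun a b =>
      hY M D hD _ _ _ (fun t => s1.core (hL a t)) fun t => s1.core (hL b t)) u v
    rw [← ev_map (pr M true) pD u, ← ev_map (pr M true) pD v, ← desc_mk _ (hR _ ν hν),
      ← desc_mk _ (hR _ ν hν), hm, hn] at h2
    simp only [map_mul, map_inv, pr_same] at h2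
    have h3 : m * n = n * m := conj_comm h2
    rw [MonoidHom.mem_ker]
    simp only [map_mul, map_inv, hm, hn]
    have h4 : (CoprodI.of (M := fun _ : Bool => M) (i := true) m) * CoprodI.of (i := true) n =
        CoprodI.of (i := true) n * CoprodI.of (i := true) m := by
      rw [← map_mul, h3, map_mul]
    calc _ = w₀ * ((CoprodI.of (M := fun _ : Bool => M) (i := true) m) * CoprodI.of (i := true) n *
          (CoprodI.of (i := true) n * CoprodI.of (i := true) m)⁻¹) * w₀⁻¹ := by group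
      _ = 1 := by rw [h4]; group

theorem core_perm (X : Fin 3 → Set S4) (σ : Equiv.Perm (Fin 3)) :
    core (fun i => X (σ i)) = core X :=
  Set.ext fun _ => ⟨fun h i => σ.apply_symm_apply i ▸ h (σ.symm i), fun h _ => h _⟩

theorem wall_perm (X : Fin 3 → Set S4) (σ : Equiv.Perm (Fin 3)) (j : Fin 3) :
    ∃ k, wall X k = X (σ j) ∩ X (σ (j + 1)) := by
  have h1 : ∀ a b : Fin 3, a ≠ b → ∃ k, a = k ∧ b = k + 1 ∨ a = k + 1 ∧ b = k := by decide
  have h2 : ∀ a : Fin 3, a ≠ a + 1 := by decide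
  obtain ⟨k, ⟨a, b⟩ | ⟨a, b⟩⟩ := h1 _ _ (σ.injective.ne (h2 j))
  · exact ⟨k, by rw [a, b]⟩
  · exact ⟨k, by rw [a, b, inter_comm]⟩

theorem equiv {X : Fin 3 → Set S4} {T : Tri 4} (f : S4 ≃ₜ S4) (σ : Equiv.Perm (Fin 3))
    (hM : Mark (fun i => f '' X (σ i)) T) : Mark X T := by
  obtain ⟨x, L, hL, hR, hW⟩ := hM
  have hc : MapsTo f.symm (core fun i => f '' X (σ i)) (core X) := fun z hz i => by
    obtain ⟨u, hu, rfl⟩ := hz (σ.symm i)
    simpa using hu
  refine ⟨f.symm x, fun a => (L a).map f.symm.continuous, fun a t => hc (hL a t),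
    fun K _ μ hμ => hR K _ (hol_pm f.symm.continuous hμ hc), fun i => ?_⟩
  obtain ⟨j, K, inst, ρ, hρ, hk⟩ := hW i
  obtain ⟨k, e⟩ := wall_perm X σ j
  refine ⟨k, K, inst, pm f.continuous ρ, hol_pm f.continuous hρ fun z hz => ?_, fun w hw => hk w ?_⟩
  · have : z ∈ X (σ j) ∩ X (σ (j + 1)) := e ▸ hz
    exact ⟨mem_image_of_mem _ this.1, mem_image_of_mem _ this.2⟩
  · rw [← hw]
    exact ev_map (MonoidHom.id K) (fun a => tau_congr ρ fun t => by simp) w

theorem neg_of (hg : GlueStmt) (hS : SideStmt) (hT : TorusStmt) (hZ : ZeroStmt) : NegStmt := by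
  rintro X T hM hN ⟨i, g, h, hi⟩ hX
  induction hX with
  | zero =>
    obtain ⟨x, L, hL, -, hW⟩ := hM
    obtain ⟨j, K, inst, ρ, hρ, hk⟩ := hW i
    obtain ⟨w, hw⟩ := mk_surjective 4 (g * h * g⁻¹ * h⁻¹)
    refine hi (hw ▸ hk w ?_)
    exact (ev_map (μ := ρ) (L := L) (1 : K →* K) (fun a =>
      ((hZ j K ρ hρ).loop ((hL a).mono (core_sub _ j))).symm) w).symm
  | equiv f σ _ ih => exact ih (equiv f σ hM)
  | stab σ _ hC ih =>
    rcases stab hg hS hC hM hN (by rw [core_perm]; exact hT) with h1 | h1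
    · exact ih h1
    · exact hi (h1 i g h)

end Pool.Agent.MP_7ebdba_gt.sm.n

end MrgPart1

-- ======== part 2: formerly Pool.Agent.MP_7ebdba_gt.sm.g.Lam
section MrgPart2

/-! The correction of the page angle on `WW`. -/

open scoped ContDiff Topology ComplexConjugate
open Set Complex Filter

noncomputable section

namespace Pool.Agent.MP_7ebdba_gt.sm

namespace Lam

def ff (y : V3) : ℂ := ka y.1

theorem dd_ne {u : ℂ} (h : u ≠ 1) : au u ≠ 0 := by
  intro e
  have e1 : (normSq u * conj u : ℂ) = 1 := sub_eq_zero.1 e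
  have e2 : ‖u‖ ^ 3 = 1 := by
    have := congrArg norm e1
    rw [norm_mul, norm_real, norm_conj, norm_one, normSq_eq_norm_sq, Real.norm_of_nonneg
      (by positivity)] at this
    rw [← this]
    ring
  have e3 : ‖u‖ = 1 := (pow_eq_one_iff_of_nonneg (norm_nonneg u) (by norm_num)).1 e2
  rw [normSq_eq_norm_sq, e3] at e1
  exact h (by simpa using congrArg conj e1)

theorem norm_ff {y : V3} (h0 : y.1 ≠ 0) (h1 : y.1 ≠ 1) : ‖ff y‖ = 1 := by
  simp [ff, ka, norm_ph h0, norm_ph (dd_ne h1)]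

theorem ff_ne {y : V3} (h0 : y.1 ≠ 0) (h1 : y.1 ≠ 1) : ff y ≠ 0 :=
  norm_ne_zero_iff.1 (by simp [norm_ff h0 h1])

theorem cd_ff {y : V3} (h0 : y.1 ≠ 0) (h1 : y.1 ≠ 1) : ContDiffAt ℝ ∞ ff y :=
  ((cda_ph (a := fun y : V3 => au y.1) (by unfold au; fun_prop) (dd_ne h1)).pow 3).mul
    ((cda_ph contDiffAt_fst h0).pow 4)

theorem cd_nq : ContDiff ℝ ∞ nq := (cd_normSq.comp contDiff_fst).add (contDiff_snd.pow 2)

/-- the shell on which both strands are fixed -/
def shell : Set V3 := {y | 5 / 2 < nq y ∧ nq y < 14 / 5}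

theorem isOpen_shell : IsOpen shell :=
  (isOpen_lt continuous_const cd_nq.continuous).inter (isOpen_lt cd_nq.continuous continuous_const)

variable {Θ : Equiv.Perm V3}

theorem near (h : Adm Θ) {y : V3} (hy : y ∈ shell) (hs : y.1 = 0 ∨ y.1 = 1) :
    ∀ᶠ y' in 𝓝 y, Θ y' = y' := by
  obtain ⟨δ, h0, h1⟩ := h.fix
  rcases hs with hs | hs
  · filter_upwards [isOpen_shell.mem_nhds hy,
      (continuous_fst.norm.continuousAt (x := y)).eventually_lt continuousAt_const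
      (by simpa [hs] using h0 : ‖y.1‖ < δ)] with y' a b
    exact h1 y' a.1 (Or.inr ⟨b, a.2⟩)
  · filter_upwards [isOpen_shell.mem_nhds hy,
      ((continuous_fst.sub continuous_const).norm.continuousAt (x := y)).eventually_lt
      continuousAt_const (by simpa [hs] using h0 : ‖y.1 - 1‖ < δ)] with y' a b
    exact h1 y' a.1 (Or.inl b)

theorem off (h : Adm Θ) {y : V3} (hy : y ∈ shell) (h0 : y.1 ≠ 0) (h1 : y.1 ≠ 1) :
    (Θ y).1 ≠ 0 ∧ (Θ y).1 ≠ 1 := by
  have hy' : Θ y ∈ shell := by simpa only [shell, mem_ofPred_eq, h.lv] using hy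
  constructor <;> intro e
  · exact h0 (Θ.injective (near h hy' (Or.inl e)).self_of_nhds ▸ e)
  · exact h1 (Θ.injective (near h hy' (Or.inr e)).self_of_nhds ▸ e)

open Classical in
/-- the change of the page angle -/
def rat (Θ : V3 → V3) (y : V3) : ℂ := if Θ y = y then 1 else ff y / ff (Θ y)

theorem rat_off {Θ : V3 → V3} {y : V3} (h0 : y.1 ≠ 0) (h1 : y.1 ≠ 1) :
    rat Θ y = ff y / ff (Θ y) := by
  unfold rat
  split_ifs with h
  · rw [h, div_self (ff_ne h0 h1)]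
  · rfl

theorem rat_near (h : Adm Θ) {y : V3} (hy : y ∈ shell) (hs : y.1 = 0 ∨ y.1 = 1) :
    ∀ᶠ y' in 𝓝 y, rat Θ y' = 1 := (near h hy hs).mono fun _ a => if_pos a

theorem rat_cd (h : Adm Θ) {y : V3} (hy : y ∈ shell) : ContDiffAt ℝ ∞ (rat Θ) y := by
  by_cases hs : y.1 = 0 ∨ y.1 = 1
  · exact contDiffAt_const.congr_of_eventuallyEq (rat_near h hy hs)
  · push Not at hs
    obtain ⟨a, b⟩ := off h hy hs.1 hs.2
    refine (cda_div (cd_ff hs.1 hs.2) ((cd_ff a b).comp y (h.smo y hy.1).1)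
      (ff_ne a b)).congr_of_eventuallyEq ?_
    filter_upwards [continuousAt_fst.eventually_ne hs.1, continuousAt_fst.eventually_ne hs.2]
      with y' c d
    exact rat_off c d

theorem rat_norm (h : Adm Θ) {y : V3} (hy : y ∈ shell) : ‖rat Θ y‖ = 1 := by
  by_cases hs : y.1 = 0 ∨ y.1 = 1
  · rw [(rat_near h hy hs).self_of_nhds, norm_one]
  · push Not at hs
    obtain ⟨a, b⟩ := off h hy hs.1 hs.2
    rw [rat_off hs.1 hs.2, norm_div, norm_ff a b, norm_ff hs.1 hs.2, div_one]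

theorem rat_mul (h : Adm Θ) {y : V3} (hy : y ∈ shell) : rat Θ y * ff (Θ y) = ff y := by
  by_cases hs : y.1 = 0 ∨ y.1 = 1
  · rw [(rat_near h hy hs).self_of_nhds, (near h hy hs).self_of_nhds, one_mul]
  · push Not at hs
    obtain ⟨a, b⟩ := off h hy hs.1 hs.2
    rw [rat_off hs.1 hs.2, div_mul_cancel₀ _ (ff_ne a b)]

theorem vlift (hL : LiftStmt) (h : Adm Θ) : ∃ v : V3 → ℝ, ∀ y ∈ shell, exp (v y * I) = rat Θ y ∧
    ContDiffAt ℝ ∞ v y ∧ (y.1 = 0 → ∀ᶠ y' in 𝓝 y, v y' = v y) := by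
  obtain ⟨v, hv⟩ := hL (rat Θ) fun y a b => ⟨rat_cd h ⟨a, b⟩, rat_norm h ⟨a, b⟩⟩
  exact ⟨v, fun y hy => ⟨(hv y hy.1 hy.2).2.1, (hv y hy.1 hy.2).1,
    fun h0 => (hv y hy.1 hy.2).2.2 (rat_near h hy (Or.inl h0))⟩⟩

theorem ca_qq' {x : S4} (h : pp x ≠ 0) : ContinuousAt qq (x : E 5) :=
  ((ca_uf h).comp (f := fun y : E 5 => (zc y, wc y))
    (cd_zc.prodMk cd_wc).continuous.continuousAt).prodMk
    (cda_tt contDiffAt_id (sc_lt' h)).continuousAt

theorem cd_qq {x : S4} (h : pp x ≠ 0) (hz : zc x ≠ 0) : ContDiffAt ℝ ∞ qq (x : E 5) :=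
  (cda_uf cd_zc.contDiffAt cd_wc.contDiffAt hz h).prodMk (cda_tt contDiffAt_id (sc_lt' h))

theorem exists_lam (hL : LiftStmt) (h : Adm Θ) : ∃ (L : S4 ≃ S4) (a : S4 → ℂ),
    (∀ x, ‖a x‖ = 1 ∧ (L x : E 5) = act (a x) x ∧ (L.symm x : E 5) = act (a x)⁻¹ x ∧
      a (L x) = a x) ∧ (∀ x ∈ WW, LD L x) ∧
    ∀ x ∈ VV ∩ WW, a x ^ 6 * ff (Θ.symm (qq x)) = ff (qq x) ∧
      (Θ.symm (qq x) = qq x → a x ^ 6 = 1) := by
  classical
  obtain ⟨v, hv⟩ := vlift hL h.inv
  let α : E 5 → ℝ := fun x => Real.smoothTransition (20 * lev x - 51) * v (qq x) / 6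
  let a : S4 → ℂ := fun x => if x ∈ WW then exp (α x * I) else 1
  have n1 : ∀ x, ‖a x‖ = 1 := fun x => by
    simp only [a]
    split_ifs
    · exact norm_exp_ofReal_mul_I _
    · exact norm_one
  have n0 : ∀ {c : ℂ}, ‖c‖ = 1 → c ≠ 0 := fun h => norm_ne_zero_iff.1 (by simp [h])
  have mW : ∀ {c : ℂ} (hc : ‖c‖ = 1) (x : S4), (⟨act c x, act_mem hc x⟩ : S4) ∈ WW ↔ x ∈ WW :=
    fun hc x => by simp [WW, Below, pp_act, lev_act (n0 hc), n0 hc]
  have inv : ∀ {c : ℂ} (hc : ‖c‖ = 1) (x : S4), a ⟨act c x, act_mem hc x⟩ = a x := fun hc x => by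
    simp only [a, mW hc, α, lev_act (n0 hc), qq_act (n0 hc)]
  have n2 : ∀ x, ‖(a x)⁻¹‖ = 1 := fun x => by simp [n1]
  let L : S4 ≃ S4 :=
    { toFun := fun x => ⟨act (a x) x, act_mem (n1 x) x⟩
      invFun := fun x => ⟨act (a x)⁻¹ x, act_mem (n2 x) x⟩
      left_inv := fun x => Subtype.ext (by
        simp only [inv (n1 x), act_act, inv_mul_cancel₀ (n0 (n1 x)), act_one])
      right_inv := fun x => Subtype.ext (by
        simp only [inv (n2 x), act_act, mul_inv_cancel₀ (n0 (n1 x)), act_one]) }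
  have sα : ∀ x ∈ WW, ContDiffAt ℝ ∞ α (x : E 5) := by
    intro x hx
    have sl := cd_lev hx.1
    by_cases hl : 5 / 2 < lev x
    · have hs : qq x ∈ shell := ⟨by rwa [nq_qq], by rw [nq_qq]; exact hx.2⟩
      refine ((Real.smoothTransition.contDiff.contDiffAt.comp _
        ((contDiffAt_const.mul sl).sub contDiffAt_const)).mul ?_).div_const _
      by_cases hz : zc x = 0
      · exact contDiffAt_const.congr_of_eventuallyEq
          ((ca_qq' hx.1).eventually ((hv _ hs).2.2 (by simp [qq, uf, hz])))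
      · exact (hv _ hs).2.1.comp _ (cd_qq hx.1 hz)
    · refine (contDiffAt_const (c := 0)).congr_of_eventuallyEq ?_
      filter_upwards [sl.continuousAt.eventually_lt_const (u := 51 / 20) (by linarith)] with y hy
      simp only [α]
      rw [Real.smoothTransition.zero_of_nonpos (by linarith), zero_mul, zero_div]
  have sa : ∀ x ∈ WW, ContDiffAt ℝ ∞ (fun y => exp (α y * I)) (x : E 5) := fun x hx =>
    cda_cexp ((cda_ofReal (sα x hx)).mul contDiffAt_const)
  refine ⟨L, a, fun x => ⟨n1 x, rfl, rfl, inv (n1 x) x⟩, fun x hx => LD.of_equiv L ⟨?_, ?_⟩,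
    fun x hx => ?_⟩
  · refine ⟨_, cda_act (sa x hx) contDiffAt_id, ?_⟩
    filter_upwards [isOpen_WW.mem_nhds hx] with y hy
    change act (a y) y = _
    simp only [a, if_pos hy, id]
  · have hx' : L x ∈ WW := (mW (n1 x) x).2 hx
    refine ⟨_, cda_act ((sa _ hx').inv (exp_ne_zero _)) contDiffAt_id, ?_⟩
    filter_upwards [isOpen_WW.mem_nhds hx'] with y hy
    change act (a y)⁻¹ y = _
    simp only [a, if_pos hy, id, Pi.inv_apply]
  · obtain ⟨-, h2, h3⟩ := mem_shell.1 hx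
    have hs : qq x ∈ shell := ⟨by rw [nq_qq]; linarith, by rwa [nq_qq]⟩
    have e : a x ^ 6 = rat (Θ⁻¹ : Equiv.Perm V3) (qq x) := by
      simp only [a, if_pos hx.2, α]
      rw [Real.smoothTransition.one_of_one_le (by linarith), ← (hv _ hs).1, ← exp_nat_mul]
      congr 1
      push_cast
      ring
    rw [e]
    exact ⟨rat_mul h.inv hs, fun b => if_pos b⟩

end Lam

theorem lam_of (hL : LiftStmt) : LamStmt := by
  intro Θ h
  obtain ⟨L, a, h1, h2, h3⟩ := Lam.exists_lam hL h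
  have n0 : ∀ x, a x ≠ 0 := fun x => norm_ne_zero_iff.1 (by simp [(h1 x).1])
  have e : ∀ x, ph (pp (L x)) = a x ^ 6 * ph (pp x) := fun x => by
    rw [(h1 x).2.1, pp_act, ph_mul, ph_pow, ph_unit (h1 x).1]
  refine ⟨L, h2, fun x => ?_, fun x hx => ⟨fun b => ?_, fun _ => ?_⟩⟩
  · rw [(h1 x).2.1, pp_act, lev_act (n0 x), qq_act (n0 x)]
    simp [n0 x]
  · rw [e, (h3 x hx).2 (Θ.symm_apply_eq.2 b.symm), one_mul]
  · rw [e, mul_right_comm]
    exact congrArg (· * _) (h3 x hx).1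

end Pool.Agent.MP_7ebdba_gt.sm

end
end MrgPart2

-- ======== part 3: formerly Pool.Agent.MP_7ebdba_gt.sm.p.PageB
section MrgPart3

/-! Block P, row PAGE B: holonomy on the Milnor fibre. -/

open scoped Topology ComplexConjugate
open Set Filter Complex

noncomputable section

namespace Pool.Agent.MP_7ebdba_gt.sm.p

open MP_e1dc65_gt Shape PA

namespace PB

theorem im_neg {t : ℝ} : (cv t).2.im < 0 ↔ Real.sin (3 * t) < 0 := by
  obtain ⟨r, hr, e⟩ := cv_im t
  rw [e]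
  exact ⟨fun h => neg_of_mul_neg_right h hr.le, mul_neg_of_pos_of_neg hr⟩

theorem im_zero {t : ℝ} (h : (cv t).2.im = 0) : Real.sin (3 * t) = 0 := by
  obtain ⟨r, hr, e⟩ := cv_im t
  exact (mul_eq_zero.1 (e.symm.trans h)).resolve_left hr.ne'

theorem base_neg : (cv (Real.pi / 2)).2.im < 0 := by
  rw [im_neg, show 3 * (Real.pi / 2) = Real.pi / 2 + Real.pi by ring, Real.sin_add_pi,
    Real.sin_pi_div_two]
  norm_num

/-- the index of the wall crossed at time `n π / 3` -/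
def ix (n : ℕ) : Fin 3 := ⟨n % 3, Nat.mod_lt _ (by norm_num)⟩

theorem cv_NM (n : ℕ) : cv (n * (Real.pi / 3)) ∈ NM (ix n) := by
  obtain ⟨r, hr, e⟩ := cv_fst (n * (Real.pi / 3))
  have e1 : ex (2 * (n * (Real.pi / 3))) = om ^ (n % 3) := by
    rw [← pow_eq_pow_mod n om_cube, om, ex_pow]
    congr 1
    ring
  have e2 : cj (ix n) * (cv (n * (Real.pi / 3))).1 = r := by
    rw [e, e1, cj, conj_om, inv_pow, mul_left_comm]
    exact (congrArg _ (inv_mul_cancel₀ (pow_ne_zero _ om_ne))).trans (mul_one _)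
  rw [mem_NM, e2, Sec, norm_real, ofReal_re, Real.norm_of_nonneg (by linarith)]
  linarith

theorem sin_shift (n : ℕ) (s : ℝ) :
    Real.sin (3 * (n * (Real.pi / 3) + s)) = (-1) ^ n * Real.sin (3 * s) := by
  rw [← Real.sin_add_nat_mul_pi]
  congr 1
  ring

variable {lm : Tr C2 F2}

/-- the holonomy of an arc of the boundary curve -/
def W (lm : Tr C2 F2) (a b : ℝ) : F2 := lm _ _ (seg cv cont_cv a b)

theorem W_mul (h : WM lm) (a b c : ℝ) : W lm a c = W lm a b * W lm b c :=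
  h.hol.seg_mul cont_cv convex_univ (fun t _ => cv_mem t) trivial trivial trivial

theorem W_inv (h : WM lm) (a b : ℝ) : W lm b a = (W lm a b)⁻¹ :=
  eq_inv_of_mul_eq_one_right ((W_mul h a b a).symm.trans (h.hol.seg_self cont_cv (cv_mem a)))

theorem cross (h : WM lm) (n : ℕ) :
    W lm (n * (Real.pi / 3) + -(Real.pi / 6)) (n * (Real.pi / 3) + Real.pi / 6) =
      if Even n then eM (ix n) else (eM (ix n))⁻¹ := by
  have hp := Real.pi_pos
  have par := Wall.par wdM h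
    (S := cv '' uIcc (n * (Real.pi / 3) + -(Real.pi / 6)) (n * (Real.pi / 3) + Real.pi / 6))
    (by rintro _ ⟨t, -, rfl⟩; exact cv_mem t) 1 (eM (ix n)) (by
      rintro j _ ⟨t, ht, rfl⟩ hj h0
      obtain ⟨s, rfl⟩ : ∃ s, t = n * (Real.pi / 3) + s := ⟨t - n * (Real.pi / 3), by ring⟩
      rw [uIcc_of_le (by linarith)] at ht
      have h1 := im_zero h0
      rw [sin_shift, mul_eq_zero, or_iff_right (pow_ne_zero _ (by norm_num)),
        Real.sin_eq_zero_iff_of_lt_of_lt (by linarith [ht.1]) (by linarith [ht.2])] at h1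
      obtain rfl : s = 0 := by linarith
      rw [add_zero] at hj
      rw [NM_dis hj (cv_NM n), one_mul])
  have s1 : Real.sin (3 * (Real.pi / 6)) = 1 := by
    rw [← Real.sin_pi_div_two]; congr 1; ring
  have s2 : Real.sin (3 * -(Real.pi / 6)) = -1 := by rw [mul_neg, Real.sin_neg, s1]
  rw [W, par.tau (in_seg cont_cv (mapsTo_image _ _))]
  simp only [im_neg, sin_shift, s1, s2]
  rcases n.even_or_odd with hn | hn
  · simp [hn.neg_one_pow, hn]
  · simp [hn.neg_one_pow, Nat.not_even_iff_odd.2 hn]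

theorem stp (h : WM lm) (n : ℕ) {a b : ℝ} (ha : a = (2 * n - 1) * (Real.pi / 6))
    (hb : b = (2 * n + 1) * (Real.pi / 6)) :
    W lm a b = if Even n then eM (ix n) else (eM (ix n))⁻¹ := by
  rw [← cross h n, ha, hb]
  congr 1 <;> ring

theorem loop (h : WM lm) (b : ℝ) (hb : Real.sin (3 * b) < 0) :
    ∃ γ : Path (cv (Real.pi / 2)) (cv (Real.pi / 2)),
      In γ (MM ∩ {x | ¬ near (1 / 10) x}) ∧ lm _ _ γ = W lm (Real.pi / 2) b := by
  obtain ⟨δ, hδ⟩ := pc_far.joinedIn _ ⟨⟨cv_mem b, im_neg.2 hb⟩, cv_far b⟩ _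
    ⟨⟨cv_mem _, base_neg⟩, cv_far (Real.pi / 2)⟩
  have i1 : In (seg cv cont_cv (Real.pi / 2) b) (MM ∩ {x | ¬ near (1 / 10) x}) :=
    fun t => ⟨cv_mem _, cv_far _⟩
  refine ⟨(seg cv cont_cv (Real.pi / 2) b).trans δ, i1.trans fun t => ⟨(hδ t).1.1, (hδ t).2⟩, ?_⟩
  rw [h.hol.mul _ _ _ _ _ (i1.mono inter_subset_left) fun t => (hδ t).1.1,
    h.neg.tau (γ := δ) fun t => (hδ t).1, inv_one, mul_one, mul_one, W]

theorem dl_eq (x : C2) : ac (ex (Real.pi / 3)) x = (om * x.1, -x.2) := by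
  rw [ac, ex_pow, ex_pow, om]
  push_cast
  rw [show 3 * (Real.pi / 3) = Real.pi by ring, ex_pi, neg_one_mul, mul_div_assoc]

theorem dl_NM {j : Fin 3} {x : C2} (h : x ∈ NM j) : ac (ex (Real.pi / 3)) x ∈ NM (j + 1) := by
  have e : cj (j + 1) * om = cj j := by
    have h3 := om_cube
    have h0 := om_ne
    fin_cases j <;> simp [cj, conj_om] <;> field_simp
    exact h3
  rw [mem_NM, dl_eq, ← mul_assoc, e]
  exact mem_NM.1 h

theorem deck (h : WM lm) :
    ∃ k, k (cv (Real.pi / 2)) = 1 ∧ Gau MM (mp mhat lm) (pb (ac (ex (Real.pi / 3))) lm) k := by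
  have hc : Continuous (ac (ex (Real.pi / 3))) := cont_ac.comp (Continuous.prodMk_right _)
  have hm : MapsTo (ac (ex (Real.pi / 3))) MM MM := fun x hx => by
    show pl _ = 1
    rw [pl_ac, ex_pow, show pl x = 1 from hx, mul_one, ← ex_two_pi]
    congr 1
    push_cast
    ring
  have h1 := Wall.mp h mhat
  have im : ∀ x, (ac (ex (Real.pi / 3)) x).2.im = -x.2.im := fun x => by rw [dl_eq, neg_im]
  let U : Bool ⊕ Fin 3 → Set C2 := fun i => match i with
    | .inl true => {x | 0 < x.2.im}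
    | .inl false => {x | x.2.im < 0}
    | .inr j => NM j
  let c : Bool ⊕ Fin 3 → C2 → F2 := fun i x => match i with
    | .inl true => gb⁻¹
    | .inl false => 1
    | .inr j => if x.2.im < 0 then 1 else if 0 < x.2.im then gb⁻¹ else (mhat (eM j))⁻¹
  have key : ∀ j, (mhat (eM j))⁻¹ * (eM (j + 1))⁻¹ = gb⁻¹ := fun j => by
    fin_cases j <;> simp [eM, mhat, ga, gb]
  obtain ⟨k, hk, e⟩ := gau_glue (U := U) (c := c) h1.hol (hol_pb h.hol hc.continuousOn hm)
    (by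
      rintro ((_ | _) | j)
      · exact isOpen_lt (by fun_prop) (by fun_prop)
      · exact isOpen_lt (by fun_prop) (by fun_prop)
      · exact open_NM j)
    (fun x hx => by
      rcases lt_trichotomy x.2.im 0 with l | l | l
      · exact ⟨.inl false, l⟩
      · exact (wdM.cov x hx l).elim fun j hj => ⟨.inr j, hj⟩
      · exact ⟨.inl true, l⟩)
    (by
      rintro ((_ | _) | j)
      · refine (gau_of_par h1.neg (par_pb h.pos hc.continuousOn fun x hx => ⟨hm hx.1, ?_⟩)).congr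
          fun x _ => by simp [c]
        simpa [im] using hx.2
      · refine (gau_of_par h1.pos ((par_pb h.neg hc.continuousOn
          fun x hx => ⟨hm hx.1, ?_⟩).const_mul gb⁻¹)).congr fun x _ => by simp [c]
        simpa [im] using hx.2
      · refine (gau_of_par (h1.mid j) ((par_pb (h.mid (j + 1)) hc.continuousOn
          fun x hx => ⟨hm hx.1, dl_NM hx.2⟩).const_mul (mhat (eM j))⁻¹)).congr fun x _ => ?_
        simp only [c, im, neg_lt_zero]
        rcases lt_trichotomy x.2.im 0 with l | l | l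
        · simp [l, l.not_gt]
        · simp [l]
        · simp [l, l.not_gt, key])
    (by
      rintro ((_ | _) | i) ((_ | _) | j) x - hi hj
      · rfl
      · exact absurd (show x.2.im < 0 from hi) (show 0 < x.2.im from hj).not_gt
      · simp [c, show x.2.im < 0 from hi]
      · exact absurd (show x.2.im < 0 from hj) (show 0 < x.2.im from hi).not_gt
      · rfl
      · simp [c, show 0 < x.2.im from hi, (show 0 < x.2.im from hi).not_gt]
      · simp [c, show x.2.im < 0 from hj]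
      · simp [c, show 0 < x.2.im from hj, (show 0 < x.2.im from hj).not_gt]
      · rw [NM_dis hi hj])
  exact ⟨k, e (.inl false) _ (cv_mem _) base_neg, hk⟩

end PB

open PB in
theorem pageB : PageAStmt → PageBStmt := by
  rintro ⟨d, a1, a2, -, a3⟩ hc lm h
  have w0 := stp h 0 (a := -(Real.pi / 6)) (b := Real.pi / 6) (by simp) (by simp)
  have w1 := stp h 1 (a := Real.pi / 6) (b := Real.pi / 2) (by ring) (by ring)
  have w2 := stp h 2 (a := Real.pi / 2) (b := Real.pi / 2 + Real.pi / 3) (by ring) (by ring)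
  have w3 := stp h 3 (a := Real.pi / 2 + Real.pi / 3) (b := 7 * (Real.pi / 6)) (by ring) (by ring)
  have w4 := stp h 4 (a := 7 * (Real.pi / 6)) (b := 9 * (Real.pi / 6)) (by ring) (by ring)
  have w5 := stp h 5 (a := 9 * (Real.pi / 6)) (b := 11 * (Real.pi / 6)) (by ring) (by ring)
  have w6 := stp h 6 (a := 11 * (Real.pi / 6)) (b := 13 * (Real.pi / 6)) (by ring) (by ring)
  have w7 := stp h 7 (a := 13 * (Real.pi / 6)) (b := Real.pi / 2 + 2 * Real.pi) (by ring) (by ring)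
  rw [if_pos (by decide)] at w0 w2 w4 w6
  rw [if_neg (by decide)] at w1 w3 w5 w7
  change _ = (1 : F2) at w0 w6
  change _ = gb⁻¹ at w1 w7
  change _ = ga at w2
  change _ = (1 : F2)⁻¹ at w3
  change _ = gb at w4
  change _ = ga⁻¹ at w5
  refine ⟨fun Γ _ τ hτ => ?_, fun i => ?_, w2, ?_, deck h⟩
  · obtain ⟨e, k, e0, k0, hw⟩ := d.univ hτ a1 a2 (fun j => (a3 j).1) (fun j => (a3 j).2.1)
      (fun j => (a3 j).2.2) 0 (cv_mem _) base_neg
    refine ⟨FreeGroup.lift ![e 2, e 1], _, ?_,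
      (Wall.gau d (Wall.mp h _) hw subset_rfl 1 1 fun j _ _ _ _ => ?_).trans
        (gau_gg MM k τ).symm⟩
    · simp [k0]
    · fin_cases j <;> simp [eM, ga, gb, e0]
  · fin_cases i
    · obtain ⟨γ, g1, g2⟩ := loop h (7 * (Real.pi / 6)) (by
        rw [show 3 * (7 * (Real.pi / 6)) = -(Real.pi / 2) + (2 : ℕ) * (2 * Real.pi) by ring,
          Real.sin_add_nat_mul_two_pi, Real.sin_neg, Real.sin_pi_div_two]
        norm_num)
      exact ⟨γ, g1, by rw [g2, W_mul h _ (Real.pi / 2 + Real.pi / 3), w2, w3, inv_one, mul_one]; rfl⟩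
    · obtain ⟨γ, g1, g2⟩ := loop h (-(Real.pi / 6)) (by
        rw [show 3 * -(Real.pi / 6) = -(Real.pi / 2) by ring, Real.sin_neg, Real.sin_pi_div_two]
        norm_num)
      exact ⟨γ, g1, by
        rw [g2, W_inv h, W_mul h _ (Real.pi / 6), w0, w1, one_mul, inv_inv]; rfl⟩
  · change W lm _ _ = _
    rw [W_mul h _ (Real.pi / 2 + Real.pi / 3),
      W_mul h (Real.pi / 2 + Real.pi / 3) (7 * (Real.pi / 6)),
      W_mul h (7 * (Real.pi / 6)) (9 * (Real.pi / 6)),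
      W_mul h (9 * (Real.pi / 6)) (11 * (Real.pi / 6)),
      W_mul h (11 * (Real.pi / 6)) (13 * (Real.pi / 6)), w2, w3, w4, w5, w6, w7]
    group

end Pool.Agent.MP_7ebdba_gt.sm.p

end
end MrgPart3

-- ======== part 4: formerly Pool.Agent.MP_7ebdba_gt.sm.p.Th
section MrgPart4

/-! Block P, row TH: the two smooth twists of the shell. -/

open scoped Topology ContDiff
open Set Complex

noncomputable section

namespace Pool.Agent.MP_7ebdba_gt.sm.p

namespace th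

variable {e : ℝ × ℝ}

theorem nq_eq (y : V3) : nq y = y.1.re ^ 2 + y.1.im ^ 2 + y.2 ^ 2 := by
  simp only [nq, normSq_apply]; ring

theorem nq_split (he : e.1 ^ 2 + e.2 ^ 2 = 1) (y : V3) :
    nq y = lam0 e y ^ 2 + mu0 e y ^ 2 + y.1.im ^ 2 := by
  rw [nq_eq, lam0, mu0]
  linear_combination (-(y.1.re ^ 2) - y.2 ^ 2) * he

theorem lam0_rot (he : e.1 ^ 2 + e.2 ^ 2 = 1) (φ : ℝ) (y : V3) :
    lam0 e (rot e φ y) = lam0 e y := by
  conv_lhs => rw [lam0]
  simp only [rot]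
  linear_combination (lam0 e y) * he

theorem mu0_rot (he : e.1 ^ 2 + e.2 ^ 2 = 1) (φ : ℝ) (y : V3) :
    mu0 e (rot e φ y) = mu0 e y * Real.cos φ - y.1.im * Real.sin φ := by
  conv_lhs => rw [mu0]
  simp only [rot]
  linear_combination (mu0 e y * Real.cos φ - y.1.im * Real.sin φ) * he

theorem im_rot (φ : ℝ) (y : V3) :
    (rot e φ y).1.im = mu0 e y * Real.sin φ + y.1.im * Real.cos φ := rfl

theorem nq_rot (he : e.1 ^ 2 + e.2 ^ 2 = 1) (φ : ℝ) (y : V3) : nq (rot e φ y) = nq y := by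
  rw [nq_split he, nq_split he y, lam0_rot he, mu0_rot he, im_rot]
  linear_combination (mu0 e y ^ 2 + y.1.im ^ 2) * Real.sin_sq_add_cos_sq φ

theorem lat_rot (he : e.1 ^ 2 + e.2 ^ 2 = 1) (φ : ℝ) (y : V3) :
    lat e (rot e φ y) = lat e y := by
  rw [lat, lat, lam0_rot he, nq_rot he]

theorem rot_rot (he : e.1 ^ 2 + e.2 ^ 2 = 1) (a b : ℝ) (y : V3) :
    rot e a (rot e b y) = rot e (a + b) y := by
  conv_lhs => rw [rot]
  rw [lam0_rot he, mu0_rot he, im_rot]
  conv_rhs => rw [rot]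
  rw [Real.cos_add, Real.sin_add]
  refine Prod.ext (Complex.ext ?_ ?_) ?_ <;> simp only <;> ring

theorem rot_triv (he : e.1 ^ 2 + e.2 ^ 2 = 1) {φ : ℝ} (hc : Real.cos φ = 1)
    (hs : Real.sin φ = 0) (y : V3) : rot e φ y = y := by
  rw [rot, hc, hs]
  refine Prod.ext (Complex.ext ?_ ?_) ?_ <;> simp only [lam0, mu0]
  · linear_combination y.1.re * he
  · ring
  · linear_combination y.2 * he

theorem rot_zero (he : e.1 ^ 2 + e.2 ^ 2 = 1) (y : V3) : rot e 0 y = y :=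
  rot_triv he Real.cos_zero Real.sin_zero y

theorem rot_neg_two_pi (he : e.1 ^ 2 + e.2 ^ 2 = 1) (y : V3) : rot e (-(2 * Real.pi)) y = y :=
  rot_triv he (by rw [Real.cos_neg, Real.cos_two_pi]) (by rw [Real.sin_neg, Real.sin_two_pi, neg_zero]) y

theorem sm_re : ContDiff ℝ ∞ fun y : V3 => y.1.re := reCLM.contDiff.comp contDiff_fst
theorem sm_im : ContDiff ℝ ∞ fun y : V3 => y.1.im := imCLM.contDiff.comp contDiff_fst

theorem sm_lam0 (e : ℝ × ℝ) : ContDiff ℝ ∞ (lam0 e) :=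
  (contDiff_const.mul sm_re).add (contDiff_const.mul contDiff_snd)

theorem sm_mu0 (e : ℝ × ℝ) : ContDiff ℝ ∞ (mu0 e) :=
  (contDiff_const.mul contDiff_snd).sub (contDiff_const.mul sm_re)

theorem sm_nq : ContDiff ℝ ∞ nq := by
  have : nq = fun y : V3 => y.1.re ^ 2 + y.1.im ^ 2 + y.2 ^ 2 := funext nq_eq
  rw [this]
  exact ((sm_re.pow 2).add (sm_im.pow 2)).add (contDiff_snd.pow 2)

theorem sm_lat (e : ℝ × ℝ) {y : V3} (h : 0 < nq y) : ContDiffAt ℝ ∞ (lat e) y :=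
  (sm_lam0 e).contDiffAt.div (sm_nq.contDiffAt.sqrt h.ne') (Real.sqrt_pos.2 h).ne'

theorem sm_rot (e : ℝ × ℝ) {A : V3 → ℝ} {y : V3} (h : ContDiffAt ℝ ∞ A y) :
    ContDiffAt ℝ ∞ (fun y => rot e (A y) y) y := by
  have h1 := ((sm_mu0 e).contDiffAt.mul h.cos).sub (sm_im.contDiffAt.mul h.sin)
  have h2 := ((sm_mu0 e).contDiffAt.mul h.sin).add (sm_im.contDiffAt.mul h.cos)
  have h3 := ((contDiffAt_const (c := e.1)).mul (sm_lam0 e).contDiffAt).sub
    ((contDiffAt_const (c := e.2)).mul h1)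
  have h4 := ((contDiffAt_const (c := e.2)).mul (sm_lam0 e).contDiffAt).add
    ((contDiffAt_const (c := e.1)).mul h1)
  exact (equivRealProdCLM.symm.contDiff.contDiffAt.comp y (h3.prodMk h2)).prodMk h4

/-- a smooth step from `0` below `c1` to `1` above `c2` -/
def st (c1 c2 s : ℝ) : ℝ := Real.smoothTransition ((s - c1) / (c2 - c1))

theorem sm_st (c1 c2 : ℝ) : ContDiff ℝ ∞ (st c1 c2) :=
  Real.smoothTransition.contDiff.comp ((contDiff_id.sub contDiff_const).div_const _)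

theorem st_lo {c1 c2 s : ℝ} (h : c1 < c2) (hs : s ≤ c1) : st c1 c2 s = 0 :=
  Real.smoothTransition.zero_of_nonpos (div_nonpos_of_nonpos_of_nonneg (by linarith) (by linarith))

theorem st_hi {c1 c2 s : ℝ} (h : c1 < c2) (hs : c2 ≤ s) : st c1 c2 s = 1 :=
  Real.smoothTransition.one_of_one_le ((one_le_div (by linarith)).2 (by linarith))

/-- the angle of the twist -/
def ag (e : ℝ × ℝ) (χ : ℝ → ℝ) (y : V3) : ℝ :=
  -(2 * Real.pi) * ((1 - st (14 / 5) 3 (nq y)) * χ (lat e y))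

theorem ag_rot (he : e.1 ^ 2 + e.2 ^ 2 = 1) (χ : ℝ → ℝ) (φ : ℝ) (y : V3) :
    ag e χ (rot e φ y) = ag e χ y := by
  rw [ag, ag, nq_rot he, lat_rot he]

theorem ag_lo (χ : ℝ → ℝ) {y : V3} (h : nq y < 14 / 5) :
    ag e χ y = -(2 * Real.pi) * χ (lat e y) := by
  rw [ag, st_lo (by norm_num) h.le]; ring

theorem sm_ag (e : ℝ × ℝ) {χ : ℝ → ℝ} (hχ : ContDiff ℝ ∞ χ) {y : V3} (h : 0 < nq y) :
    ContDiffAt ℝ ∞ (ag e χ) y :=
  contDiffAt_const.mul ((contDiffAt_const.sub ((sm_st _ _).comp sm_nq).contDiffAt).mul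
    (hχ.contDiffAt.comp y (sm_lat e h)))

/-- the twist -/
def tw (he : e.1 ^ 2 + e.2 ^ 2 = 1) (χ : ℝ → ℝ) : Equiv.Perm V3 where
  toFun y := rot e (ag e χ y) y
  invFun y := rot e (-ag e χ y) y
  left_inv y := by
    show rot e (-ag e χ (rot e _ y)) (rot e _ y) = y
    rw [ag_rot he, rot_rot he, neg_add_cancel, rot_zero he]
  right_inv y := by
    show rot e (ag e χ (rot e _ y)) (rot e _ y) = y
    rw [ag_rot he, rot_rot he, add_neg_cancel, rot_zero he]

theorem tw_apply (he : e.1 ^ 2 + e.2 ^ 2 = 1) (χ : ℝ → ℝ) (y : V3) :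
    tw he χ y = rot e (ag e χ y) y := rfl

theorem adm_tw (he : e.1 ^ 2 + e.2 ^ 2 = 1) {χ : ℝ → ℝ} (hχ : ContDiff ℝ ∞ χ)
    (h1 : ∀ y : V3, 5 / 2 < nq y → nq y < 3 → ‖y.1 - 1‖ < 1 / 10 → χ (lat e y) = 0)
    (h0 : ∀ y : V3, 5 / 2 < nq y → nq y < 3 → ‖y.1‖ < 1 / 10 →
      χ (lat e y) = 0 ∨ χ (lat e y) = 1) : Adm (tw he χ) := by
  have far : ∀ y, 3 ≤ nq y → tw he χ y = y := fun y h => by
    rw [tw_apply, ag, st_hi (by norm_num) h, sub_self, zero_mul, mul_zero, rot_zero he]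
  refine ⟨fun y => nq_rot he _ y, fun y h => ⟨?_, ?_⟩, far, 1 / 10, by norm_num, fun y h h' => ?_⟩
  · exact sm_rot e (sm_ag e hχ (by linarith))
  · exact sm_rot e (sm_ag e hχ (by linarith)).neg
  · rcases le_or_gt 3 (nq y) with h3 | h3
    · exact far y h3
    rcases h' with h' | ⟨h', h''⟩
    · rw [tw_apply, ag, h1 y h h3 h', mul_zero, mul_zero, rot_zero he]
    · rw [tw_apply, ag_lo χ h'']
      rcases h0 y h h3 h' with q | q
      · rw [q, mul_zero, rot_zero he]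
      · rw [q, mul_one, rot_neg_two_pi he]

/-! ### inequalities -/

theorem sq_bd {y : V3} (h : 5 / 2 < nq y) (h' : nq y < 3) : 3 / 2 < √(nq y) ∧ √(nq y) < 2 :=
  ⟨Real.lt_sqrt_of_sq_lt (by linarith), Real.sqrt_lt' (by norm_num) |>.2 (by linarith)⟩

theorem near_one {u : ℂ} (h : ‖u - 1‖ < 1 / 10) :
    9 / 10 < u.re ∧ u.re < 11 / 10 ∧ -(1 / 10) < u.im ∧ u.im < 1 / 10 := by
  have a := abs_lt.1 ((abs_re_le_norm (u - 1)).trans_lt h)
  have b := abs_lt.1 ((abs_im_le_norm (u - 1)).trans_lt h)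
  simp only [sub_re, one_re, sub_im, one_im, sub_zero] at a b
  exact ⟨by linarith [a.1], by linarith [a.2], b.1, b.2⟩

theorem near_zero {u : ℂ} (h : ‖u‖ < 1 / 10) :
    -(1 / 10) < u.re ∧ u.re < 1 / 10 ∧ -(1 / 10) < u.im ∧ u.im < 1 / 10 := by
  have a := abs_lt.1 ((abs_re_le_norm u).trans_lt h)
  have b := abs_lt.1 ((abs_im_le_norm u).trans_lt h)
  exact ⟨a.1, a.2, b.1, b.2⟩

theorem ea : ((1, 0) : ℝ × ℝ).1 ^ 2 + ((1, 0) : ℝ × ℝ).2 ^ 2 = 1 := by norm_num
theorem eb : ((3 / 5, 4 / 5) : ℝ × ℝ).1 ^ 2 + ((3 / 5, 4 / 5) : ℝ × ℝ).2 ^ 2 = 1 := by norm_num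

theorem adm_a : Adm (tw ea fun s => 1 - st (1 / 5) (2 / 5) s) := by
  refine adm_tw ea (contDiff_const.sub (sm_st _ _)) (fun y h h3 h' => ?_) fun y h h3 h' => Or.inr ?_
  · obtain ⟨p, q⟩ := sq_bd h h3
    obtain ⟨a, -⟩ := near_one h'
    rw [st_hi (by norm_num), sub_self]
    rw [lat, le_div_iff₀ (by linarith), lam0]
    simp only
    linarith
  · obtain ⟨p, q⟩ := sq_bd h h3
    obtain ⟨-, a, -⟩ := near_zero h'
    rw [st_lo (by norm_num), sub_zero]
    rw [lat, div_le_iff₀ (by linarith), lam0]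
    simp only
    linarith

theorem chi_neg {y : V3} (h : 5 / 2 < nq y) (h3 : nq y < 3) (hl : lam0 (3 / 5, 4 / 5) y ≤ 0) :
    st (1 / 5) (2 / 5) (lat (3 / 5, 4 / 5) y) - st (9 / 10) (19 / 20) (lat (3 / 5, 4 / 5) y) = 0 := by
  obtain ⟨p, -⟩ := sq_bd h h3
  have : lat (3 / 5, 4 / 5) y ≤ 0 := div_nonpos_of_nonpos_of_nonneg hl (by linarith)
  rw [st_lo (by norm_num) (by linarith), st_lo (by norm_num) (by linarith), sub_self]

theorem adm_b : Adm (tw eb fun s => st (1 / 5) (2 / 5) s - st (9 / 10) (19 / 20) s) := by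
  refine adm_tw eb ((sm_st _ _).sub (sm_st _ _)) (fun y h h3 h' => ?_) fun y h h3 h' => ?_
  · obtain ⟨p, q⟩ := sq_bd h h3
    obtain ⟨a, b, c, d⟩ := near_one h'
    have n := nq_eq y
    have t1 : 1 < y.2 ^ 2 := by nlinarith
    have t2 : y.2 ^ 2 < 9 / 4 := by nlinarith
    rcases le_or_gt y.2 0 with t | t
    · refine chi_neg h h3 ?_
      have : y.2 < -1 := by nlinarith
      rw [lam0]; simp only; linarith
    · have u1 : 1 < y.2 := by nlinarith
      have u2 : y.2 < 3 / 2 := by nlinarith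
      have s := nq_split eb y
      have m : mu0 (3 / 5, 4 / 5) y ^ 2 ≤ 1 / 10 := by
        rw [mu0]; simp only; nlinarith
      have l0 : 0 ≤ lam0 (3 / 5, 4 / 5) y := by rw [lam0]; simp only; linarith
      have i : y.1.im ^ 2 ≤ 1 / 100 := by nlinarith
      have : 19 / 20 ≤ lat (3 / 5, 4 / 5) y := by
        rw [lat, le_div_iff₀ (by linarith)]
        refine abs_le_of_sq_le_sq' ?_ l0 |>.2
        rw [mul_pow, Real.sq_sqrt (by linarith)]
        linarith
      rw [st_hi (by norm_num) (by linarith), st_hi (by norm_num) this, sub_self]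
  · obtain ⟨p, q⟩ := sq_bd h h3
    obtain ⟨a, b, c, d⟩ := near_zero h'
    have n := nq_eq y
    have t1 : 9 / 4 < y.2 ^ 2 := by nlinarith
    rcases le_or_gt y.2 0 with t | t
    · refine Or.inl (chi_neg h h3 ?_)
      have : y.2 < -1 := by nlinarith
      rw [lam0]; simp only; linarith
    · have u1 : 3 / 2 < y.2 := by nlinarith
      have u2 : y.2 ≤ √(nq y) := Real.le_sqrt_of_sq_le (by nlinarith)
      right
      rw [st_hi (by norm_num), st_lo (by norm_num), sub_zero]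
      · rw [lat, div_le_iff₀ (by linarith), lam0]; simp only; linarith
      · rw [lat, le_div_iff₀ (by linarith), lam0]; simp only; linarith

theorem tw_st (e : ℝ × ℝ) (σ : ℤ) {c1 c2 : ℝ} (h : c1 < c2) {f : V3 → V3}
    (hf : ∀ y ∈ Sh0, f y = rot e (σ * (2 * Real.pi) * st c1 c2 (lat e y)) y) : Tw e σ c1 c2 f :=
  ⟨fun s => σ * (2 * Real.pi) * st c1 c2 s, continuous_const.mul (sm_st _ _).continuous,
    fun s hs => by simp only [st_lo h hs, mul_zero],
    fun s hs => by simp only [st_hi h hs, mul_one], hf⟩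

end th

open th in
theorem th : ThStmt := by
  refine ⟨Adm.one, fun _ _ => Adm.mul, _, _,
    fun y => rot (3 / 5, 4 / 5) ((-1 : ℤ) * (2 * Real.pi) * st (1 / 5) (2 / 5) (lat (3 / 5, 4 / 5) y)) y,
    fun y => rot (3 / 5, 4 / 5) ((1 : ℤ) * (2 * Real.pi) * st (9 / 10) (19 / 20) (lat (3 / 5, 4 / 5) y)) y,
    adm_a, adm_b, tw_st _ _ (by norm_num) fun y hy => ?_, tw_st _ _ (by norm_num) fun y _ => rfl,
    tw_st _ _ (by norm_num) fun y _ => rfl, fun y hy => ?_⟩
  · rw [tw_apply, ag_lo _ hy.2]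
    conv_rhs => rw [← rot_neg_two_pi ea y, rot_rot ea, rot_neg_two_pi ea y]
    congr 1
    push_cast
    ring
  · rw [tw_apply, ag_lo _ hy.2]
    simp only [lat_rot eb, rot_rot eb]
    congr 1
    push_cast
    ring

end Pool.Agent.MP_7ebdba_gt.sm.p

end
end MrgPart4

-- marker of a merged file
example : 731051 + 757757 = 731051 + 757757 := rfl
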