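import Pool.Agent.MP_7ebdba_gt.sm.p.Fin

/-! Block P, row W23: the two walls in the boundary of the ball. -/

open scoped Topology ComplexConjugate
open Set Filter Complex

noncomputable section

namespace Pool.Agent.MP_7ebdba_gt.sm.p

open MP_e1dc65_gt

namespace w23

/-- the double of the page minus the half disc -/
def F0 (P : Prof) : Set YY := {y | y.1 ∈ Pg ∧ Hh P y = 6}

/-- a neighbourhood of the fold -/
def OO : Set YY := {y | near (1 / 10) y.1 ∧ al y.1 ≠ -1}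

/-- the two open sheets -/
def UU (c : Bool) : Set YY := {y | 0 < (if c then 1 else -1) * y.2} ∪ OO

/-- the two inclusions of the page group -/
def jj (c : Bool) : F2 →* F 2 :=
  FreeGroup.lift (if c then ![FreeGroup.of (0, false), FreeGroup.of (0, true)]
    else ![FreeGroup.of (1, true), FreeGroup.of (1, false)])

theorem open_OO : IsOpen OO := by
  have h1 : IsOpen ({x | near 1 x} ∩ al ⁻¹' {a | a ≠ -1}) :=
    cont_al.isOpen_inter_preimage (open_near 1) isOpen_ne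
  have h2 := ((open_near (1 / 10)).inter h1).preimage (continuous_fst (X := C2) (Y := ℝ))
  convert h2 using 1
  ext y
  exact ⟨fun h => ⟨h.1, h.1.mono (by norm_num), h.2⟩, fun h => ⟨h.1, h.2.2⟩⟩

theorem open_UU (c : Bool) : IsOpen (UU c) :=
  (isOpen_lt continuous_const (continuous_const.mul continuous_snd)).union open_OO

theorem mem_OO {P : Prof} {y : YY} (h : y ∈ F0 P) (h0 : y.2 = 0) : y ∈ OO := by
  have h6 : mm P y.1 = 6 := by
    have := h.2
    rw [Hh, h0] at this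
    linarith
  obtain ⟨h1, h2⟩ := mm_eq P h.1.1 h6
  refine ⟨h1, fun e => ?_⟩
  rw [e] at h2
  have := P.ε_pos
  have := sq_nonneg ‖pc y.1‖
  simp at h2
  linarith

theorem mem_UU {P : Prof} {y : YY} (c : Bool) (h : y ∈ F0 P)
    (h0 : 0 ≤ (if c then 1 else -1) * y.2) : y ∈ UU c := by
  rcases h0.lt_or_eq with h1 | h1
  · exact Or.inl h1
  · refine Or.inr (mem_OO h ?_)
    cases c <;> simpa using h1.symm

theorem cover (P : Prof) : F0 P ⊆ UU true ∪ UU false := fun y h => by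
  rcases le_total 0 y.2 with h0 | h0
  · exact Or.inl (mem_UU true h (by simpa using h0))
  · exact Or.inr (mem_UU false h (by simpa using h0))

theorem overlap {y : YY} (h1 : y ∈ UU true) (h2 : y ∈ UU false) : y ∈ OO := by
  rcases h1 with h1 | h1
  · rcases h2 with h2 | h2
    · simp only [mem_ofPred_eq, if_true, one_mul, Bool.false_eq_true, if_false] at h1 h2
      linarith
    · exact h2
  · exact h1

/-- the glued holonomy on the double -/
theorem glued {P : Prof} {lt : Tr C2 F2} {l : Fin 2 → Path x0 x0} (h : PgOut P lt l) :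
    ∃ Λ : Tr YY (F 2), Hol (F0 P) Λ ∧
      ∀ c, Agree (F0 P ∩ UU c) (mp (jj c) (pb Prod.fst lt)) Λ := by
  have hol : ∀ c, Hol (F0 P ∩ UU c) (mp (jj c) (pb (Prod.fst : YY → C2) lt)) := fun c =>
    hol_mp (hol_pb h.hol continuousOn_fst fun y hy => hy.1.1) _
  have par : ∀ c, Par (mp (jj c) (pb (Prod.fst : YY → C2) lt)) (F0 P ∩ UU true ∩ UU false)
      fun _ => 1 := fun c => by
    have h1 := par_mp (par_pb (A := F0 P ∩ UU true ∩ UU false) h.par continuousOn_fst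
      fun y hy => ⟨hy.1.1.1, overlap hy.1.2 hy.2⟩) (jj c)
    simpa only [map_one] using h1
  obtain ⟨Λ, h1, h2, h3⟩ := glue2 (open_UU true) (open_UU false) (cover P) (hol true) (hol false)
    (agree_of_par (par true) (par false))
  exact ⟨Λ, h1, fun c => by cases c <;> assumption⟩

theorem sh_F0 {P : Prof} (c : Bool) {x : C2} (h : x ∈ Pm P) : sh P c x ∈ F0 P :=
  ⟨h.1, Hh_sh P c h.2⟩

theorem sh_sign (P : Prof) (c : Bool) (x : C2) : 0 ≤ (if c then 1 else -1) * (sh P c x).2 := by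
  cases c <;> simp [sh]

theorem Hh_FlY (P : Prof) (t : ℝ) {y : YY} (h : y.1 ∈ N3) : Hh P (FlY t y) = Hh P y := by
  simp only [Hh, FlY, mm_Fl P t h]

theorem Fl_Pg {x : C2} (h : x ∈ Pg) : Fl (2 * Real.pi) x ∈ Pg := by
  have e : pl (Fl (2 * Real.pi) x) = pl x := by rw [pl_Fl _ h.1, ex_two_pi, one_mul]
  exact ⟨Fl_mem _ h.1, by rw [e]; exact h.2.1, by rw [e]; exact h.2.2⟩

theorem Fl_F0 {P : Prof} {y : YY} (h : y ∈ F0 P) : FlY (2 * Real.pi) y ∈ F0 P :=
  ⟨Fl_Pg h.1, (Hh_FlY P _ h.1.1).trans h.2⟩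

section val
variable {P : Prof} {lt : Tr C2 F2} {l : Fin 2 → Path x0 x0} {Λ : Tr YY (F 2)}

/-- value of a pull-back of the glued holonomy on a loop that is mapped to a sheet -/
theorem val0 (h : PgOut P lt l) (hΛ : ∀ c, Agree (F0 P ∩ UU c) (mp (jj c) (pb Prod.fst lt)) Λ)
    (r : YY → YY) (γ : Path b0 b0) (c : Bool) (i : Fin 2)
    (e : ∀ t, r (γ t) = sh P c (l i t)) : pb r Λ b0 b0 γ = jj c (FreeGroup.of i) := by
  have hN : In (l i) N3 := fun t => (h.inn i t).1.1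
  let δ := push (sh P c) (cont_sh P c) (l i) hN
  have h1 : pb r Λ b0 b0 γ = Λ _ _ δ := pb_eq γ δ fun t => (e t).symm
  have h2 : In δ (F0 P ∩ UU c) := fun t =>
    ⟨sh_F0 c (h.inn i t), mem_UU c (sh_F0 c (h.inn i t)) (sh_sign P c _)⟩
  rw [h1, hΛ c _ _ δ h2, mp, pb_eq δ (l i) fun t => rfl, h.val]

/-- the same after a full turn of the flow -/
theorem val1 (h : PgOut P lt l) (hΛ : ∀ c, Agree (F0 P ∩ UU c) (mp (jj c) (pb Prod.fst lt)) Λ)
    (r : YY → YY) (γ : Path b0 b0) (c : Bool) (i : Fin 2)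
    (e : ∀ t, r (γ t) = FlY (2 * Real.pi) (sh P c (l i t))) :
    pb r Λ b0 b0 γ = jj c (mon (FreeGroup.of i)) := by
  have hN : In (l i) N3 := fun t => (h.inn i t).1.1
  have hc : ContinuousOn (fun x => FlY (2 * Real.pi) (sh P c x)) N3 :=
    (cont_FlY _).comp (cont_sh P c) fun x hx => hx
  let δ := push _ hc (l i) hN
  have h1 : pb r Λ b0 b0 γ = Λ _ _ δ := pb_eq γ δ fun t => (e t).symm
  have h2 : In δ (F0 P ∩ UU c) := fun t =>
    ⟨Fl_F0 (sh_F0 c (h.inn i t)), mem_UU c (Fl_F0 (sh_F0 c (h.inn i t))) (sh_sign P c _)⟩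
  let ε := δ.map (continuous_fst (X := C2) (Y := ℝ))
  obtain ⟨k, k0, hk⟩ := h.mon
  have h3 := hk _ _ (l i) fun t => (h.inn i t).1
  rw [pb_eq (l i) ε fun t => rfl, k0, mp, h.val, inv_one, one_mul, mul_one] at h3
  rw [h1, hΛ c _ _ δ h2, mp, pb_eq δ ε fun t => rfl, h3]

end val

theorem all8 {Q : Fin 4 × Bool → Prop} (h1 : Q (0, false)) (h2 : Q (0, true)) (h3 : Q (1, false))
    (h4 : Q (1, true)) (h5 : Q (3, true)) (h6 : Q (3, false)) (h7 : Q (2, true))
    (h8 : Q (2, false)) : ∀ a, Q a := by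
  rintro ⟨i, c⟩
  fin_cases i <;> cases c <;> assumption

end w23

open w23 in
theorem w23 : W23Stmt := by
  intro P lt l L h hL
  obtain ⟨Λ, hol, hΛ⟩ := glued h
  have hP : ∀ c i t, (sh P c (l i t)).1 ∈ Pg := fun c i t => (h.inn i t).1
  refine ⟨⟨pb r2 Λ, hol_pb hol (cont_r2.mono fun y hy => ⟨hy.1, hy.2.2⟩) fun y hy =>
    ⟨r2_Pg hy.1 hy.2.2, (Hh_FlY P _ hy.1).trans hy.2.1⟩, FreeGroup.ext_hom _ _ ?_⟩,
    pb r3 Λ, hol_pb hol (cont_r3.mono fun y hy => ⟨hy.1, hy.2.2⟩) fun y hy =>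
    ⟨r3_Pg hy.1 hy.2.2, (Hh_FlY P _ hy.1).trans hy.2.1⟩, FreeGroup.ext_hom _ _ ?_⟩
  · simp only [ev, FreeGroup.lift_apply_of]
    refine all8 ?_ ?_ ?_ ?_ ?_ ?_ ?_ ?_
    · rw [val0 h hΛ r2 _ true 0 fun t => by rw [(hL t).1, r2_self (hP _ _ _)]]
      decide +kernel
    · rw [val0 h hΛ r2 _ true 1 fun t => by rw [(hL t).2.1, r2_self (hP _ _ _)]]
      decide +kernel
    · rw [val0 h hΛ r2 _ false 1 fun t => by rw [(hL t).2.2.1, r2_self (hP _ _ _)]]
      decide +kernel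
    · rw [val0 h hΛ r2 _ false 0 fun t => by rw [(hL t).2.2.2.1, r2_self (hP _ _ _)]]
      decide +kernel
    · rw [val0 h hΛ r2 _ true 0 fun t => by rw [(hL t).2.2.2.2.1, r2_pi (hP _ _ _)]]
      decide +kernel
    · rw [val0 h hΛ r2 _ true 1 fun t => by rw [(hL t).2.2.2.2.2.1, r2_pi (hP _ _ _)]]
      decide +kernel
    · rw [val0 h hΛ r2 _ false 1 fun t => by rw [(hL t).2.2.2.2.2.2.1, r2_pi (hP _ _ _)]]
      decide +kernel
    · rw [val0 h hΛ r2 _ false 0 fun t => by rw [(hL t).2.2.2.2.2.2.2, r2_pi (hP _ _ _)]]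
      decide +kernel
  · simp only [ev, FreeGroup.lift_apply_of]
    refine all8 ?_ ?_ ?_ ?_ ?_ ?_ ?_ ?_
    · rw [val0 h hΛ r3 _ true 0 fun t => by rw [(hL t).1, r3_self (hP _ _ _)]]
      decide +kernel
    · rw [val0 h hΛ r3 _ true 1 fun t => by rw [(hL t).2.1, r3_self (hP _ _ _)]]
      decide +kernel
    · rw [val0 h hΛ r3 _ false 1 fun t => by rw [(hL t).2.2.1, r3_self (hP _ _ _)]]
      decide +kernel
    · rw [val0 h hΛ r3 _ false 0 fun t => by rw [(hL t).2.2.2.1, r3_self (hP _ _ _)]]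
      decide +kernel
    · rw [val1 h hΛ r3 _ true 0 fun t => by rw [(hL t).2.2.2.2.1, r3_pi (hP _ _ _)]]
      decide +kernel
    · rw [val1 h hΛ r3 _ true 1 fun t => by rw [(hL t).2.2.2.2.2.1, r3_pi (hP _ _ _)]]
      decide +kernel
    · rw [val1 h hΛ r3 _ false 1 fun t => by rw [(hL t).2.2.2.2.2.2.1, r3_pi (hP _ _ _)]]
      decide +kernel
    · rw [val1 h hΛ r3 _ false 0 fun t => by rw [(hL t).2.2.2.2.2.2.2, r3_pi (hP _ _ _)]]
      decide +kernel

end Pool.Agent.MP_7ebdba_gt.sm.p
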