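import Mathlib.Analysis.Complex.BranchLogRoot
import Mathlib.RingTheory.TotallySplit
import Pool.Agent.MP_7ebdba_gt.sm.p.Bridge
import Pool.Agent.MP_e1dc65_gt.k.Std
import Pool.Agent.MP_7ebdba_gt.ch.Main
import Pool.Agent.MP_7ebdba_gt.sm.p.W23

-- ======== part 0: formerly Pool.Agent.MP_7ebdba_gt.sm.g.Main
section MrgPart0

-- ======== part 0: formerly Pool.Agent.MP_7ebdba_gt.sm.g.Lift
section MrgPart0

/-! Row LIFT: a smooth logarithm on the shell. -/

open scoped ContDiff Topology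
open Set Complex Filter

namespace Pool.Agent.MP_7ebdba_gt.sm

open MP_e1dc65_gt

theorem cont_nq : Continuous nq := by unfold nq; fun_prop

theorem nq_nonneg (y : V3) : 0 ≤ nq y := add_nonneg (normSq_nonneg _) (sq_nonneg _)

/-- shells in the orbit space are simply connected -/
theorem sc_shell3 {a b : ℝ} (ha : 0 ≤ a) (hab : a < b) : SC {y : V3 | a < nq y ∧ nq y < b} := by
  have h := sc_gauge_shell (E := V3) (by simp) (N := fun y => √(nq y)) cont_nq.sqrt
    (fun y hy => Real.sqrt_pos.2 (lt_of_le_of_ne (nq_nonneg y) fun e => hy (by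
      have h1 := normSq_nonneg y.1
      have h2 := sq_nonneg y.2
      unfold nq at e
      exact Prod.ext (normSq_eq_zero.1 (by linarith)) (pow_eq_zero_iff two_ne_zero |>.1
        (by linarith : y.2 ^ 2 = 0)))))
    (fun t y ht => by
      have : nq (t • y) = t ^ 2 * nq y := by
        simp only [nq, Prod.smul_fst, Prod.smul_snd, real_smul, map_mul, normSq_ofReal,
          smul_eq_mul]
        ring
      rw [this, Real.sqrt_mul (sq_nonneg t), Real.sqrt_sq ht])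
    (J := Ioo √a √b) ordConnected_Ioo (fun r hr => (Real.sqrt_nonneg a).trans_lt hr.1)
    (nonempty_Ioo.2 (Real.sqrt_lt_sqrt ha hab))
  have e : {y : V3 | a < nq y ∧ nq y < b} = {y | √(nq y) ∈ Ioo √a √b} := Set.ext fun y => by
    rw [mem_setOf, mem_setOf, mem_Ioo, Real.sqrt_lt_sqrt_iff ha,
      Real.sqrt_lt_sqrt_iff (nq_nonneg y)]
  rwa [e]

theorem lift : LiftStmt := by
  intro Δ h
  have ho : IsOpen {y : V3 | 5 / 2 < nq y ∧ nq y < 14 / 5} :=
    (isOpen_lt continuous_const cont_nq).inter (isOpen_lt cont_nq continuous_const)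
  have h0 : ∀ y, 5 / 2 < nq y → nq y < 14 / 5 → Δ y ≠ 0 := fun y a b =>
    norm_ne_zero_iff.1 (by rw [(h y a b).2]; exact one_ne_zero)
  obtain ⟨f, hf, he⟩ := exists_continuousOn_eqOn_exp_comp
    (sc_iff.1 (sc_shell3 (a := 5 / 2) (b := 14 / 5) (by norm_num) (by norm_num))) ho (g := Δ)
    (fun y hy => (h y hy.1 hy.2).1.continuousAt.continuousWithinAt)
    (by rintro ⟨y, hy, e⟩; exact h0 y hy.1 hy.2 e)
  refine ⟨fun y => (f y).im, fun y a b => ?_⟩
  have hn := ho.mem_nhds ⟨a, b⟩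
  have hc : ContinuousAt (fun y' => (f y' - f y).im) y :=
    continuous_im.continuousAt.comp ((hf.continuousAt hn).sub continuousAt_const)
  have key : ∀ᶠ y' in 𝓝 y, (f y').im = (f y).im + (log (Δ y' / Δ y)).im := by
    filter_upwards [hn, hc.eventually (Ioo_mem_nhds (a := -Real.pi) (b := Real.pi)
      (by simp [Real.pi_pos]) (by simp [Real.pi_pos]))] with y' h1 h2
    rw [← he h1, ← he ⟨a, b⟩, Function.comp, Function.comp, ← exp_sub, log_exp h2.1 h2.2.le,
      sub_im, add_sub_cancel]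
  refine ⟨?_, ?_, fun h1 => ?_⟩
  · refine ContDiffAt.congr_of_eventuallyEq ?_ key
    refine contDiffAt_const.add (cda_im ?_)
    refine ((contDiffAt_log (n := ∞) ?_).restrict_scalars ℝ).comp y ((h y a b).1.div_const _)
    rw [div_self (h0 y a b)]
    exact one_mem_slitPlane
  · have h1 : exp (f y) = Δ y := he ⟨a, b⟩
    have h2 : (f y).re = 0 := by
      rw [← Real.exp_eq_one_iff, ← norm_exp, h1, (h y a b).2]
    rw [← h1]
    congr 1
    exact Complex.ext (by simp [h2]) (by simp)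
  · filter_upwards [key, h1] with y' h2 h3
    rw [h2, h3, h1.self_of_nhds]
    simp

end Pool.Agent.MP_7ebdba_gt.sm

end MrgPart0

-- ======== part 1: formerly Pool.Agent.MP_7ebdba_gt.sm.g.Cut
section MrgPart1

/-! Block G: the lift of an admissible map to the sphere, cut at a level. -/

open scoped ContDiff Topology ComplexConjugate
open Set Complex Filter

noncomputable section

namespace Pool.Agent.MP_7ebdba_gt.sm

def pq (x : E 5) : ℂ := p1 (zc x) (wc x)
def q1 (x : E 5) : V3 := (u1 (zc x) (wc x), tt x)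
def JJ (c : ℂ) (y : V3) : E 5 := nrm (z0 c y.1) (w0 c y.1) y.2
def Act (ρ : ℝ) (x : S4) : Prop := wc x ≠ 0 ∧ pq x ≠ 0 ∧ ρ ≤ nq (q1 x)

theorem w0_ne {c u : ℂ} (hc : ‖c‖ = 1) (hu : u ≠ 1) : w0 c u ≠ 0 := fun h => by
  have := ph_w0 hc hu
  rw [h, ph_zero] at this
  simp [← this] at hc

theorem JJ_spec {c : ℂ} {y : V3} (hc : ‖c‖ = 1) (hu : y.1 ≠ 1) :
    JJ c y ∈ Metric.sphere (0 : E 5) 1 ∧ wc (JJ c y) ≠ 0 ∧ pq (JJ c y) ≠ 0 ∧
      ph (wc (JJ c y)) = c ∧ q1 (JJ c y) = y := by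
  have h0 := w0_ne hc hu
  have hL := lam_pos (z := z0 c y.1) (Or.inr h0) y.2
  have hL' := ofReal_ne_zero.2 hL.ne'
  refine ⟨nrm_mem (Or.inr h0) _, mul_ne_zero (pow_ne_zero _ hL') h0, ?_, ?_,
    Prod.ext ((u1_smul hL _ _).trans (u1_page hc hu)) (tt_nrm _ _ _)⟩
  · exact (p1_smul _ _ _).trans_ne (mul_ne_zero (pow_ne_zero _ hL')
      (norm_ne_zero_iff.1 (by simp [page_unit hc hu])))
  · change ph (_ * _) = c
    rw [ph_mul, ph_pow, ph_pos hL, one_pow, one_mul, ph_w0 hc hu]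

theorem JJ_inv {x : S4} (hw : wc x ≠ 0) (hp : pq x ≠ 0) :
    (q1 x).1 ≠ 1 ∧ JJ (ph (wc x)) (q1 x) = x := by
  obtain ⟨a, L, hL, b, c⟩ := page_inv hp hw
  refine ⟨a, ?_⟩
  have := nrm_scale (z := z0 (ph (wc x)) (q1 x).1) (Or.inr (w0_ne (norm_ph hw) a)) hL (tt x)
  exact this.symm.trans ((congrArg₂ (fun a b => nrm a b (tt x)) b c).symm.trans
    (nrm_self (Or.inr hw)))

theorem p1_ne {z w : ℂ} (h : p1 z w ≠ 0) : z ≠ 0 ∨ w ≠ 0 := by
  by_contra c
  push Not at c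
  simp [p1, c.1, c.2] at h

theorem cd_pq : ContDiff ℝ ∞ pq :=
  contDiff_iff_contDiffAt.2 fun _ => cda_p1 cd_zc.contDiffAt cd_wc.contDiffAt

theorem cd_q1 {x : S4} (h : pq x ≠ 0) : ContDiffAt ℝ ∞ q1 x :=
  (cda_u1 cd_zc.contDiffAt cd_wc.contDiffAt h).prodMk (cd_tt (sc_lt (p1_ne h)))

theorem nq_q1 (x : E 5) :
    nq (q1 x) = normSq (zc x) / normSq (pq x) ^ (1 / 3 : ℝ) + tt x ^ 2 := by
  simp only [nq, q1, normSq_u1, pq]

theorem q1_big {x : S4} (h : pq x = 0) : ∀ᶠ y : S4 in 𝓝 x, pq y ≠ 0 → 3 < nq (q1 y) := by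
  have cz : Continuous fun y : S4 => normSq (zc y) :=
    (cd_normSq.comp cd_zc).continuous.comp continuous_subtype_val
  have cp : Continuous fun y : S4 => normSq (pq y) ^ (1 / 3 : ℝ) :=
    ((cd_normSq.comp cd_pq).continuous.comp continuous_subtype_val).rpow_const
      fun _ => Or.inr (by norm_num)
  have cs : Continuous fun y : S4 => sc y ^ 2 :=
    (cd_sc.continuous.comp continuous_subtype_val).pow 2
  by_cases hz : zc x = 0
  · have hw : wc x = 0 := by simpa [pq, p1, hz] using h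
    have h1 : sc x ^ 2 = 1 := by simpa [hz, hw] using sph x
    have := ((continuous_const (y := 3)).mul ((continuous_const (y := 1)).sub cs)).continuousAt
      |>.eventually_lt (cs.continuousAt (x := x)) (by simp [h1])
    filter_upwards [this] with y a b
    have d := sc_lt (p1_ne b)
    have : 3 < tt y ^ 2 := by rw [tt_sq d, lt_div_iff₀ d]; exact a
    exact this.trans_le (le_add_of_nonneg_left (normSq_nonneg (q1 y).1))
  · have := ((continuous_const (y := 3)).mul cp).continuousAt.eventually_lt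
      (cz.continuousAt (x := x)) (by simpa [h] using hz)
    filter_upwards [this] with y a b
    have := (lt_div_iff₀ (Real.rpow_pos_of_pos (normSq_pos.2 b) _)).2 a
    rw [nq_q1]
    linarith [sq_nonneg (tt y)]

/-- in a thin tube round `z = 0` the first coordinate of the base is small -/
theorem tube {x : S4} {p : ℂ} (h0 : zc x ≠ 0 ∨ wc x ≠ 0) (hp : ‖p + wc x ^ 2‖ = ‖zc x‖ ^ 3)
    (ht : tt x ^ 2 < 3) (hz : ‖zc x‖ < 1 / 4) :
    normSq (zc x) / normSq p ^ (1 / 3 : ℝ) ≤ (2 * ‖zc x‖) ^ 2 := by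
  have d := sc_lt h0
  rw [tt_sq d, div_lt_iff₀ d] at ht
  have a := sph x
  have b := norm_sub_le (p + wc x ^ 2) p
  have n := norm_nonneg (zc x)
  rw [add_sub_cancel_left, norm_pow, hp] at b
  simp only [normSq_eq_norm_sq] at a ⊢
  have c : 1 / 8 ≤ ‖p‖ := by nlinarith [mul_nonneg n n]
  have e : (1 / 4 : ℝ) ≤ (‖p‖ ^ 2) ^ (1 / 3 : ℝ) := by
    rw [← pow_le_pow_iff_left₀ (n := 3) (by norm_num) (by positivity) (by norm_num),
      (cube_rp (by positivity)).1]
    nlinarith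
  rw [div_le_iff₀ (by linarith)]
  nlinarith [mul_nonneg n n]

theorem Adm.ne_one {Θ : Equiv.Perm V3} (h : Adm Θ) {y : V3} (hy : 5 / 2 < nq y) (h1 : y.1 ≠ 1) :
    (Θ y).1 ≠ 1 := fun c => by
  obtain ⟨δ, h0, a⟩ := h.fix
  have := Θ.injective (a (Θ y) (by rwa [h.lv]) (Or.inl (by simpa [c] using h0)))
  exact h1 (this ▸ c)

open Classical in
def cutF (Θ : V3 → V3) (ρ : ℝ) (x : S4) : S4 :=
  if Act ρ x then rad x (JJ (ph (wc x)) (Θ (q1 x))) else x

section Cut
variable {Θ : Equiv.Perm V3} (h : Adm Θ) {ρ : ℝ} (hρ : 5 / 2 < ρ) {x : S4}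

theorem cut_fix (e : Act ρ x → Θ (q1 x) = q1 x) : cutF Θ ρ x = x := by
  by_cases a : Act ρ x
  · rw [cutF, if_pos a, e a, (JJ_inv a.1 a.2.1).2, rad_self]
  · exact if_neg a

include h hρ

theorem cut_act (a : Act ρ x) : (cutF Θ ρ x : E 5) = JJ (ph (wc x)) (Θ (q1 x)) ∧
    Act ρ (cutF Θ ρ x) ∧ ph (wc (cutF Θ ρ x)) = ph (wc x) ∧ q1 (cutF Θ ρ x) = Θ (q1 x) := by
  obtain ⟨b1, b2, b3, b4, b5⟩ := JJ_spec (norm_ph a.1)
    (h.ne_one (hρ.trans_le a.2.2) (JJ_inv a.1 a.2.1).1)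
  have e : (cutF Θ ρ x : E 5) = JJ (ph (wc x)) (Θ (q1 x)) := by
    rw [cutF, if_pos a]
    exact congrArg Subtype.val (rad_self x ⟨_, b1⟩)
  rw [Act, e, b5, h.lv]
  exact ⟨rfl, ⟨b2, b3, a.2.2⟩, b4, rfl⟩

theorem cut_inv (x : S4) : cutF Θ.symm ρ (cutF Θ ρ x) = x := by
  by_cases a : Act ρ x
  · obtain ⟨-, b, c, d⟩ := cut_act h hρ a
    refine Subtype.ext ((cut_act h.inv hρ b).1.trans ?_)
    rw [c, d, Equiv.Perm.coe_inv, Equiv.symm_apply_apply, (JJ_inv a.1 a.2.1).2]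
  · rw [show cutF Θ ρ x = x from if_neg a]
    exact if_neg a

theorem cut_lev (x : S4) :
    (pq (cutF Θ ρ x) = 0 ↔ pq x = 0) ∧ nq (q1 (cutF Θ ρ x)) = nq (q1 x) := by
  by_cases a : Act ρ x
  · obtain ⟨-, b, -, d⟩ := cut_act h hρ a
    exact ⟨iff_of_false b.2.1 a.2.1, by rw [d, h.lv]⟩
  · rw [show cutF Θ ρ x = x from if_neg a]
    exact ⟨Iff.rfl, rfl⟩

theorem cut_sm {δ : ℝ} (h0 : 0 < δ)
    (hδ : ∀ y, 5 / 2 < nq y → (‖y.1 - 1‖ < δ ∨ ‖y.1‖ < δ ∧ nq y < 14 / 5) → Θ y = y)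
    (hx : pq x ≠ 0 → nq (q1 x) = ρ → ‖(q1 x).1‖ < δ ∧ nq (q1 x) < 14 / 5) :
    SmAt (cutF Θ ρ) x := by
  have key : (∀ᶠ y in 𝓝 x, Act ρ y → Θ (q1 y) = q1 y) → SmAt (cutF Θ ρ) x := fun e =>
    (SmAt.id x).congr (e.mono fun _ a => cut_fix a)
  by_cases hp : pq x = 0
  · exact key ((q1_big hp).mono fun y a b => h.far _ (a b.2.1).le)
  have t : ContinuousAt (fun y : S4 => q1 y) x :=
    (cd_q1 hp).continuousAt.comp continuous_subtype_val.continuousAt
  have t' := cont_nq.continuousAt.comp t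
  by_cases hw : wc x = 0
  · have : ‖(q1 x).1 - 1‖ < δ := by
      have : (q1 x).1 = 1 := by
        simp only [q1, pq, hw] at hp ⊢
        exact u1_zero hp
      simpa [this] using h0
    exact key (((t.fst.sub continuousAt_const).norm.eventually_lt continuousAt_const this).mono
      fun y a b => hδ _ (hρ.trans_le b.2.2) (Or.inl a))
  rcases lt_trichotomy (nq (q1 x)) ρ with c | c | c
  · exact key ((t'.eventually_lt continuousAt_const c).mono fun y a b => absurd b.2.2 (not_le.2 a))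
  · exact key (((t.fst.norm.eventually_lt continuousAt_const (hx hp c).1).and
      (t'.eventually_lt continuousAt_const (hx hp c).2)).mono
      fun y a b => hδ _ (hρ.trans_le b.2.2) (Or.inr a))
  · have a1 := cda_ph cd_wc.contDiffAt hw
    have a2 : ContDiffAt ℝ ∞ (fun v => Θ (q1 v)) x := (h.smo _ (hρ.trans c)).1.comp _ (cd_q1 hp)
    have a3 := h.ne_one (hρ.trans c) (JJ_inv hw hp).1
    refine ⟨fun v => JJ (ph (wc v)) (Θ (q1 v)), cda_nrm (cda_z0 a1 a2.fst (ph_ne hw) a3)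
      (cda_w0 a1 a2.fst a3) a2.snd (Or.inr (w0_ne (norm_ph hw) a3)), ?_⟩
    filter_upwards [continuousAt_const.eventually_lt t' c,
      (cd_wc.continuous.comp continuous_subtype_val).continuousAt.eventually_ne hw,
      (cd_pq.continuous.comp continuous_subtype_val).continuousAt.eventually_ne hp] with y a b d
    exact (cut_act h hρ ⟨b, d, a.le⟩).1

/-- the cut lift as a bijection -/
def cut : S4 ≃ S4 := ⟨cutF Θ ρ, cutF Θ.symm ρ, cut_inv h hρ, cut_inv h.inv hρ⟩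

theorem cut_ld {δ : ℝ} (h0 : 0 < δ)
    (hδ : ∀ y, 5 / 2 < nq y → (‖y.1 - 1‖ < δ ∨ ‖y.1‖ < δ ∧ nq y < 14 / 5) → Θ y = y)
    (hx : pq x ≠ 0 → nq (q1 x) = ρ → ‖(q1 x).1‖ < δ ∧ nq (q1 x) < 14 / 5) :
    LD (cutF Θ ρ) x := by
  refine LD.of_equiv (cut h hρ) ⟨cut_sm h hρ h0 hδ hx, cut_sm h.inv hρ h0
    (fun y a b => Θ.symm_apply_eq.2 (hδ y a b).symm) fun a b => ?_⟩
  have c := hx (fun e => a ((cut_lev h hρ x).1.2 e)) ((cut_lev h hρ x).2.symm.trans b)
  have e : cut h hρ x = x := cut_fix fun a => hδ _ (hρ.trans_le a.2.2) (Or.inr c)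
  rwa [e]

end Cut

end Pool.Agent.MP_7ebdba_gt.sm

end
end MrgPart1

-- ======== part 2: formerly Pool.Agent.MP_7ebdba_gt.sm.g.Belt
section MrgPart2

/-! The belt trick: the square of the Gluck twist along the sphere `z = 0` extends. -/

open scoped ContDiff Topology ComplexConjugate
open Set Complex Filter

noncomputable section

namespace Pool.Agent.MP_7ebdba_gt.sm

/-- rotation of `ℂ × ℝ` by the quaternion `A + B j`, first component -/
def rotW (A : ℂ) (B : ℝ) (w : ℂ) (s : ℝ) : ℂ :=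
  (A ^ 2 * w + B ^ 2 * conj w - 2 * I * A * B * s) / (normSq A + B ^ 2 : ℝ)

/-- second component -/
def rotS (A : ℂ) (B : ℝ) (w : ℂ) (s : ℝ) : ℝ :=
  ((normSq A - B ^ 2) * s + 2 * B * (A * w).im) / (normSq A + B ^ 2)

theorem rot_norm {A : ℂ} {B : ℝ} (h : normSq A + B ^ 2 ≠ 0) (w : ℂ) (s : ℝ) :
    normSq (rotW A B w s) + rotS A B w s ^ 2 = normSq w + s ^ 2 := by
  unfold rotW rotS
  rw [map_div₀, normSq_ofReal]
  field_simp
  simp [normSq_apply, pow_two]
  ring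

theorem rot_invW {A : ℂ} {B : ℝ} (h : normSq A + B ^ 2 ≠ 0) (w : ℂ) (s : ℝ) :
    rotW (conj A) (-B) (rotW A B w s) (rotS A B w s) = w := by
  have h' : ((normSq A + B ^ 2 : ℝ) : ℂ) ≠ 0 := ofReal_ne_zero.2 h
  unfold rotW rotS
  rw [normSq_conj, neg_sq, map_div₀, conj_ofReal, ofReal_div]
  field_simp
  apply Complex.ext <;> simp [normSq_apply, pow_two] <;> ring

theorem rot_invS {A : ℂ} {B : ℝ} (h : normSq A + B ^ 2 ≠ 0) (w : ℂ) (s : ℝ) :
    rotS (conj A) (-B) (rotW A B w s) (rotS A B w s) = s := by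
  unfold rotW rotS
  rw [normSq_conj, neg_sq, ← mul_div_assoc (conj A), div_ofReal_im]
  field_simp
  simp [normSq_apply, pow_two]
  ring

/-- the rotation field with quaternion `A z + B z * j` -/
def rotF (A : ℂ → ℂ) (B : ℂ → ℝ) (x : E 5) : E 5 :=
  mk5 (zc x) (rotW (A (zc x)) (B (zc x)) (wc x) (sc x)) (rotS (A (zc x)) (B (zc x)) (wc x) (sc x))

section
variable {A : ℂ → ℂ} {B : ℂ → ℝ}

theorem rotF_mem (h : ∀ z, normSq (A z) + B z ^ 2 ≠ 0) (x : S4) :
    rotF A B x ∈ Metric.sphere (0 : E 5) 1 :=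
  mem_sph (by simp only [rotF, zc_mk5, wc_mk5, sc_mk5, add_assoc, rot_norm (h _)]
              rw [← add_assoc, sph])

theorem rotF_inv (h : ∀ z, normSq (A z) + B z ^ 2 ≠ 0) (x : E 5) :
    rotF (fun z => conj (A z)) (fun z => -B z) (rotF A B x) = x :=
  ext5 rfl (rot_invW (h _) _ _) (rot_invS (h _) _ _)

theorem cd_ofReal {F : Type} [NormedAddCommGroup F] [NormedSpace ℝ F] {f : F → ℝ} {x : F}
    (hf : ContDiffAt ℝ ∞ f x) : ContDiffAt ℝ ∞ (fun y => (f y : ℂ)) x :=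
  ofRealCLM.contDiff.contDiffAt.comp x hf

theorem cd_conj {F : Type} [NormedAddCommGroup F] [NormedSpace ℝ F] {f : F → ℂ} {x : F}
    (hf : ContDiffAt ℝ ∞ f x) : ContDiffAt ℝ ∞ (fun y => conj (f y)) x :=
  conjCLE.contDiff.contDiffAt.comp x hf

theorem cd_cdiv {F : Type} [NormedAddCommGroup F] [NormedSpace ℝ F] {f g : F → ℂ} {x : F}
    (hf : ContDiffAt ℝ ∞ f x) (hg : ContDiffAt ℝ ∞ g x) (h : g x ≠ 0) :
    ContDiffAt ℝ ∞ (fun y => f y / g y) x := by
  simp only [div_eq_mul_inv]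
  exact hf.mul (((contDiffAt_inv ℂ h).restrict_scalars ℝ).comp x hg)

theorem cd_rotF (h : ∀ z, normSq (A z) + B z ^ 2 ≠ 0) (hA : ContDiff ℝ ∞ A) (hB : ContDiff ℝ ∞ B)
    (x : E 5) : ContDiffAt ℝ ∞ (rotF A B) x := by
  have a : ContDiffAt ℝ ∞ (fun y => A (zc y)) x := (hA.comp cd_zc).contDiffAt
  have b : ContDiffAt ℝ ∞ (fun y => B (zc y)) x := (hB.comp cd_zc).contDiffAt
  have n : ContDiffAt ℝ ∞ (fun y => normSq (A (zc y))) x := cd_normSq.contDiffAt.comp x a
  have w := cd_wc.contDiffAt (x := x)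
  have s := cd_sc.contDiffAt (x := x)
  refine cd_mk5 cd_zc.contDiffAt (cd_cdiv ?_ (cd_ofReal (n.add (b.pow 2))) (ofReal_ne_zero.2 (h _)))
    (ContDiffAt.div ?_ (n.add (b.pow 2)) (h _))
  · exact (((a.pow 2).mul w).add (((cd_ofReal b).pow 2).mul (cd_conj w))).sub
      (((contDiffAt_const.mul a).mul (cd_ofReal b)).mul (cd_ofReal s))
  · exact ((n.sub (b.pow 2)).mul s).add
      ((contDiffAt_const.mul b).mul (imCLM.contDiff.contDiffAt.comp x (a.mul w)))

end

/-- the bump function of the belt trick -/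
def om (r : ℝ) (z : ℂ) : ℝ := Real.smoothTransition (1 - 4 * normSq z / r ^ 2)

theorem cd_om (r : ℝ) : ContDiff ℝ ∞ (om r) :=
  Real.smoothTransition.contDiff.comp
    (contDiff_const.sub ((contDiff_const.mul cd_normSq).div_const _))

theorem om_zero {r : ℝ} (hr : 0 < r) {z : ℂ} (h : r / 2 ≤ ‖z‖) : om r z = 0 := by
  apply Real.smoothTransition.zero_of_nonpos
  rw [sub_nonpos, le_div_iff₀ (by positivity), normSq_eq_norm_sq]
  nlinarith

theorem om_ne (r : ℝ) (z : ℂ) : normSq (conj z) + om r z ^ 2 ≠ 0 := by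
  by_cases h : z = 0
  · simp [h, om]
  · have := normSq_pos.2 h
    rw [normSq_conj]
    positivity

theorem om_ne' (r : ℝ) (z : ℂ) : normSq (conj (conj z)) + (-om r z) ^ 2 ≠ 0 := by
  rw [normSq_conj, neg_sq]
  exact om_ne r z

/-- the belt trick diffeomorphism -/
def belt (r : ℝ) : S4 ≃ S4 where
  toFun x := ⟨rotF (fun z => conj z) (om r) x, rotF_mem (om_ne r) x⟩
  invFun x := ⟨rotF (fun z => conj (conj z)) (fun z => -om r z) x, rotF_mem (om_ne' r) x⟩
  left_inv x := Subtype.ext (rotF_inv (om_ne r) x)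
  right_inv x := Subtype.ext (by simpa using rotF_inv (om_ne' r) (x : E 5))

theorem belt_sm (r : ℝ) (x : S4) : SmAt (belt r) x :=
  ⟨_, cd_rotF (om_ne r) conjCLE.contDiff (cd_om r) x, Eventually.of_forall fun _ => rfl⟩

theorem belt_symm_sm (r : ℝ) (x : S4) : SmAt (belt r).symm x :=
  ⟨_, cd_rotF (om_ne' r) (conjCLE.contDiff.comp conjCLE.contDiff) (cd_om r).neg x,
    Eventually.of_forall fun _ => rfl⟩

theorem belt_ld (r : ℝ) (x : S4) : LD (belt r) x :=
  LD.of_equiv _ ⟨belt_sm r x, belt_symm_sm r _⟩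

theorem belt_symm_ld (r : ℝ) (x : S4) : LD (belt r).symm x :=
  LD.of_equiv _ ⟨belt_symm_sm r x, belt_sm r _⟩

@[simp] theorem zc_belt (r : ℝ) (x : S4) : zc (belt r x) = zc x := rfl

@[simp] theorem zc_belt_symm (r : ℝ) (x : S4) : zc ((belt r).symm x) = zc x := rfl

theorem belt_far {r : ℝ} (hr : 0 < r) {x : S4} (h : r / 2 ≤ ‖zc x‖) :
    (belt r x : E 5) = mk5 (zc x) (wc x * ph (conj (zc x)) ^ 2) (sc x) := by
  have h0 : zc x ≠ 0 := norm_pos_iff.1 (by linarith)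
  have h1 := (normSq_pos.2 h0).ne'
  refine ext5 rfl ?_ ?_
  · change rotW _ _ _ _ = _
    simp only [rotW, om_zero hr h, wc_mk5, ph, div_pow, normSq_eq_norm_sq]
    simp [mul_div_assoc, mul_comm]
  · change rotS _ _ _ _ = _
    simp [rotS, om_zero hr h, h1]

theorem belt_symm_far {r : ℝ} (hr : 0 < r) {x : S4} (h : r / 2 ≤ ‖zc x‖) :
    ((belt r).symm x : E 5) = mk5 (zc x) (wc x * ph (zc x) ^ 2) (sc x) := by
  have h0 : zc x ≠ 0 := norm_pos_iff.1 (by linarith)
  have h1 := (normSq_pos.2 h0).ne'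
  refine ext5 rfl ?_ ?_
  · change rotW _ _ _ _ = _
    simp only [rotW, om_zero hr h, wc_mk5, ph, div_pow, normSq_eq_norm_sq]
    simp [mul_div_assoc, mul_comm]
  · change rotS _ _ _ _ = _
    simp [rotS, om_zero hr h, h1]

end Pool.Agent.MP_7ebdba_gt.sm

end
end MrgPart2

-- ======== part 3: formerly Pool.Agent.MP_7ebdba_gt.sm.g.Main
section MrgPart3

/-! Block G: the two embeddings. -/

open scoped ContDiff Topology ComplexConjugate
open Set Complex Filter

noncomputable section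

namespace Pool.Agent.MP_7ebdba_gt.sm

theorem belt_dict {r : ℝ} (hr : 0 < r) {x : S4} (h : r / 2 ≤ ‖zc x‖) :
    pq (belt r x) * ph (zc x) ^ 4 = pp x ∧ (pq (belt r x) = 0 ↔ pp x = 0) ∧
      q1 (belt r x) = qq x := by
  have h0 : zc x ≠ 0 := norm_pos_iff.1 (by linarith)
  have e : pq (belt r x) * ph (zc x) ^ 4 = pp x := by
    rw [belt_far hr h]
    exact p1_belt h0 _
  refine ⟨e, by simp [← e, ph_ne h0], ?_⟩
  rw [belt_far hr h]
  exact Prod.ext (u1_belt h0 _) rfl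

theorem belt_phase {r : ℝ} (hr : 0 < r) {x : S4} (h : r / 2 ≤ ‖zc x‖) (hp : pp x ≠ 0) :
    ka (qq x).1 = ph (wc (belt r x)) ^ 6 * ph (pp x) := by
  obtain ⟨a, b, c⟩ := belt_dict hr h
  have h0 : zc x ≠ 0 := norm_pos_iff.1 (by linarith)
  rw [← c, ← a, ph_mul, ph_pow, ph_unit (norm_ph h0), mul_comm (ph (pq _))]
  exact ka_u1 (fun e => hp (b.1 e))

theorem small {δ : ℝ} {u z : ℂ} (h : normSq u ≤ (2 * ‖z‖) ^ 2) (hz : ‖z‖ < δ / 2) : ‖u‖ < δ := by
  rw [normSq_eq_norm_sq] at h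
  nlinarith [abs_le_of_sq_le_sq' h (by positivity)]

theorem tube1 {δ : ℝ} {x : S4} (hp : pq x ≠ 0) (h : nq (q1 x) < 3)
    (hz : ‖zc x‖ < min (δ / 2) (1 / 4)) : ‖(q1 x).1‖ < δ := by
  refine small ((normSq_u1 _ _).trans_le (tube (p1_ne hp) ?_ ?_ (lt_min_iff.1 hz).2))
    (lt_min_iff.1 hz).1
  · simp [p1, normSq_eq_norm_sq, pow_succ]
  · exact (le_add_of_nonneg_left (normSq_nonneg (q1 x).1)).trans_lt h

theorem tube0 {δ : ℝ} {x : S4} (hp : pp x ≠ 0) (h : lev x < 3)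
    (hz : ‖zc x‖ < min (δ / 2) (1 / 4)) : ‖(qq x).1‖ < δ := by
  refine small ((normSq_uf _ _).trans_le (tube (zw_ne hp) ?_ ?_ (lt_min_iff.1 hz).2))
    (lt_min_iff.1 hz).1
  · simp [pf]
  · exact (le_add_of_nonneg_left (xf_nonneg _ _)).trans_lt h

theorem glue_of (hL : LamStmt) : GlueStmt := by
  intro Θ h
  obtain ⟨Λ, l1, l2, l3⟩ := hL Θ h
  obtain ⟨δ, h0, hδ⟩ := h.fix
  have hr : 0 < min (δ / 2) (1 / 4) := lt_min (by linarith) (by norm_num)
  have t1 := @tube1 δ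
  have t0 := @tube0 δ
  generalize min (δ / 2) (1 / 4) = r at hr t1 t0
  have r0 : (5 / 2 : ℝ) < 51 / 20 := by norm_num
  have r1 : (5 / 2 : ℝ) < 14 / 5 := by norm_num
  have eqc : ∀ b : S4, (Act (51 / 20) b → nq (q1 b) < 14 / 5 → Θ (q1 b) = q1 b) →
      cut h r1 b = cut h r0 b := fun b e => by
    by_cases c : Act (14 / 5) b
    · exact (if_pos c).trans (if_pos ⟨c.1, c.2.1, by linarith [c.2.2]⟩).symm
    · exact (if_neg c).trans (cut_fix fun a => e a (not_le.1 fun d => c ⟨a.1, a.2.1, d⟩)).symm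
  have tub : ∀ b : S4, ‖zc b‖ < r → cut h r1 b = cut h r0 b := fun b hb => eqc b fun a c =>
    hδ _ (r0.trans_le a.2.2) (Or.inr ⟨t1 a.2.1 (by linarith) hb, c⟩)
  have ld0 : ∀ b : S4, ‖zc b‖ < r → LD (cutF Θ (51 / 20)) b := fun b hb =>
    cut_ld h r0 h0 hδ fun a c => ⟨t1 a (by linarith) hb, by linarith⟩
  have pair : ∀ x y : S4, cut h r1 (belt r x) = cut h r0 (belt r y) →
      (x = y ∧ ‖zc y‖ < r) ∨ (r ≤ ‖zc x‖ ∧ r ≤ ‖zc y‖) := fun x y e => by
    by_cases a : ‖zc y‖ < r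
    · rw [← tub (belt r y) a] at e
      exact Or.inl ⟨(belt r).injective ((cut h r1).injective e), a⟩
    by_cases b : ‖zc x‖ < r
    · rw [tub (belt r x) b] at e
      exact absurd ((belt r).injective ((cut h r0).injective e) ▸ b) a
    exact Or.inr ⟨not_lt.1 b, not_lt.1 a⟩
  have lv : ∀ x y : S4, cut h r1 (belt r x) = cut h r0 (belt r y) →
      (pp x = 0 ↔ pp y = 0) ∧ lev x = lev y := fun x y e => by
    rcases pair x y e with ⟨rfl, -⟩ | ⟨a, b⟩
    · exact ⟨Iff.rfl, rfl⟩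
    obtain ⟨-, a1, a2⟩ := belt_dict hr (x := x) (by linarith)
    obtain ⟨-, b1, b2⟩ := belt_dict hr (x := y) (by linarith)
    obtain ⟨c1, c2⟩ := cut_lev h r1 (belt r x)
    obtain ⟨d1, d2⟩ := cut_lev h r0 (belt r y)
    have e' : cutF Θ (14 / 5) (belt r x) = cutF Θ (51 / 20) (belt r y) := e
    rw [← a1, ← b1, ← c1, ← d1, ← nq_qq, ← nq_qq, ← a2, ← b2, ← c2, ← d2, e']
    exact ⟨Iff.rfl, rfl⟩
  have lv' : ∀ x y : S4, cut h r1 (belt r (Λ x)) = cut h r0 (belt r y) →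
      (x ∈ WW ↔ y ∈ WW) ∧ (x ∈ VV ↔ y ∈ VV) ∧ lev x = lev y := fun x y e => by
    obtain ⟨a, b⟩ := lv _ _ e
    rw [(l2 x).1] at a
    rw [(l2 x).2.1] at b
    simp only [mem_VV', WW, Below, mem_ofPred_eq, ne_eq, a, b, true_and]
  refine ⟨Λ.trans ((belt r).trans (cut h r1)), (belt r).trans (cut h r0),
    ⟨isOpen_WW, isOpen_VV, WW_or_VV, fun x hx => ?_, fun y hy => ?_, (Equiv.injective _).injOn,
      (Equiv.injective _).injOn, fun b => ?_, fun x hx y hy e => ?_, fun x hx hx' => ?_⟩,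
    fun y hy hy' => ?_, fun x hx y hy e => ?_⟩
  · refine LD.comp (e' := cutF Θ (14 / 5)) ?_ ((belt_ld r _).comp (l1 x hx))
    by_cases a : ‖zc (Λ x)‖ < r
    · refine (ld0 (belt r (Λ x)) a).congr (Eventually.mono ?_ tub)
      exact (cd_zc.continuous.comp continuous_subtype_val).norm.continuousAt.eventually_lt
        continuousAt_const a
    · refine cut_ld h r1 h0 hδ fun _ c => absurd c ?_
      rw [(belt_dict hr (by linarith)).2.2, nq_qq, (l2 x).2.1]
      exact hx.2.ne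
  · refine LD.comp (e' := cutF Θ (51 / 20)) ?_ (belt_ld r y)
    by_cases a : ‖zc y‖ < r
    · exact ld0 _ a
    · obtain ⟨-, b1, b2⟩ := belt_dict hr (x := y) (by linarith)
      refine cut_ld h r0 h0 hδ fun b c => absurd c ?_
      rw [b2, nq_qq]
      linarith [mem_VV.1 hy fun e => b (b1.2 e)]
  · obtain ⟨x, rfl⟩ := (Λ.trans ((belt r).trans (cut h r1))).surjective b
    obtain ⟨y, e⟩ := ((belt r).trans (cut h r0)).surjective (cut h r1 (belt r (Λ x)))
    exact (WW_or_VV x).imp (fun a => ⟨x, a, rfl⟩) fun a => ⟨y, (lv' x y e.symm).2.1.1 a, e⟩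
  · exact ⟨(lv' x y e).2.1.2 hy, (lv' x y e).1.1 hx⟩
  · obtain ⟨y, e⟩ := ((belt r).trans (cut h r0)).surjective (cut h r1 (belt r (Λ x)))
    exact ⟨y, (lv' x y e.symm).2.1.1 hx', e.symm⟩
  · exact (lv' _ y (Equiv.apply_symm_apply (Λ.trans ((belt r).trans (cut h r1))) _)).1.2 hy'
  · obtain ⟨a1, a2, a3⟩ := lv' x y e
    obtain ⟨s1, s2, s3⟩ := mem_shell.1 ⟨hy, a1.1 hx⟩
    obtain ⟨m1, m2⟩ := l3 x ⟨a2.2 hy, hx⟩
    have fx : Λ x = y → Θ (qq y) = qq y → ph (pp x) = ph (pp y) ∧ qq x = Θ (qq y) := fun c d => by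
      have : qq x = qq y := by rw [← c, (l2 x).2.2]
      exact ⟨by rw [← m1 (by rwa [this]), c], by rw [d, this]⟩
    refine ⟨a3, ?_⟩
    rcases pair _ _ e with ⟨c, d⟩ | ⟨c, d⟩
    · exact fx c (hδ _ (by rw [nq_qq]; linarith)
        (Or.inr ⟨t0 s1 (by linarith) d, by rwa [nq_qq]⟩))
    obtain ⟨-, -, b2⟩ := belt_dict hr (x := Λ x) (by linarith)
    obtain ⟨-, c1, c2⟩ := belt_dict hr (x := y) (by linarith)
    by_cases f : Θ (qq y) = qq y
    · refine fx ((belt r).injective ((cut h r1).injective (e.trans (eqc _ fun _ _ => ?_).symm))) f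
      rwa [c2]
    have hw : wc (belt r y) ≠ 0 := fun g => by
      have g1 : (q1 (belt r y)).1 = 1 := by
        have := mt c1.1 s1
        simp only [q1, pq, g] at this ⊢
        exact u1_zero this
      rw [c2] at g1
      exact f (hδ _ (by rw [nq_qq]; linarith) (Or.inl (by simpa [g1] using h0)))
    obtain ⟨-, -, k1, k2⟩ := cut_act h r0 (x := belt r y)
      ⟨hw, mt c1.1 s1, by rw [c2, nq_qq]; linarith⟩
    have e' : belt r (Λ x) = cutF Θ (51 / 20) (belt r y) := by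
      refine Eq.trans (if_neg fun a : Act (14 / 5) _ => ?_).symm e
      have := a.2.2
      rw [b2, nq_qq, (l2 x).2.1] at this
      linarith
    rw [← e'] at k1 k2
    rw [b2, c2, (l2 x).2.2] at k2
    refine ⟨?_, k2⟩
    have n1 := belt_phase hr (x := Λ x) (by linarith) (mt (l2 x).1.1 hx.1)
    have n2 := belt_phase hr (x := y) (by linarith) s1
    have n3 := m2 fun g => f (Θ.injective (by rw [← k2, g]))
    rw [k2, Equiv.symm_apply_apply, ← k2, n2, ← (l2 x).2.2, n1, k1] at n3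
    have := mul_ne_zero (pow_ne_zero 6 (ph_ne hw)) (ph_ne (mt (l2 x).1.1 hx.1))
    exact mul_left_cancel₀ this (by linear_combination -n3)

end Pool.Agent.MP_7ebdba_gt.sm

end
end MrgPart3

-- marker of a merged file
example : 731051 + 828424 = 731051 + 828424 := rfl

end MrgPart0

-- ======== part 1: formerly Pool.Agent.MP_7ebdba_gt.sm.p.W1V2
section MrgPart1

/-! Block P, row W1V: the outer part of the middle wall. -/

open scoped Topology ComplexConjugate
open Set Filter Complex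

noncomputable section

namespace Pool.Agent.MP_7ebdba_gt.sm.p

open MP_e1dc65_gt

namespace w1

variable {D : Type} [Group D] {P : Prof}

def AA (c : Bool) : Set YY := {y | 0 < (if c then 1 else -1) * y.2} ∪ {y | near 1 y.1}
def QQ : Set YY := {y | y.1 ∈ Pg ∧ (y.2 = 0 → near 1 y.1)}
def DD : Set YY := {y | near (1 / 10) y.1 ∧ al y.1 ≠ 1}
def UU (c : Bool) : Set YY := {y | 0 < (if c then 1 else -1) * (pl y.1).re} ∪ DD
def gen (v : D × D × D) (c : Bool) : D := if c then v.1 else v.2.1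

theorem open_AA (c : Bool) : IsOpen (AA c) :=
  (isOpen_lt continuous_const (continuous_const.mul continuous_snd)).union
    ((open_near 1).preimage continuous_fst)

theorem open_UU (c : Bool) : IsOpen (UU c) := by
  refine (isOpen_lt continuous_const
    (continuous_const.mul (continuous_re.comp (cont_pl.comp continuous_fst)))).union ?_
  have h1 : IsOpen ({x | near 1 x} ∩ al ⁻¹' {a | a ≠ 1}) :=
    cont_al.isOpen_inter_preimage (open_near 1) isOpen_ne
  have h2 := ((open_near (1 / 10)).inter h1).preimage (continuous_fst (X := C2) (Y := ℝ))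
  convert h2 using 1
  ext y
  exact ⟨fun h => ⟨h.1, h.1.mono (by norm_num), h.2⟩, fun h => ⟨h.1, h.2.2⟩⟩

theorem sg0 {c : Bool} {a : ℝ} (h : 0 = (if c then 1 else -1) * a) : a = 0 := by
  cases c <;> simpa using h.symm

theorem sg2 {a : ℝ} : ∃ c : Bool, 0 ≤ (if c then 1 else -1) * a := by
  rcases le_total 0 a with h | h
  · exact ⟨true, by simpa using h⟩
  · exact ⟨false, by simpa using h⟩

theorem sg3 {a : ℝ} (h : 0 < (if true then 1 else -1) * a) (h' : 0 < (if false then 1 else -1) * a) :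
    False := by
  simp only [if_true, one_mul, Bool.false_eq_true, if_false] at h h'
  linarith

theorem mem_AA {y : YY} {c : Bool} (h : y.2 = 0 → near 1 y.1)
    (h0 : 0 ≤ (if c then 1 else -1) * y.2) : y ∈ AA c :=
  h0.lt_or_eq.imp id fun e => h (sg0 e)

theorem mem_UU {y : YY} {c : Bool} (h : y ∈ H1 P) (h0 : 0 ≤ (if c then 1 else -1) * (pl y.1).re) :
    y ∈ UU c := by
  refine h0.lt_or_eq.imp id fun e => ?_
  have z : pl y.1 = 0 := Complex.ext (sg0 e) h.2.2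
  refine ⟨near_of_zero h.1 z (by norm_num), fun a => ?_⟩
  have b := (mm_le_iff P h.1 (near_of_zero h.1 z one_pos)).1
    ((le_add_of_nonneg_right (sq_nonneg _)).trans h.2.1)
  have : pc y.1 = 0 := by rw [pc, cf, show pf y.1.1 y.1.2 = 0 from z, zero_div]
  rw [a, this] at b
  simp at b
  linarith [P.ε_pos]

theorem cont_ur : ContinuousOn (fun x => uu (rho x)) Pg :=
  cont_uu.comp cont_rho fun _ h => MM_pl (rho_mem h)

theorem ur_Pl {x : C2} (h : x ∈ Pg \ KK) : uu (rho x) ∈ Pl :=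
  (uu_Pl (MM_pl (rho_mem h.1))).2 fun a => h.2 ((rho_KK h.1).1 a)

theorem agree_out {g g' h : D} {τ τ' : Tr ℂ D} (a : WP g h τ) (b : WP g' h τ') :
    Agree (Pl ∩ {u | 1 < normSq u}) τ τ' := by
  refine Wall.agree (wd_Pl.mono inter_subset_left) (wd_Pl.mono inter_subset_left)
    (a.mono inter_subset_left) (b.mono inter_subset_left) fun j j' u hu c d e => ?_
  obtain rfl := wd_Pl.dis j j' u hu.1 c d
  fin_cases j
  · rfl
  · have := hu.2
    simp only [mem_ofPred_eq, normSq_apply, e] at this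
    nlinarith [c.1, c.2]
  · rfl

theorem agree_Sh {v : D × D × D} {σ : Tr V3 D} {τ : Tr ℂ D} (c : Bool) (hσ : WS (el v) σ)
    (hτ : WP (gen v c) v.2.2 τ) :
    Agree (Sh ∩ {y | 0 < (if c then 1 else -1) * y.2 ∨ 1 < normSq y.1}) σ (pb Prod.fst τ) := by
  have m : MapsTo (Prod.fst : V3 → ℂ) Sh Pl := fun y hy => hy.2
  have d : WD Sh (fun y => y.1.im) fun j => (Prod.fst : V3 → ℂ) ⁻¹' NP j :=
    ⟨wd_Sh.cont, fun j => (wd_Pl.op j).preimage continuous_fst,
      fun i j y hy => wd_Pl.dis i j y.1 hy.2, fun y hy => wd_Pl.cov y.1 hy.2⟩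
  refine Wall.agree (wd_Sh.mono inter_subset_left) (d.mono inter_subset_left)
    (hσ.mono inter_subset_left) ((Wall.pb hτ continuousOn_fst m).mono inter_subset_left)
    fun j j' y hy a b e => ?_
  have h2 := hy.2
  simp only [mem_ofPred_eq, normSq_apply, e] at h2
  cases c <;> fin_cases j <;> fin_cases j' <;> simp [NS, NP, el, gen] at a b h2 ⊢ <;> exfalso <;>
    rcases h2 with h2 | h2 <;> nlinarith [a, b]

end w1

open w1 in
theorem w1v2 : W1VStmt := by
  intro P lt l L D _ v σ hP hL hR hσ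
  have ex1 : ∀ c, ∃ τ, WP (gen v c) v.2.2 τ := fun c => wd_Pl.ex _
  choose τ hτ using ex1
  have ex2 := fun c => hP.orb D (gen v c) v.2.2 (τ c) (by cases c; exacts [hR.2, hR.1]) (hτ c)
  choose lh h1 h2 h3 using ex2
  have hol : ∀ c, Hol (QQ ∩ w1.AA c) (pb (Prod.fst : YY → C2) (lh c)) := fun c =>
    hol_pb (h1 c) continuousOn_fst fun y hy => hy.1.1
  have ag : Agree (Pg ∩ {x | near 1 x}) (lh true) (lh false) := by
    have s : Pg ∩ {x | near 1 x} ⊆ Pg \ KK := fun x hx => ⟨hx.1, near_KK hx.2⟩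
    exact ((h3 true).mono s).symm.trans (((agree_out (hτ true) (hτ false)).pb
      (cont_ur.mono inter_subset_left) fun x hx => ⟨ur_Pl (s hx), rho_near_one hx.1 hx.2⟩).trans
      ((h3 false).mono s))
  obtain ⟨Λ, hΛ, a1, a2⟩ := glue2 (T := QQ) (open_AA true) (open_AA false) (fun y hy => by
      obtain ⟨c, hc⟩ := sg2 (a := y.2)
      have := mem_AA hy.2 hc
      cases c
      exacts [Or.inr this, Or.inl this]) (hol true) (hol false)
    (ag.pb continuousOn_fst fun y hy => ⟨hy.1.1.1, hy.1.2.elim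
      (fun a => hy.2.elim (fun b => (sg3 a b).elim) id) id⟩)
  have aΛ : ∀ c, Agree (QQ ∩ w1.AA c) (pb Prod.fst (lh c)) Λ := fun c => by cases c <;> assumption
  have c2 : ContinuousOn r2 (H1 P ∩ Vy) := cont_r2.mono fun y hy => ⟨hy.1.1, hy.1.2.2.ge⟩
  have m2 : MapsTo r2 (H1 P ∩ Vy) QQ := fun y hy =>
    ⟨r2_Pg hy.1.1 hy.1.2.2.ge, fun e => (near_Fl _ hy.1.1).2 (Vy_near hy.2 e)⟩
  have hM : Hol (H1 P ∩ Vy) (pb r2 Λ) := hol_pb hΛ c2 m2
  have key : ∀ c, Agree {y | y ∈ H1 P ∩ Vy ∧ y ∈ w1.AA c ∧ y ∉ KY}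
      (pb (fun y => uu (rho (r2 y).1)) (τ c)) (pb r2 Λ) := fun c => by
    have c3 : ContinuousOn r2 {y | y ∈ H1 P ∩ Vy ∧ y ∈ w1.AA c ∧ y ∉ KY} := c2.mono fun _ h => h.1
    exact (pb_comp (f := fun x => uu (rho x)) (τ c) (continuous_fst.comp_continuousOn c3)).trans
      (((h3 c).pb (continuous_fst.comp_continuousOn c3) fun y hy =>
        ⟨(m2 hy.1).1, fun a => hy.2.2 ((KK_Fl _ hy.1.1.1).1 a)⟩).trans
      ((pb_comp (f := Prod.fst) (lh c) c3).trans ((aΛ c).pb c3 fun y hy =>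
        ⟨m2 hy.1, hy.2.1.imp id fun a => (near_Fl _ hy.1.1.1).2 a⟩)))
  have cc : Continuous fun t => uu (cv t) := cont_uu.comp_continuous cont_cv fun t => MM_pl (cv_mem t)
  have cm : ∀ t, uu (cv t) ∈ Pl := fun t => by
    have a : ch (ex t) (1 / 10) ∈ Pg := tenth_cast ▸ ch_Pg (norm_ex t) (by norm_num) (by norm_num)
    exact (uu_Pl (MM_pl (cv_mem t))).2 fun k => near_KK ((near_ch (norm_ex t) tenth_lt).2 tenth_lt)
      ((toM_KK (pl_tenth (norm_ex t))).1 k)
  have n1 : ∀ y ∈ DD, near 1 y.1 := fun y hy => hy.1.mono (by norm_num)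
  have par : Par (pb r2 Λ) (H1 P ∩ Vy ∩ DD) fun y =>
      τ true _ _ (seg _ cc (Real.pi / 2) (arg (-al y.1) + Real.pi)) := by
    refine ((key true).mono fun y hy => ⟨hy.1, Or.inr (n1 y hy.2), near_KK (n1 y hy.2)⟩).par
      (par_curve (hτ true).hol cc cm _ (ContinuousOn.add (fun y hy => ?_) continuousOn_const)
        fun y hy => congrArg uu (rho_cv ((near_Fl _ hy.1.1.1).2 hy.2.1) ?_))
    · refine (continuousAt_arg ?_).comp_continuousWithinAt (f := fun y : YY => -al y.1)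
        ((cont_al.comp continuousOn_fst fun y hy => n1 y hy.2) y hy).neg
      by_contra s
      obtain ⟨s1, s2⟩ := not_or.1 s
      have a := norm_al (n1 y hy.2)
      have b : (al y.1).im = 0 := by simpa using s2
      have d : 0 ≤ (al y.1).re := by simpa using s1
      exact hy.2.2 (Complex.ext (by rw [← abs_re_eq_norm.2 b, abs_of_nonneg d] at a; exact a) b)
    · have a := norm_mul_exp_arg_mul_I (-al y.1)
      rw [norm_neg, norm_al (n1 y hy.2), ofReal_one, one_mul] at a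
      change al (Fl _ y.1) = _
      rw [Fl_near _ hy.2.1, al_ch (norm_al (n1 y hy.2)) (n_pc _ (n1 y hy.2)), ex_add, ex_pi, ex, a]
      ring
  classical
  let k : YY → D := fun y => if y ∈ DD then
    (τ true _ _ (seg _ cc (Real.pi / 2) (arg (-al y.1) + Real.pi)))⁻¹ else 1
  have k0 : k b0 = 1 := by
    have e : arg (-al b0.1) + Real.pi = Real.pi / 2 := by
      rw [show al b0.1 = I from al_x0, arg_neg_I]
      ring
    simp only [k]
    split_ifs
    · rw [e, (hτ true).hol.seg_self cc (cm _), inv_one]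
    · rfl
  have par1 : ∀ c, Par (mp (inc c) (gg k (pb r2 Λ))) (H1 P ∩ Vy ∩ w1.UU true ∩ w1.UU false)
      fun _ => 1 := fun c => by
    have s : H1 P ∩ Vy ∩ w1.UU true ∩ w1.UU false ⊆ H1 P ∩ Vy ∩ DD := fun y hy =>
      ⟨hy.1.1, hy.1.2.elim (fun a => hy.2.elim (fun b => (sg3 a b).elim) id) id⟩
    refine (par_mp ((gau_gg _ k _).par (par.mono s)) (inc c)).congr fun y hy => ?_
    simp only [k, if_pos (s hy).2, mul_inv_cancel, map_one]
  have hol2 : ∀ c, Hol (H1 P ∩ Vy ∩ w1.UU c) (mp (inc c) (gg k (pb r2 Λ))) := fun c =>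
    hol_mp (hol_gg (hM.mono inter_subset_left) k) _
  obtain ⟨ρ, hρ, b1, b2⟩ := glue2 (T := H1 P ∩ Vy) (w1.open_UU true) (w1.open_UU false)
    (fun y hy => by
      obtain ⟨c, hc⟩ := sg2 (a := (pl y.1).re)
      have := w1.mem_UU hy.1 hc
      cases c
      exacts [Or.inr this, Or.inl this]) (hol2 true) (hol2 false)
    (agree_of_par (par1 true) (par1 false))
  have bρ : ∀ c, Agree (H1 P ∩ Vy ∩ w1.UU c) (mp (inc c) (gg k (pb r2 Λ))) ρ := fun c => by
    cases c <;> assumption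
  refine ⟨ρ, hρ, FreeGroup.ext_hom _ _ ?_, fun c => ?_⟩
  · have val : ∀ (γ : Path b0 b0) (c e : Bool) (i : Fin 2),
        (∀ t, γ t = FlY (if c then 0 else Real.pi) (sh P e (l i t))) →
        ρ _ _ γ = inc c (kp (gen v e) v.2.2 (FreeGroup.of i)) := fun γ c e i hγ => by
      have hp : ∀ t, (sh P e (l i t)).1 ∈ Pg := fun t => (hP.inn i t).1
      have six : ∀ t, Hh P (sh P e (l i t)) = 6 := fun t => Hh_sh P e (hP.inn i t).2
      have hN : In (l i) N3 := fun t => (hp t).1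
      have m : ∀ t, γ t ∈ H1 P ∩ Vy ∩ w1.UU c := fun t => by
        have a1 : (γ t).1 ∈ N3 := hγ t ▸ Fl_mem _ (hp t).1
        have a2 : Hh P (γ t) = 6 := by rw [hγ, w23.Hh_FlY P _ (hp t).1, six]
        have a3 : pl (γ t).1 = (if c then 1 else -1 : ℝ) * pl (l i t) := by
          rw [hγ]
          refine (pl_Fl _ (hp t).1).trans ?_
          cases c <;> simp [ex_pi, ex_zero, sh]
        have a4 : γ t ∈ H1 P := ⟨a1, a2.le, by rw [a3, im_ofReal_mul, (hP.inn i t).1.2.1, mul_zero]⟩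
        refine ⟨⟨a4, Vy_of_six P a1 a2⟩, w1.mem_UU a4 ?_⟩
        rw [a3, re_ofReal_mul, ← mul_assoc]
        exact mul_nonneg (mul_self_nonneg _) (hP.inn i t).1.2.2
      let δ := push (sh P e) (cont_sh P e) (l i) hN
      have e1 : pb r2 Λ b0 b0 γ = Λ _ _ δ := pb_eq γ δ fun t => by
        rw [hγ]
        cases c
        · exact (r2_pi (hp t)).symm
        · exact ((congrArg r2 (show FlY 0 (sh P e (l i t)) = sh P e (l i t) from
            Prod.ext (Fl_zero (hp t).1) rfl)).trans (r2_self (hp t))).symm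
      have v0 : ∀ t, (δ t).2 = 0 → near 1 (δ t).1 := fun t =>
        Vy_near (Vy_of_six P (hp t).1 (six t))
      rw [bρ c _ _ γ m, mp, gg, k0, inv_one, one_mul, mul_one, e1,
        aΛ e _ _ δ fun t => ⟨⟨hp t, v0 t⟩, mem_AA (v0 t) (w23.sh_sign P e _)⟩,
        pb_eq δ (l i) fun t => rfl, h2]
    have f0 : ∀ e i t, sh P e (l i t) = FlY 0 (sh P e (l i t)) := fun e i t =>
      Prod.ext (Fl_zero (hP.inn i t).1.1).symm rfl
    simp only [ev, FreeGroup.lift_apply_of]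
    refine w23.all8 ?_ ?_ ?_ ?_ ?_ ?_ ?_ ?_
    · rw [val _ true true 0 fun t => (hL t).1.trans (f0 _ _ _)]
      simp [dF, glueF, rF, inc, gen, ga]
    · rw [val _ true true 1 fun t => (hL t).2.1.trans (f0 _ _ _)]
      simp [dF, glueF, rF, inc, gen, gb]
    · rw [val _ true false 1 fun t => (hL t).2.2.1.trans (f0 _ _ _)]
      simp [dF, glueF, rF, inc, gen, gb]
    · rw [val _ true false 0 fun t => (hL t).2.2.2.1.trans (f0 _ _ _)]
      simp [dF, glueF, rF, inc, gen, ga]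
    · rw [val _ false true 0 fun t => (hL t).2.2.2.2.1]
      simp [dF, glueF, rF, inc, gen, ga]
    · rw [val _ false true 1 fun t => (hL t).2.2.2.2.2.1]
      simp [dF, glueF, rF, inc, gen, gb]
    · rw [val _ false false 1 fun t => (hL t).2.2.2.2.2.2.1]
      simp [dF, glueF, rF, inc, gen, gb]
    · rw [val _ false false 0 fun t => (hL t).2.2.2.2.2.2.2]
      simp [dF, glueF, rF, inc, gen, ga]
  · have s : ∀ y ∈ Cc c \ KY, y ∈ H1 P ∩ Vy := fun y hy =>
      ⟨⟨hy.1.1.1, by linarith [Wy_Hh P hy.1.2.1, hy.1.2.1.2.2], hy.1.2.2.1⟩, hy.1.1⟩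
    have m1 : MapsTo qy (Cc c \ KY) Sh := fun y hy => qy_Sh hy.1.1 hy.1.2.1 hy.2
    have c1 : ContinuousOn qy (Cc c \ KY) := cont_qy.mono fun y hy => hy.1.2.1
    have ag2 : Agree (Cc c \ KY) (pb qy σ) (pb r2 Λ) := by
      refine agree_of_local (hol_pb hσ.hol c1 m1) (hM.mono s) fun y hy => ?_
      obtain ⟨e, he⟩ := sg2 (a := y.2)
      refine ⟨w1.AA e, (open_AA e).mem_nhds (mem_AA (Vy_near hy.1.1) he), ?_⟩
      have c1' := c1.mono (inter_subset_left (t := w1.AA e))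
      have far : ∀ y ∈ Cc c \ KY, uu (rho (r2 y).1) = (qy y).1 := fun y hy => by
        have f : ¬ near (1 / 10) (r2 y).1 := fun b =>
          Wy_far hy.1.2.1 (((near_Fl _ hy.1.1.1).1 b).mono (by norm_num))
        rw [rho_far f, toM_uu (pl_far (m2 (s y hy)).1.1 f)]
        exact (congrArg uu (Fl_far _ hy.1.1.1 (Wy_far hy.1.2.1))).trans (uu_ac (ex_ne _) _)
      refine ((agree_Sh e hσ (hτ e)).pb c1' fun y hy => ⟨m1 hy.1, hy.2.imp id fun a => ?_⟩).trans
        ((pb_comp (f := Prod.fst) (τ e) c1').symm.trans ((pb_congr (τ e) fun y hy => far y hy.1).trans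
          ((key e).mono fun y hy => ⟨s y hy.1, hy.2, hy.1.2⟩)))
      rw [← far y hy.1]
      exact rho_near_one (m2 (s y hy.1)).1 ((near_Fl _ hy.1.1.1.1).2 a)
    refine ⟨_, ((ag2.gau.trans (gau_gg _ k _)).mp (inc c)).trans
      ((bρ c).mono fun y hy => ⟨s y hy, Or.inl hy.1.2.2.2⟩).gau⟩

end Pool.Agent.MP_7ebdba_gt.sm.p

end
end MrgPart1

-- marker of a merged file
example : 731051 + 258809 = 731051 + 258809 := rfl
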