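import Pool.Agent.MP_7ebdba_gt.sm.p.Fin

/-! Block P, row PG: the holonomy of the closed page. -/

open scoped Topology ComplexConjugate
open Set Filter Complex

noncomputable section

namespace Pool.Agent.MP_7ebdba_gt.sm.p

open MP_e1dc65_gt

namespace pg2

def HH (P : Prof) (q : ℝ × ℝ) : C2 :=
  ch (ex q.2) ((1 - q.1) * √(max 0 (P.ε * Real.cos q.2)) + q.1 / 10 : ℝ)

theorem low_le (P : Prof) (t : ℝ) : √(max 0 (P.ε * Real.cos t)) ≤ 1 / 10 := by
  refine Real.sqrt_le_iff.2 ⟨by norm_num, max_le (by norm_num) ?_⟩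
  nlinarith [Real.cos_le_one t, P.ε_pos, P.ε_lt]

theorem rad_mem (P : Prof) {q : ℝ × ℝ} (h : q.1 ∈ Icc (0 : ℝ) 1) :
    √(max 0 (P.ε * Real.cos q.2)) ≤ (1 - q.1) * √(max 0 (P.ε * Real.cos q.2)) + q.1 / 10 ∧
      (1 - q.1) * √(max 0 (P.ε * Real.cos q.2)) + q.1 / 10 ≤ 1 / 10 := by
  have := low_le P q.2
  constructor <;> nlinarith [h.1, h.2]

theorem HH_spec (P : Prof) {q : ℝ × ℝ} (h : q.1 ∈ Icc (0 : ℝ) 1) :
    HH P q ∈ Pm P ∧ rho (HH P q) = cv q.2 := by
  obtain ⟨a, b⟩ := rad_mem P h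
  have a0 := (Real.sqrt_nonneg _).trans a
  rw [HH]
  generalize (1 - q.1) * √(max 0 (P.ε * Real.cos q.2)) + q.1 / 10 = r at a b a0
  have n : ‖(r : ℂ)‖ = r := by rw [norm_real, Real.norm_of_nonneg a0]
  have n1 : ‖(r : ℂ)‖ < 1 := by linarith
  have m := ch_Pg (norm_ex q.2) a0 (by linarith)
  have n2 := (near_ch (norm_ex q.2) n1).2 n1
  refine ⟨⟨m, (mm_le_iff P m.1 n2).2 ?_⟩, ?_⟩
  · rw [al_ch (norm_ex _) n1, pc_ch (norm_ex _) n1, n, ex_re]
    exact (le_max_right 0 _).trans ((Real.sqrt_le_left a0).1 a)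
  · rw [rho_near m n2, al_ch (norm_ex _) n1, pc_ch (norm_ex _) n1, n, max_eq_right b, tenth_cast, cv]

theorem cont_HH (P : Prof) : ContinuousOn (HH P) (Icc 0 1 ×ˢ univ) := by
  have c := cont_ex
  refine cont_ch.comp (f := fun q : ℝ × ℝ => (ex q.2,
    (((1 - q.1) * √(max 0 (P.ε * Real.cos q.2)) + q.1 / 10 : ℝ) : ℂ))) (by fun_prop)
    fun q h => ⟨norm_ex _, ?_⟩
  obtain ⟨a, b⟩ := rad_mem P h.1
  change ‖((_ : ℝ) : ℂ)‖ < 1
  rw [norm_real, Real.norm_of_nonneg ((Real.sqrt_nonneg _).trans a)]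
  linarith

theorem nn_cv (t : ℝ) : nn (cv t) = ch (ex t) (1 / 10) :=
  nn_toM (ch_mem (norm_ex t) tenth_lt) (pl_tenth (norm_ex t))

theorem HH0 (P : Prof) (t : ℝ) : HH P (0, t) = low P t := by simp [HH, low]
theorem HH1 (P : Prof) (t : ℝ) : HH P (1, t) = nn (cv t) := by simp [HH, nn_cv]

def ra (P : Prof) : Path x0 (nn (cv (Real.pi / 2))) where
  toFun s := HH P (s, Real.pi / 2)
  continuous_toFun := (cont_HH P).comp_continuous (by fun_prop) fun s => ⟨s.2, trivial⟩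
  source' := (HH0 P _).trans (low_half_pi P)
  target' := HH1 P _

theorem far_nn {x : C2} (h : x ∈ MM ∩ {x | ¬ near (1 / 10) x}) (P : Prof) :
    nn x ∈ Pm P ∧ rho (nn x) = x := by
  obtain ⟨r, hr, e⟩ := nn_ex (ne_of_pl (MM_pl h.1))
  have f : ¬ near (1 / 10) (nn x) := fun a => h.2 ((near_ac (ofReal_ne_zero.2 hr.ne')).1 (e ▸ a))
  refine ⟨⟨(nn_Pg h.1).1, (mm_lt P (nn_Pg h.1).1.1 fun a => ?_).le⟩, by rw [rho_far f, toM_nn h.1]⟩
  have : 1 / 10 ≤ ‖pc (nn x)‖ := not_lt.1 fun b => f (near_iff.2 ⟨(near_iff.1 a).1, b⟩)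
  nlinarith

theorem rho_far' {x : C2} (h : x ∈ Pg) : rho x ∈ MM ∩ {x | ¬ near (1 / 10) x} := by
  refine ⟨rho_mem h, fun a => ?_⟩
  by_cases b : near (1 / 10) x
  · have c := norm_al (b.mono (by norm_num))
    rw [rho_tenth b, toM_near (pl_tenth c), near_ch c tenth_lt, norm_tenth] at a
    exact lt_irrefl _ a
  · rw [rho_far b, toM_near (pl_far h.1 b)] at a
    exact b a

theorem rho_ac {l : ℂ} (hl : ‖l‖ = 1) (h6 : l ^ 6 = 1) (x : C2) : rho (ac l x) = ac l (rho x) := by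
  by_cases b : near (1 / 10) x
  · rw [rho_tenth b, rho_tenth ((near_ac (unit_ne hl)).2 b), al_ac hl, ← toM_ac hl,
      ← ch_ac hl (norm_al (b.mono (by norm_num))), h6, one_mul]
  · rw [rho_far b, rho_far fun a => b ((near_ac (unit_ne hl)).1 a), toM_ac hl]

theorem cont_nnM : ContinuousOn nn MM := cont_nn.mono fun _ h => ne_of_pl (MM_pl h)

def GG (q : ℝ × C2) : C2 := Fl (2 * Real.pi * (1 - q.1)) (ac (ex (q.1 * (Real.pi / 3))) q.2)

theorem GG_mem {q : ℝ × C2} (h : q.2 ∈ Pg) : GG q ∈ Pg := by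
  have a := (N3_ac (norm_ex (q.1 * (Real.pi / 3)))).2 h.1
  have e : pl (GG q) = pl q.2 := by
    rw [GG, pl_Fl _ a, pl_ac, ex_pow, ← mul_assoc, ← ex_add, show 2 * Real.pi * (1 - q.1) +
      (6 : ℕ) * (q.1 * (Real.pi / 3)) = 2 * Real.pi by push_cast; ring, ex_two_pi, one_mul]
  exact ⟨Fl_mem _ a, e ▸ h.2.1, e ▸ h.2.2⟩

theorem cont_GG : ContinuousOn GG (Icc 0 1 ×ˢ Pg) := by
  have c := cont_ex
  have d : Continuous fun q : ℝ × C2 => ac (ex (q.1 * (Real.pi / 3))) q.2 :=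
    cont_ac.comp (f := fun q : ℝ × C2 => (ex (q.1 * (Real.pi / 3)), q.2)) (by fun_prop)
  exact cont_Fl.comp (f := fun q : ℝ × C2 => (2 * Real.pi * (1 - q.1),
    ac (ex (q.1 * (Real.pi / 3))) q.2)) (by fun_prop) fun q h => ⟨trivial, (N3_ac (norm_ex _)).2 h.2.1⟩

end pg2

open pg2 in
theorem pg2 (hA : PageAStmt) (hB : PageBStmt) (hC : CmpStmt) : PgStmt := by
  intro P
  obtain ⟨lm, hm⟩ := hA.1.ex eM
  obtain ⟨uni, lo, v1, v2, k2, k20, g2⟩ := hB cont_cv lm hm
  choose γ γm γv using lo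
  have γM : ∀ i, In (γ i) MM := fun i t => (γm i t).1
  let l : Fin 2 → Path x0 x0 := fun i =>
    ((ra P).trans (push nn cont_nnM (γ i) (γM i))).trans (ra P).symm
  have ram : In (ra P) (Pm P) := fun s => (HH_spec P (q := (s, Real.pi / 2)) s.2).1
  have pum : ∀ i, In (push nn cont_nnM (γ i) (γM i)) (Pm P) := fun i t => (far_nn (γm i t) P).1
  have lv : ∀ (Γ : Type) [Group Γ] (τ : Tr C2 Γ), Hol (Pm P) τ → ∀ i, τ _ _ (l i) =
      τ _ _ (ra P) * τ _ _ (push nn cont_nnM (γ i) (γM i)) * (τ _ _ (ra P))⁻¹ := fun Γ _ τ h i => by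
    rw [h.mul _ _ _ _ _ (ram.trans (pum i)) ram.symm, h.mul _ _ _ _ _ ram (pum i), h.symm ram]
  have lr : ∀ (Γ : Type) [Group Γ] (τ : Tr C2 Γ), Hol MM τ → ∀ i,
      pb rho τ _ _ (l i) = τ _ _ (γ i) := fun Γ _ τ h i => by
    rw [lv Γ _ ((hol_pb h cont_rho rho_mem).mono fun _ a => a.1),
      pb_eq (f := rho) (ra P) (Path.refl (cv (Real.pi / 2))) fun s =>
        (HH_spec P (q := (s, Real.pi / 2)) s.2).2.symm,
      h.refl (cv_mem _), pb_eq _ (γ i) fun t => (far_nn (γm i t) P).2.symm, inv_one, one_mul,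
      mul_one]
  have h0 := hol_pb hm.hol cont_rho rho_mem
  classical
  let k0 : C2 → F2 := fun x => if near (1 / 10) x ∧ al x ≠ -1 then
    (lm _ _ (seg cv cont_cv (Real.pi / 2) (arg (al x))))⁻¹ else 1
  have k00 : k0 x0 = 1 := by
    simp only [k0]
    split_ifs
    · rw [al_x0, arg_I, hm.hol.seg_self cont_cv (cv_mem _), inv_one]
    · rfl
  refine ⟨gg k0 (pb rho lm), l, hol_gg h0 _, ?_, ?_, fun i => (ram.trans (pum i)).trans ram.symm,
    fun i => by rw [gg, k00, lr _ _ hm.hol, γv, inv_one, one_mul, mul_one],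
    fun hc Γ _ τ h => ?_, fun D _ g h σ a b => ?_⟩
  · have n1 : ∀ x : C2, near (1 / 10) x → near 1 x := fun x a => a.mono (by norm_num)
    refine ((gau_gg _ k0 _).par (par_curve hm.hol cont_cv cv_mem (Real.pi / 2)
      (b := fun x => arg (al x)) (fun x hx => ?_) fun x hx => rho_cv hx.2.1 ?_)).congr
      fun x hx => ?_
    · refine (continuousAt_arg ?_).comp_continuousWithinAt
        ((cont_al.mono fun y hy => n1 y hy.2.1) x hx)
      by_contra s
      obtain ⟨s1, s2⟩ := not_or.1 s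
      have a := norm_al (n1 x hx.2.1)
      have b : (al x).im = 0 := by simpa using s2
      rw [← abs_re_eq_norm.2 b, abs_of_nonpos (not_lt.1 s1)] at a
      exact hx.2.2 (Complex.ext (by simpa [neg_eq_iff_eq_neg] using a) (by simpa using b))
    · have a := norm_mul_exp_arg_mul_I (al x)
      rw [norm_al (n1 x hx.2.1), ofReal_one, one_mul] at a
      exact a.symm
    · simp only [k0, if_pos hx.2, mul_inv_cancel]
  · obtain ⟨k1, g1, k1v⟩ := gau_homotopy h0 cont_GG fun q h => GG_mem h.2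
    have n6 : ex (Real.pi / 3) ^ 6 = 1 := by
      rw [ex_pow, ← ex_two_pi]
      congr 1
      push_cast
      ring
    have mF : MapsTo (Fl (2 * Real.pi)) Pg Pg := fun x hx => by
      simpa [GG, ex_zero, ac_one] using GG_mem (q := (0, x)) hx
    have cF : ContinuousOn (Fl (2 * Real.pi)) Pg :=
      cont_Fl.comp (f := fun x => (2 * Real.pi, x)) (by fun_prop) fun x h => ⟨trivial, h.1⟩
    have ca : Continuous (ac (ex (Real.pi / 3))) :=
      cont_ac.comp (f := fun x => (ex (Real.pi / 3), x)) (by fun_prop)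
    have e1 : k1 x0 = ga := by
      let δ : Path (GG (0, x0)) (GG (1, x0)) :=
        ⟨⟨fun t => GG (t, x0), cont_GG.comp_continuous (by fun_prop) fun t => ⟨t.2, x0_Pg⟩⟩, rfl, rfl⟩
      rw [k1v x0 x0_Pg _ _ δ fun _ => rfl, ← v1]
      refine pb_eq δ _ fun t => ?_
      have a := (N3_ac (norm_ex (t * (Real.pi / 3)))).2 x0_Pg.1
      have b : pl (ac (ex (t * (Real.pi / 3))) x0) = 0 := by rw [pl_ac, pl_x0, mul_zero]
      refine ((congrArg rho (Fl_fix _ a b)).trans (rho_cv (near_of_zero a b (by norm_num)) ?_)).symm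
      rw [al_ac (norm_ex _), al_x0, ← ex_half_pi, ← ex_add]
      congr 1
      ring
    have s1 : Gau Pg (mp mon (pb rho lm)) (mp mhat (pb rho lm)) fun _ => ga := by
      have : mp mon (pb rho lm) = mp (MulAut.conj ga).toMonoidHom (mp mhat (pb rho lm)) := by
        have e : mon = (MulAut.conj ga).toMonoidHom.comp mhat :=
          FreeGroup.ext_hom _ _ (by decide +kernel)
        rw [e]
        rfl
      rw [this]
      simpa using (gau_conj Pg (mp mhat (pb rho lm)) ga).symm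
    have s2 := g2.pb cont_rho rho_mem
    rw [pb_mp] at s2
    have s3 : Agree Pg (pb rho (pb (ac (ex (Real.pi / 3))) lm))
        (pb (fun y => GG (1, y)) (pb rho lm)) :=
      (pb_comp lm cont_rho).symm.trans ((pb_congr lm fun x hx => by
        simp only [GG, sub_self, mul_zero, one_mul]
        rw [Fl_zero ((N3_ac (norm_ex _)).2 hx.1), rho_ac (norm_ex _) n6]).trans
        (pb_comp lm (cont_GG.comp (f := fun y => (1, y)) (by fun_prop)
          fun y hy => ⟨by simp, hy⟩)))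
    have s4 : Agree Pg (pb (fun y => GG (0, y)) (pb rho lm)) (pb (Fl (2 * Real.pi)) (pb rho lm)) :=
      pb_congr _ fun x _ => by simp [GG, ex_zero, ac_one]
    refine ⟨_, ?_, ((gau_gg Pg k0 _).mp mon).symm.trans (s1.trans (s2.trans (s3.gau.trans
      (g1.symm.trans (s4.gau.trans ((gau_gg Pg k0 _).pb cF mF))))))⟩
    simp only [Fl_fix _ x0_Pg.1 pl_x0, k00, e1, rho_x0, k20]
    simp
  · have cf : ContinuousOn (fun x => nn (rho (nn x))) MM :=
      cont_nnM.comp (cont_rho.comp cont_nnM fun _ a => (nn_Pg a).1) fun _ a => rho_mem (nn_Pg a).1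
    obtain ⟨ψ, k, k1, g1⟩ := uni Γ _ (hol_pb h cf fun x a => (far_nn (rho_far' (nn_Pg a).1) P).1)
    have e1 : ∀ i, τ _ _ (push nn cont_nnM (γ i) (γM i)) = ψ (FreeGroup.of i) := fun i => by
      have := g1 _ _ (γ i) (γM i)
      rwa [k1, mp, γv, inv_one, one_mul, mul_one, pb_eq (γ i) (push nn cont_nnM (γ i) (γM i))
        fun t => by rw [(far_nn (γm i t) P).2]; rfl] at this
    obtain ⟨kk, g3, kv⟩ := gau_homotopy h (cont_HH P) fun q a => (HH_spec P a.1).1
    have cn : Continuous fun t => nn (cv t) := cont_nnM.comp_continuous cont_cv cv_mem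
    have e2 := g3 _ _ (lin (Real.pi / 2) (Real.pi / 2 + 2 * Real.pi)) (in_univ _)
    have e3 := g1 _ _ (seg cv cont_cv (Real.pi / 2) (Real.pi / 2 + 2 * Real.pi)) fun t => cv_mem _
    rw [pb_eq _ (seg _ cn (Real.pi / 2) (Real.pi / 2 + 2 * Real.pi)) fun t => by
      rw [seg_apply, seg_apply, (far_nn ⟨cv_mem _, cv_far _⟩ P).2], mp, v2,
      congrArg k (cv_per _), k1] at e3
    rw [pb_eq (f := fun y => pg2.HH P (1, y)) (lin _ _)
        (seg _ cn (Real.pi / 2) (Real.pi / 2 + 2 * Real.pi)) fun t => (HH1 P _).symm,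
      pb_eq (f := fun y => pg2.HH P (0, y)) (lin _ _)
        (seg (low P) hc (Real.pi / 2) (Real.pi / 2 + 2 * Real.pi)) fun t => (HH0 P _).symm,
      kv _ trivial _ _ (ra P) fun _ => rfl, kv (Real.pi / 2 + 2 * Real.pi) trivial _ _ (ra P)
        fun _ => by
          simp only [pg2.HH, ex_add, ex_two_pi, mul_one, Real.cos_add_two_pi]; rfl, e3] at e2
    rw [lv Γ τ h, lv Γ τ h, e1, e1]
    simp only [map_mul, map_inv, ga, gb, inv_one, one_mul, mul_one] at e2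
    calc _ = τ _ _ (ra P) * (ψ (FreeGroup.of 0) * ψ (FreeGroup.of 1) * (ψ (FreeGroup.of 0))⁻¹ *
        (ψ (FreeGroup.of 1))⁻¹) * (τ _ _ (ra P))⁻¹ := by group
      _ = _ := by rw [e2]; group
  · obtain ⟨k, k1, g1⟩ := hC D g h lm σ a hm b
    have hh := hol_gg (hol_mp hm.hol (kp g h)) k
    refine ⟨_, hol_pb hh cont_rho rho_mem, fun i => by
      rw [lr _ _ hh, gg, k1, mp, γv, inv_one, one_mul, mul_one], ?_⟩
    exact (pb_comp σ (cont_rho.mono sdiff_subset)).trans (g1.agree.symm.pb (cont_rho.mono sdiff_subset)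
      fun x hx => ⟨rho_mem hx.1, fun c => hx.2 ((rho_KK hx.1).1 c)⟩)

end Pool.Agent.MP_7ebdba_gt.sm.p
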